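import Pool.Agent.Lib.MP_651af7_nt.Av.ESn

/-! Quotients of polynomials in one variable: Gauss and Mahler. -/

namespace Pool.Agent.Lib.MP_651af7_nt.Jn

open Finset NumberField
open Pool.Agent.Lib.MP_651af7_nt.Av

variable {k : Type} [Field k] [NumberField k]

/-- A multiplicative measure that is comparable with the size of the coefficients. -/
theorem gl_measure {v : AbsoluteValue k ℝ} (hv : Adm v) : ∃ Mh : Polynomial k → ℝ,
    (∀ p, 0 ≤ Mh p) ∧ Mh 1 = 1 ∧ (∀ p q, Mh (p * q) = Mh p * Mh q) ∧
    (∀ (p : Polynomial k) (d i : ℕ), p.natDegree ≤ d →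
      v (p.coeff i) ≤ E (IsNonarchimedean v) 2 ^ d * Mh p) ∧
    ∀ (p : Polynomial k) (d : ℕ) (M : ℝ), p.natDegree ≤ d → 0 ≤ M → (∀ i, v (p.coeff i) ≤ M) →
      Mh p ≤ E (IsNonarchimedean v) 2 ^ d * M := by
  by_cases hna : IsNonarchimedean v
  · refine ⟨fun p => p.gaussNorm v 1, fun p => p.gaussNorm_nonneg v zero_le_one, ?_,
      fun p q => Polynomial.gaussNorm_mul hna one_pos p q, fun p d i _ => ?_,
      fun p d M _ _ h => ?_⟩
    · simpa using Polynomial.gaussNorm_C v 1 (1 : k)
    · simpa [E_pos_case hna] using p.le_gaussNorm v zero_le_one i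
    · obtain ⟨i, hi⟩ := p.exists_eq_gaussNorm v 1
      simpa [E_pos_case hna, hi] using h i
  · have hi : IsInfinitePlace v := mem_multisetInfinitePlace.mp
      (hv.resolve_right fun h => hna (Height.AdmissibleAbsValues.isNonarchimedean _ h))
    obtain ⟨σ, rfl⟩ := hi
    have hσ : ∀ x, place σ x = ‖σ x‖ := fun x => place_apply σ x
    refine ⟨fun p => (p.map σ).mahlerMeasure, fun p => Polynomial.mahlerMeasure_nonneg _, by simp,
      fun p q => by simp only [Polynomial.map_mul, Polynomial.mahlerMeasure_mul],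
      fun p d i hd => ?_, fun p d M hd hM h => ?_⟩
    · rw [E_neg_case hna, hσ, ← Polynomial.coeff_map]
      refine ((p.map σ).norm_coeff_le_choose_mul_mahlerMeasure i).trans
        (mul_le_mul_of_nonneg_right ?_ (Polynomial.mahlerMeasure_nonneg _))
      have h1 : (p.map σ).natDegree.choose i ≤ 2 ^ d := (Nat.choose_le_two_pow _ _).trans
        (Nat.pow_le_pow_right (by norm_num) (Polynomial.natDegree_map_le.trans hd))
      exact_mod_cast h1
    · rw [E_neg_case hna]
      refine (p.map σ).mahlerMeasure_le_sum_norm_coeff.trans ?_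
      have h1 : (p.map σ).support.card ≤ 2 ^ d := (Polynomial.card_supp_le_succ_natDegree _).trans
        ((Nat.succ_le_succ (Polynomial.natDegree_map_le.trans hd)).trans Nat.lt_two_pow_self)
      refine (sum_le_card_nsmul _ _ M fun i _ => ?_).trans ?_
      · rw [Polynomial.coeff_map]
        exact (hσ _).symm.trans_le (h i)
      · rw [nsmul_eq_mul]
        exact mul_le_mul_of_nonneg_right (by exact_mod_cast h1) hM

/-- Division by a power. -/
theorem gl_div {v : AbsoluteValue k ℝ} (hv : Adm v) {Q y G : Polynomial k} {n a e b : ℕ}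
    (h : Q * y ^ n = G) (ha : Q.natDegree ≤ a) (he : y.natDegree ≤ e) (hb : G.natDegree ≤ b)
    {M : ℝ} (hM : 0 ≤ M) (hG : ∀ i, v (G.coeff i) ≤ M) (i j : ℕ) :
    v (Q.coeff i) * v (y.coeff j) ^ n ≤ E (IsNonarchimedean v) 2 ^ (a + e * n + b) * M := by
  obtain ⟨Mh, h0, h1, h2, h3, h4⟩ := gl_measure hv
  have hp : ∀ m, Mh (y ^ m) = Mh y ^ m := fun m => by
    induction m with
    | zero => simpa using h1
    | succ m ih => rw [pow_succ, h2, ih, pow_succ]
  have e0 : 0 ≤ E (IsNonarchimedean v) 2 := E_nonneg zero_le_two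
  have h5 := h4 G b M hb hM hG
  rw [← h, h2, hp] at h5
  calc v (Q.coeff i) * v (y.coeff j) ^ n
      ≤ (E (IsNonarchimedean v) 2 ^ a * Mh Q) * (E (IsNonarchimedean v) 2 ^ e * Mh y) ^ n :=
        mul_le_mul (h3 Q a i ha) (pow_le_pow_left₀ (v.nonneg _) (h3 y e j he) n)
          (pow_nonneg (v.nonneg _) n) (mul_nonneg (pow_nonneg e0 _) (h0 _))
    _ = E (IsNonarchimedean v) 2 ^ (a + e * n) * (Mh Q * Mh y ^ n) := by
        rw [mul_pow, ← pow_mul, pow_add]
        ring
    _ ≤ E (IsNonarchimedean v) 2 ^ (a + e * n) * (E (IsNonarchimedean v) 2 ^ b * M) :=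
        mul_le_mul_of_nonneg_left h5 (pow_nonneg e0 _)
    _ = _ := by rw [pow_add _ (a + e * n)]; ring

/-- The truncated inverse of a power. -/
theorem gl_inv {R : Type} [CommRing R] (x y : R) (d N : ℕ) :
    x ^ (N + 1) ∣ (y - x) ^ d * ∑ j ∈ range (N + 1), (d.multichoose j : R) * x ^ j * y ^ (N - j) -
      y ^ (N + d) := by
  induction d with
  | zero =>
    rw [sum_range_succ', sum_eq_zero fun j _ => by simp [Nat.multichoose_zero_succ]]
    simp
  | succ d ih =>
    have key : ∀ N : ℕ, (y - x) * ∑ j ∈ range (N + 1),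
        ((d + 1).multichoose j : R) * x ^ j * y ^ (N - j) =
        y * ∑ j ∈ range (N + 1), (d.multichoose j : R) * x ^ j * y ^ (N - j) -
          ((d + 1).multichoose N : R) * x ^ (N + 1) := fun N => by
      induction N with
      | zero => simp
      | succ N ih =>
        have s : ∀ c : ℕ → R, ∑ j ∈ range (N + 1 + 1), c j * x ^ j * y ^ (N + 1 - j) =
            y * ∑ j ∈ range (N + 1), c j * x ^ j * y ^ (N - j) + c (N + 1) * x ^ (N + 1) :=
          fun c => by
            rw [sum_range_succ, Nat.sub_self, pow_zero, mul_one, mul_sum]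
            congr 1
            refine sum_congr rfl fun j hj => ?_
            rw [Nat.succ_sub (Nat.lt_succ_iff.1 (mem_range.1 hj)), pow_succ]
            ring
        rw [s, s, Nat.multichoose_succ_succ, Nat.cast_add]
        linear_combination y * ih
    obtain ⟨c, hc⟩ := ih
    refine ⟨y * c - (y - x) ^ d * ((d + 1).multichoose N : R), ?_⟩
    rw [pow_succ (y - x), mul_assoc, key]
    linear_combination y * hc

theorem gl_multichoose (d j : ℕ) : d.multichoose j ≤ 2 ^ (d + j) := by
  rw [Nat.multichoose_eq]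
  exact (Nat.choose_le_two_pow _ _).trans (Nat.pow_le_pow_right two_pos (Nat.sub_le _ _))

end Pool.Agent.Lib.MP_651af7_nt.Jn
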