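import Pool.Agent.Lib.MP_651af7_nt.Jn.Cnt
import Pool.Agent.Lib.MP_651af7_nt.Cn.EBd

/-! Degrees and sizes of the basic sections. Model: `Cn/EBd`. -/

namespace Pool.Agent.Lib.MP_651af7_nt.Jn

open MvPolynomial Finset
open Pool.Agent.Lib.MP_651af7_nt.Av

section hom

variable {k ι ι₁ ι₂ σ' M : Type} [Field k] [AddCommMonoid M] {w : σ' → M} {g : ℕ}

theorem nN_hom (A : AV k ι) {y x : ι → MvPolynomial σ' k} {d e : M}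
    (hy : ∀ c, (y c).IsWeightedHomogeneous w e) (hx : ∀ c, (x c).IsWeightedHomogeneous w d)
    (σ : ℕ) (k₀ : ι) (a : ι × ι × ι) : (nN A σ k₀ a y x).IsWeightedHomogeneous w
      ((2 * 2 ^ σ) • d + (2 ^ σ * (2 ^ σ + 1)) • (2 • d + 2 • e)) :=
  Cn.ebd_far_hom (A := A) hx (Cn.ebd_ph_hom hx hy a.1) a.2.1 a.2.2 σ k₀

theorem nM_hom (A : AV k ι) {y x : ι → MvPolynomial σ' k} {d e : M}
    (hy : ∀ c, (y c).IsWeightedHomogeneous w e) (hx : ∀ c, (x c).IsWeightedHomogeneous w d)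
    (σ : ℕ) (f₀ : ι) (a : ι × ι × ι) : (nM A σ f₀ a y x).IsWeightedHomogeneous w
      ((2 ^ σ * (2 ^ σ + 1)) • (2 • d + 2 • e) + 2 ^ σ • e + (2 ^ σ - 1) • d) :=
  (((Cn.ebd_ph_hom hx hy a.1 f₀).pow _).mul ((hy _).pow _)).mul ((hx _).pow _)

theorem arm'_hom (A₁ : AV k ι₁) (A₂ : AV k ι₂) {y₁ x₁ : ι₁ → MvPolynomial σ' k}
    {y₂ x₂ : ι₂ → MvPolynomial σ' k} {d e : M} (hy₁ : ∀ c, (y₁ c).IsWeightedHomogeneous w e)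
    (hx₁ : ∀ c, (x₁ c).IsWeightedHomogeneous w d) (hy₂ : ∀ c, (y₂ c).IsWeightedHomogeneous w e)
    (hx₂ : ∀ c, (x₂ c).IsWeightedHomogeneous w d) (σ n : ℕ) (fr : Fin (g + 1) → ι₁ × ι₂)
    (k₀ k₂ : ι₁ × ι₂) (a : Pr ι₁ ι₂) (τ : Cn.Tm g (2 ^ σ) n) :
    (arm' A₁ A₂ σ n fr k₀ k₂ a τ y₁ x₁ y₂ x₂).IsWeightedHomogeneous w
      ((4 * Cn.DY g (2 ^ σ) n + 2 ^ σ * n) • e + dA g (2 ^ σ) n • d) := by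
  have h2 := (nN_hom A₁ hy₁ hx₁ σ k₀.1 a.1).mul (nM_hom A₂ hy₂ hx₂ σ (fr 0).2 a.2)
  have h3 := (nM_hom A₁ hy₁ hx₁ σ (fr 0).1 a.1).mul (nN_hom A₂ hy₂ hx₂ σ k₀.2 a.2)
  rw [add_comm (_ + _ + _ : M)] at h3
  have h4 := ((Cn.ebd_bx_hom (fun l => (Cn.ebd_ph_hom (A := A₁) hx₁ hy₁ a.1.1 (fr l).1).mul
    (Cn.ebd_ph_hom (A := A₂) hx₂ hy₂ a.2.1 (fr l).2)) τ.1).mul (Cn.ebd_pp h2 h3 τ.2.1.is_le)).mul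
    (Cn.ebd_pp (hx₁ k₂.1) (hx₂ k₂.2) τ.2.2.is_le)
  rw [← mul_assoc (bx _ _)] at h4
  refine (congrArg (IsWeightedHomogeneous w _) ?_).mp h4
  obtain ⟨p, hq⟩ := Nat.exists_eq_add_of_le' (Nat.one_le_two_pow (n := σ))
  rw [dA, Cn.DY, hq, Nat.add_sub_cancel, show 3 * (p + 1) - 1 = 3 * p + 2 by omega]
  module

theorem arm_bih (A₁ : AV k ι₁) (A₂ : AV k ι₂) (σ j n : ℕ) (fr : Fin (g + 1) → ι₁ × ι₂)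
    (k₀ k₂ : ι₁ × ι₂) (a : Pr ι₁ ι₂) (τ : Cn.Tm g (2 ^ σ) n) :
    (arm A₁ A₂ σ j n fr k₀ k₂ a τ (fun c => X (.inl c)) fun c => X (.inr c) :
      MvPolynomial ((ι₁ ⊕ ι₂) ⊕ (ι₁ ⊕ ι₂)) k).IsWeightedHomogeneous (bw (ι₁ ⊕ ι₂) (ι₁ ⊕ ι₂))
      (dC g (2 ^ σ) n j, dA g (2 ^ σ) n) := by
  have hl : ∀ c, (X (.inl c) : MvPolynomial ((ι₁ ⊕ ι₂) ⊕ (ι₁ ⊕ ι₂)) k).IsWeightedHomogeneous
      (bw (ι₁ ⊕ ι₂) (ι₁ ⊕ ι₂)) (1, 0) := fun c => isWeightedHomogeneous_X k _ _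
  have hr : ∀ c, (X (.inr c) : MvPolynomial ((ι₁ ⊕ ι₂) ⊕ (ι₁ ⊕ ι₂)) k).IsWeightedHomogeneous
      (bw (ι₁ ⊕ ι₂) (ι₁ ⊕ ι₂)) (0, 1) := fun c => isWeightedHomogeneous_X k _ _
  have h := arm'_hom A₁ A₂ (Cn.ebd_dbn_hom (A := A₁) (fun c => hl (.inl c)) j)
    (fun c => hr (.inl c)) (Cn.ebd_dbn_hom (A := A₂) (fun c => hl (.inr c)) j)
    (fun c => hr (.inr c)) σ n fr k₀ k₂ a τ
  have e : (4 * Cn.DY g (2 ^ σ) n + 2 ^ σ * n) • 4 ^ j • ((1, 0) : ℕ × ℕ) +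
      dA g (2 ^ σ) n • ((0, 1) : ℕ × ℕ) = (dC g (2 ^ σ) n j, dA g (2 ^ σ) n) := by
    simp [dC, mul_comm]
  rw [e] at h
  exact h

end hom

theorem card_Tm_le (g q n : ℕ) (hq : 1 ≤ q) : Fintype.card (Cn.Tm g q n) ≤ 2 ^ dA g q n := by
  refine (Cn.card_Tm_le g q n hq).trans (Nat.pow_le_pow_right two_pos ?_)
  have h : 2 * q * n ≤ (3 * q - 1) * n := Nat.mul_le_mul_right n (by omega)
  rw [dA, Cn.dA]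
  omega

section size

variable {k ι ι₁ ι₂ R : Type} [Field k] [Fintype ι] [Fintype ι₁] [Fintype ι₂] [CommRing R]
  [Algebra k R] {g : ℕ} {v : AbsoluteValue k ℝ} {S : SN R (IsNonarchimedean v)}

theorem nN_le (hS : S.Ov v) {A : AV k ι} {s N Y : ℝ} (hs : Sz₀ A v s) {w y : ι → R}
    (hw : ∀ a, S.N (w a) ≤ N) (hy : ∀ a, S.N (y a) ≤ Y) (σ : ℕ) (k₀ : ι) (a : ι × ι × ι) :
    S.N (nN A σ k₀ a y w) ≤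
      s ^ (2 * 4 ^ σ) * (N ^ (2 * 2 ^ σ) * (s * (N ^ 2 * Y ^ 2)) ^ (2 ^ σ * (2 ^ σ + 1))) :=
  Cn.far_le hS hs hw (hS.ph_le hs hw hy a.1) _ _ σ k₀

theorem nM_le (hS : S.Ov v) {A : AV k ι} {s N Y : ℝ} (hs : Sz₀ A v s) {w y : ι → R}
    (hw : ∀ a, S.N (w a) ≤ N) (hy : ∀ a, S.N (y a) ≤ Y) (σ : ℕ) (f₀ : ι) (a : ι × ι × ι) :
    S.N (nM A σ f₀ a y w) ≤
      (s * (N ^ 2 * Y ^ 2)) ^ (2 ^ σ * (2 ^ σ + 1)) * Y ^ 2 ^ σ * N ^ (2 ^ σ - 1) :=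
  S.mul_le (S.mul_le (S.pow_le (hS.ph_le hs hw hy a.1 f₀) _) (S.pow_le (hy _) _))
    (S.pow_le (hw _) _)

theorem arm'_le (hS : S.Ov v) {A₁ : AV k ι₁} {A₂ : AV k ι₂} {s N Y : ℝ} (h₁ : Sz₀ A₁ v s)
    (h₂ : Sz₀ A₂ v s) {w₁ y₁ : ι₁ → R} {w₂ y₂ : ι₂ → R} (hw₁ : ∀ a, S.N (w₁ a) ≤ N)
    (hy₁ : ∀ a, S.N (y₁ a) ≤ Y) (hw₂ : ∀ a, S.N (w₂ a) ≤ N) (hy₂ : ∀ a, S.N (y₂ a) ≤ Y)
    (σ n : ℕ) (fr : Fin (g + 1) → ι₁ × ι₂) (k₀ k₂ : ι₁ × ι₂) (a : Pr ι₁ ι₂)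
    (τ : Cn.Tm g (2 ^ σ) n) : S.N (arm' A₁ A₂ σ n fr k₀ k₂ a τ y₁ w₁ y₂ w₂) ≤
      s ^ dA g (2 ^ σ) n * (N ^ dA g (2 ^ σ) n * Y ^ (4 * Cn.DY g (2 ^ σ) n + 2 ^ σ * n)) := by
  have h1 : 1 ≤ s := one_le_of_two h₁.two
  have hY : 0 ≤ Y := (S.nonneg _).trans (hy₁ k₀.1)
  have hN : 0 ≤ N := (S.nonneg _).trans (hw₁ k₀.1)
  have h2 := S.mul_le (nN_le hS h₁ hw₁ hy₁ σ k₀.1 a.1) (nM_le hS h₂ hw₂ hy₂ σ (fr 0).2 a.2)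
  have h3 := S.mul_le (nM_le hS h₁ hw₁ hy₁ σ (fr 0).1 a.1) (nN_le hS h₂ hw₂ hy₂ σ k₀.2 a.2)
  rw [mul_comm (_ * _ * _ : ℝ)] at h3
  have h5 := S.mul_le (S.mul_le (S.bx_le (fun l => S.mul_le (hS.ph_le h₁ hw₁ hy₁ a.1.1 (fr l).1)
    (hS.ph_le h₂ hw₂ hy₂ a.2.1 (fr l).2)) τ.1) (Cn.ebd_pp_le h2 h3 τ.2.1.is_le))
    (Cn.ebd_pp_le (hw₁ k₂.1) (hw₂ k₂.2) τ.2.2.is_le)
  rw [← mul_assoc (bx _ _)] at h5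
  refine h5.trans ?_
  have h4 : 4 ^ σ = 2 ^ σ * 2 ^ σ := Nat.mul_pow 2 2 σ
  have he : 2 * Cn.DY g (2 ^ σ) n + 2 * 4 ^ σ * n ≤ dA g (2 ^ σ) n := by
    have h6 : 2 ^ σ * 2 ^ σ * n ≤ Cn.DY g (2 ^ σ) n :=
      (Nat.mul_le_mul_right n (Nat.mul_le_mul_left _ (Nat.le_succ _))).trans (Nat.le_add_left _ _)
    rw [h4, mul_assoc, dA]
    generalize 2 ^ σ = q at h6 ⊢
    omega
  refine le_of_eq_of_le ?_ (mul_le_mul_of_nonneg_right (pow_le_pow_right₀ h1 he) (by positivity))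
  obtain ⟨p, hq⟩ := Nat.exists_eq_add_of_le' (Nat.one_le_two_pow (n := σ))
  rw [dA, Cn.DY, h4, hq, Nat.add_sub_cancel, show 3 * (p + 1) - 1 = 3 * p + 2 by omega]
  simp only [mul_pow, ← pow_mul]
  ring

end size

variable {k ι₁ ι₂ β : Type} [Field k] [Fintype ι₁] [Fintype ι₂] {A₁ : AV k ι₁} {A₂ : AV k ι₂}
  {g e d r m σ n₀ : ℕ} {Y : Fix A₁ A₂ g e d r} {n j : Fin m × β → ℕ}
  {ch : Ch ι₁ ι₂ (Fin m × β) g}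
  {rd : (ι₁ ⊕ ι₂ →₀ ℕ) → MvPolynomial (Fin (g + 1 + 1) ⊕ (ι₁ ⊕ ι₂)) k}

omit [Fintype ι₁] [Fintype ι₂] in
theorem cfg_hom : (cfg Y σ n₀ n j ch rd).Hom :=
  ⟨fun _ _ _ => arm_bih _ _ _ _ _ _ _ _ _ _, fun _ => card_Tm_le _ _ _ Nat.one_le_two_pow⟩

theorem cfg_ok {v : AbsoluteValue k ℝ} {s : ℝ} (h₁ : Sz₀ A₁ v s) (h₂ : Sz₀ A₂ v s)
    (hu : ∀ l, pl v (Y.u l) ≤ s) (hr : ∀ μ ω, v (coeff ω (rd μ)) ≤ s ^ μ.degree) :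
    (cfg Y σ n₀ n j ch rd).Ok v fun _ => s := by
  refine ⟨fun _ => h₁.two, fun _ => hu, fun _ => hr, fun i a τ => ?_⟩
  obtain ⟨S, hS⟩ := exists_polSN (σ := (ι₁ ⊕ ι₂) ⊕ (ι₁ ⊕ ι₂)) (absSN v) (t := fun _ => 1)
    fun _ => zero_le_one
  have hO : S.Ov v := (absSN_ov v).pol (fun _ => zero_le_one) hS
  have hX : ∀ c, S.N (X c) ≤ 1 := fun c => by
    rw [hS]
    exact polN_X _ (fun _ => zero_le_one) c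
  have h1 : 1 ≤ s := one_le_of_two h₁.two
  have h := arm'_le hO h₁ h₂ (fun c => hX (.inr (.inl c)))
    (hO.dbn_le h₁ (fun c => hX (.inl (.inl c))) (j i)) (fun c => hX (.inr (.inr c)))
    (hO.dbn_le h₂ (fun c => hX (.inl (.inr c))) (j i)) σ (n i) (ch.fr i) (ch.k₀ i) (ch.k₂ i) a τ
  rw [hS] at h
  refine h.trans ?_
  simp only [cfg, dC, one_pow, one_mul, mul_one, ← pow_mul]
  rw [mul_comm]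
  exact mul_le_mul_of_nonneg_left (pow_le_pow_right₀ h1 (by omega)) (by positivity)

end Pool.Agent.Lib.MP_651af7_nt.Jn
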