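import Pool.Agent.Lib.MP_651af7_nt.Jn.Defs
import Pool.Agent.Lib.MP_651af7_nt.Cn.ECnt

/-! Numbers of conditions and of unknowns. Model: `Cn/ECnt`. -/

namespace Pool.Agent.Lib.MP_651af7_nt.Jn

open MvPolynomial Finset
open Pool.Agent.Lib.MP_651af7_nt.Av

theorem le_dA (g : ℕ) (q n : ℕ) : q ^ 2 * n ≤ dA g q n := by
  have : Cn.DY g q n = g * (q ^ 2 * n) + q ^ 2 * n + q * n := by
    unfold Cn.DY
    ring
  unfold dA
  omega

theorem dA_le (g : ℕ) {q n : ℕ} (hq : 1 ≤ q) (hn : 1 ≤ n) :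
    dA g q n ≤ (4 * g + 12) * (q ^ 2 * n) := by
  have h1 : q * n ≤ q ^ 2 * n := Nat.mul_le_mul_right _ (Nat.le_self_pow two_ne_zero q)
  have h2 : q ≤ q * n := Nat.le_mul_of_pos_right _ hn
  have h3 : Cn.DY g q n = g * (q ^ 2 * n) + q ^ 2 * n + q * n := by
    unfold Cn.DY
    ring
  have h4 : (4 * g + 12) * (q ^ 2 * n) = 4 * (g * (q ^ 2 * n)) + 12 * (q ^ 2 * n) := by ring
  have h5 : (3 * q - 1) * n ≤ 3 * (q * n) :=
    (Nat.mul_le_mul_right n (Nat.sub_le _ _)).trans (mul_assoc _ _ _).le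
  unfold dA
  omega

theorem dC_le (g : ℕ) {q : ℕ} (hq : 1 ≤ q) (n j : ℕ) :
    dC g q n j ≤ (4 * g + 12) * (q ^ 2 * (n * 4 ^ j)) := by
  have h1 : q * n ≤ q ^ 2 * n := Nat.mul_le_mul_right _ (Nat.le_self_pow two_ne_zero q)
  have h3 : dC g q n j = 4 ^ j * (4 * (g * (q ^ 2 * n)) + 4 * (q ^ 2 * n) + 5 * (q * n)) := by
    unfold dC Cn.DY
    ring
  have h4 : (4 * g + 12) * (q ^ 2 * (n * 4 ^ j)) =
      4 ^ j * (4 * (g * (q ^ 2 * n)) + 12 * (q ^ 2 * n)) := by ring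
  rw [h3, h4]
  exact Nat.mul_le_mul_left _ (by omega)

theorem ecnt_side {κ : Type} [Fintype κ] {g ρ e q T n K da : ℕ} (he : 1 ≤ e) (hT : 1 ≤ T)
    (hn : 1 ≤ n) (hK : 1 ≤ K) (hq : e * T + ρ * Fintype.card κ ≤ q) (h0 : q ^ 2 * n ≤ da)
    (h0' : da ≤ K * (q ^ 2 * n)) (mk : Finset (Fin (g + 1 + 1))) :
    ((Mon κ (g + 1) e ρ da).filter fun ω => ∑ l ∈ mk, ω (.inl l) < T * n).card *
      q ^ (2 * mk.card) ≤ ρ ^ Fintype.card κ * K ^ (g + 1) * T ^ mk.card * q *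
        Fintype.card (Cn.Tm g q n) := by
  have h1 := card_marked (ι := κ) (ρ := ρ) (n := da) he mk (L := T * n) (Or.inr (by
    have h2 := Nat.mul_le_mul_right n hq
    have h3 := Nat.le_mul_of_pos_right (ρ * Fintype.card κ) hn
    have h4 : q * n ≤ q ^ 2 * n := Nat.mul_le_mul_right _ (Nat.le_self_pow two_ne_zero q)
    rw [add_mul, mul_assoc] at h2
    omega))
  have h2 : (q ^ 2 * n) ^ mk.card ≤ (da + 1) ^ mk.card := Nat.pow_le_pow_left (by omega) _
  have h3 : (da + 1) ^ (g + 1) ≤ K ^ (g + 1) * (q ^ 2 * n + 1) ^ (g + 1) := by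
    rw [← mul_pow]
    refine Nat.pow_le_pow_left ?_ _
    rw [mul_add K]
    omega
  have h4 : (q ^ 2 * n + 1) ^ (g + 1) ≤ q * Fintype.card (Cn.Tm g q n) := by
    have hq1 : 1 ≤ q := (Nat.mul_pos he hT).trans_le (le_self_add.trans hq)
    rw [Fintype.card_prod, Fintype.card_prod, Fintype.card_fun, Fintype.card_fin, Fintype.card_fin,
      Fintype.card_fin, Fintype.card_fin, pow_succ, mul_left_comm]
    refine Nat.mul_le_mul_left _ ?_
    have : q * ((n + 1) * (q + 1)) = q ^ 2 * n + q + (q * n + q ^ 2) := by ring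
    omega
  refine Nat.le_of_mul_le_mul_right ?_ (Nat.pow_pos (n := mk.card) hn)
  rw [mul_assoc, pow_mul, ← mul_pow]
  refine ((Nat.mul_le_mul_left _ h2).trans h1).trans
    ((Nat.mul_le_mul_left _ (h3.trans (Nat.mul_le_mul_left _ h4))).trans (le_of_eq ?_))
  ring

/-- `Cn.card_low` with general degrees. -/
theorem card_low (κ β : Type) [Fintype κ] [Fintype β] [DecidableEq β] (g ρ K : ℕ) : ∃ C₁ : ℕ,
    ∀ (k Pr : Type) [Field k] (m e q N T : ℕ) (n : Fin m × β → ℕ)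
      (F : Cn.Cfg k κ Pr β (g + 1) m fun i => Cn.Tm g q (n i)) (mk : Finset (Fin (g + 1 + 1))),
      1 ≤ e → 2 * (Fintype.card β * mk.card) = Fintype.card β + 3 → 1 ≤ T → 1 ≤ K →
      e * T + ρ * Fintype.card κ ≤ q → F.n₀ = q ^ 2 * N → (∀ i, n i * F.wt i = N) →
      (∀ i, 1 ≤ n i) → (∀ i, 1 ≤ F.wt i) → (∀ i, q ^ 2 * n i ≤ F.da i) →
      (∀ i, F.da i ≤ K * (q ^ 2 * n i)) → (∀ i, F.dc i ≤ K * (q ^ 2 * N)) → ∀ p,
      (Mon κ (g + 1) e ρ (F.dh p)).card * (F.low e ρ (T * N) mk p).card * q ^ 3 ≤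
        C₁ * T ^ 3 * (Fintype.card (Bx (g + 1) F.n₀) *
          Fintype.card (Cn.TT (fun i => Cn.Tm g q (n i)) p)) := by
  classical
  refine ⟨ρ ^ Fintype.card κ * (g + 1 + Fintype.card β * K) ^ (g + 1) *
      (ρ ^ Fintype.card κ * K ^ (g + 1)) ^ Fintype.card β,
    fun k Pr _ m e q N T n F mk he hmk hT hK hq h0 hw hn hw1 hda hda' hdc p => ?_⟩
  have hq1 : 1 ≤ q := (Nat.mul_pos he hT).trans_le (le_self_add.trans hq)
  have h3' : Fintype.card β * mk.card ≤ 3 := by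
    rcases Nat.eq_zero_or_pos mk.card with h | h
    · rw [h]
      omega
    · have := Nat.le_mul_of_pos_right (Fintype.card β) h
      omega
  have e1 : F.dh p ≤ (g + 1 + Fintype.card β * K) * F.n₀ := by
    have := sum_le_card_nsmul univ (fun s => F.dc (p, s)) _ fun s _ => hdc (p, s)
    rw [card_univ, smul_eq_mul, ← h0, ← mul_assoc] at this
    rw [Cn.Cfg.dh, add_mul (g + 1)]
    omega
  have h1 : (Mon κ (g + 1) e ρ (F.dh p)).card ≤ ρ ^ Fintype.card κ *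
      (g + 1 + Fintype.card β * K) ^ (g + 1) * Fintype.card (Bx (g + 1) F.n₀) := by
    refine (card_Mon_le he).trans ?_
    rw [mul_assoc, Fintype.card_fun, Fintype.card_fin, Fintype.card_fin, ← mul_pow]
    refine Nat.mul_le_mul_left _ (Nat.pow_le_pow_left ?_ _)
    rw [mul_add]
    omega
  have h2 : (F.low e ρ (T * N) mk p).card ≤ ∏ s, ((Mon κ (g + 1) e ρ (F.da (p, s))).filter
      fun ω => ∑ l ∈ mk, ω (.inl l) < T * n (p, s)).card := by
    rw [← Fintype.card_piFinset]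
    refine card_le_card fun ω hω => ?_
    rw [Cn.Cfg.low, mem_filter, Cn.Cfg.pat, Fintype.mem_piFinset] at hω
    rw [Fintype.mem_piFinset]
    refine fun s => mem_filter.2 ⟨hω.1 s, ?_⟩
    have h3 := (single_le_sum (f := fun s => F.wt (p, s) * ∑ l ∈ mk, ω s (.inl l))
      (fun _ _ => Nat.zero_le _) (mem_univ s)).trans_lt hω.2
    rw [← hw (p, s), ← mul_assoc, mul_comm _ (F.wt (p, s))] at h3
    exact Nat.lt_of_mul_lt_mul_left h3
  have h3 := prod_le_prod' (s := univ) fun s _ =>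
    ecnt_side (g := g) he hT (hn (p, s)) hK hq (hda (p, s)) (hda' (p, s)) mk
  rw [prod_mul_distrib, prod_mul_distrib, prod_const, prod_const, card_univ, ← Fintype.card_pi,
    ← pow_mul, show 2 * mk.card * Fintype.card β = 3 + Fintype.card β by
      rw [mul_assoc, mul_comm mk.card]; omega, pow_add, ← mul_assoc, mul_pow, mul_pow, ← pow_mul,
    mul_right_comm _ (q ^ Fintype.card β) (Fintype.card _)] at h3
  have h4 := Nat.le_of_mul_le_mul_right h3 (Nat.pow_pos hq1)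
  have h5 : T ^ (mk.card * Fintype.card β) ≤ T ^ 3 :=
    Nat.pow_le_pow_right hT (by rw [mul_comm]; exact h3')
  have h6 := ((Nat.mul_le_mul_right (q ^ 3) h2).trans h4).trans
    (Nat.mul_le_mul_right _ (Nat.mul_le_mul_left _ h5))
  rw [mul_assoc]
  refine (Nat.mul_le_mul h1 h6).trans (le_of_eq ?_)
  ring

end Pool.Agent.Lib.MP_651af7_nt.Jn
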