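import Pool.Agent.Lib.MP_651af7_nt.Cn.EArm

/-! Finite covers inside the join of two abelian varieties: vocabulary of the engine. -/

namespace Pool.Agent.Lib.MP_651af7_nt.Jn

open MvPolynomial Finset Height
open Pool.Agent.Lib.MP_651af7_nt.Av Pool.Agent.Lib.MP_651af7_nt.Av.AV

section poly

variable {k ι₁ ι₂ R : Type} [Field k] [CommRing R] [Algebra k R]

/-- The value of `P` at `((1 + T) v, v')` as a polynomial in `T`. -/
noncomputable def hat (w : ι₁ ⊕ ι₂ → R) (P : MvPolynomial (ι₁ ⊕ ι₂) k) : Polynomial R :=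
  aeval (Sum.elim (fun a => (1 + Polynomial.X) * Polynomial.C (w (.inl a)))
    fun b => Polynomial.C (w (.inr b))) P

/-- The polynomial in `T` with the coefficients `ρ t (w)`. -/
noncomputable def rr {κ : Type} {e : ℕ} (ρ : Fin (e + 2) → MvPolynomial κ k) (w : κ → R) :
    Polynomial R := ∑ t, Polynomial.C (aeval w (ρ t)) * Polynomial.X ^ (t : ℕ)

/-- A normalised point with `g` independent coordinates. -/
def Gn (k : Type) [Field k] [Algebra k R] (g : ℕ) (w : ι₁ ⊕ ι₂ → R) : Prop :=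
  (∃ b, w (.inr b) = 1) ∧ ∃ I : Fin g → ι₁ ⊕ ι₂, AlgebraicIndependent k fun l => w (I l)

end poly

/-- The fixed data. `p` is the ideal of the cover, `J` an ideal of its cone over the base, `u` are
parameters for `J`, and `rr ρ w` is the equation of the fibre through `w`. -/
structure Fix {k ι₁ ι₂ : Type} [Field k] (A₁ : AV k ι₁) (A₂ : AV k ι₂) (g e d r : ℕ) where
  /-- the ideal of the cover -/
  p : Ideal (MvPolynomial (ι₁ ⊕ ι₂) k)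
  /-- equations of the torsor -/
  J : Ideal (MvPolynomial (ι₁ ⊕ ι₂) k)
  /-- the parameters -/
  u : Fin (g + 1 + 1) → MvPolynomial (ι₁ ⊕ ι₂) k
  /-- the coefficients of the monic equations -/
  c : ι₁ ⊕ ι₂ → Fin r → MvPolynomial (Fin (g + 1 + 1)) k
  /-- the coefficients of the equation of the fibre -/
  ρ : Fin (e + 2) → MvPolynomial (ι₁ ⊕ ι₂) k
  le₁ : ∀ f ∈ A₁.I, rename .inl f ∈ p
  le₂ : ∀ f ∈ A₂.I, rename .inr f ∈ p
  pos : 1 ≤ d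
  nn : NN J d r u c
  u₀ : u 0 ∈ p
  ρ₀ : ρ 0 ∈ p
  bi : ∀ (R : Type) [CommRing R] [Algebra k R] (w : ι₁ ⊕ ι₂ → R), (∀ f ∈ p, aeval w f = 0) →
    ∀ f ∈ J, hat w f = 0
  div : ∀ (F : Type) [Field F] [Algebra k F] (w : ι₁ ⊕ ι₂ → F), (∀ f ∈ p, aeval w f = 0) →
    Gn k g w → ∀ (P : MvPolynomial (ι₁ ⊕ ι₂) k) (N : ℕ), Polynomial.X ^ N ∣ hat w P →
      rr ρ w ^ N ∣ hat w P
  alg : ∀ (F : Type) [Field F] [Algebra k F] (w : ι₁ ⊕ ι₂ → F), (∀ f ∈ p, aeval w f = 0) →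
    Gn k g w → ∀ a, w (.inl a) ∈ (AlgebraicIndependent.matroid k F).closure
      (rat (fun a => w (.inl a)) ∪ Set.range fun b => w (.inr b))
  cos : ∀ (F : Type) [Field F] [Algebra k F] (w w' : ι₁ ⊕ ι₂ → F), (∀ f ∈ p, aeval w f = 0) →
    (∀ f ∈ p, aeval w' f = 0) → ∀ (p₁ q₁ : A₁.Pt F) (p₂ q₂ : A₂.Pt F),
    Rep p₁ (fun a => w (.inl a)) → Rep p₂ (fun b => w (.inr b)) →
    Rep q₁ (fun a => w' (.inl a)) → Rep q₂ (fun b => w' (.inr b)) → ∀ j : ℕ,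
      td k (rat (p₁ - 2 ^ j • q₁).co ∪ rat (p₂ - 2 ^ j • q₂).co) ≤ g

/-- The data attached to one point of the cover. -/
structure Blk {k ι₁ ι₂ : Type} [Field k] (A₁ : AV k ι₁) (A₂ : AV k ι₂) (g : ℕ) where
  /-- the point of the first factor -/
  P₁ : A₁.Pt k
  /-- the point of the second factor -/
  P₂ : A₂.Pt k
  /-- the coordinates -/
  w : ι₁ ⊕ ι₂ → k
  /-- the chart of the cover -/
  C : Chart k (ι₁ ⊕ ι₂) g

namespace Blk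

variable {k ι₁ ι₂ : Type} [Field k] {A₁ : AV k ι₁} {A₂ : AV k ι₂} {g e d r : ℕ}
  (b : Blk A₁ A₂ g)

/-- The point lies on the cover, which is unramified there. -/
structure Geom (X : Fix A₁ A₂ g e d r) : Prop where
  rep₁ : Rep b.P₁ fun a => b.w (.inl a)
  rep₂ : Rep b.P₂ fun a => b.w (.inr a)
  a₀ : ∃ c, b.C.a₀ = .inr c
  atx : b.C.At b.w
  on : b.C.On X.p b.w
  sep : eval b.w (X.ρ 1) ≠ 0
  lead : eval b.w (X.ρ (Fin.last _)) ≠ 0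

variable [NumberField k] [Fintype ι₁] [Fintype ι₂]

/-- The height of the point. -/
noncomputable def H : ℝ := logHeight b.w

/-- The chart is small, the equation of the fibre is large, the heights nearly add up. -/
structure Good (X : Fix A₁ A₂ g e d r) (B₀ : ℕ) (ε η θ : ℝ) : Prop extends b.Geom X where
  smφ : ∀ a, SmallP B₀ (ε * b.H) (b.C.φ a)
  big : η * b.H ≤ logHeight fun t => eval b.w (X.ρ t)
  bal : 2 * b.H ≤ ht b.P₁ + ht b.P₂ + θ * b.H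

/-- The point `b'` is close to `2 ^ j` times the point `b`. -/
structure Near (θ : ℝ) (j : ℕ) (b' : Blk A₁ A₂ g) : Prop where
  par₁ : 2 * (ht b'.P₁ + 4 ^ j * ht b.P₁) ≤ ht (b'.P₁ + 2 ^ j • b.P₁) + θ * b'.H
  par₂ : 2 * (ht b'.P₂ + 4 ^ j * ht b.P₂) ≤ ht (b'.P₂ + 2 ^ j • b.P₂) + θ * b'.H
  le : b'.H ≤ 4 ^ j * b.H + θ * b'.H
  le' : b'.H ≤ 2 * (4 ^ j * b.H)
  ge : 4 ^ j * b.H ≤ 2 * b'.H

/-- The point lies on a small hypersurface in the coordinates of the chart. -/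
def Exit (B' : ℕ) (s : ℝ) : Prop :=
  ∃ q : MvPolynomial (Fin g) ℚ, q ≠ 0 ∧ Pool.Agent.Lib.Common.Subspace.IsInt q ∧
    (∀ μ ∈ q.support, ∀ j, μ j ≤ B') ∧ Pool.Agent.Lib.Common.Subspace.len q ≤ Real.exp s ∧
    aeval (fun j => b.w (b.C.I j)) q = 0

end Blk

section series

variable {k ι₁ ι₂ O τ : Type} [Field k] {g : ℕ}

/-- The variables of the branch among all variables of a block; the variable `0` is `T`. -/
def vS (g : ℕ) : Fin g ↪ Fin (g + 1) := ⟨Fin.succ, Fin.succ_injective g⟩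

/-- The variables of the branch of the block `o`. -/
def vE (g : ℕ) (o : O) : Fin g ↪ O × Fin (g + 1) :=
  ⟨fun l => (o, l.succ), fun _ _ h => by simpa using h⟩

/-- The series `((1 + T) v, v')`. -/
noncomputable def ext (ξ : ι₁ ⊕ ι₂ → MvPowerSeries (Fin g) k) :
    ι₁ ⊕ ι₂ → MvPowerSeries (Fin (g + 1)) k :=
  Sum.elim (fun a => (1 + MvPowerSeries.X 0) * MvPowerSeries.rename (vS g) (ξ (.inl a)))
    fun b => MvPowerSeries.rename (vS g) (ξ (.inr b))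

/-- The branches in the ring of all variables. -/
noncomputable def xe (ξ : O → ι₁ ⊕ ι₂ → MvPowerSeries (Fin g) k) (o : O) (c : ι₁ ⊕ ι₂) :
    MvPowerSeries (O × Fin (g + 1)) k := MvPowerSeries.rename (vE g o) (ξ o c)

/-- The points of the torsor in the ring of all variables. -/
noncomputable def xh (ξ : O → ι₁ ⊕ ι₂ → MvPowerSeries (Fin g) k) (o : O) (c : ι₁ ⊕ ι₂) :
    MvPowerSeries (O × Fin (g + 1)) k := xo (fun o => ext (ξ o)) (o, c)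

theorem xh_inl (ξ : O → ι₁ ⊕ ι₂ → MvPowerSeries (Fin g) k) (o : O) (a : ι₁) :
    xh ξ o (.inl a) = (1 + MvPowerSeries.X (o, 0)) * xe ξ o (.inl a) := by
  simp only [xh, xo, ext, xe, Sum.elim_inl, map_mul, map_add, map_one, MvPowerSeries.rename_X,
    MvPowerSeries.rename_rename]
  rfl

theorem xh_inr (ξ : O → ι₁ ⊕ ι₂ → MvPowerSeries (Fin g) k) (o : O) (b : ι₂) :
    xh ξ o (.inr b) = xe ξ o (.inr b) := by
  simp only [xh, xo, ext, xe, Sum.elim_inr, MvPowerSeries.rename_rename]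
  rfl

/-- An exponent from its blocks. -/
noncomputable def unc [Finite O] [Finite τ] (γ : O → τ →₀ ℕ) : O × τ →₀ ℕ :=
  Finsupp.equivFunOnFinite.symm fun p => γ p.1 p.2

@[simp] theorem unc_apply [Finite O] [Finite τ] (γ : O → τ →₀ ℕ) (p : O × τ) :
    unc γ p = γ p.1 p.2 := rfl

theorem exists_unc [Finite O] [Finite τ] (γ : O × τ →₀ ℕ) : ∃ γ' : O → τ →₀ ℕ, γ = unc γ' :=
  ⟨fun o => Finsupp.equivFunOnFinite.symm fun s => γ (o, s), Finsupp.ext fun _ => rfl⟩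

end series

section arm

/-- The degree in the arm. -/
def dA (g q n : ℕ) : ℕ := 4 * Cn.DY g q n + (3 * q - 1) * n + q

/-- The degree in the centre. -/
def dC (g q n j : ℕ) : ℕ := 4 ^ j * (4 * Cn.DY g q n + q * n)

variable {k ι ι₁ ι₂ R R' : Type} [Field k] [CommRing R] [Algebra k R] [CommRing R'] [Algebra k R']

/-- The far point. -/
noncomputable def nN (A : AV k ι) (σ : ℕ) (k₀ : ι) (a : ι × ι × ι) (y v : ι → R) : R :=
  Cn.far A a.2.1 a.2.2 v (fun b => A.ph a.1 b v y) σ k₀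

/-- Its denominator. -/
noncomputable def nM (A : AV k ι) (σ : ℕ) (f₀ : ι) (a : ι × ι × ι) (y v : ι → R) : R :=
  A.ph a.1 f₀ v y ^ (2 ^ σ * (2 ^ σ + 1)) * y a.2.1 ^ 2 ^ σ * v a.2.2 ^ (2 ^ σ - 1)

/-- The presentations. -/
abbrev Pr (ι₁ ι₂ : Type) : Type := (ι₁ × ι₁ × ι₁) × ι₂ × ι₂ × ι₂

variable (A₁ : AV k ι₁) (A₂ : AV k ι₂) {g : ℕ}

/-- A basic section as a function of coordinates `y₁`, `y₂` of the multiple of the centre and of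
the coordinates `v₁`, `v₂` of the arm. -/
noncomputable def arm' (σ n : ℕ) (fr : Fin (g + 1) → ι₁ × ι₂) (k₀ k₂ : ι₁ × ι₂) (a : Pr ι₁ ι₂)
    (τ : Cn.Tm g (2 ^ σ) n) (y₁ v₁ : ι₁ → R) (y₂ v₂ : ι₂ → R) : R :=
  bx (fun l => A₁.ph a.1.1 (fr l).1 v₁ y₁ * A₂.ph a.2.1 (fr l).2 v₂ y₂) τ.1 *
    (nN A₁ σ k₀.1 a.1 y₁ v₁ * nM A₂ σ (fr 0).2 a.2 y₂ v₂) ^ (τ.2.1 : ℕ) *
    (nM A₁ σ (fr 0).1 a.1 y₁ v₁ * nN A₂ σ k₀.2 a.2 y₂ v₂) ^ (n - (τ.2.1 : ℕ)) *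
    (v₁ k₂.1 ^ (τ.2.2 : ℕ) * v₂ k₂.2 ^ (2 ^ σ - (τ.2.2 : ℕ)))

/-- A basic section as a function of the centre `x₀` and the arm `x`. -/
noncomputable def arm (σ j n : ℕ) (fr : Fin (g + 1) → ι₁ × ι₂) (k₀ k₂ : ι₁ × ι₂) (a : Pr ι₁ ι₂)
    (τ : Cn.Tm g (2 ^ σ) n) (x₀ x : ι₁ ⊕ ι₂ → R) : R :=
  arm' A₁ A₂ σ n fr k₀ k₂ a τ (A₁.dbn (fun c => x₀ (.inl c)) j) (fun c => x (.inl c))
    (A₂.dbn (fun c => x₀ (.inr c)) j) fun c => x (.inr c)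

theorem map_arm (f : R →ₐ[k] R') (σ j n : ℕ) (fr : Fin (g + 1) → ι₁ × ι₂) (k₀ k₂ : ι₁ × ι₂)
    (a : Pr ι₁ ι₂) (τ : Cn.Tm g (2 ^ σ) n) (x₀ x : ι₁ ⊕ ι₂ → R) :
    f (arm A₁ A₂ σ j n fr k₀ k₂ a τ x₀ x) =
      arm A₁ A₂ σ j n fr k₀ k₂ a τ (fun c => f (x₀ c)) fun c => f (x c) := by
  simp only [arm, arm', nN, nM, bx, map_mul, map_prod, map_pow, Cn.map_far, AV.map_ph, AV.map_dbn]

/-- The discrete choices. -/
structure Ch (ι₁ ι₂ I : Type) (g : ℕ) where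
  /-- coordinates of the centre -/
  q₀ : Fin (g + 1 + 1) → ι₁ ⊕ ι₂
  /-- coordinates of the differences -/
  fr : I → Fin (g + 1) → ι₁ × ι₂
  /-- coordinates of the far points -/
  k₀ : I → ι₁ × ι₂
  /-- coordinates of the arms -/
  k₂ : I → ι₁ × ι₂

variable {A₁ A₂} {e d r m : ℕ} {β : Type}

/-- The configuration. -/
noncomputable def cfg (Y : Fix A₁ A₂ g e d r) (σ n₀ : ℕ) (n j : Fin m × β → ℕ)
    (ch : Ch ι₁ ι₂ (Fin m × β) g)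
    (rd : (ι₁ ⊕ ι₂ →₀ ℕ) → MvPolynomial (Fin (g + 1 + 1) ⊕ (ι₁ ⊕ ι₂)) k) :
    Cn.Cfg k (ι₁ ⊕ ι₂) (Pr ι₁ ι₂) β (g + 1) m fun i => Cn.Tm g (2 ^ σ) (n i) where
  n₀ := n₀
  wt i := 4 ^ j i
  q₀ := ch.q₀
  E i a τ := arm A₁ A₂ σ (j i) (n i) (ch.fr i) (ch.k₀ i) (ch.k₂ i) a τ (fun c => X (.inl c))
    fun c => X (.inr c)
  dc i := dC g (2 ^ σ) (n i) (j i)
  da i := dA g (2 ^ σ) (n i)
  J _ := Y.J
  u _ := Y.u
  rd _ := rd

theorem cfg_ev {Y : Fix A₁ A₂ g e d r} {σ n₀ : ℕ} {n j : Fin m × β → ℕ}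
    {ch : Ch ι₁ ι₂ (Fin m × β) g}
    {rd : (ι₁ ⊕ ι₂ →₀ ℕ) → MvPolynomial (Fin (g + 1 + 1) ⊕ (ι₁ ⊕ ι₂)) k}
    (i : Fin m × β) (a : Pr ι₁ ι₂) (τ : Cn.Tm g (2 ^ σ) (n i)) (x₀ x : ι₁ ⊕ ι₂ → R) :
    (cfg Y σ n₀ n j ch rd).ev i a τ x₀ x =
      arm A₁ A₂ σ (j i) (n i) (ch.fr i) (ch.k₀ i) (ch.k₂ i) a τ x₀ x := by
  have h := map_arm A₁ A₂ (aeval (Sum.elim x₀ x) :
    MvPolynomial ((ι₁ ⊕ ι₂) ⊕ (ι₁ ⊕ ι₂)) k →ₐ[k] R) σ (j i) (n i) (ch.fr i) (ch.k₀ i) (ch.k₂ i) a τ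
    (fun c => X (.inl c)) fun c => X (.inr c)
  simp only [aeval_X, Sum.elim_inl, Sum.elim_inr] at h
  exact h

end arm

end Pool.Agent.Lib.MP_651af7_nt.Jn
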