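import Pool.Agent.Lib.MP_651af7_nt.Jn.Defs

/-! Extrapolation of polynomials and intervals on which a polynomial is large. -/

namespace Pool.Agent.Lib.MP_651af7_nt.Jn

open Polynomial Finset
open Pool.Agent.Lib.MP_651af7_nt.Av

variable {k B : Type} [Field k] [CommRing B] [Algebra k B] {v : AbsoluteValue k ℝ}

theorem div_binom {na : Prop} (S : SN B na) (n : ℕ) (s : ℕ → ℤ) (hs : ∀ i, |s i| = 1) {f : ℕ → B}
    {Λ : ℝ} (hΛ : 0 ≤ Λ) (h : ∀ i, i ≤ n → S.N (f i) ≤ Λ) :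
    S.N (∑ i ∈ range (n + 1), (s i * n.choose i) • f i) ≤ 2 ^ n * Λ := by
  have h1 := S.int_sum_le (range (n + 1)) (fun i => s i * n.choose i) hΛ
    fun i hi _ => h i (mem_range_succ_iff.1 hi)
  have h2 : ∑ i ∈ range (n + 1), |((s i * n.choose i : ℤ) : ℝ)| = 2 ^ n := by
    simp only [← Int.cast_abs, abs_mul, hs, one_mul, Nat.abs_cast, Int.cast_natCast]
    exact_mod_cast Nat.sum_range_choose n
  simp only [zsmul_eq_mul]
  refine h1.trans (mul_le_mul_of_nonneg_right ?_ hΛ)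
  rw [h2, E]
  split_ifs
  exacts [one_le_pow₀ one_le_two, le_rfl]

/-- Extrapolation by Newton's formula. -/
theorem div_newton {na : Prop} (S : SN B na) {Q : B[X]} {M : ℕ} (hQ : Q.natDegree ≤ M) {Λ : ℝ}
    (h : ∀ i : ℕ, i ≤ M → S.N (Q.eval (i : B)) ≤ Λ) (n : ℕ) :
    S.N (Q.eval (n : B)) ≤ 2 ^ (n + M) * Λ := by
  have hΛ : 0 ≤ Λ := (S.nonneg _).trans (h 0 M.zero_le)
  have h1 : ∀ i, S.N ((fwdDiff (1 : B))^[i] Q.eval 0) ≤ 2 ^ M * Λ := fun i => by
    by_cases hi : i ≤ M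
    · rw [fwdDiff_iter_eq_sum_shift]
      refine (div_binom S i (fun l => (-1) ^ (i - l)) (fun l => by simp) hΛ fun l hl => ?_).trans
        (mul_le_mul_of_nonneg_right (pow_le_pow_right₀ one_le_two hi) hΛ)
      simpa using h l (hl.trans hi)
    · rw [Polynomial.fwdDiff_iter_eq_zero_of_degree_lt (hQ.trans_lt (not_le.1 hi)), Pi.zero_apply,
        S.zero]
      positivity
  have h2 := shift_eq_sum_fwdDiff_iter (1 : B) Q.eval n 0
  have h3 := div_binom S n (fun _ => 1) (fun _ => abs_one) (by positivity) fun i _ => h1 i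
  simp only [one_mul, natCast_zsmul] at h3
  rw [← h2] at h3
  simpa [pow_add, mul_assoc] using h3

theorem adm_place [NumberField k] (hv : Adm v) (h : ¬IsNonarchimedean v) :
    ∃ φ : k →+* ℂ, ∀ x, v x = ‖φ x‖ := by
  rcases hv with hv | hv
  · obtain ⟨φ, rfl⟩ := NumberField.mem_multisetInfinitePlace.1 hv
    exact ⟨φ, fun _ => rfl⟩
  · exact absurd (Height.AdmissibleAbsValues.isNonarchimedean v hv) h

/-- An archimedean place of a number field induces the usual absolute value. -/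
theorem adm_nat [NumberField k] (hv : Adm v) (h : ¬IsNonarchimedean v) (n : ℕ) : v n = n := by
  obtain ⟨φ, hφ⟩ := adm_place hv h
  simp [hφ]

theorem div_lag (e : ℕ) : ∃ c : ℝ, 0 ≤ c ∧ ∀ y : ℂ[X], y.natDegree ≤ e →
    ∃ z : ℕ, z ≤ e ∧ ∀ t, ‖y.coeff t‖ ≤ c * ‖y.eval (z : ℂ)‖ := by
  let b : ℕ → ℂ[X] := Lagrange.basis (range (e + 1)) Nat.cast
  refine ⟨∑ z ∈ range (e + 1), ∑ t ∈ (b z).support, ‖(b z).coeff t‖, by positivity,
    fun y hy => ?_⟩
  obtain ⟨z, hz, h1⟩ := exists_max_image (range (e + 1)) (fun z => ‖y.eval (z : ℂ)‖)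
    nonempty_range_add_one
  refine ⟨z, mem_range_succ_iff.1 hz, fun t => ?_⟩
  have h2 := Lagrange.eq_interpolate (s := range (e + 1)) (v := (Nat.cast : ℕ → ℂ)) (f := y)
    Nat.cast_injective.injOn (by
      rw [card_range]
      exact degree_le_natDegree.trans_lt (by exact_mod_cast Nat.lt_succ_of_le hy))
  conv_lhs => rw [h2, Lagrange.interpolate_apply, finsetSum_coeff]
  rw [sum_mul]
  refine norm_sum_le_of_le _ fun x hx => ?_
  rw [coeff_C_mul, norm_mul, mul_comm]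
  refine mul_le_mul ?_ (h1 x hx) (norm_nonneg _) (by positivity)
  by_cases ht : t ∈ (b x).support
  · exact single_le_sum (f := fun t => ‖(b x).coeff t‖) (fun _ _ => norm_nonneg _) ht
  · exact (congrArg _ (notMem_support_iff.1 ht)).trans_le (norm_zero.trans_le (by positivity))

theorem div_lip (e : ℕ) : ∃ A : ℝ, 0 ≤ A ∧ ∀ y : ℂ[X], y.natDegree ≤ e → ∀ m z δ : ℝ,
    (∀ t, ‖y.coeff t‖ ≤ m) → 0 ≤ z → z ≤ e → 0 ≤ δ → δ ≤ 1 →
    ‖y.eval ((z + δ : ℝ) : ℂ) - y.eval (z : ℂ)‖ ≤ A * m * δ := by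
  refine ⟨∑ t ∈ range (e + 1), t * (e + 1) ^ (t - 1), by positivity,
    fun y hy m z δ hm z0 z1 d0 d1 => ?_⟩
  have m0 : 0 ≤ m := (norm_nonneg _).trans (hm 0)
  rw [eval_eq_sum_range' (Nat.lt_succ_of_le hy), eval_eq_sum_range' (Nat.lt_succ_of_le hy),
    ← sum_sub_distrib, sum_mul, sum_mul]
  refine norm_sum_le_of_le _ fun t _ => ?_
  rw [← mul_sub, norm_mul, ← Complex.ofReal_pow, ← Complex.ofReal_pow, ← Complex.ofReal_sub,
    Complex.norm_real, Real.norm_eq_abs]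
  have h1 := abs_pow_sub_pow_le (z + δ) z t
  rw [add_sub_cancel_left, abs_of_nonneg d0, abs_of_nonneg z0, abs_of_nonneg (add_nonneg z0 d0),
    max_eq_left (le_add_of_nonneg_right d0)] at h1
  have h2 : (z + δ) ^ (t - 1) ≤ (e + 1) ^ (t - 1) :=
    pow_le_pow_left₀ (add_nonneg z0 d0) (add_le_add z1 d1) _
  refine (mul_le_mul (hm t) (h1.trans (mul_le_mul_of_nonneg_left h2 (by positivity)))
    (abs_nonneg _) m0).trans_eq (by ring)

/-- An interval on which `y` is large. -/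
theorem div_node (k : Type) [Field k] [NumberField k] (e : ℕ) : ∃ L : ℕ, 1 ≤ L ∧
    ∀ v : AbsoluteValue k ℝ, Adm v → ¬IsNonarchimedean v → ∀ y : k[X], y.natDegree ≤ e →
      ∃ z : ℕ, z ≤ e ∧ ∀ i n : ℕ, 0 < n → i ≤ n → ∀ t,
        v (y.coeff t) ≤ L * v (y.eval ((z : k) + i / (L * n))) := by
  obtain ⟨c, c0, hc⟩ := div_lag e
  obtain ⟨A, A0, hA⟩ := div_lip e
  obtain ⟨L, hL⟩ := exists_nat_ge (2 * (A * c) + 2 * c + 1)
  have p0 := mul_nonneg A0 c0
  have L1 : (1 : ℝ) ≤ L := by linarith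
  refine ⟨L, by exact_mod_cast L1, fun v hv h y hy => ?_⟩
  obtain ⟨φ, hφ⟩ := adm_place hv h
  have h0 := (natDegree_map_le (f := φ)).trans hy
  obtain ⟨z, hz, h1⟩ := hc _ h0
  refine ⟨z, hz, fun i n hn hi t => ?_⟩
  have n0 : (0 : ℝ) < n := Nat.cast_pos.2 hn
  have d1 : (i / (L * n) : ℝ) * L ≤ 1 := by
    rw [div_mul_eq_mul_div, div_le_one (by positivity), mul_comm]
    exact mul_le_mul_of_nonneg_left (Nat.cast_le.2 hi) (by positivity)
  have d0 : (0 : ℝ) ≤ i / (L * n) := by positivity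
  have h2 := hA _ h0 _ z (i / (L * n)) h1 z.cast_nonneg (Nat.cast_le.2 hz) d0
    ((le_mul_of_one_le_right d0 L1).trans d1)
  have e1 : φ ((z : k) + i / (L * n)) = ((z + i / (L * n) : ℝ) : ℂ) := by simp
  rw [hφ, hφ, ← coeff_map, ← eval₂_hom, ← eval_map, e1]
  have h3 := norm_sub_norm_le ((y.map φ).eval (z : ℂ)) ((y.map φ).eval ((z + i / (L * n) : ℝ) : ℂ))
  rw [norm_sub_rev] at h3
  rw [Complex.ofReal_natCast] at h2
  refine (h1 t).trans ?_
  generalize ‖(y.map φ).eval ((z + i / (L * n) : ℝ) : ℂ) - (y.map φ).eval (z : ℂ)‖ = a at h2 h3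
  have w0 := norm_nonneg ((y.map φ).eval (z : ℂ))
  have w1 := norm_nonneg ((y.map φ).eval ((z + i / (L * n) : ℝ) : ℂ))
  generalize ‖(y.map φ).eval ((z + i / (L * n) : ℝ) : ℂ)‖ = x at h3 w1 ⊢
  generalize ‖(y.map φ).eval (z : ℂ)‖ = m at h2 h3 w0 ⊢
  generalize (i / (L * n) : ℝ) = δ at h2 d0 d1
  have h4 : 2 * (A * c) * δ ≤ 1 :=
    (mul_le_mul_of_nonneg_right (by linarith) d0).trans ((mul_comm _ _).trans_le d1)
  have h5 : m ≤ 2 * x := by nlinarith [mul_le_mul_of_nonneg_right h4 w0]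
  nlinarith [mul_le_mul_of_nonneg_left h5 c0]

end Pool.Agent.Lib.MP_651af7_nt.Jn
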