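import Pool.Agent.Lib.MP_651af7_nt.Jn.Defs
import Pool.Agent.Lib.MP_651af7_nt.Cn.EIndA

/-! Algebraically independent coordinates. Model: `Cn/EIndA`. -/

namespace Pool.Agent.Lib.MP_651af7_nt.Jn

open MvPolynomial Finset
open Pool.Agent.Lib.MP_651af7_nt.Av Pool.Agent.Lib.MP_651af7_nt.Av.AV

variable {k ι₁ ι₂ F : Type} [Field k] [Fintype ι₁] [Fintype ι₂] [Field F] [Algebra k F]
  {A₁ : AV k ι₁} {A₂ : AV k ι₂} {g : ℕ}

omit [Fintype ι₁] in
theorem inda_rat {L : IntermediateField k F} {y : ι₁ → F} {c : F} (hc : c ≠ 0)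
    (h : ∀ a, y a / c ∈ L) : rat y ⊆ L := by
  rintro _ ⟨x, rfl⟩
  have := L.div_mem (h x.1) (h x.2)
  rwa [div_div_div_cancel_right₀ hc] at this

/-- The ratios of an arm lie in a closed field with those of the centre and the difference. -/
theorem inda_arm (A : AV k ι₁) {L : IntermediateField k F}
    (h1 : ∀ {S : Set F}, S ⊆ L → (AlgebraicIndependent.matroid k F).closure S ⊆ L)
    {P Q : A.Pt F} (hP : rat P.co ⊆ L) (n : ℕ) (hQ : rat (Q - 2 ^ n • P).co ⊆ L) :
    rat Q.co ⊆ L := by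
  have h3 : ∀ P Q : A.Pt F, rat P.co ⊆ L → rat Q.co ⊆ L → rat (P + Q).co ⊆ L := fun P Q hP hQ =>
    (A.rat_add_sub (K := k) P Q).1.trans (h1 (Set.union_subset hP hQ))
  have h4 : ∀ n : ℕ, rat (2 ^ n • P).co ⊆ L := fun n => by
    induction n with
    | zero => rwa [pow_zero, one_smul]
    | succ n ih =>
      rw [pow_succ, mul_two, add_smul]
      exact h3 _ _ ih ih
  have h7 := h3 _ _ hQ (h4 n)
  rwa [sub_add_cancel] at h7

/-- Sketch. `w o` is the point of the cover, `Z o` the fibre coordinate, `x o = (Z o * v, v')`.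
`Cn.einda_span` for the vector `x none` gives `q₀`, and for the normalised products of the
coordinates of the differences it gives `fr`. Let `L` be the closure of these elements `z`. It
contains `x none`, the ratios of the differences, hence those of the arms, hence all `w o` and
`Z none`; `Z (some i)` lies in `L (x (some i) (.inl (k₂ i)))`. So the independent family `Z, t` lies
in the closure of a family of the same size. -/
theorem exists_indep {I : Type} [Fintype I] (j : I → ℕ) {p₁ : Option I → A₁.Pt F}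
    {p₂ : Option I → A₂.Pt F} {w x : Option I → ι₁ ⊕ ι₂ → F} {Z : Option I → F}
    (h₁ : ∀ o, Rep (p₁ o) fun c => w o (.inl c)) (h₂ : ∀ o, Rep (p₂ o) fun c => w o (.inr c))
    (hx₁ : ∀ o c, x o (.inl c) = Z o * w o (.inl c)) (hx₂ : ∀ o c, x o (.inr c) = w o (.inr c))
    {b : Option I → ι₂} (hb : ∀ o, w o (.inr (b o)) = 1) {J : Option I → Fin g → ι₁ ⊕ ι₂}
    (ht : AlgebraicIndependent k fun s : Option I × Fin (g + 1) =>
      (Fin.cons (Z s.1) fun l => w s.1 (J s.1 l) : Fin (g + 1) → F) s.2)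
    (ha : ∀ c, w none c ∈ (AlgebraicIndependent.matroid k F).closure
      (Set.range fun l => w none (J none l)))
    (halg : ∀ o a, w o (.inl a) ∈ (AlgebraicIndependent.matroid k F).closure
      (rat (fun a => w o (.inl a)) ∪ Set.range fun b => w o (.inr b)))
    (hcos : ∀ i, td k (rat (p₁ (some i) - 2 ^ j i • p₁ none).co ∪
      rat (p₂ (some i) - 2 ^ j i • p₂ none).co) ≤ g)
    {k₂ : I → ι₁} (hk : ∀ i, w (some i) (.inl (k₂ i)) ≠ 0) :
    ∃ (q₀ : Fin (g + 1) → ι₁ ⊕ ι₂) (fr : I → Fin (g + 1) → ι₁ × ι₂) (L : IntermediateField k F),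
      (∀ i, (p₁ (some i) - 2 ^ j i • p₁ none).co (fr i 0).1 ≠ 0) ∧
      (∀ i, (p₂ (some i) - 2 ^ j i • p₂ none).co (fr i 0).2 ≠ 0) ∧
      AlgebraicIndependent L (fun i => x (some i) (.inl (k₂ i))) ∧
      AlgebraicIndependent k (Sum.elim (fun l => x none (q₀ l)) fun s : I × Fin g =>
        (p₁ (some s.1) - 2 ^ j s.1 • p₁ none).co (fr s.1 s.2.succ).1 /
          (p₁ (some s.1) - 2 ^ j s.1 • p₁ none).co (fr s.1 0).1 *
        ((p₂ (some s.1) - 2 ^ j s.1 • p₂ none).co (fr s.1 s.2.succ).2 /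
          (p₂ (some s.1) - 2 ^ j s.1 • p₂ none).co (fr s.1 0).2)) ∧
      (∀ c, x none c ∈ L) ∧ ∀ i c, w (some i) c ∈ L := by
  have hZ : Z none ≠ 0 := ht.ne_zero (none, 0)
  obtain ⟨q₀, hq⟩ := Cn.einda_span (k := k) (g := g + 1) (x none) (.inr (b none)) (by
    obtain ⟨L, hL, hS⟩ := tr_cl (K := k) (insert (Z none) (Set.range fun l => w none (J none l)))
    have h3 : ∀ c, w none c ∈ L := fun c => hL.ge
      (Matroid.closure_subset_closure _ (Set.subset_insert _ _) (ha c))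
    refine (tr_td_le (S := insert (Z none) (Set.range fun l => w none (J none l))) ?_).trans
      ((td_insert_le _ _).trans ?_)
    · rw [← hL]
      rintro _ ⟨c | c, rfl⟩
      · rw [hx₁]
        exact L.mul_mem (hS (Set.mem_insert _ _)) (h3 _)
      · rw [hx₂]
        exact h3 _
    · rw [Nat.cast_succ]
      gcongr
      refine (Matroid.eRk_le_encard _ _).trans ?_
      rw [← Set.image_univ]
      exact (Set.encard_image_le _ _).trans (by simp))
  choose a₀ h0 using fun i => (rep_co (p₁ (some i) - 2 ^ j i • p₁ none)).unit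
  replace h0 := fun i => (h0 i).ne_zero
  choose b₀ k0 using fun i => (rep_co (p₂ (some i) - 2 ^ j i • p₂ none)).unit
  replace k0 := fun i => (k0 i).ne_zero
  choose f hf using fun i => Cn.einda_span (k := k) (g := g) (fun c : ι₁ × ι₂ =>
    (p₁ (some i) - 2 ^ j i • p₁ none).co c.1 / (p₁ (some i) - 2 ^ j i • p₁ none).co (a₀ i) *
      ((p₂ (some i) - 2 ^ j i • p₂ none).co c.2 / (p₂ (some i) - 2 ^ j i • p₂ none).co (b₀ i)))
    (a₀ i, b₀ i) (by
      refine (tr_td_le ?_).trans (hcos i)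
      obtain ⟨L, hL, hS⟩ := tr_cl (K := k) (rat (p₁ (some i) - 2 ^ j i • p₁ none).co ∪
        rat (p₂ (some i) - 2 ^ j i • p₂ none).co)
      rw [← hL]
      rintro _ ⟨c, rfl⟩
      exact L.mul_mem (hS (.inl ⟨(c.1, a₀ i), rfl⟩)) (hS (.inr ⟨(c.2, b₀ i), rfl⟩)))
  set z : Fin (g + 1) ⊕ I × Fin g → F := Sum.elim (fun l => x none (q₀ l)) fun s =>
    (p₁ (some s.1) - 2 ^ j s.1 • p₁ none).co (f s.1 s.2).1 /
      (p₁ (some s.1) - 2 ^ j s.1 • p₁ none).co (a₀ s.1) *
    ((p₂ (some s.1) - 2 ^ j s.1 • p₂ none).co (f s.1 s.2).2 /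
      (p₂ (some s.1) - 2 ^ j s.1 • p₂ none).co (b₀ s.1)) with hz
  obtain ⟨L, hL, hS⟩ := tr_cl (K := k) (Set.range z)
  have h1 : ∀ {S : Set F}, S ⊆ L → (AlgebraicIndependent.matroid k F).closure S ⊆ L := fun hS' =>
    hL ▸ Matroid.closure_subset_closure_of_subset_closure (hL ▸ hS')
  have h2 : ∀ c, x none c ∈ L := fun c => h1 (by
    rintro _ ⟨l, rfl⟩
    exact hS ⟨.inl l, rfl⟩) (hq c)
  have h3 : ∀ i (c : ι₁ × ι₂), (p₁ (some i) - 2 ^ j i • p₁ none).co c.1 /
      (p₁ (some i) - 2 ^ j i • p₁ none).co (a₀ i) * ((p₂ (some i) - 2 ^ j i • p₂ none).co c.2 /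
        (p₂ (some i) - 2 ^ j i • p₂ none).co (b₀ i)) ∈ L := fun i c => h1 (by
    rintro _ ⟨l, rfl⟩
    exact hS ⟨.inr (i, l), rfl⟩) (hf i c)
  have r₁ : rat (p₁ none).co ⊆ L := by
    rw [A₁.tr_rat_rep (h₁ none)]
    refine inda_rat (inv_ne_zero hZ) fun a => ?_
    rw [div_inv_eq_mul, mul_comm, ← hx₁]
    exact h2 _
  have r₂ : rat (p₂ none).co ⊆ L := by
    rw [A₂.tr_rat_rep (h₂ none)]
    refine inda_rat one_ne_zero fun a => ?_
    rw [div_one, ← hx₂]
    exact h2 _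
  have s₁ : ∀ o, rat (p₁ o).co ⊆ L := by
    rintro (_ | i)
    · exact r₁
    · exact inda_arm A₁ h1 r₁ (j i) (inda_rat (h0 i) fun a => by
        simpa only [div_self (k0 i), mul_one] using h3 i (a, b₀ i))
  have s₂ : ∀ o, rat (p₂ o).co ⊆ L := by
    rintro (_ | i)
    · exact r₂
    · exact inda_arm A₂ h1 r₂ (j i) (inda_rat (k0 i) fun a => by
        simpa only [div_self (h0 i), one_mul] using h3 i (a₀ i, a))
  have h4 : ∀ o c, w o (.inr c) ∈ L := fun o c => by
    have := (A₂.tr_rat_rep (h₂ o)).ge.trans (s₂ o) ⟨(c, b o), rfl⟩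
    simpa only [hb, div_one, SetLike.mem_coe] using this
  have h5 : ∀ o c, w o c ∈ L := by
    rintro o (c | c)
    · refine h1 (Set.union_subset ((A₁.tr_rat_rep (h₁ o)).ge.trans (s₁ o)) ?_) (halg o c)
      rintro _ ⟨c, rfl⟩
      exact h4 o c
    · exact h4 o c
  obtain ⟨L', hL', hS'⟩ := tr_cl (K := k)
    (Set.range (Sum.elim (fun i => x (some i) (.inl (k₂ i))) z))
  have h6 : (L : Set F) ⊆ L' := by
    rw [hL, hL']
    refine Matroid.closure_subset_closure _ ?_
    rintro _ ⟨x, rfl⟩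
    exact ⟨.inr x, rfl⟩
  have h8 : ∀ o, Z o ∈ L' := by
    rintro (_ | i)
    · obtain ⟨a, e⟩ := (h₁ none).unit
      rw [eq_div_of_mul_eq e.ne_zero (hx₁ none a).symm]
      exact h6 (L.div_mem (h2 _) (h5 _ _))
    · rw [eq_div_of_mul_eq (hk i) (hx₁ (some i) (k₂ i)).symm]
      exact L'.div_mem (hS' ⟨.inl i, rfl⟩) (h6 (h5 _ _))
  have h7 := AlgebraicIndependent.sumElim_iff.1 (Cn.indep_of_span
    (z := Sum.elim (fun i => x (some i) (.inl (k₂ i))) z) ht (by simp; ring_nf; omega) (by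
      rw [← hL']
      rintro ⟨o, l⟩
      induction l using Fin.cases with
      | zero => exact h8 o
      | succ l => exact h6 (h5 o (J o l))))
  refine ⟨q₀, fun i => Fin.cons (a₀ i, b₀ i) (f i), L, h0, k0, ?_, h7.1, h2, fun i => h5 _⟩
  let _ : Algebra (Algebra.adjoin k (Set.range z)) L :=
    (Subalgebra.inclusion (T := L.toSubalgebra) (Algebra.adjoin_le hS)).toAlgebra
  have : IsScalarTower (Algebra.adjoin k (Set.range z)) L F := .of_algebraMap_eq fun _ => rfl
  have : Algebra.IsAlgebraic (Algebra.adjoin k (Set.range z)) L := ⟨fun x =>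
    (isAlgebraic_algebraMap_iff (algebraMap L F).injective).1
      ((hL.trans AlgebraicIndependent.matroid_closure_eq).le x.2)⟩
  exact h7.2.extendScalars L

end Pool.Agent.Lib.MP_651af7_nt.Jn
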