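import Pool.Agent.Lib.MP_651af7_nt.Jn.Defs
import Pool.Agent.Lib.MP_651af7_nt.Cn.EIndB

/-! The monomial form of the basic sections of one arm. Model: `Cn/EIndB`. -/

namespace Pool.Agent.Lib.MP_651af7_nt.Jn

open MvPolynomial Finset
open Pool.Agent.Lib.MP_651af7_nt.Av Pool.Agent.Lib.MP_651af7_nt.Av.AV

variable {k ι ι₁ ι₂ F : Type} [Field k] [Fintype ι₁] [Fintype ι₂] [Field F] [Algebra k F]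
  {A : AV k ι} {A₁ : AV k ι₁} {A₂ : AV k ι₂} {g : ℕ}

/-- One factor: the far point over its denominator, and the ratios of the difference. -/
theorem mon_one (L : IntermediateField k F) {p p' : A.Pt F} {v y : ι → F}
    (hv : Rep p v) (hy : Rep p' y) (σ : ℕ) {fr : Fin (g + 1) → ι} {k₀ k₂ : ι} {a : ι × ι × ι}
    (hk : v k₂ ≠ 0) (hvL : ∀ c, v c / v k₂ ∈ L) (hyL : ∀ c, y c ∈ L)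
    (h1 : (p - p').co (fr 0) ≠ 0) (h2 : (p + 2 ^ σ • (p - p')).co k₀ ≠ 0)
    (h3 : (p + p').co a.1 ≠ 0) (h4 : y a.2.1 ≠ 0) (h5 : v a.2.2 ≠ 0) :
    ∃ ω ∈ L, ω ≠ 0 ∧ (∀ l, (p - p').co (fr l) / (p - p').co (fr 0) ∈ L) ∧
      A.ph a.1 (fr 0) v y ≠ 0 ∧ nM A σ (fr 0) a y v ≠ 0 ∧
      (∀ b, (p - p').co b / (p - p').co (fr 0) = A.ph a.1 b v y / A.ph a.1 (fr 0) v y) ∧
      nN A σ k₀ a y v = nM A σ (fr 0) a y v * (ω * v k₂ ^ (2 ^ σ + 1)) := by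
  obtain ⟨-, -, -, hL, -⟩ := Cn.arm'_mon L hv hy σ hk hvL hyL h1 h2 h3 h4 h5
  obtain ⟨ω, ωL, ω0, -, hc⟩ :=
    Cn.arm'_mon (g := 0) (fr := fun _ => fr 0) L hv hy σ hk hvL hyL h1 h2 h3 h4 h5
  obtain ⟨c, c0, hc⟩ := hc 1
  obtain ⟨Y, Ω, ⟨u, hY⟩, -, e1, -⟩ := Cn.far_eq hv hy (rep_co (p + p')) σ
  have e0 := hc (fun l => l.elim0, 0, 0)
  have e2 := hc (fun l => l.elim0, Fin.last 1, 0)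
  simp only [Cn.arm', bx, univ_eq_empty, prod_empty, Fin.val_zero, Fin.val_last, pow_zero, one_pow,
    one_mul, mul_one, Nat.sub_zero, Nat.sub_self, pow_one, zero_mul, add_zero] at e0 e2
  have eM : nM A σ (fr 0) a y v = c := e0
  refine ⟨ω, ωL, ω0, hL, ?_, eM ▸ c0, fun b => ?_, eM ▸ e2⟩
  · rw [e1, hY]
    exact mul_ne_zero h3 (mul_ne_zero u.ne_zero h1)
  · rw [e1, e1, hY, hY, mul_div_mul_left _ _ h3, mul_div_mul_left _ _ u.ne_zero]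

/-- One arm. `Cn.arm'_mon` with `g = 0`, `n = 1` gives `nN = nM * (ω * v k₂ ^ (q + 1))` with
`ω ∈ L` for each factor (for the second factor `v₂ k₂.2 = 1`); `Cn.far_eq` for the ratios. -/
theorem arm'_mon (L : IntermediateField k F) {p₁ p₁' : A₁.Pt F} {p₂ p₂' : A₂.Pt F}
    {v₁ y₁ : ι₁ → F} {v₂ y₂ : ι₂ → F} (hv₁ : Rep p₁ v₁) (hy₁ : Rep p₁' y₁) (hv₂ : Rep p₂ v₂)
    (hy₂ : Rep p₂' y₂) (σ : ℕ) {fr : Fin (g + 1) → ι₁ × ι₂} {k₀ k₂ : ι₁ × ι₂} {a : Pr ι₁ ι₂}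
    (hk₁ : v₁ k₂.1 ≠ 0) (hk₂ : v₂ k₂.2 = 1) (l₁ : ∀ c, v₁ c / v₁ k₂.1 ∈ L) (l₂ : ∀ c, v₂ c ∈ L)
    (l₃ : ∀ c, y₁ c ∈ L) (l₄ : ∀ c, y₂ c ∈ L)
    (a₁ : (p₁ - p₁').co (fr 0).1 ≠ 0) (a₂ : (p₁ + 2 ^ σ • (p₁ - p₁')).co k₀.1 ≠ 0)
    (a₃ : (p₁ + p₁').co a.1.1 ≠ 0) (a₄ : y₁ a.1.2.1 ≠ 0) (a₅ : v₁ a.1.2.2 ≠ 0)
    (b₁ : (p₂ - p₂').co (fr 0).2 ≠ 0) (b₂ : (p₂ + 2 ^ σ • (p₂ - p₂')).co k₀.2 ≠ 0)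
    (b₃ : (p₂ + p₂').co a.2.1 ≠ 0) (b₄ : y₂ a.2.2.1 ≠ 0) (b₅ : v₂ a.2.2.2 ≠ 0) :
    ∃ ω ∈ L, ω ≠ 0 ∧ (∀ l, (p₁ - p₁').co (fr l).1 / (p₁ - p₁').co (fr 0).1 *
        ((p₂ - p₂').co (fr l).2 / (p₂ - p₂').co (fr 0).2) ∈ L) ∧
      ∀ n, ∃ c : F, c ≠ 0 ∧ ∀ τ : Cn.Tm g (2 ^ σ) n, arm' A₁ A₂ σ n fr k₀ k₂ a τ y₁ v₁ y₂ v₂ =
        c * ((∏ l : Fin g, ((p₁ - p₁').co (fr l.succ).1 / (p₁ - p₁').co (fr 0).1 *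
            ((p₂ - p₂').co (fr l.succ).2 / (p₂ - p₂').co (fr 0).2)) ^ (τ.1 l : ℕ)) *
          ω ^ (τ.2.1 : ℕ) * v₁ k₂.1 ^ ((τ.2.1 : ℕ) * (2 ^ σ + 1) + τ.2.2)) := by
  obtain ⟨ω₁, ωL₁, ω0₁, hL₁, P₁, M₁, z₁, e₁⟩ :=
    mon_one (fr := fun l => (fr l).1) L hv₁ hy₁ σ hk₁ l₁ l₃ a₁ a₂ a₃ a₄ a₅
  obtain ⟨ω₂, ωL₂, ω0₂, hL₂, P₂, M₂, z₂, e₂⟩ :=
    mon_one (fr := fun l => (fr l).2) (k₂ := k₂.2) L hv₂ hy₂ σ (hk₂ ▸ one_ne_zero)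
      (fun c => by rw [hk₂, div_one]; exact l₂ c) l₄ b₁ b₂ b₃ b₄ b₅
  refine ⟨ω₁ / ω₂, div_mem ωL₁ ωL₂, div_ne_zero ω0₁ ω0₂, fun l => mul_mem (hL₁ l) (hL₂ l),
    fun n => ?_⟩
  obtain ⟨P, hP⟩ : ∃ P : F, P = A₁.ph a.1.1 (fr 0).1 v₁ y₁ * A₂.ph a.2.1 (fr 0).2 v₂ y₂ := ⟨_, rfl⟩
  have P0 : P ≠ 0 := hP ▸ mul_ne_zero P₁ P₂
  obtain ⟨E, hE⟩ : ∃ E : F, E = nM A₁ σ (fr 0).1 a.1 y₁ v₁ * nM A₂ σ (fr 0).2 a.2 y₂ v₂ * ω₂ :=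
    ⟨_, rfl⟩
  have E0 : E ≠ 0 := hE ▸ mul_ne_zero (mul_ne_zero M₁ M₂) ω0₂
  refine ⟨P ^ (g * ((2 ^ σ) ^ 2 * n)) * E ^ n, mul_ne_zero (pow_ne_zero _ P0) (pow_ne_zero _ E0),
    fun τ => ?_⟩
  have eb : bx (fun l => A₁.ph a.1.1 (fr l).1 v₁ y₁ * A₂.ph a.2.1 (fr l).2 v₂ y₂) τ.1 =
      P ^ (g * ((2 ^ σ) ^ 2 * n)) *
        ∏ l : Fin g, ((p₁ - p₁').co (fr l.succ).1 / (p₁ - p₁').co (fr 0).1 *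
          ((p₂ - p₂').co (fr l.succ).2 / (p₂ - p₂').co (fr 0).2)) ^ (τ.1 l : ℕ) := by
    have h := bx_mul P
      (fun l => A₁.ph a.1.1 (fr l).1 v₁ y₁ * A₂.ph a.2.1 (fr l).2 v₂ y₂ / P) τ.1
    simp only [mul_div_cancel₀ _ P0] at h
    rw [h, bx]
    simp only [z₁, z₂, div_mul_div_comm, ← hP, div_self P0, one_pow, mul_one]
  have en : E ^ n = E ^ (τ.2.1 : ℕ) * E ^ (n - (τ.2.1 : ℕ)) := by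
    rw [← pow_add, Nat.add_sub_cancel' τ.2.1.is_le]
  have f₁ : nN A₁ σ k₀.1 a.1 y₁ v₁ * nM A₂ σ (fr 0).2 a.2 y₂ v₂ =
      E * (ω₁ / ω₂ * v₁ k₂.1 ^ (2 ^ σ + 1)) := by
    rw [e₁, hE]
    field_simp
  have f₂ : nM A₁ σ (fr 0).1 a.1 y₁ v₁ * nN A₂ σ k₀.2 a.2 y₂ v₂ = E := by
    rw [e₂, hE, hk₂, one_pow, mul_one, mul_assoc]
  rw [arm', eb, f₁, f₂, en, hk₂]
  generalize ω₁ / ω₂ = w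
  generalize n - (τ.2.1 : ℕ) = m
  simp only [one_pow, mul_one, mul_pow]
  ring

end Pool.Agent.Lib.MP_651af7_nt.Jn
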