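import Pool.Agent.Lib.MP_651af7_nt.Jn.Pres
import Pool.Agent.Lib.MP_651af7_nt.Jn.Ind
import Pool.Agent.Lib.MP_651af7_nt.Jn.Mon

/-! The section does not vanish on the branches. Model: `Cn.exists_frame`. -/

namespace Pool.Agent.Lib.MP_651af7_nt.Jn

open MvPolynomial Finset
open Pool.Agent.Lib.MP_651af7_nt.Av Pool.Agent.Lib.MP_651af7_nt.Av.AV

variable {k ι₁ ι₂ : Type} [Field k] [CharZero k] [Fintype ι₁] [Fintype ι₂] {A₁ : AV k ι₁}
  {A₂ : AV k ι₂} {g e d r : ℕ} {Y : Fix A₁ A₂ g e d r}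

omit [Fintype ι₁] [Fintype ι₂] in
/-- `jac_indep'`, as `Cn.eframe_indep`. -/
theorem frame_indep {O : Type} [Fintype O] {b : O → Blk A₁ A₂ g}
    {ξ : O → ι₁ ⊕ ι₂ → MvPowerSeries (Fin g) k} (hξ : ∀ o, (b o).C.Br (b o).w (ξ o)) :
    AlgebraicIndependent k fun s : O × Fin (g + 1) =>
      (Fin.cons (1 + MvPowerSeries.X (s.1, 0)) fun l => xe ξ s.1 ((b s.1).C.I l) :
        Fin (g + 1) → MvPowerSeries (O × Fin (g + 1)) k) s.2 := by
  classical
  refine jac_indep' ?_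
  have e : (fun (s t : O × Fin (g + 1)) => MvPowerSeries.coeff (Finsupp.single t 1)
      ((Fin.cons (1 + MvPowerSeries.X (s.1, 0)) fun l => xe ξ s.1 ((b s.1).C.I l) :
        Fin (g + 1) → MvPowerSeries (O × Fin (g + 1)) k) s.2)) = fun s => Pi.single s (1 : k) := by
    funext ⟨o, l⟩ t
    induction l using Fin.cases with
    | zero =>
      rw [Fin.cons_zero, map_add, MvPowerSeries.coeff_one, if_neg (by simp), zero_add,
        MvPowerSeries.coeff_X, Pi.single_apply]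
      exact if_congr (Finsupp.single_left_inj one_ne_zero) rfl rfl
    | succ l =>
      rw [Fin.cons_succ, xe, (hξ _).coord, map_add, MvPowerSeries.rename_C, MvPowerSeries.rename_X,
        map_add, MvPowerSeries.coeff_C, if_neg (by simp), zero_add, MvPowerSeries.coeff_X,
        Pi.single_apply]
      exact if_congr (Finsupp.single_left_inj one_ne_zero) rfl rfl
  rw [e]
  exact Pi.linearIndependent_single_one _ _

omit [CharZero k] [Fintype ι₁] [Fintype ι₂] in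
theorem frame_one {O : Type} {b : O → Blk A₁ A₂ g}
    {ξ : O → ι₁ ⊕ ι₂ → MvPowerSeries (Fin g) k} (hξ : ∀ o, (b o).C.Br (b o).w (ξ o)) (o : O) :
    xe ξ o (b o).C.a₀ = 1 := by
  have h := (hξ o).eqn (b o).C.a₀ fun ⟨l, hl⟩ => (b o).C.ne l hl
  rw [(b o).C.φ₀, map_sub, aeval_X, map_one, sub_eq_zero] at h
  rw [xe, h, map_one]

/-- The argument over a field. -/
theorem frame_field {F : Type} [Field F] [Algebra k F] {β : Type} [Fintype β] [DecidableEq β]
    {m : ℕ} (Y : Fix A₁ A₂ g e d r) (σ : ℕ) (j : Fin m × β → ℕ)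
    {p₁ : Option (Fin m × β) → A₁.Pt F} {p₂ : Option (Fin m × β) → A₂.Pt F}
    {w x : Option (Fin m × β) → ι₁ ⊕ ι₂ → F} {Z : Option (Fin m × β) → F}
    (h₁ : ∀ o, Rep (p₁ o) fun c => w o (.inl c)) (h₂ : ∀ o, Rep (p₂ o) fun c => w o (.inr c))
    (h₃ : ∀ o, Rep (p₁ o) fun c => x o (.inl c)) (h₄ : ∀ o, Rep (p₂ o) fun c => x o (.inr c))
    (hx₁ : ∀ o c, x o (.inl c) = Z o * w o (.inl c)) (hx₂ : ∀ o c, x o (.inr c) = w o (.inr c))
    {b : Option (Fin m × β) → ι₂} (hb : ∀ o, w o (.inr (b o)) = 1)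
    {J : Option (Fin m × β) → Fin g → ι₁ ⊕ ι₂}
    (ht : AlgebraicIndependent k fun s : Option (Fin m × β) × Fin (g + 1) =>
      (Fin.cons (Z s.1) fun l => w s.1 (J s.1 l) : Fin (g + 1) → F) s.2)
    (ha : ∀ c, w none c ∈ (AlgebraicIndependent.matroid k F).closure
      (Set.range fun l => w none (J none l))) (hz : ∀ o, ∀ f ∈ Y.p, aeval (w o) f = 0) :
    ∃ (ch : Ch ι₁ ι₂ (Fin m × β) g) (a : Fin m × β → Pr ι₁ ι₂),
      ∀ n₀ n rd (c : (cfg Y σ n₀ n j ch rd).Co), c ≠ 0 → (cfg Y σ n₀ n j ch rd).FF c a x ≠ 0 := by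
  classical
  have hn : ∀ o, Gn k g (w o) := fun o => ⟨⟨b o, hb o⟩, J o,
    ht.comp (fun l : Fin g => (o, l.succ)) fun _ _ h => by simpa using h⟩
  choose k₂ hk using fun i => (h₃ (some i)).unit
  have hk' : ∀ i, Z (some i) ≠ 0 ∧ w (some i) (.inl (k₂ i)) ≠ 0 := fun i =>
    mul_ne_zero_iff.1 ((hx₁ _ _).symm.trans_ne (hk i).ne_zero)
  obtain ⟨q₀, fr, L, f1, f2, f3, f4, f5, f6⟩ := exists_indep j h₁ h₂ hx₁ hx₂ hb ht ha
    (fun o => Y.alg F _ (hz o) (hn o))
    (fun i => Y.cos F _ _ (hz (some i)) (hz none) _ _ _ _ (h₁ _) (h₂ _) (h₁ _) (h₂ _) (j i))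
    fun i => (hk' i).2
  have hy₁ := fun i => (h₃ none).dbn (j i)
  have hy₂ := fun i => (h₄ none).dbn (j i)
  have hL₁ : ∀ i c, A₁.dbn (fun c => x none (.inl c)) (j i) c ∈ L := fun i c =>
    A₁.map_dbn L.val (fun a => ⟨_, f5 (.inl a)⟩) (j i) c ▸ Subtype.property _
  have hL₂ : ∀ i c, A₂.dbn (fun c => x none (.inr c)) (j i) c ∈ L := fun i c =>
    A₂.map_dbn L.val (fun a => ⟨_, f5 (.inr a)⟩) (j i) c ▸ Subtype.property _
  choose k₀ h0 using fun i =>
    (rep_co (p₁ (some i) + 2 ^ σ • (p₁ (some i) - 2 ^ j i • p₁ none))).unit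
  choose k₀' h0' using fun i =>
    (rep_co (p₂ (some i) + 2 ^ σ • (p₂ (some i) - 2 ^ j i • p₂ none))).unit
  choose a₁ h1 using fun i => (rep_co (p₁ (some i) + 2 ^ j i • p₁ none)).unit
  choose a₁' h1' using fun i => (rep_co (p₂ (some i) + 2 ^ j i • p₂ none)).unit
  choose a₂ h2 using fun i => (hy₁ i).unit
  choose a₂' h2' using fun i => (hy₂ i).unit
  have hone : ∀ o, x o (.inr (b o)) = 1 := fun o => (hx₂ _ _).trans (hb o)
  choose ω w1 w2 w3 u u1 u2 using fun i => arm'_mon (g := g) L (h₃ (some i)) (hy₁ i) (h₄ (some i))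
    (hy₂ i) σ (fr := fr i) (k₀ := (k₀ i, k₀' i)) (k₂ := (k₂ i, b (some i)))
    (a := ((a₁ i, a₂ i, k₂ i), a₁' i, a₂' i, b (some i))) (hk i).ne_zero (hone _)
    (fun c => by
      rw [hx₁, hx₁, mul_div_mul_left _ _ (hk' i).1]
      exact div_mem (f6 i _) (f6 i _))
    (fun c => Set.mem_of_eq_of_mem (hx₂ _ _) (f6 i _)) (hL₁ i) (hL₂ i) (f1 i) (h0 i).ne_zero
    (h1 i).ne_zero (h2 i).ne_zero (hk i).ne_zero (f2 i) (h0' i).ne_zero (h1' i).ne_zero
    (h2' i).ne_zero ((hone _).trans_ne one_ne_zero)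
  refine ⟨⟨Fin.cons (.inr (b none)) q₀, fr, fun i => (k₀ i, k₀' i),
    fun i => (k₂ i, b (some i))⟩, fun i => ((a₁ i, a₂ i, k₂ i), a₁' i, a₂' i, b (some i)),
    fun n₀ n rd c hc h4 => hc ?_⟩
  have H := (Cn.lin_mon (q := 2 ^ σ) n₀ n L f3 f4 (fun l => f5 _)
    (fun x => w3 x.1 x.2.succ) w1 w2).comp
    (fun x : Bx (g + 1) n₀ × ∀ q, Cn.TT (fun i => Cn.Tm g (2 ^ σ) (n i)) q =>
      (x.1, fun i => x.2 i.1 i.2)) fun x y e => Prod.ext (Prod.mk.inj e).1
        (funext fun q => funext fun s => congrFun (Prod.mk.inj e).2 (q, s))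
  rw [Cn.Cfg.FF] at h4
  have h5 := Fintype.linearIndependent_iff.1 H (fun x => (c x.1 x.2 : k)) (by
    refine mul_left_cancel₀ (prod_ne_zero_iff.2 fun i (_ : i ∈ univ) => u1 i (n i)) ?_
    rw [mul_zero, ← h4, Fintype.sum_prod_type_right, mul_sum]
    refine sum_congr rfl fun τ _ => ?_
    rw [sum_mul, mul_sum]
    refine sum_congr rfl fun z _ => ?_
    simp only [cfg_ev, arm, u2]
    rw [Int.cast_smul_eq_zsmul, zsmul_eq_mul, Function.comp_apply, ← Fintype.prod_prod_type'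
      (fun q s => u (q, s) (n (q, s)) * _), prod_mul_distrib (f := fun i => u i (n i))]
    simp only [bx, cfg, Fin.cons_succ, Fin.cons_zero, hone, one_pow, mul_one]
    ring)
  exact funext fun z => funext fun τ => Int.cast_eq_zero.1 (h5 (z, τ))

/-- Over `FractionRing (MvPowerSeries _ k)`: `exists_pts`, `xe_zero`, `Cn.eframe_alg`,
`frame_indep`, `frame_field`. -/
theorem exists_frame {β : Type} [Fintype β] [DecidableEq β] {m : ℕ} (σ : ℕ) (j : Fin m × β → ℕ)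
    {b : Option (Fin m × β) → Blk A₁ A₂ g}
    {ξ : Option (Fin m × β) → ι₁ ⊕ ι₂ → MvPowerSeries (Fin g) k}
    (hb : ∀ o, (b o).Geom Y) (hξ : ∀ o, (b o).C.Br (b o).w (ξ o)) :
    ∃ (ch : Ch ι₁ ι₂ (Fin m × β) g) (a : Fin m × β → Pr ι₁ ι₂),
      ∀ n₀ n rd (c : (cfg Y σ n₀ n j ch rd).Co), c ≠ 0 →
        (cfg Y σ n₀ n j ch rd).FF c a (xh ξ) ≠ 0 := by
  classical
  let R := MvPowerSeries (Option (Fin m × β) × Fin (g + 1)) k
  have : IsDomain R := NoZeroDivisors.to_isDomain _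
  let F := FractionRing R
  let G := IsScalarTower.toAlgHom k R F
  have hG : Function.Injective G := IsFractionRing.injective R _
  obtain ⟨p₁, p₂, hp⟩ := exists_pts hb hξ
  choose b' hb' using fun o => (hb o).a₀
  have ht : AlgebraicIndependent k fun s : Option (Fin m × β) × Fin (g + 1) =>
      (Fin.cons (G (1 + MvPowerSeries.X (s.1, 0))) fun l => G (xe ξ s.1 ((b s.1).C.I l)) :
        Fin (g + 1) → F) s.2 := by
    have h := (frame_indep hξ).map' hG
    have e : (fun s : Option (Fin m × β) × Fin (g + 1) =>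
      (Fin.cons (G (1 + MvPowerSeries.X (s.1, 0))) fun l => G (xe ξ s.1 ((b s.1).C.I l)) :
        Fin (g + 1) → F) s.2) = G ∘ fun s => (Fin.cons (1 + MvPowerSeries.X (s.1, 0))
          fun l => xe ξ s.1 ((b s.1).C.I l) : Fin (g + 1) → R) s.2 := by
      funext ⟨o, l⟩
      induction l using Fin.cases <;> rfl
    rw [e]
    exact h
  have ha := fun a => Cn.eframe_alg (b none).C (fun d => G (xe ξ none d)) a fun h1 => by
    rw [← par_map_aeval, ← par_map_aeval, xe_aeval, xe_aeval, (hξ none).eqn _ h1, map_zero,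
      map_zero, map_ne_zero_iff _ hG]
    refine ⟨rfl, fun h2 => ((hb none).atx _ h1).2.ne_zero ?_⟩
    rw [← env_const (hξ none).const, ← MvPowerSeries.constantCoeff_rename
      (vE g none : Fin g ↪ Option (Fin m × β) × Fin (g + 1)), h2, map_zero]
  obtain ⟨ch, a, H⟩ := frame_field Y σ j (w := fun o c => G (xe ξ o c))
    (x := fun o c => G (xh ξ o c)) (Z := fun o => G (1 + MvPowerSeries.X (o, 0))) (b := b')
    (J := fun o => (b o).C.I) (fun o => (hp o).1.map G) (fun o => (hp o).2.1.map G)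
    (fun o => (hp o).2.2.1.map G) (fun o => (hp o).2.2.2.1.map G)
    (fun o c => by rw [xh_inl, map_mul]) (fun o c => by rw [xh_inr])
    (fun o => by rw [← hb', frame_one hξ, map_one]) ht ha fun o f hf => by
      rw [← par_map_aeval, xe_zero hb hξ o f hf, map_zero]
  refine ⟨ch, a, fun n₀ n rd c hc h => H n₀ n rd c hc ?_⟩
  rw [← Cn.Cfg.map_FF, h, map_zero]

end Pool.Agent.Lib.MP_651af7_nt.Jn
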