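import Pool.Agent.Lib.MP_651af7_nt.Jn.Defs
import Pool.Agent.Lib.MP_651af7_nt.Cn.EGain

/-! The direct bound for the section. -/

namespace Pool.Agent.Lib.MP_651af7_nt.Jn

open MvPolynomial Finset
open Pool.Agent.Lib.MP_651af7_nt.Av

variable {k : Type} [Field k]

/-- The direct bound: `Cn.Cfg.FF_dir`, `Cn.Cfg.ev_le`. -/
theorem FF_le {κ Pr β R : Type} [CommRing R] [Algebra k R] [Fintype β] [DecidableEq β] [Fintype κ]
    {r m : ℕ} {Tm : Fin m × β → Type} [∀ i, Fintype (Tm i)] {F : Cn.Cfg k κ Pr β r m Tm}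
    {v : AbsoluteValue k ℝ} {S : SN R (IsNonarchimedean v)} (hS : S.Ov v) (h : F.Hom) {s : ℝ}
    (hs : F.Ok v fun _ => s) {y : Option (Fin m × β) → κ → R} {Z : Option (Fin m × β) → ℝ}
    (hZ : ∀ o, 0 ≤ Z o) (hy : ∀ o a, S.N (y o a) ≤ Z o) {c : F.Co} {H : ℝ} (hH : 1 ≤ H)
    (hc : ∀ z τ, |(c z τ : ℝ)| ≤ H) (a : Fin m × β → Pr) :
    S.N (F.FF c a y) ≤ E (IsNonarchimedean v) H * ∏ o, (s ^ 3 * Z o) ^ F.dg o := by
  have s1 : 1 ≤ s := one_le_of_two (hs.two none)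
  have s0 : 0 ≤ s := zero_le_one.trans s1
  have h1 := Cn.Cfg.FF_dir (S := S) h hs (hZ none) (hy none) a
    (Z := fun i => (s * Z none) ^ F.dc i * (s ^ 2 * Z (some i)) ^ F.da i)
    (fun i => mul_nonneg (pow_nonneg (mul_nonneg s0 (hZ _)) _)
      (pow_nonneg (mul_nonneg (sq_nonneg _) (hZ _)) _))
    (fun i t => Cn.Cfg.ev_le hS h hs i (a i) t (hZ _) (hZ _) (hy none) (hy (some i))) hH hc
  refine h1.trans ?_
  have h2 : (s * Z none) ^ F.dg none ≤ (s ^ 3 * Z none) ^ F.dg none :=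
    pow_le_pow_left₀ (mul_nonneg s0 (hZ _))
      (mul_le_mul_of_nonneg_right (le_self_pow₀ s1 (by omega)) (hZ _)) _
  rw [Fintype.prod_option, mul_assoc]
  refine mul_le_mul_of_nonneg_left (le_of_eq_of_le ?_ (mul_le_mul_of_nonneg_right h2
    (prod_nonneg fun i _ => pow_nonneg (mul_nonneg (pow_nonneg s0 _) (hZ _)) _)))
    (E_nonneg (zero_le_one.trans hH))
  rw [show F.dg none = r * F.n₀ + ∑ i, F.dc i from rfl, pow_add, ← prod_pow_eq_pow_sum, mul_assoc,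
    ← prod_mul_distrib]
  congr 1
  exact prod_congr rfl fun i _ => by rw [show F.dg (some i) = F.da i from rfl]; ring

end Pool.Agent.Lib.MP_651af7_nt.Jn
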