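import Pool.Agent.Lib.MP_651af7_nt.Jn.Defs
import Pool.Agent.Lib.MP_651af7_nt.Cn.EFrame

/-! The branches as points; the presentations differ by explicit factors. Model: `Cn/EPres`,
`Cn/EFrame`. -/

namespace Pool.Agent.Lib.MP_651af7_nt.Jn

open MvPolynomial Finset
open Pool.Agent.Lib.MP_651af7_nt.Av Pool.Agent.Lib.MP_651af7_nt.Av.AV

variable {k ι₁ ι₂ O : Type} [Field k] {A₁ : AV k ι₁} {A₂ : AV k ι₂} {g e d r : ℕ}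
  {Y : Fix A₁ A₂ g e d r}

theorem hat_eval {R : Type} [CommRing R] [Algebra k R] (w : ι₁ ⊕ ι₂ → R)
    (f : MvPolynomial (ι₁ ⊕ ι₂) k) (t : R) : (hat w f).eval t =
      aeval (Sum.elim (fun a => (1 + t) * w (.inl a)) fun b => w (.inr b)) f := by
  have h := congrArg (fun φ : MvPolynomial (ι₁ ⊕ ι₂) k →ₐ[k] R => φ f) (comp_aeval
    (Sum.elim (fun a => (1 + Polynomial.X) * Polynomial.C (w (.inl a)))
      fun b => Polynomial.C (w (.inr b)))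
    ((Polynomial.aeval t : Polynomial R →ₐ[R] R).restrictScalars k))
  simp only [AlgHom.comp_apply, AlgHom.restrictScalars_apply, Polynomial.coe_aeval_eq_eval] at h
  rw [hat, h]
  congr 2
  ext1 c
  rcases c with c | c <;> simp

section pts

variable [Fintype ι₁] [Fintype ι₂] {b : O → Blk A₁ A₂ g}
  {ξ : O → ι₁ ⊕ ι₂ → MvPowerSeries (Fin g) k}

omit [Fintype ι₁] [Fintype ι₂] in
theorem xe_aeval (ξ : O → ι₁ ⊕ ι₂ → MvPowerSeries (Fin g) k) (o : O)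
    (f : MvPolynomial (ι₁ ⊕ ι₂) k) :
    aeval (xe ξ o) f = MvPowerSeries.rename (vE g o) (aeval (ξ o) f) := by
  rw [← AlgHom.comp_apply, comp_aeval]
  rfl

omit [Fintype ι₁] [Fintype ι₂] in
theorem xh_aeval (ξ : O → ι₁ ⊕ ι₂ → MvPowerSeries (Fin g) k) (o : O)
    (f : MvPolynomial (ι₁ ⊕ ι₂) k) :
    aeval (xh ξ o) f = (hat (xe ξ o) f).eval (MvPowerSeries.X (o, 0)) := by
  rw [hat_eval]
  congr 2
  ext1 c
  rcases c with c | c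
  exacts [xh_inl ξ o c, xh_inr ξ o c]

omit [Fintype ι₁] [Fintype ι₂] in
theorem hat_eval_zero {R : Type} [CommRing R] [Algebra k R] (w : ι₁ ⊕ ι₂ → R)
    (f : MvPolynomial (ι₁ ⊕ ι₂) k) : (hat w f).eval 0 = aeval w f := by
  rw [hat_eval]
  congr 2
  ext1 c
  rcases c with c | c <;> simp

/-- `Chart.Br.mem`. -/
theorem xe_zero (hb : ∀ o, (b o).Geom Y) (hξ : ∀ o, (b o).C.Br (b o).w (ξ o)) (o : O) :
    ∀ f ∈ Y.p, aeval (xe ξ o) f = 0 := by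
  intro f hf
  rw [xe_aeval, (hξ o).mem (hb o).on f hf, map_zero]

theorem xh_zero (hb : ∀ o, (b o).Geom Y) (hξ : ∀ o, (b o).C.Br (b o).w (ξ o)) (o : O) :
    ∀ f ∈ Y.J, aeval (xh ξ o) f = 0 := by
  intro f hf
  rw [xh_aeval, Y.bi _ _ (xe_zero hb hξ o) f hf, Polynomial.eval_zero]

theorem xh_dvd (hb : ∀ o, (b o).Geom Y) (hξ : ∀ o, (b o).C.Br (b o).w (ξ o)) (o : O) :
    ∀ f ∈ Y.p, MvPowerSeries.X (o, 0) ∣ aeval (xh ξ o) f := by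
  intro f hf
  have h := Polynomial.sub_dvd_eval_sub (MvPowerSeries.X (o, 0)) 0 (hat (xe ξ o) f)
  rwa [hat_eval_zero, xe_zero hb hξ o f hf, sub_zero, sub_zero, ← xh_aeval] at h

omit [Fintype ι₁] [Fintype ι₂] in
theorem xe_const (hξ : ∀ o, (b o).C.Br (b o).w (ξ o)) (o : O) (c : ι₁ ⊕ ι₂) :
    cc k _ (xe ξ o c) = (b o).w c := by
  rw [cc_apply, xe, MvPowerSeries.constantCoeff_rename, (hξ o).const]

omit [Fintype ι₁] [Fintype ι₂] in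
theorem xh_const (hξ : ∀ o, (b o).C.Br (b o).w (ξ o)) (o : O) (c : ι₁ ⊕ ι₂) :
    cc k _ (xh ξ o c) = (b o).w c := by
  rcases c with c | c
  · rw [xh_inl, map_mul, xe_const hξ, map_add, map_one, cc_apply, MvPowerSeries.constantCoeff_X,
      add_zero, one_mul]
  · rw [xh_inr, xe_const hξ]

/-- `exists_rep_rename` for `vE g o`, `Rep.smul` with the unit `1 + X (o, 0)`. -/
theorem exists_pts (hb : ∀ o, (b o).Geom Y) (hξ : ∀ o, (b o).C.Br (b o).w (ξ o)) :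
    ∃ (p₁ : O → A₁.Pt (MvPowerSeries (O × Fin (g + 1)) k))
      (p₂ : O → A₂.Pt (MvPowerSeries (O × Fin (g + 1)) k)), ∀ o,
      Rep (p₁ o) (fun c => xe ξ o (.inl c)) ∧ Rep (p₂ o) (fun c => xe ξ o (.inr c)) ∧
      Rep (p₁ o) (fun c => xh ξ o (.inl c)) ∧ Rep (p₂ o) (fun c => xh ξ o (.inr c)) ∧
      A₁.map (cc k _) (p₁ o) = (b o).P₁ ∧ A₂.map (cc k _) (p₂ o) = (b o).P₂ := by
  choose p₁ h1 h2 using fun o => exists_rep_rename (vE g o) (ξ := fun c => ξ o (.inl c))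
    (hb o).rep₁ (fun a => (hξ o).const (.inl a)) fun f hf =>
      (aeval_rename Sum.inl (ξ o) f).symm.trans ((hξ o).mem (hb o).on _ (Y.le₁ f hf))
  choose p₂ h3 h4 using fun o => exists_rep_rename (vE g o) (ξ := fun c => ξ o (.inr c))
    (hb o).rep₂ (fun a => (hξ o).const (.inr a)) fun f hf =>
      (aeval_rename Sum.inr (ξ o) f).symm.trans ((hξ o).mem (hb o).on _ (Y.le₂ f hf))
  refine ⟨p₁, p₂, fun o => ⟨h1 o, h3 o, ?_, ?_, h2 o, h4 o⟩⟩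
  · simp only [xh_inl]
    refine (h1 o).smul (MvPowerSeries.isUnit_iff_constantCoeff.2 ?_)
    rw [map_add, map_one, MvPowerSeries.constantCoeff_X, add_zero]
    exact isUnit_one
  · simp only [xh_inr]
    exact h3 o

end pts

variable {R β : Type} [CommRing R] [Algebra k R]

/-- The factor of one abelian variety in the presentation `a`. -/
noncomputable def uu {ι : Type} (g q n : ℕ) (S y v : ι → R) (a : ι × ι × ι) : R :=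
  S a.1 ^ Cn.DY g q n * y a.2.1 ^ (q * n) * v a.2.2 ^ ((q - 1) * n)

/-- The explicit form of a basic section. -/
theorem arm'_eq [IsLocalRing R] {p₁ q₁ : A₁.Pt R} {v₁ y₁ S₁ : ι₁ → R} (hv₁ : Rep p₁ v₁)
    (hy₁ : Rep q₁ y₁) (hS₁ : Rep (p₁ + q₁) S₁) {p₂ q₂ : A₂.Pt R} {v₂ y₂ S₂ : ι₂ → R}
    (hv₂ : Rep p₂ v₂) (hy₂ : Rep q₂ y₂) (hS₂ : Rep (p₂ + q₂) S₂) (σ : ℕ) :
    ∃ (Y₁ Ω₁ : ι₁ → R) (Y₂ Ω₂ : ι₂ → R), Rep (p₁ - q₁) Y₁ ∧ Rep (p₁ + 2 ^ σ • (p₁ - q₁)) Ω₁ ∧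
      Rep (p₂ - q₂) Y₂ ∧ Rep (p₂ + 2 ^ σ • (p₂ - q₂)) Ω₂ ∧
      (∀ a b, A₁.ph a b v₁ y₁ = S₁ a * Y₁ b) ∧ (∀ a b, A₂.ph a b v₂ y₂ = S₂ a * Y₂ b) ∧
      ∀ (n : ℕ) (fr : Fin (g + 1) → ι₁ × ι₂) (k₀ k₂ : ι₁ × ι₂) (a : Pr ι₁ ι₂)
        (τ : Cn.Tm g (2 ^ σ) n), arm' A₁ A₂ σ n fr k₀ k₂ a τ y₁ v₁ y₂ v₂ =
        uu g (2 ^ σ) n S₁ y₁ v₁ a.1 * uu g (2 ^ σ) n S₂ y₂ v₂ a.2 *
          (bx (fun l => Y₁ (fr l).1 * Y₂ (fr l).2) τ.1 *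
            (Ω₁ k₀.1 * Y₂ (fr 0).2 ^ (2 ^ σ * (2 ^ σ + 1))) ^ (τ.2.1 : ℕ) *
            (Y₁ (fr 0).1 ^ (2 ^ σ * (2 ^ σ + 1)) * Ω₂ k₀.2) ^ (n - (τ.2.1 : ℕ)) *
            (v₁ k₂.1 ^ (τ.2.2 : ℕ) * v₂ k₂.2 ^ (2 ^ σ - (τ.2.2 : ℕ)))) := by
  obtain ⟨Y₁, Ω₁, h1, h2, h3, h4⟩ := Cn.far_eq hv₁ hy₁ hS₁ σ
  obtain ⟨Y₂, Ω₂, h5, h6, h7, h8⟩ := Cn.far_eq hv₂ hy₂ hS₂ σ
  refine ⟨Y₁, Ω₁, Y₂, Ω₂, h1, h2, h5, h6, h3, h7, fun n fr k₀ k₂ a τ => ?_⟩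
  rw [arm', nN, nN, nM, nM, h4, h8]
  simp only [h3, h7, mul_mul_mul_comm (S₁ a.1.1), bx_mul, uu, Cn.DY]
  obtain ⟨l, hl⟩ := Nat.exists_eq_add_of_le τ.2.1.is_le
  generalize bx (fun l => Y₁ (fr l).1 * Y₂ (fr l).2) τ.1 = z
  generalize v₁ k₂.1 ^ (τ.2.2 : ℕ) * v₂ k₂.2 ^ (2 ^ σ - (τ.2.2 : ℕ)) = w
  generalize (τ.2.1 : ℕ) = i at hl
  clear τ
  subst hl
  rw [Nat.add_sub_cancel_left]
  generalize 2 ^ σ - 1 = r
  generalize 2 ^ σ = q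
  simp only [mul_pow, ← pow_mul, mul_add _ i l, pow_add]
  ring

variable [IsLocalRing R] [Fintype β] [DecidableEq β] {m σ n₀ : ℕ} {n j : Fin m × β → ℕ}
  {ch : Ch ι₁ ι₂ (Fin m × β) g}
  {rd : (ι₁ ⊕ ι₂ →₀ ℕ) → MvPolynomial (Fin (g + 1 + 1) ⊕ (ι₁ ⊕ ι₂)) k}

/-- `cfg_ev`, `Cn.far_eq` for both factors, `bx_mul`, `Rep.dbn`; as `Cn.arm'_eq`, `Cn.FF_pres`. -/
theorem FF_pres {p₁ : Option (Fin m × β) → A₁.Pt R} {p₂ : Option (Fin m × β) → A₂.Pt R}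
    {x : Option (Fin m × β) → ι₁ ⊕ ι₂ → R} (hx₁ : ∀ o, Rep (p₁ o) fun c => x o (.inl c))
    (hx₂ : ∀ o, Rep (p₂ o) fun c => x o (.inr c)) {S₁ : Fin m × β → ι₁ → R}
    {S₂ : Fin m × β → ι₂ → R} (hS₁ : ∀ i, Rep (p₁ (some i) + 2 ^ j i • p₁ none) (S₁ i))
    (hS₂ : ∀ i, Rep (p₂ (some i) + 2 ^ j i • p₂ none) (S₂ i)) (c : (cfg Y σ n₀ n j ch rd).Co) :
    ∃ f : R, ∀ a, (cfg Y σ n₀ n j ch rd).FF c a x =
      (∏ i, uu g (2 ^ σ) (n i) (S₁ i) (A₁.dbn (fun c => x none (.inl c)) (j i))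
          (fun c => x (some i) (.inl c)) (a i).1 *
        uu g (2 ^ σ) (n i) (S₂ i) (A₂.dbn (fun c => x none (.inr c)) (j i))
          (fun c => x (some i) (.inr c)) (a i).2) * f := by
  have key : ∀ i, ∃ G : Cn.Tm g (2 ^ σ) (n i) → R, ∀ a τ,
      (cfg Y σ n₀ n j ch rd).ev i a τ (x none) (x (some i)) =
        uu g (2 ^ σ) (n i) (S₁ i) (A₁.dbn (fun c => x none (.inl c)) (j i))
          (fun c => x (some i) (.inl c)) a.1 *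
        uu g (2 ^ σ) (n i) (S₂ i) (A₂.dbn (fun c => x none (.inr c)) (j i))
          (fun c => x (some i) (.inr c)) a.2 * G τ := fun i => by
    obtain ⟨Y₁, Ω₁, Y₂, Ω₂, -, -, -, -, -, -, h⟩ := arm'_eq (g := g) (hx₁ (some i))
      ((hx₁ none).dbn (j i)) (hS₁ i) (hx₂ (some i)) ((hx₂ none).dbn (j i)) (hS₂ i) σ
    exact ⟨_, fun a τ => (cfg_ev i a τ _ _).trans (h _ _ _ _ a τ)⟩
  choose G h using key
  refine ⟨∑ τ, (∑ z, (c z τ : R) * bx (fun l => x none ((cfg Y σ n₀ n j ch rd).q₀ l)) z) *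
    ∏ p, ∏ s, G (p, s) (τ p s), fun a => ?_⟩
  rw [Cn.Cfg.FF, Fintype.prod_prod_type, mul_sum]
  refine sum_congr rfl fun τ _ => ?_
  rw [mul_left_comm, ← prod_mul_distrib]
  refine congrArg _ (prod_congr rfl fun p _ => ?_)
  rw [← prod_mul_distrib]
  exact prod_congr rfl fun s _ => h _ _ _

end Pool.Agent.Lib.MP_651af7_nt.Jn
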