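import Pool.Agent.Lib.MP_651af7_nt.Jn.Loc
import Pool.Agent.Lib.MP_651af7_nt.Jn.Arm
import Pool.Agent.Lib.MP_651af7_nt.Jn.Pres
import Pool.Agent.Lib.MP_651af7_nt.Jn.GlobA
import Pool.Agent.Lib.MP_651af7_nt.Cn.EGlob

/-! The global inequality. Model: `Cn.global_ineq`. -/

namespace Pool.Agent.Lib.MP_651af7_nt.Jn

open MvPolynomial Finset Height
open Pool.Agent.Lib.MP_651af7_nt.Av Pool.Agent.Lib.MP_651af7_nt.Av.AV
open Pool.Agent.Lib.MP_651af7_nt.Vj

variable {k ι₁ ι₂ : Type} [Field k] [NumberField k] [Fintype ι₁] [Fintype ι₂] {A₁ : AV k ι₁}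
  {A₂ : AV k ι₂} {g e d r : ℕ}

/-- A positive local term with the global sum `x` of its logarithms. -/
structure Gs (c : AbsoluteValue k ℝ → ℝ) (x : ℝ) : Prop where
  pos : ∀ v, 0 < c v
  fin : FinS fun v => Real.log (c v)
  sum : gsum (fun v => Real.log (c v)) = x

section gs

variable {c c' : AbsoluteValue k ℝ → ℝ} {x x' : ℝ}

theorem Gs.mul (h : Gs c x) (h' : Gs c' x') : Gs (fun v => c v * c' v) (x + x') := by
  have e : (fun v => Real.log (c v * c' v)) = fun v => Real.log (c v) + Real.log (c' v) :=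
    funext fun v => Real.log_mul (h.pos v).ne' (h'.pos v).ne'
  exact ⟨fun v => mul_pos (h.pos v) (h'.pos v), e ▸ h.fin.add h'.fin, by
    rw [e, gsum_add h.fin h'.fin, h.sum, h'.sum]⟩

theorem Gs.pow (h : Gs c x) (n : ℕ) : Gs (fun v => c v ^ n) (n * x) :=
  ⟨fun v => pow_pos (h.pos v) n, by simpa only [Real.log_pow] using h.fin.const_mul n, by
    simp only [Real.log_pow]
    rw [gsum_const_mul h.fin, h.sum]⟩

theorem Gs.div (h : Gs c x) (h' : Gs c' x') : Gs (fun v => c v / c' v) (x + -1 * x') := by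
  have h1 : Gs (fun v => (c' v)⁻¹) (-1 * x') := ⟨fun v => inv_pos.2 (h'.pos v), by
    simpa only [Real.log_inv, neg_mul, one_mul] using h'.fin.const_mul (-1), by
      rw [← h'.sum, ← gsum_const_mul h'.fin]
      simp only [Real.log_inv, neg_mul, one_mul]⟩
  simpa only [div_eq_mul_inv] using h.mul h1

theorem gs_prod {I : Type} [Fintype I] {c : I → AbsoluteValue k ℝ → ℝ} {x : I → ℝ}
    (h : ∀ i, Gs (c i) (x i)) : Gs (fun v => ∏ i, c i v) (∑ i, x i) := by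
  have e : (fun v => Real.log (∏ i, c i v)) = fun v => ∑ i, Real.log (c i v) :=
    funext fun v => Real.log_prod fun i _ => ((h i).pos v).ne'
  have h1 := Cn.eglob_sum fun i => And.intro (h i).fin (h i).sum
  exact ⟨fun v => prod_pos fun i _ => (h i).pos v, e ▸ h1.1, e ▸ h1.2⟩

theorem gs_nm {ι : Type} [Fintype ι] {y : ι → k} (hy : y ≠ 0) :
    Gs (fun v => nm v y) (logHeight y) := ⟨fun v => nm_pos v hy, finS_nm y, gsum_nm hy⟩

theorem gs_val {l : k} (hl : l ≠ 0) : Gs (fun v => v l) 0 :=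
  ⟨fun v => v.pos hl, finS_log l, gsum_log hl⟩

theorem gs_ad (h : Ad c x) : Gs c (gsum fun v => Real.log (c v)) := ⟨h.pos, h.fin, rfl⟩

theorem Gs.le (h : Gs c x) (h' : Gs c' x') (hle : ∀ v, Adm v → c v ≤ c' v) : x ≤ x' := by
  rw [← h.sum, ← h'.sum]
  exact gsum_mono h.fin h'.fin fun v hv => Real.log_le_log (h.pos v) (hle v hv)

end gs

/-- The height of the constant term of one factor of `uu`. -/
noncomputable def hu {ι : Type} [Fintype ι] {A : AV k ι} (g q n j : ℕ) (P Q : A.Pt k) : ℝ :=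
  Cn.DY g q n * ht (Q + 2 ^ j • P) + (q * n : ℕ) * ht (2 ^ j • P) + ((q - 1) * n : ℕ) * ht Q

theorem gs_uu {ι : Type} [Fintype ι] {A : AV k ι} (g q n j : ℕ) {P Q : A.Pt k} {S y x : ι → k}
    (hS : Rep (Q + 2 ^ j • P) S) (hy : Rep (2 ^ j • P) y) (hx : Rep Q x) :
    Gs (fun v => nm v S ^ Cn.DY g q n * nm v y ^ (q * n) * nm v x ^ ((q - 1) * n))
      (hu g q n j P Q) := by
  rw [hu, ht_eq hS, ht_eq hy, ht_eq hx]
  exact (((gs_nm (Cn.rep_ne hS)).pow _).mul ((gs_nm (Cn.rep_ne hy)).pow _)).mul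
    ((gs_nm (Cn.rep_ne hx)).pow _)

/-- Sketch. At each place `v` choose the presentation `a` by `exists_nm` (six vectors per arm: the
constant terms of `S₁ i`, `dbn`, `xh` for both factors, which are coordinates of
`Q + 2 ^ j • P`, `2 ^ j • P`, `Q`; `xh_const`, `map_dbn`, `Rep.map`, `ht_eq`), apply `loc_le` to
`G = FF c a fun o c => X (o, c)` (`Cfg.map_FF`; `M o = card ι₁ * dg o` by `Cfg.FF_deg`; `Λ` from
`FF_le`), use `hf`, `h1`; take logarithms and sum (`gsum_log`, `gsum_nm`, `ad_max`, `ad_E`,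
`Cn.eglob_add`, `eglob_mul`, `eglob_sum`, `gsum_mono`). -/
theorem global_ineq (Y : Fix A₁ A₂ g e d r) : ∃ C : ℝ, 0 ≤ C ∧
    ∀ (β : Type) [Fintype β] [DecidableEq β] (m σ n₀ : ℕ) (n j : Fin m × β → ℕ)
      (ch : Ch ι₁ ι₂ (Fin m × β) g)
      (rd : (ι₁ ⊕ ι₂ →₀ ℕ) → MvPolynomial (Fin (g + 1 + 1) ⊕ (ι₁ ⊕ ι₂)) k)
      (b : Option (Fin m × β) → Blk A₁ A₂ g)
      (ξ : Option (Fin m × β) → ι₁ ⊕ ι₂ → MvPowerSeries (Fin g) k) (lo : LinearOrder (Option (Fin m × β)))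
      (c : (cfg Y σ n₀ n j ch rd).Co) (H h₁ : ℝ) (s : AbsoluteValue k ℝ → ℝ)
      (q : Option (Fin m × β) → AbsoluteValue k ℝ → ℝ) (h₂ : Option (Fin m × β) → ℝ)
      (p₁ : Option (Fin m × β) → A₁.Pt (MvPowerSeries (Option (Fin m × β) × Fin (g + 1)) k))
      (p₂ : Option (Fin m × β) → A₂.Pt (MvPowerSeries (Option (Fin m × β) × Fin (g + 1)) k))
      (f : MvPowerSeries (Option (Fin m × β) × Fin (g + 1)) k)
      (γ : Option (Fin m × β) → Fin (g + 1) →₀ ℕ),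
      (∀ o, (b o).Geom Y) → (∀ o, (b o).C.Br (b o).w (ξ o)) → 1 ≤ H →
      (∀ z τ, |(c z τ : ℝ)| ≤ H) → Ad s h₁ → (∀ v, (cfg Y σ n₀ n j ch rd).Ok v fun _ => s v) →
      (∀ o, Ad (q o) (h₂ o)) → (∀ o v a, Geo v (q o v) (ξ o a)) →
      (∀ o, A₁.map (cc k _) (p₁ o) = (b o).P₁) → (∀ o, A₂.map (cc k _) (p₂ o) = (b o).P₂) →
      (∀ a, (cfg Y σ n₀ n j ch rd).FF c a (xh ξ) =
        (∏ i, uu g (2 ^ σ) (n i) (p₁ (some i) + 2 ^ j i • p₁ none).co
            (A₁.dbn (fun c => xh ξ none (.inl c)) (j i)) (fun c => xh ξ (some i) (.inl c)) (a i).1 *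
          uu g (2 ^ σ) (n i) (p₂ (some i) + 2 ^ j i • p₂ none).co
            (A₂.dbn (fun c => xh ξ none (.inr c)) (j i)) (fun c => xh ξ (some i) (.inr c))
            (a i).2) * f) →
      (∀ (U : MvPowerSeries (Option (Fin m × β) × Fin (g + 1)) k)
        (γ' : Option (Fin m × β) × Fin (g + 1) →₀ ℕ),
        Pi.Lex lo.lt (· < ·) (fun o => γ' (o, 0)) (fun o => γ o 0) →
          MvPowerSeries.coeff γ' (U * f) = 0) →
      MvPowerSeries.coeff (unc γ) f ≠ 0 →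
      (∀ U : MvPowerSeries (Option (Fin m × β) × Fin (g + 1)) k,
        MvPowerSeries.coeff (unc γ) (U * f) =
          MvPowerSeries.constantCoeff U * MvPowerSeries.coeff (unc γ) f) →
      ∑ o, γ o 0 * logHeight (fun l => eval (b o).w (Y.ρ l)) +
        ∑ i, (hu g (2 ^ σ) (n i) (j i) (b none).P₁ (b (some i)).P₁ +
          hu g (2 ^ σ) (n i) (j i) (b none).P₂ (b (some i)).P₂) ≤
        totalWeight k * Real.log H +
          ∑ o, (cfg Y σ n₀ n j ch rd).dg o * (3 * h₁ + C + (b o).H) +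
          ∑ o, (γ o).tail.degree * (h₂ o + C * ((b o).H + 1)) := by
  obtain ⟨s₀, C₀, D, hs₀, hθ, L⟩ := loc_le Y
  have C0 := hs₀.nonneg
  have k0 : (0 : ℝ) ≤ Fintype.card ι₁ * C₀ := by positivity
  have D0 : (0 : ℝ) ≤ D := Nat.cast_nonneg D
  refine ⟨Fintype.card ι₁ * C₀ + 2 * C₀ + 2 * D, by positivity, ?_⟩
  intro β _ _ m σ n₀ n j ch rd b ξ lo c H h₁ s q h₂ p₁ p₂ f γ hb hξ hH hc as ok aq hq e₁ e₂ hf
    hlex h0 hmin
  have : Nonempty ι₁ := ⟨A₁.ao⟩
  have : Nonempty ι₂ := ⟨A₂.ao⟩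
  have hw : ∀ o, (b o).w ≠ 0 := fun o h =>
    Cn.rep_ne (hb o).rep₁ (funext fun a => congrFun h (.inl a))
  have hρ : ∀ o, (fun l => eval (b o).w (Y.ρ l)) ≠ 0 := fun o h => (hb o).sep (congrFun h 1)
  have r₁ : ∀ i, Rep ((b (some i)).P₁ + 2 ^ j i • (b none).P₁)
      fun d => cc k _ ((p₁ (some i) + 2 ^ j i • p₁ none).co d) := fun i => by
    have h1 := (rep_co (p₁ (some i) + 2 ^ j i • p₁ none)).map (cc k _)
    rwa [map_add, map_nsmul, e₁, e₁] at h1
  have r₂ : ∀ i, Rep ((b (some i)).P₂ + 2 ^ j i • (b none).P₂)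
      fun d => cc k _ ((p₂ (some i) + 2 ^ j i • p₂ none).co d) := fun i => by
    have h1 := (rep_co (p₂ (some i) + 2 ^ j i • p₂ none)).map (cc k _)
    rwa [map_add, map_nsmul, e₂, e₂] at h1
  have key := Gs.le ((gs_prod fun i =>
    (gs_uu g (2 ^ σ) (n i) (j i) (r₁ i) ((hb none).rep₁.dbn (j i)) (hb (some i)).rep₁).mul
    (gs_uu g (2 ^ σ) (n i) (j i) (r₂ i) ((hb none).rep₂.dbn (j i)) (hb (some i)).rep₂)).mul
      (gs_val h0))
    (((gs_ad (ad_E (k := k) hH)).mul (gs_prod fun o => (((gs_ad as).pow 3).mul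
      ((gs_ad hs₀).mul (gs_nm (hw o)))).pow ((cfg Y σ n₀ n j ch rd).dg o))).mul
      (gs_prod fun o => (((gs_ad hs₀).pow (Fintype.card ι₁ * (cfg Y σ n₀ n j ch rd).dg o)).mul
        (((gs_val (hb o).sep).div (gs_nm (hρ o))).pow (γ o 0))).mul
        (((((gs_ad (aq o)).mul (gs_ad hs₀)).mul ((gs_nm (hw o)).pow D)).mul
          (gs_ad (ad_max (eval (b o).w (Y.ρ 1))⁻¹))).pow (γ o).tail.degree))) fun w hw' => by
    choose a₁ x₁ using fun i => exists_nm w
      fun d => cc k _ ((p₁ (some i) + 2 ^ j i • p₁ none).co d)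
    choose a₂ x₂ using fun i => exists_nm w (A₁.dbn (fun c => (b none).w (.inl c)) (j i))
    choose a₃ x₃ using fun i => exists_nm w fun c => (b (some i)).w (.inl c)
    choose a₄ x₄ using fun i => exists_nm w
      fun d => cc k _ ((p₂ (some i) + 2 ^ j i • p₂ none).co d)
    choose a₅ x₅ using fun i => exists_nm w (A₂.dbn (fun c => (b none).w (.inr c)) (j i))
    choose a₆ x₆ using fun i => exists_nm w fun c => (b (some i)).w (.inr c)
    obtain ⟨a, ha⟩ : ∃ a : Fin m × β → Pr ι₁ ι₂,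
      a = fun i => ((a₁ i, a₂ i, a₃ i), a₄ i, a₅ i, a₆ i) := ⟨_, rfl⟩
    have eG : aeval (xo fun o => ext (ξ o)) ((cfg Y σ n₀ n j ch rd).FF c a fun o b =>
        (X (o, b) : MvPolynomial (Option (Fin m × β) × (ι₁ ⊕ ι₂)) k)) =
        (cfg Y σ n₀ n j ch rd).FF c a (xh ξ) := by
      rw [Cn.Cfg.map_FF]
      simp only [aeval_X]
      rfl
    have h1 := @L w hw' _ _ lo b ξ hb hξ (fun o => q o w) (fun o => (aq o).one w)
      (fun o => hq o w) _ (fun o => Fintype.card ι₁ * (cfg Y σ n₀ n j ch rd).dg o) γ _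
      (fun μ hμ o => (sum_le_card_nsmul _ _ _ fun a' _ =>
        Cn.Cfg.FF_deg cfg_hom c a μ hμ (o, .inl a')).trans (by rw [card_univ, smul_eq_mul]))
      (fun γ' h => by rw [eG, hf]; exact hlex _ γ' h)
      fun S hS hx => by
        rw [eG]
        exact FF_le hS cfg_hom (ok w) (fun o => mul_nonneg (hs₀.pos w).le (nm_nn _ _)) hx hH hc a
    rw [eG, hf, hmin, ← cc_apply, ha] at h1
    simp only [uu, map_mul, map_prod, map_pow, map_dbn, xh_const hξ, x₁, x₂, x₃, x₄, x₅, x₆] at h1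
    exact h1
  have b1 := (ad_E (k := k) hH).le
  have b2 := sum_le_sum fun o (_ : o ∈ univ) => show
      ((cfg Y σ n₀ n j ch rd).dg o : ℝ) * ((3 : ℕ) * gsum (fun v => Real.log (s v)) +
        (gsum (fun v => Real.log (s₀ v)) + logHeight (b o).w)) +
      ((Fintype.card ι₁ * (cfg Y σ n₀ n j ch rd).dg o : ℕ) * gsum (fun v => Real.log (s₀ v)) +
        γ o 0 * (0 + -1 * logHeight fun l => eval (b o).w (Y.ρ l)) +
        (γ o).tail.degree * (gsum (fun v => Real.log (q o v)) + gsum (fun v => Real.log (s₀ v)) +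
          D * logHeight (b o).w + gsum fun v => Real.log (max 1 (v (eval (b o).w (Y.ρ 1))⁻¹)))) +
        γ o 0 * logHeight (fun l => eval (b o).w (Y.ρ l)) ≤
      (cfg Y σ n₀ n j ch rd).dg o * (3 * h₁ + (Fintype.card ι₁ * C₀ + 2 * C₀ + 2 * D) + (b o).H) +
        (γ o).tail.degree * (h₂ o + (Fintype.card ι₁ * C₀ + 2 * C₀ + 2 * D) * ((b o).H + 1)) by
    have c1 := (ad_max (eval (b o).w (Y.ρ 1))⁻¹).le
    rw [logHeight₁_inv] at c1
    have c2 := hθ _ (hb o)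
    have c3 : 0 ≤ (b o).H := logHeight_nonneg _
    have c4 := mul_le_mul_of_nonneg_left hs₀.le (Nat.cast_nonneg (α := ℝ) (Fintype.card ι₁))
    have c5 := mul_le_mul_of_nonneg_left (show 3 * gsum (fun v => Real.log (s v)) +
      (gsum (fun v => Real.log (s₀ v)) + (b o).H) +
        Fintype.card ι₁ * gsum (fun v => Real.log (s₀ v)) ≤
      3 * h₁ + (Fintype.card ι₁ * C₀ + 2 * C₀ + 2 * D) + (b o).H by linarith [as.le, hs₀.le])
      (Nat.cast_nonneg (α := ℝ) ((cfg Y σ n₀ n j ch rd).dg o))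
    have c6 := mul_le_mul_of_nonneg_left (show gsum (fun v => Real.log (q o v)) +
      gsum (fun v => Real.log (s₀ v)) + D * (b o).H +
        gsum (fun v => Real.log (max 1 (v (eval (b o).w (Y.ρ 1))⁻¹))) ≤
      h₂ o + (Fintype.card ι₁ * C₀ + 2 * C₀ + 2 * D) * ((b o).H + 1) by
        nlinarith [(aq o).le, hs₀.le, mul_nonneg k0 c3, mul_nonneg C0 c3])
      (Nat.cast_nonneg (α := ℝ) (γ o).tail.degree)
    simp only [Blk.H] at c5 c6 ⊢
    push_cast
    linarith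
  rw [sum_add_distrib, sum_add_distrib, sum_add_distrib (g := fun o => _ * (h₂ o + _))] at b2
  linarith

end Pool.Agent.Lib.MP_651af7_nt.Jn
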