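import Pool.Agent.Lib.MP_651af7_nt.Jn.Defs
import Pool.Agent.Lib.MP_651af7_nt.Cn.ELoc

/-! The lexicographically first exponent of `T`. -/

namespace Pool.Agent.Lib.MP_651af7_nt.Jn

open MvPolynomial Finset
open Pool.Agent.Lib.MP_651af7_nt.Av

/-- Replacing the blocks one after the other, in increasing order. -/
theorem chain {O B : Type} [Fintype O] [LinearOrder O] (φ : (O → B) → ℝ) (dT : B → ℕ)
    (adm : O → B → Prop) (wt : O → B → ℝ) (γ : O → B) (c : O → ℝ) (hwt : ∀ o β, 0 < wt o β)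
    (hc : ∀ o, 0 ≤ c o)
    (h0 : ∀ γ', toLex (fun o => dT (γ' o)) < toLex (fun o => dT (γ o)) → φ γ' = 0)
    (h1 : ∀ o γ' (Λ : ℝ), 0 ≤ Λ → (∀ β, dT β < dT (γ o) → φ (Function.update γ' o β) = 0) →
      (∀ β, adm o β → φ (Function.update γ' o β) * wt o β ≤ Λ) →
      φ (Function.update γ' o (γ o)) * wt o (γ o) ≤ c o * Λ)
    {Λ : ℝ} (hΛ : 0 ≤ Λ) (h2 : ∀ γ', (∀ o, adm o (γ' o)) → φ γ' * ∏ o, wt o (γ' o) ≤ Λ) :
    φ γ * ∏ o, wt o (γ o) ≤ (∏ o, c o) * Λ := by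
  classical
  have key : ∀ S : Finset O, (∀ x ∈ S, ∀ y < x, y ∈ S) → ∀ γ' : O → B, (∀ o ∈ S, γ' o = γ o) →
      (∀ o ∉ S, adm o (γ' o)) → φ γ' * ∏ o, wt o (γ' o) ≤ (∏ o ∈ S, c o) * Λ := fun S => by
    induction S using Finset.induction_on_max with
    | empty => exact fun _ γ' _ h => by simpa using h2 γ' fun o => h o (notMem_empty o)
    | insert a s ha ih =>
      intro hS γ' e1 e2
      have as : a ∉ s := fun h => lt_irrefl _ (ha a h)
      have hR : 0 < ∏ o ∈ univ.erase a, wt o (γ' o) := prod_pos fun o _ => hwt _ _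
      have pr : ∀ β, ∏ o, wt o (Function.update γ' a β o) =
          wt a β * ∏ o ∈ univ.erase a, wt o (γ' o) := fun β => by
        rw [← mul_prod_erase _ _ (mem_univ a), Function.update_self]
        exact congrArg _ (prod_congr rfl fun o ho => by
          rw [Function.update_of_ne (ne_of_mem_erase ho)])
      have h := h1 a γ' ((∏ o ∈ s, c o) * Λ / ∏ o ∈ univ.erase a, wt o (γ' o))
        (div_nonneg (mul_nonneg (prod_nonneg fun o _ => hc o) hΛ) hR.le)
        (fun β hβ => h0 _ ⟨a, fun o ho => by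
          change dT (Function.update γ' a β o) = dT (γ o)
          rw [Function.update_of_ne ho.ne, e1 o (hS a (mem_insert_self _ _) o ho)], by
          change dT (Function.update γ' a β a) < dT (γ a)
          rwa [Function.update_self]⟩)
        fun β hβ => by
          rw [le_div_iff₀ hR, mul_assoc, ← pr]
          refine ih (fun x hx y hy => (mem_insert.1 (hS x (mem_insert_of_mem hx) y hy)).resolve_left
            (hy.trans (ha x hx)).ne) _ (fun o ho => ?_) fun o ho => ?_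
          · rw [Function.update_of_ne (ha o ho).ne, e1 o (mem_insert_of_mem ho)]
          · rcases eq_or_ne o a with rfl | hne
            · rwa [Function.update_self]
            · rw [Function.update_of_ne hne]
              exact e2 o fun h => (mem_insert.1 h).elim hne ho
      rw [← mul_div_assoc, le_div_iff₀ hR, mul_assoc, ← pr, ← e1 a (mem_insert_self _ _),
        Function.update_eq_self] at h
      rwa [prod_insert as, mul_assoc]
  exact key univ (fun _ _ y _ => mem_univ y) γ (fun _ _ => rfl) fun o h => absurd (mem_univ o) h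

/-- The lexicographically first exponent of the first variables of the blocks in `f`. -/
theorem exists_lex {k O : Type} [Field k] [Fintype O] [LinearOrder O] {g : ℕ}
    {f : MvPowerSeries (O × Fin (g + 1)) k} (hf : f ≠ 0) : ∃ d : O → ℕ,
      (∀ (U : MvPowerSeries (O × Fin (g + 1)) k) (γ : O × Fin (g + 1) →₀ ℕ),
        toLex (fun o => γ (o, 0)) < toLex d → MvPowerSeries.coeff γ (U * f) = 0) ∧
      (∀ U : MvPowerSeries (O × Fin (g + 1)) k, MvPowerSeries.constantCoeff U ≠ 0 →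
        ∃ γ : O × Fin (g + 1) →₀ ℕ, (∀ o, γ (o, 0) = d o) ∧ MvPowerSeries.coeff γ (U * f) ≠ 0) ∧
      ∀ (U : MvPowerSeries (O × Fin (g + 1)) k) (γ : O × Fin (g + 1) →₀ ℕ),
        (∀ o, γ (o, 0) = d o) → MvPowerSeries.coeff γ (U * f) ≠ 0 → ∃ γ₀ ≤ γ,
          (∀ o, γ₀ (o, 0) = d o) ∧ MvPowerSeries.coeff γ₀ f ≠ 0 ∧
          ∀ U' : MvPowerSeries (O × Fin (g + 1)) k, MvPowerSeries.coeff γ₀ (U' * f) =
            MvPowerSeries.constantCoeff U' * MvPowerSeries.coeff γ₀ f := by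
  obtain ⟨γ₁, h₁⟩ : ∃ γ, MvPowerSeries.coeff γ f ≠ 0 := by
    by_contra! h
    exact hf (MvPowerSeries.ext h)
  obtain ⟨_, ⟨δ, hδ, rfl⟩, hm⟩ := (wellFounded_lt (α := Lex (O → ℕ))).has_min
    {d | ∃ γ : O × Fin (g + 1) →₀ ℕ, MvPowerSeries.coeff γ f ≠ 0 ∧ d = toLex fun o => γ (o, 0)}
    ⟨_, γ₁, h₁, rfl⟩
  have h3 : ∀ (U : MvPowerSeries (O × Fin (g + 1)) k) (γ : O × Fin (g + 1) →₀ ℕ),
      (∀ o, γ (o, 0) = δ (o, 0)) → MvPowerSeries.coeff γ (U * f) ≠ 0 → ∃ γ₀ ≤ γ,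
        (∀ o, γ₀ (o, 0) = δ (o, 0)) ∧ MvPowerSeries.coeff γ₀ f ≠ 0 ∧
        ∀ U' : MvPowerSeries (O × Fin (g + 1)) k, MvPowerSeries.coeff γ₀ (U' * f) =
          MvPowerSeries.constantCoeff U' * MvPowerSeries.coeff γ₀ f := fun U γ e h => by
    obtain ⟨γ₀, a1, a2, a3⟩ := Cn.exists_min h
    have a4 : (fun o => γ₀ (o, 0)) ≤ fun o => δ (o, 0) := fun o => (a1 _).trans (e o).le
    exact ⟨γ₀, a1, congrFun (a4.eq_of_not_lt fun h =>
      hm _ ⟨γ₀, a2, rfl⟩ (Pi.toLex_strictMono h)), a2, a3⟩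
  refine ⟨fun o => δ (o, 0), fun U γ h => by_contra fun hn => ?_, fun U hU => ?_, h3⟩
  · obtain ⟨γ₀, a1, a2, -⟩ := Cn.exists_min hn
    exact hm _ ⟨γ₀, a2, rfl⟩ ((Pi.toLex_monotone fun o => a1 (o, 0)).trans_lt h)
  · obtain ⟨γ₀, -, a1, a2, a3⟩ := h3 1 δ (fun _ => rfl) (by rwa [one_mul])
    exact ⟨γ₀, a1, a3 U ▸ mul_ne_zero hU a2⟩

end Pool.Agent.Lib.MP_651af7_nt.Jn
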