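import Pool.Agent.Lib.MP_651af7_nt.Jn.Defs

/-! Coefficients of series in the variables of several blocks. -/

namespace Pool.Agent.Lib.MP_651af7_nt.Jn

open MvPolynomial Finset
open Pool.Agent.Lib.MP_651af7_nt.Av

variable {k κ ι₁ ι₂ O : Type} [Field k] [Fintype O] {g r : ℕ}

theorem emb_sum (γ : O → Fin r →₀ ℕ) :
    ∑ o, Finsupp.embDomain (vO o : Fin r ↪ O × Fin r) (γ o) = unc γ := by
  refine Finsupp.ext fun p => ?_
  rw [Finsupp.finsetSum_apply, Finset.sum_eq_single p.1 (fun o _ h =>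
    Finsupp.embDomain_of_notMem_range _ _ _ fun ⟨_, e⟩ => h (congrArg Prod.fst e)) (by simp)]
  exact Finsupp.embDomain_apply_self (vO p.1) _ p.2

theorem aeval_mono {κ R : Type} [Fintype κ] [CommRing R] [Algebra k R] (w : κ → R) (μ : κ →₀ ℕ)
    (c : k) : aeval w (monomial μ c) = c • ∏ b, w b ^ μ b := by
  rw [aeval_monomial, Finsupp.prod_fintype _ _ fun _ => pow_zero _, Algebra.smul_def]

/-- Series in disjoint sets of variables: `MvPowerSeries.coeff_prod`, `coeff_rename_eq_zero`,
`coeff_embDomain_rename`. -/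
theorem coeff_prod_rename (f : O → MvPowerSeries (Fin r) k) (γ : O → Fin r →₀ ℕ) :
    MvPowerSeries.coeff (unc γ)
      (∏ o, MvPowerSeries.rename (vO o : Fin r ↪ O × Fin r) (f o)) =
      ∏ o, MvPowerSeries.coeff (γ o) (f o) := by
  classical
  rw [MvPowerSeries.coeff_prod, Finset.sum_eq_single (Finsupp.equivFunOnFinite.symm fun o =>
    Finsupp.embDomain (vO o : Fin r ↪ O × Fin r) (γ o))]
  · exact Finset.prod_congr rfl fun o _ => MvPowerSeries.coeff_embDomain_rename _ _ _
  · intro l hl hne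
    by_contra h
    choose δ hδ using fun o : O => not_imp_comm.1 (MvPowerSeries.coeff_rename_eq_zero
      (vO o : Fin r ↪ O × Fin r) (f o) (x := l o))
      (Finset.prod_ne_zero_iff.1 h o (Finset.mem_univ o))
    simp only [← Finsupp.embDomain_eq_mapDomain] at hδ
    have h1 := (Finset.mem_finsuppAntidiag.1 hl).1
    rw [← funext hδ, emb_sum] at h1
    refine hne (Finsupp.ext fun o => ?_)
    rw [← hδ o, show δ o = γ o from Finsupp.ext fun s => DFunLike.congr_fun h1 (o, s)]
    rfl
  · exact fun h => absurd (Finset.mem_finsuppAntidiag.2 ⟨emb_sum γ, Finset.subset_univ _⟩) h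

variable [Fintype κ]

/-- The coefficients of the value of a monomial. -/
theorem coeff_xo_monomial (ζ : O → κ → MvPowerSeries (Fin r) k) (μ : O × κ →₀ ℕ) (c : k)
    (γ : O → Fin r →₀ ℕ) :
    MvPowerSeries.coeff (unc γ) (aeval (xo ζ) (monomial μ c)) =
      c * ∏ o, MvPowerSeries.coeff (γ o) (∏ b, ζ o b ^ μ (o, b)) := by
  rw [aeval_mono, map_smul, Fintype.prod_prod_type, ← coeff_prod_rename, smul_eq_mul]
  simp only [xo, map_prod, map_pow]

/-- Fix the exponents outside the block `o`. -/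
theorem exists_slice [DecidableEq O] (ζ : O → κ → MvPowerSeries (Fin r) k)
    (G : MvPolynomial (O × κ) k) (o : O) (γ : O → Fin r →₀ ℕ) : ∃ P : MvPolynomial κ k,
      (∀ μ ∈ P.support, ∃ ν ∈ G.support, ∀ b, μ b = ν (o, b)) ∧
      ∀ β, MvPowerSeries.coeff β (aeval (ζ o) P) =
        MvPowerSeries.coeff (unc (Function.update γ o β)) (aeval (xo ζ) G) := by
  classical
  refine ⟨∑ ν ∈ G.support, monomial (Finsupp.equivFunOnFinite.symm fun b => ν (o, b))
    (coeff ν G * ∏ o' ∈ Finset.univ.erase o,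
      MvPowerSeries.coeff (γ o') (∏ b, ζ o' b ^ ν (o', b))), fun μ hμ => ?_, fun β => ?_⟩
  · obtain ⟨ν, hν, h⟩ := Finset.mem_biUnion.1 (support_sum hμ)
    rw [Finset.mem_singleton.1 (support_monomial_subset h)]
    exact ⟨ν, hν, fun _ => rfl⟩
  · conv_rhs => rw [G.as_sum]
    simp only [map_sum]
    refine Finset.sum_congr rfl fun ν _ => ?_
    rw [coeff_xo_monomial, aeval_mono, map_smul, smul_eq_mul,
      ← Finset.prod_erase_mul _ _ (Finset.mem_univ o), Function.update_self, mul_assoc]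
    exact congrArg _ (congrArg (· * _) (Finset.prod_congr rfl fun o' h => by
      rw [Function.update_of_ne (Finset.ne_of_mem_erase h)]))

/-- `aeval (ext ξ) P` is the image of `hat ξ P` under `Polynomial.eval₂ (rename (vS g)) (X 0)`. -/
theorem coeff_ext (ξ : ι₁ ⊕ ι₂ → MvPowerSeries (Fin g) k) (P : MvPolynomial (ι₁ ⊕ ι₂) k) (j : ℕ)
    (α : Fin g →₀ ℕ) : MvPowerSeries.coeff (Finsupp.cons j α) (aeval (ext ξ) P) =
      MvPowerSeries.coeff α ((hat ξ P).coeff j) := by
  have h : aeval (ext ξ) P = Polynomial.eval₂AlgHom (MvPowerSeries.rename (vS g))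
      (MvPowerSeries.X 0) (fun _ => Commute.all _ _) (hat ξ P) := by
    rw [hat, ← AlgHom.comp_apply, comp_aeval]
    refine congrArg (fun w => aeval w P) (funext fun c => ?_)
    cases c <;> simp [ext]
  rw [h]
  induction hat ξ P using Polynomial.induction_on' with
  | add p q hp hq => rw [map_add, map_add, hp, hq, Polynomial.coeff_add, map_add]
  | monomial n a =>
    rw [Polynomial.eval₂AlgHom_apply, Polynomial.eval₂_monomial, MvPowerSeries.X_pow_eq,
      Polynomial.coeff_monomial, RingHom.coe_coe]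
    split_ifs with e
    · rw [show Finsupp.cons j α = Finsupp.embDomain (vS g) α + Finsupp.single 0 n from
        Finsupp.ext fun i => ?_, MvPowerSeries.coeff_add_mul_monomial, mul_one,
        MvPowerSeries.coeff_embDomain_rename]
      refine Fin.cases ?_ (fun i => ?_) i
      · rw [Finsupp.add_apply, Finsupp.embDomain_of_notMem_range _ _ _ fun ⟨_, e⟩ =>
          Fin.succ_ne_zero _ e, Finsupp.single_eq_same, zero_add, e, Finsupp.cons_zero]
      · rw [Finsupp.add_apply, Finsupp.single_eq_of_ne (Fin.succ_ne_zero _), add_zero,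
          Finsupp.cons_succ]
        exact (Finsupp.embDomain_apply_self (vS g) _ i).symm
    · rw [MvPowerSeries.coeff_mul_monomial, map_zero]
      split_ifs with h1
      · rw [MvPowerSeries.coeff_rename_eq_zero, zero_mul]
        rintro ⟨β, h2⟩
        have h3 := DFunLike.congr_fun h2 0
        have h4 := h1 0
        rw [Finsupp.mapDomain_of_notMem_range _ _ fun ⟨_, e⟩ => Fin.succ_ne_zero _ e,
          Finsupp.tsub_apply] at h3
        rw [Finsupp.single_eq_same, Finsupp.cons_zero] at h3 h4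
        omega
      · rfl

variable [Fintype ι₁] [Fintype ι₂]

theorem hat_monomial {R : Type} [CommRing R] [Algebra k R] (w : ι₁ ⊕ ι₂ → R) (μ : ι₁ ⊕ ι₂ →₀ ℕ)
    (c : k) : hat w (monomial μ c) =
      (1 + Polynomial.X) ^ (∑ a, μ (.inl a)) * Polynomial.C (c • ∏ b, w b ^ μ b) := by
  rw [hat, aeval_mono, ← Polynomial.smul_C, mul_smul_comm]
  simp only [Fintype.prod_sum_type, Sum.elim_inl, Sum.elim_inr, mul_pow, Finset.prod_mul_distrib,
    Finset.prod_pow_eq_pow_sum, map_mul, map_prod, map_pow, mul_assoc]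

theorem hat_natDegree {R : Type} [CommRing R] [Algebra k R] (w : ι₁ ⊕ ι₂ → R)
    {P : MvPolynomial (ι₁ ⊕ ι₂) k} {M : ℕ} (h : ∀ μ ∈ P.support, ∑ a, μ (.inl a) ≤ M) :
    (hat w P).natDegree ≤ M := by
  rw [P.as_sum, hat, map_sum]
  refine Polynomial.natDegree_sum_le_of_forall_le _ _ fun μ hμ => ?_
  rw [← hat, hat_monomial]
  refine (Polynomial.natDegree_mul_C_le _ _).trans ((Polynomial.natDegree_pow_le_of_le _
    (Polynomial.natDegree_add_le_of_degree_le (n := 1) (by simp)
      Polynomial.natDegree_X_le)).trans ?_)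
  rw [mul_one]
  exact h μ hμ

/-- The coefficient of `T ^ d` is a polynomial in the coordinates: the coefficient of `μ` is
multiplied by `∏ o, (∑ a, μ (o, .inl a)).choose (d o)`. -/
theorem exists_dT (G : MvPolynomial (O × (ι₁ ⊕ ι₂)) k) (d : O → ℕ) :
    ∃ G' : MvPolynomial (O × (ι₁ ⊕ ι₂)) k,
      (∀ μ, ∃ n : ℕ, n ≤ 2 ^ (∑ o, ∑ a, μ (o, .inl a)) ∧ coeff μ G' = n * coeff μ G) ∧
      ∀ (ξ : O → ι₁ ⊕ ι₂ → MvPowerSeries (Fin g) k) (α : O → Fin g →₀ ℕ),
        MvPowerSeries.coeff (unc α) (aeval (xo ξ) G') =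
        MvPowerSeries.coeff (unc fun o => Finsupp.cons (d o) (α o))
          (aeval (xo fun o => ext (ξ o)) G) := by
  classical
  refine ⟨∑ μ ∈ G.support, monomial μ
    ((∏ o, (∑ a, μ (o, .inl a)).choose (d o) : ℕ) * coeff μ G),
    fun μ => ⟨∏ o, (∑ a, μ (o, .inl a)).choose (d o), ?_, ?_⟩, fun ξ α => ?_⟩
  rotate_left
  · rw [coeff_sum, Finset.sum_eq_single μ (fun ν _ h => by rw [coeff_monomial, if_neg h])
      fun h => by rw [notMem_support_iff.1 h, mul_zero, map_zero, coeff_zero], coeff_monomial,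
      if_pos rfl]
  · conv_rhs => rw [G.as_sum]
    simp only [map_sum]
    refine Finset.sum_congr rfl fun μ _ => ?_
    rw [coeff_xo_monomial, coeff_xo_monomial, mul_comm _ (coeff μ G), mul_assoc, Nat.cast_prod,
      ← Finset.prod_mul_distrib]
    refine congrArg _ (Finset.prod_congr rfl fun o _ => ?_)
    have h := coeff_ext (ξ o) (monomial (Finsupp.equivFunOnFinite.symm fun b => μ (o, b)) 1)
      (d o) (α o)
    rw [aeval_mono, hat_monomial, one_smul, one_smul, Polynomial.coeff_mul_C,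
      Polynomial.coeff_one_add_X_pow, ← nsmul_eq_mul, map_nsmul, nsmul_eq_mul] at h
    exact h.symm
  · rw [← Finset.prod_pow_eq_pow_sum]
    exact Finset.prod_le_prod' fun o _ => Nat.choose_le_two_pow _ _

end Pool.Agent.Lib.MP_651af7_nt.Jn
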