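import Pool.Agent.Lib.MP_651af7_nt.Jn.OneB
import Pool.Agent.Lib.MP_651af7_nt.Jn.Ten
import Pool.Agent.Lib.MP_651af7_nt.Jn.Lex

/-! The local inequality. -/

namespace Pool.Agent.Lib.MP_651af7_nt.Jn

open MvPolynomial Finset
open Pool.Agent.Lib.MP_651af7_nt.Av

variable {k ι₁ ι₂ : Type} [Field k] [NumberField k] [Fintype ι₁] [Fintype ι₂] {A₁ : AV k ι₁}
  {A₂ : AV k ι₂} {g e d r : ℕ}

omit [NumberField k] in
theorem loc_X {σ : Type} (v : AbsoluteValue k ℝ) {t : σ → ℝ} (ht : ∀ s, 0 ≤ t s)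
    (κ : σ →₀ ℕ) (s : σ) : serN (absSN v) t κ (MvPowerSeries.X s) ≤ t s := by
  classical
  refine enrm_single (ht s) (Finsupp.single s 1) fun ν _ => ?_
  rw [MvPowerSeries.coeff_X]
  split_ifs with h
  · refine Or.inr ⟨h, ?_⟩
    rw [h, wt_single, pow_one]
    exact mul_le_of_le_one_left (ht s) (absSN v).one
  · exact Or.inl (by rw [(absSN v).zero, zero_mul])

theorem loc_lim {a b : ℝ} (N : ℕ) (h : ∀ lam : ℝ, 0 < lam → lam < 1 → a * lam ^ N ≤ b) :
    a ≤ b := by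
  have h1 : Filter.Tendsto (fun lam : ℝ => a * lam ^ N) (nhdsWithin 1 (Set.Iio 1)) (nhds a) := by
    have h2 : Continuous fun lam : ℝ => a * lam ^ N := by fun_prop
    simpa only [one_pow, mul_one] using (h2.tendsto 1).mono_left nhdsWithin_le_nhds
  exact le_of_tendsto h1 (Filter.mem_of_superset (Ioo_mem_nhdsLT one_pos) fun x hx => h x hx.1 hx.2)

theorem loc_wt {O : Type} [Fintype O] (t : O → ℝ) (γ : O → Fin (g + 1) →₀ ℕ) :
    wt (fun p : O × Fin (g + 1) => Fin.cases (motive := fun _ => ℝ) 1 (fun _ => t p.1) p.2) (unc γ) =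
      ∏ o, t o ^ (γ o).tail.degree := by
  rw [wt_eq, Fintype.prod_prod_type]
  refine prod_congr rfl fun o _ => ?_
  simp only [Fin.prod_univ_succ, Fin.cases_zero, Fin.cases_succ, one_pow, one_mul, unc_apply,
    prod_pow_eq_pow_sum, Finsupp.degree_eq_sum, Finsupp.tail_apply]

/-- The blocks are treated one after the other, for radii slightly below the critical ones. -/
theorem loc_le (Y : Fix A₁ A₂ g e d r) : ∃ (s : AbsoluteValue k ℝ → ℝ) (C : ℝ) (D : ℕ), Ad s C ∧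
    (∀ b : Blk A₁ A₂ g, b.Geom Y → Height.logHeight₁ (eval b.w (Y.ρ 1)) ≤ C + D * b.H) ∧
    ∀ v, Adm v → ∀ (O : Type) [Fintype O] [LinearOrder O] (b : O → Blk A₁ A₂ g)
      (ξ : O → ι₁ ⊕ ι₂ → MvPowerSeries (Fin g) k), (∀ o, (b o).Geom Y) →
      (∀ o, (b o).C.Br (b o).w (ξ o)) → ∀ q : O → ℝ, (∀ o, 1 ≤ q o) → (∀ o a, Geo v (q o) (ξ o a)) →
      ∀ (G : MvPolynomial (O × (ι₁ ⊕ ι₂)) k) (M : O → ℕ) (γ : O → Fin (g + 1) →₀ ℕ) (Λ : ℝ),
      (∀ μ ∈ G.support, ∀ o, ∑ a, μ (o, .inl a) ≤ M o) →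
      (∀ γ' : O × Fin (g + 1) →₀ ℕ, toLex (fun o => γ' (o, 0)) < toLex (fun o => γ o 0) →
        MvPowerSeries.coeff γ' (aeval (xo fun o => ext (ξ o)) G) = 0) →
      (∀ S : SN (MvPowerSeries (O × Fin (g + 1)) k) (IsNonarchimedean v), S.Ov v →
        (∀ o c, S.N (xh ξ o c) ≤ s v * nm v (b o).w) →
        S.N (aeval (xo fun o => ext (ξ o)) G) ≤ Λ) →
      v (MvPowerSeries.coeff (unc γ) (aeval (xo fun o => ext (ξ o)) G)) ≤
        Λ * ∏ o, s v ^ M o *
          (v (eval (b o).w (Y.ρ 1)) / nm v fun l => eval (b o).w (Y.ρ l)) ^ γ o 0 *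
          (q o * s v * nm v (b o).w ^ D * max 1 (v (eval (b o).w (Y.ρ 1))⁻¹)) ^
            (γ o).tail.degree := by
  obtain ⟨s, C, D, hs, h2, hD, H⟩ := one_le Y
  refine ⟨fun v => s v * s v, C + C, D, hs.mul hs, fun b hb => by linarith [hD b hb, hs.nonneg],
    fun v hv O _ _ b ξ hb hξ q hq hG G M γ Λ hM h0 hΛ => ?_⟩
  have s1 := hs.one v
  have n1 : ∀ o, 1 ≤ nm v (b o).w := fun o => by
    simpa only [(hb o).atx.one, map_one] using le_nm v (b o).w (b o).C.a₀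
  obtain ⟨R, hR⟩ : ∃ R : O → ℝ, ∀ o,
    R o = q o * s v * nm v (b o).w ^ D * max 1 (v (eval (b o).w (Y.ρ 1))⁻¹) := ⟨_, fun _ => rfl⟩
  have qR : ∀ o, q o ≤ R o := fun o => by
    rw [hR, mul_assoc, mul_assoc]
    exact le_mul_of_one_le_right (by linarith [hq o]) (one_le_mul_of_one_le_of_one_le s1
      (one_le_mul_of_one_le_of_one_le (one_le_pow₀ (n1 o)) (le_max_left _ _)))
  have R0 : ∀ o, 0 < R o := fun o => by linarith [hq o, qR o]
  obtain ⟨z, hz⟩ : ∃ z : O → ℝ, ∀ o,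
    z o = (v (eval (b o).w (Y.ρ 1)) / nm v fun l => eval (b o).w (Y.ρ l)) ^ γ o 0 :=
    ⟨_, fun _ => rfl⟩
  have z0 : ∀ o, 0 ≤ z o := fun o => hz o ▸ pow_nonneg (div_nonneg (v.nonneg _) (nm_nn v _)) _
  refine loc_lim (∑ o, (γ o).tail.degree) fun lam l0 l1 => ?_
  have t0 : ∀ o, 0 < lam / R o := fun o => div_pos l0 (R0 o)
  obtain ⟨t, ht⟩ : ∃ t : O × Fin (g + 1) → ℝ,
    t = fun p => Fin.cases (motive := fun _ => ℝ) 1 (fun _ => lam / R p.1) p.2 := ⟨_, rfl⟩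
  have t1 : ∀ p, 0 ≤ t p := fun ⟨o, l⟩ => by
    rw [ht]
    exact Fin.cases zero_le_one (fun _ => (t0 o).le) l
  obtain ⟨S, hS⟩ := exists_serSN (absSN v) t1 (unc fun o => Finsupp.cons (M o) (γ o).tail)
  have hO : S.Ov v := (absSN_ov v).ser t1 hS
  have a1 : ∀ o c, S.N (xe ξ o c) ≤ s v * nm v (b o).w := fun o c => by
    refine Cn.near_le hO (h2 v) (le_trans ?_ (n1 o)) (le_nm v _ c)
    rw [hS, ← (hξ o).const]
    refine serN_rename_sub (absSN v) (vE g o) t1 (ξ o c) (by linarith [hq o]) zero_le_one le_rfl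
      (hG o c) fun j => ?_
    rw [ht]
    change lam / R o * q o ≤ 1
    rw [div_mul_eq_mul_div, div_le_one (R0 o)]
    exact (mul_le_of_le_one_left (by linarith [hq o]) l1.le).trans (qR o)
  have a2 := hΛ S hO fun o c => by
    rcases c with c | c
    · rw [xh_inl, mul_assoc]
      refine S.mul_le ?_ (a1 o _)
      refine (Cn.near_le hO (h2 v) (x := 1) (M := 1) ?_ v.map_one.le).trans_eq (mul_one _)
      rw [map_one, add_sub_cancel_left, hS]
      exact (loc_X v t1 _ _).trans_eq (by rw [ht]; rfl)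
    · rw [xh_inr, mul_assoc]
      exact (a1 o _).trans (le_mul_of_one_le_left ((S.nonneg _).trans (a1 o (.inr c))) s1)
  have L0 := (S.nonneg _).trans a2
  have key := chain (fun γ' => v (MvPowerSeries.coeff (unc γ') (aeval (xo fun o => ext (ξ o)) G)))
    (fun β => β 0) (fun o β => β 0 ≤ M o ∧ β.tail ≤ (γ o).tail)
    (fun o β => (lam / R o) ^ β.tail.degree) γ (fun o => s v ^ (M o + (γ o).tail.degree) * z o)
    (fun o β => pow_pos (t0 o) _) (fun o => mul_nonneg (by positivity) (z0 o))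
    (fun γ' h => by rw [h0 (unc γ') h, map_zero])
    (fun o γ' Λ' L1 e1 e2 => by
      obtain ⟨P, p1, p2⟩ := exists_slice (fun o => ext (ξ o)) G o γ'
      rw [← p2, hz]
      refine H v hv (b o) (ξ o) (hb o) (hξ o) (q o) lam _ (hq o) (hG o) l0 l1 (by rw [hR]) P (M o)
        (γ o) Λ' L1 (fun μ hμ => ?_) (fun β hβ => ?_) fun β k1 k2 => ?_
      · obtain ⟨ν, hν, e⟩ := p1 μ hμ
        simpa only [e] using hM ν hν o
      · rw [p2]
        exact v.eq_zero.1 (e1 β hβ)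
      · rw [p2]
        exact e2 β ⟨k1, k2⟩)
    L0 fun γ' h => by
      rw [← loc_wt (fun o => lam / R o), ← ht]
      refine le_trans ?_ a2
      rw [hS]
      refine coeff_le_serN (absSN v) t1 _ fun ⟨o, l⟩ => ?_
      rw [unc_apply, unc_apply]
      exact Fin.cases (h o).1 (fun j => (h o).2 j) l
  simp only [div_pow, prod_div_distrib, prod_pow_eq_pow_sum] at key
  rw [← mul_div_assoc, div_le_iff₀ (prod_pos fun o _ => pow_pos (R0 o) _), mul_comm _ Λ, mul_assoc,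
    ← prod_mul_distrib] at key
  refine key.trans (mul_le_mul_of_nonneg_left (prod_le_prod
    (fun o _ => mul_nonneg (mul_nonneg (by positivity) (z0 o)) (pow_pos (R0 o) _).le)
    fun o _ => ?_) L0)
  rw [← hz, show q o * (s v * s v) * nm v (b o).w ^ D * max 1 (v (eval (b o).w (Y.ρ 1))⁻¹) =
    s v * R o by rw [hR]; ring, mul_pow (s v) (R o), pow_add,
    show ∀ a c x y : ℝ, a * c * x * y = a * x * (c * y) from fun _ _ _ _ => by ring]
  have := (R0 o).le
  have := z0 o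
  gcongr
  exact le_mul_of_one_le_left (by linarith) s1

end Pool.Agent.Lib.MP_651af7_nt.Jn
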