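import Pool.Agent.Lib.MP_651af7_nt.Jn.Defs
import Pool.Agent.Lib.MP_651af7_nt.Cn.ELoc

/-! Numerical lemmas and the sizes of the fixed data. -/

namespace Pool.Agent.Lib.MP_651af7_nt.Jn

open MvPolynomial Finset Height
open Pool.Agent.Lib.MP_651af7_nt.Av

/-- The balance of one arm. -/
theorem num_arm {y q n w H₀ H a₁ a₂ b₁ b₂ S₁ S₂ z₁ z₂ θ C D : ℝ} (hy : 0 ≤ y) (hq : 1 ≤ q)
    (hn : q ≤ n) (hw : 0 ≤ w) (hH : 0 ≤ H) (hθ : 0 ≤ θ)
    (h1 : 2 * (a₁ + w * b₁) ≤ S₁ + θ * H) (h2 : 2 * (a₂ + w * b₂) ≤ S₂ + θ * H)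
    (h3 : w * b₁ - C * w ≤ z₁) (h4 : w * b₂ - C * w ≤ z₂) (h5 : 2 * H ≤ a₁ + a₂ + θ * H)
    (h6 : 2 * H₀ ≤ b₁ + b₂ + θ * H₀) (h7 : H ≤ w * H₀ + θ * H) (h8 : w * H₀ ≤ 2 * H)
    (h9 : n * H ≤ 2 * D) (h10 : n * w * (q * (2 * C)) ≤ D) :
    w * (4 * y + q * n) * H₀ + (4 * y + (3 * q - 1) * n + q) * H ≤
      (y * S₁ + q * n * z₁ + (q - 1) * n * a₁ + (y * S₂ + q * n * z₂ + (q - 1) * n * a₂)) +
        (2 * θ * ((4 * y + (3 * q - 1) * n + q) * H) + 5 * D) := by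
  have n0 : 0 ≤ n := by linarith
  have qn : 0 ≤ q * n := by positivity
  have e6 := mul_le_mul_of_nonneg_left h6 hw
  have e8 := mul_le_mul_of_nonneg_left h8 hθ
  have s1 : 4 * H + 4 * (w * H₀) - 8 * (θ * H) ≤ S₁ + S₂ := by nlinarith
  have s2 : 2 * (w * H₀) - 2 * (θ * H) - 2 * (C * w) ≤ z₁ + z₂ := by nlinarith
  have t1 := mul_le_mul_of_nonneg_left s1 hy
  have t2 := mul_le_mul_of_nonneg_left s2 qn
  have t3 := mul_le_mul_of_nonneg_left h5 (mul_nonneg (sub_nonneg.2 hq) n0)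
  have t4 := mul_le_mul_of_nonneg_left h7 qn
  have t5 := mul_le_mul_of_nonneg_right hn hH
  have t6 : 0 ≤ θ * H * ((q - 1) * n) := mul_nonneg (mul_nonneg hθ hH) (mul_nonneg (by linarith) n0)
  have t7 : 0 ≤ θ * H * q := by positivity
  have t8 : 0 ≤ θ * H * n := by positivity
  nlinarith

/-- The final contradiction. -/
theorem num_main {I : Type} [Fintype I] {w dg κ κ' d hρ h₂ : Option I → ℝ} {dc u : I → ℝ}
    {D G Z lH κr C c θ θ' K K₁ tw ε η : ℝ} (hD : 0 < D) (hw : ∀ o, 1 ≤ w o)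
    (hc : ∀ o, c ≤ ε * w o) (hκ : ∀ o, 0 ≤ κ o) (hκ' : ∀ o, κ o ≤ κ' o) (hdg : ∀ o, 0 ≤ dg o)
    (hd : ∀ o, 0 ≤ d o) (hρ' : ∀ o, η * w o ≤ hρ o) (hη : 0 ≤ η) (hθ : 0 ≤ θ) (hκr : 0 ≤ κr)
    (hC : 0 ≤ C) (htw : 0 ≤ tw) (hε : 0 ≤ ε) (hh : ∀ o, h₂ o = κr * (w o + 1))
    (h0 : dg none * w none = Z + ∑ i, dc i * w none)
    (h1 : ∀ i, dc i * w none + dg (some i) * w (some i) ≤
      u i + (2 * θ * (dg (some i) * w (some i)) + 5 * D))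
    (h2 : ∑ o, d o * hρ o + ∑ i, u i ≤ tw * lH + ∑ o, dg o * (c + w o) +
      ∑ o, κ o * (h₂ o + C * (w o + 1)))
    (h3 : ∑ o, w o * κ' o < θ' * (K * D)) (h4 : (2 * (κr + C) + 1) * θ' * K ≤ 1)
    (h7 : lH ≤ (1 + K₁) * (ε * D)) (h8 : ∑ o, dg o * w o ≤ K₁ * D)
    (h9 : (tw * (1 + K₁) + K₁) * ε ≤ 1) (h10 : 2 * θ * K₁ ≤ 1)
    (h11 : G ≤ ∑ i, d (some i) * w (some i))
    (h12 : Z + Fintype.card I * (5 * D) + 3 * D ≤ η * G) : False := by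
  have hw0 : ∀ o, 0 ≤ w o := fun o => zero_le_one.trans (hw o)
  have s1 : ∑ o, dg o * (c + w o) ≤ (ε + 1) * ∑ o, dg o * w o := by
    rw [mul_sum]
    refine sum_le_sum fun o _ => ?_
    have := mul_le_mul_of_nonneg_left (hc o) (hdg o)
    linarith
  have s2 : ∑ o, κ o * (h₂ o + C * (w o + 1)) ≤ (2 * (κr + C) + 1) * ∑ o, w o * κ' o := by
    rw [mul_sum]
    refine sum_le_sum fun o _ => ?_
    have e1 : h₂ o + C * (w o + 1) ≤ (2 * (κr + C) + 1) * w o := by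
      have := mul_le_mul_of_nonneg_left (hw o) (add_nonneg hκr hC)
      rw [hh]
      linarith [hw0 o]
    have e3 := (mul_le_mul_of_nonneg_left e1 (hκ o)).trans (mul_le_mul_of_nonneg_right (hκ' o)
      (mul_nonneg (by linarith) (hw0 o)))
    linarith
  have s3 : η * G ≤ ∑ o, d o * hρ o := by
    refine (mul_le_mul_of_nonneg_left h11 hη).trans ?_
    rw [Fintype.sum_option, mul_sum]
    refine le_add_of_nonneg_of_le (mul_nonneg (hd _) ((mul_nonneg hη (hw0 _)).trans (hρ' _)))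
      (sum_le_sum fun i _ => ?_)
    have := mul_le_mul_of_nonneg_left (hρ' (some i)) (hd (some i))
    linarith
  have s4 : ∑ o, dg o * w o ≤ Z + ∑ i, u i + 2 * θ * ∑ o, dg o * w o +
      Fintype.card I * (5 * D) := by
    have e1 := sum_le_sum fun i (_ : i ∈ univ) => h1 i
    rw [sum_add_distrib, sum_add_distrib, sum_add_distrib, ← mul_sum _ _ (2 * θ), sum_const,
      card_univ, nsmul_eq_mul] at e1
    have e2 := mul_nonneg hθ (mul_nonneg (hdg none) (hw0 none))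
    rw [Fintype.sum_option]
    linarith
  have s5 := mul_lt_mul_of_pos_left h3 (show 0 < 2 * (κr + C) + 1 by linarith)
  have s6 := mul_le_mul_of_nonneg_right h4 hD.le
  have s7 := mul_le_mul_of_nonneg_left h7 htw
  have s8 := mul_le_mul_of_nonneg_left h8 hε
  have s9 := mul_le_mul_of_nonneg_right h9 hD.le
  have s10 := mul_le_mul_of_nonneg_left h8 hθ
  have s11 := mul_le_mul_of_nonneg_right h10 hD.le
  linarith

theorem num_sum {O : Type} [Fintype O] {w dg : O → ℝ} {D c K₁ ε : ℝ} (hc : ∀ o, c ≤ ε * w o)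
    (hdg : ∀ o, 0 ≤ dg o) (hε : 0 ≤ ε) (h8 : ∑ o, dg o * w o ≤ K₁ * D) :
    ∑ o, dg o * c ≤ K₁ * (ε * D) := by
  have s1 : ∑ o, dg o * c ≤ ε * ∑ o, dg o * w o := by
    rw [mul_sum]
    refine sum_le_sum fun o _ => ?_
    have := mul_le_mul_of_nonneg_left (hc o) (hdg o)
    linarith
  have := mul_le_mul_of_nonneg_left h8 hε
  linarith

theorem num_deg {I : Type} [Fintype I] {dc da w : I → ℝ} {g K M N w₀ : ℝ} (hw₀ : 0 ≤ w₀)
    (h1 : ∀ i, dc i ≤ K * (M * N)) (h2 : ∀ i, da i * w i ≤ K * M * (2 * (N * w₀))) :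
    ((g + 1) * (M * N) + ∑ i, dc i) * w₀ + ∑ i, da i * w i ≤
      M * (g + 1 + Fintype.card I * (3 * K)) * (N * w₀) := by
  have e1 := sum_le_sum fun i (_ : i ∈ univ) => h1 i
  have e2 := sum_le_sum fun i (_ : i ∈ univ) => h2 i
  rw [sum_const, card_univ, nsmul_eq_mul] at e1 e2
  have := mul_le_mul_of_nonneg_right e1 hw₀
  linarith

variable {k : Type} [Field k] [NumberField k]

theorem exists_small {σ I : Type} [Finite I] (P : I → MvPolynomial σ k) :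
    ∃ (B : ℕ) (h : ℝ), 0 ≤ h ∧ ∀ i, SmallP B h (P i) := by
  have := Fintype.ofFinite I
  refine ⟨univ.sup fun i => (P i).totalDegree,
    ∑ i, ∑ μ ∈ (P i).support, logHeight₁ (coeff μ (P i)), sum_nonneg fun _ _ =>
      sum_nonneg fun _ _ => zero_le_logHeight₁ _, fun i =>
      ⟨le_sup (f := fun i => (P i).totalDegree) (mem_univ i), fun μ => ?_⟩⟩
  refine le_trans ?_ (single_le_sum (f := fun i => ∑ μ ∈ (P i).support, logHeight₁ (coeff μ (P i)))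
    (fun _ _ => sum_nonneg fun _ _ => zero_le_logHeight₁ _) (mem_univ i))
  by_cases h : μ ∈ (P i).support
  · exact single_le_sum (f := fun μ => logHeight₁ (coeff μ (P i)))
      (fun _ _ => zero_le_logHeight₁ _) h
  · rw [notMem_support_iff.1 h, logHeight₁_zero]
    exact sum_nonneg fun _ _ => zero_le_logHeight₁ _

omit [NumberField k] in
theorem sz_mono {ι : Type} {A : AV k ι} {v : AbsoluteValue k ℝ} {s s' : ℝ} (h : Sz₀ A v s)
    (h' : s ≤ s') : Sz₀ A v s' :=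
  ⟨h.two.trans h', fun a b => (h.Φ a b).trans h', fun a => (h.o a).trans h'⟩

/-- One size for all fixed data. -/
theorem exists_size {ι₁ ι₂ : Type} [Fintype ι₁] [Fintype ι₂] {A₁ : AV k ι₁} {A₂ : AV k ι₂}
    {g e d r : ℕ} (Y : Fix A₁ A₂ g e d r) : ∃ rd s h, IsRd Y.J d r Y.u rd ∧ Ad s h ∧
      ∀ v, Sz₀ A₁ v (s v) ∧ Sz₀ A₂ v (s v) ∧ (∀ l, pl v (Y.u l) ≤ s v) ∧
        ∀ μ ω, v (coeff ω (rd μ)) ≤ s v ^ μ.degree := by
  obtain ⟨B₁, h₁, a1, b1⟩ := exists_small Y.u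
  obtain ⟨B₂, h₂, a2, b2⟩ := exists_small fun p : (ι₁ ⊕ ι₂) × Fin r => Y.c p.1 p.2
  have c1 : ∀ i, SmallP (max B₁ B₂) (h₁ + h₂) (Y.u i) := fun i =>
    ⟨(b1 i).1.trans (le_max_left _ _), fun μ => ((b1 i).2 μ).trans (by linarith)⟩
  have c2 : ∀ a l, SmallP (max B₁ B₂) (h₁ + h₂) (Y.c a l) := fun a l =>
    ⟨(b2 (a, l)).1.trans (le_max_right _ _), fun μ => ((b2 (a, l)).2 μ).trans (by linarith)⟩
  obtain ⟨_, -, H₁⟩ := Cn.exists_sz A₁ (ι₁ ⊕ ι₂) (g + 1) r (max B₁ B₂) Y.pos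
  obtain ⟨_, -, H₂⟩ := Cn.exists_sz A₂ (ι₁ ⊕ ι₂) (g + 1) r (max B₁ B₂) Y.pos
  obtain ⟨rd, s₁, d1, d2, d3⟩ := H₁ _ _ _ _ (add_nonneg a1 a2) Y.nn c1 c2
  obtain ⟨rd₂, s₂, -, e2, e3⟩ := H₂ _ _ _ _ (add_nonneg a1 a2) Y.nn c1 c2
  refine ⟨rd, _, _, d1, d2.mul e2, fun v => ?_⟩
  have f1 : s₁ v ≤ s₁ v * s₂ v := le_mul_of_one_le_right (d2.pos v).le (e2.one v)
  exact ⟨sz_mono (d3 v).1 f1, sz_mono (e3 v).1 (le_mul_of_one_le_left (e2.pos v).le (d2.one v)),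
    fun l => ((d3 v).2.1 l).trans f1, fun μ ω => ((d3 v).2.2 μ ω).trans
      (pow_le_pow_left₀ (d2.pos v).le f1 _)⟩

end Pool.Agent.Lib.MP_651af7_nt.Jn
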