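import Pool.Agent.Lib.MP_651af7_nt.Jn.Defs
import Pool.Agent.Lib.MP_651af7_nt.Cn.EGain

/-! The order of vanishing of the section in the variables `T`. -/

namespace Pool.Agent.Lib.MP_651af7_nt.Jn

open MvPolynomial Finset
open Pool.Agent.Lib.MP_651af7_nt.Av

/-- The trivial absolute value. -/
theorem exists_triv (k : Type) [Field k] : ∃ v : AbsoluteValue k ℝ, IsNonarchimedean v ∧
    (∀ x, v x ≤ 1) ∧ ∀ x, x ≠ 0 → v x = 1 := by
  classical
  have h1 : ∀ x : k, x ≠ 0 → (AbsoluteValue.trivial : AbsoluteValue k ℝ) x = 1 := fun x hx =>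
    AbsoluteValue.trivial_apply hx
  have h2 : ∀ x : k, (AbsoluteValue.trivial : AbsoluteValue k ℝ) x ≤ 1 := fun x => by
    by_cases hx : x = 0
    · rw [hx, map_zero]
      exact zero_le_one
    · exact (h1 x hx).le
  refine ⟨AbsoluteValue.trivial, fun x y => ?_, h2, h1⟩
  by_cases hx : x = 0
  · rw [hx, zero_add]
    exact le_max_right _ _
  · exact (h2 _).trans ((h1 x hx).ge.trans (le_max_left _ _))

theorem pl_le_one {k σ : Type} [Field k] {v : AbsoluteValue k ℝ} (hna : IsNonarchimedean v)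
    (hv : ∀ x, v x ≤ 1) (P : MvPolynomial σ k) : pl v P ≤ 1 :=
  agg_le zero_le_one (fun _ μ _ => by
    rw [wt_one, mul_one]
    exact hv _) fun h => absurd hna h

theorem wt_le_one {σ : Type} {t : σ → ℝ} (h0 : ∀ s, 0 ≤ t s) (h1 : ∀ s, t s ≤ 1) (μ : σ →₀ ℕ) :
    wt t μ ≤ 1 :=
  prod_le_one (fun s _ => pow_nonneg (h0 s) _) fun s _ => pow_le_one₀ (h0 s) (h1 s)

theorem serN_le_one {k σ : Type} [Field k] {v : AbsoluteValue k ℝ} (hna : IsNonarchimedean v)
    (hv : ∀ x, v x ≤ 1) {t : σ → ℝ} (h0 : ∀ s, 0 ≤ t s) (h1 : ∀ s, t s ≤ 1) (γ : σ →₀ ℕ)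
    (f : MvPowerSeries σ k) : serN (absSN v) t γ f ≤ 1 :=
  agg_le zero_le_one (fun _ μ _ => mul_le_one₀ (hv _) (wt_nonneg h0 μ) (wt_le_one h0 h1 μ))
    fun h => absurd hna h

theorem serN_X_le {k σ : Type} [Field k] {v : AbsoluteValue k ℝ} {t : σ → ℝ} (h0 : ∀ s, 0 ≤ t s)
    (γ : σ →₀ ℕ) (x : σ) : serN (absSN v) t γ (MvPowerSeries.X x) ≤ t x := by
  classical
  refine enrm_single (h0 x) (Finsupp.single x 1) fun ν _ => ?_
  rw [MvPowerSeries.coeff_X]
  split_ifs with h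
  · refine Or.inr ⟨h, ?_⟩
    rw [h, wt_single, pow_one]
    exact mul_le_of_le_one_left (h0 x) (absSN v).one
  · exact Or.inl (by rw [(absSN v).zero, zero_mul])

/-- `Cn.Cfg.FF_gain` for the trivial absolute value and the radii `(1 / 2) ^ F.wt (p, s)` at the
variables `T (p, s)`. -/
theorem ord_le {k κ Pr β σ : Type} [Field k] [Fintype κ] [Fintype β] [DecidableEq β] [Fintype σ]
    {r m e ρ L : ℕ} {Tm : Fin m × β → Type} [∀ i, Fintype (Tm i)] {F : Cn.Cfg k κ Pr β r m Tm}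
    {mk : Finset (Fin (r + 1))} (he : 1 ≤ e) (h : F.Hom)
    (hrd : ∀ o, IsRd (F.J o) e ρ (F.u o) (F.rd o))
    {y : Option (Fin m × β) → κ → MvPowerSeries σ k} (hy0 : ∀ o, ∀ f ∈ F.J o, aeval (y o) f = 0)
    {T : Fin m × β → σ} (hT : Function.Injective T)
    (hu : ∀ i, ∀ l ∈ mk, MvPowerSeries.X (T i) ∣ aeval (y (some i)) (F.u (some i) l))
    {c : F.Co} (hV : F.Van e ρ L mk c) (a : Fin m × β → Pr) {γ : σ →₀ ℕ}
    (hγ : MvPowerSeries.coeff γ (F.FF c a y) ≠ 0) (p : Fin m) :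
    L ≤ ∑ s, F.wt (p, s) * γ (T (p, s)) := by
  classical
  obtain ⟨v, hna, hv, hv1⟩ := exists_triv k
  obtain ⟨t, ht⟩ : ∃ t : σ → ℝ,
      ∀ x, t x = ∏ s, if x = T (p, s) then (1 / 2 : ℝ) ^ F.wt (p, s) else 1 := ⟨_, fun _ => rfl⟩
  have i0 : ∀ x s, (0 : ℝ) ≤ if x = T (p, s) then (1 / 2 : ℝ) ^ F.wt (p, s) else 1 := fun x s => by
    split_ifs <;> positivity
  have i1 : ∀ x s, (if x = T (p, s) then (1 / 2 : ℝ) ^ F.wt (p, s) else 1) ≤ 1 := fun x s => by
    split_ifs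
    exacts [pow_le_one₀ (by norm_num) (by norm_num), le_rfl]
  have t0 : ∀ x, 0 ≤ t x := fun x => by
    rw [ht]
    exact prod_nonneg fun s _ => i0 x s
  have t1 : ∀ x, t x ≤ 1 := fun x => by
    rw [ht]
    exact prod_le_one (fun s _ => i0 x s) fun s _ => i1 x s
  have t2 : ∀ s, t (T (p, s)) = (1 / 2 : ℝ) ^ F.wt (p, s) := fun s => by
    rw [ht, prod_eq_single s (fun b _ hb => if_neg fun e =>
      hb (congrArg Prod.snd (hT e)).symm) fun hs => absurd (mem_univ s) hs, if_pos rfl]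
  have t3 : wt t γ = (1 / 2 : ℝ) ^ ∑ s, F.wt (p, s) * γ (T (p, s)) := by
    rw [wt_eq, ← prod_pow_eq_pow_sum]
    simp only [ht, ← prod_pow]
    rw [prod_comm]
    refine prod_congr rfl fun s _ => ?_
    rw [prod_eq_single (T (p, s)) (fun b _ hb => by rw [if_neg hb, one_pow])
      fun hs => absurd (mem_univ _) hs, if_pos rfl, pow_mul]
  obtain ⟨S, hS⟩ := exists_serSN (absSN v) t0 γ
  have n1 : ∀ f, S.N f ≤ 1 := fun f => by
    rw [hS]
    exact serN_le_one hna hv t0 t1 γ f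
  have hs : F.Ok v fun _ => 1 :=
    ⟨fun _ => (E_pos_case hna _).le, fun _ _ => pl_le_one hna hv _,
      fun _ _ _ => by rw [one_pow]; exact hv _,
      fun _ _ _ => by rw [one_pow, one_pow, one_mul]; exact pl_le_one hna hv _⟩
  obtain ⟨H, hH⟩ : ∃ H : ℝ, H = 1 + ∑ z, ∑ τ, |(c z τ : ℝ)| := ⟨_, rfl⟩
  have c0 : ∀ z, 0 ≤ ∑ τ, |(c z τ : ℝ)| := fun z => sum_nonneg fun _ _ => abs_nonneg _
  have key := Cn.Cfg.FF_gain (S := S) (Y := fun _ => 1)
    (γ := fun q => if q = p then 1 / 2 else 1) (H := H) he ((absSN_ov v).ser t0 hS) h hrd hs hy0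
    (fun _ => le_rfl) (fun _ _ => n1 _) (fun q => by split_ifs <;> norm_num)
    (fun q => by split_ifs <;> norm_num) (fun i l hl => ?_)
    (hH ▸ le_add_of_nonneg_right (sum_nonneg fun z _ => c0 z)) (fun z τ => ?_) hV a
  · have k1 := coeff_le_serN (absSN v) t0 (F.FF c a y) (le_refl γ)
    rw [← hS] at k1
    have k2 := k1.trans key
    rw [show (absSN v).N (MvPowerSeries.coeff γ (F.FF c a y)) = 1 from hv1 _ hγ, t3,
      E_pos_case hna, prod_eq_single p (fun b _ hb => by rw [if_neg hb, one_pow])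
        fun hs => absurd (mem_univ _) hs, if_pos rfl] at k2
    simp only [one_pow, mul_one, one_mul, prod_const_one] at k2
    exact (pow_le_pow_iff_right_of_lt_one₀ (by norm_num) (by norm_num)).1 k2
  · obtain ⟨g, hg⟩ := hu i l hl
    rw [hg, one_pow]
    refine S.mul_le ?_ (n1 g)
    rw [hS]
    refine (serN_X_le t0 γ _).trans ?_
    obtain ⟨q, s⟩ := i
    split_ifs with hq
    · obtain rfl : q = p := hq
      exact (t2 s).le
    · rw [one_pow]
      exact t1 _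
  · rw [hH]
    exact ((single_le_sum (f := fun τ => |(c z τ : ℝ)|) (fun _ _ => abs_nonneg _)
      (mem_univ τ)).trans (single_le_sum (fun z _ => c0 z) (mem_univ z))).trans
        (le_add_of_nonneg_left zero_le_one)

end Pool.Agent.Lib.MP_651af7_nt.Jn
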