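import Pool.Agent.Lib.MP_651af7_nt.Jn.Glob
import Pool.Agent.Lib.MP_651af7_nt.Jn.Frame
import Pool.Agent.Lib.MP_651af7_nt.Jn.Ord
import Pool.Agent.Lib.MP_651af7_nt.Jn.Num
import Pool.Agent.Lib.MP_651af7_nt.Cn.EMain

/-! The auxiliary construction: choice of the parameters and conclusion. -/

namespace Pool.Agent.Lib.MP_651af7_nt.Jn

open MvPolynomial Finset Height
open Pool.Agent.Lib.MP_651af7_nt.Av Pool.Agent.Lib.MP_651af7_nt.Av.AV

theorem uu_unit {k ι R : Type} [Field k] [CommRing R] [Algebra k R] {A : AV k ι} (g q n : ℕ)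
    {p₁ p₂ p₃ : A.Pt R} {S y v : ι → R} (h₁ : Rep p₁ S) (h₂ : Rep p₂ y) (h₃ : Rep p₃ v) :
    ∃ a, IsUnit (uu g q n S y v a) := by
  obtain ⟨a₁, u₁⟩ := h₁.unit
  obtain ⟨a₂, u₂⟩ := h₂.unit
  obtain ⟨a₃, u₃⟩ := h₃.unit
  exact ⟨(a₁, a₂, a₃), ((u₁.pow _).mul (u₂.pow _)).mul (u₃.pow _)⟩

variable {k ι₁ ι₂ : Type} [Field k] [NumberField k] [Fintype ι₁] [Fintype ι₂] {A₁ : AV k ι₁}
  {A₂ : AV k ι₂} {g e d r : ℕ}

theorem engine (Y : Fix A₁ A₂ g e d r) (B₀ : ℕ) {η : ℝ} (hη : 0 < η) :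
    ∃ (m B' : ℕ) (θ ζ ε₀ : ℝ), 0 < θ ∧ 0 < ζ ∧ 0 < ε₀ ∧ ∀ ε : ℝ, 0 < ε → ε ≤ ε₀ → ∃ W : ℝ,
      ∀ (b : Option (Fin m × Fin 3) → Blk A₁ A₂ g) (j : Fin m × Fin 3 → ℕ),
        (∀ o, (b o).Good Y B₀ ε η θ) → (∀ o, W ≤ (b o).H) →
        (∀ o o', o ≠ o' → (b o).H ≤ ζ * (b o').H ∨ (b o').H ≤ ζ * (b o).H) →
        (∀ i, (b none).Near θ (j i) (b (some i))) →
        ∃ o, (b o).Exit B' (B' * ε * (b o).H) := by
  classical
  obtain ⟨rd, s, h₁, hrd, as, hs⟩ := exists_size Y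
  obtain ⟨κr, hκr, hrad⟩ := exists_rad k (ι₁ ⊕ ι₂) g B₀
  obtain ⟨Ns, Cs, hCs, hsieg⟩ := Cn.siegel k (ι₁ ⊕ ι₂) (Pr ι₁ ι₂) (Fin 3)
  obtain ⟨C₁, hcnt⟩ := card_low (ι₁ ⊕ ι₂) (Fin 3) g r (4 * g + 12)
  obtain ⟨C, hC, hglob⟩ := global_ineq Y
  obtain ⟨C₂, hC₁, hC₂⟩ : ∃ C₂ : ℝ, (∀ (P : A₁.Pt k) (j : ℕ), 4 ^ j * ht P - C₂ * 4 ^ j ≤
      ht (2 ^ j • P)) ∧ ∀ (P : A₂.Pt k) (j : ℕ), 4 ^ j * ht P - C₂ * 4 ^ j ≤ ht (2 ^ j • P) := by
    obtain ⟨c₁, e₁⟩ := A₁.ht_two_pow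
    obtain ⟨c₂, e₂⟩ := A₂.ht_two_pow
    refine ⟨max c₁ c₂, fun P j => ?_, fun P j => ?_⟩
    · have := mul_le_mul_of_nonneg_right (le_max_left c₁ c₂) (show (0 : ℝ) ≤ 4 ^ j by positivity)
      linarith [(abs_le.1 (e₁ P j)).1]
    · have := mul_le_mul_of_nonneg_right (le_max_right c₁ c₂) (show (0 : ℝ) ≤ 4 ^ j by positivity)
      linarith [(abs_le.1 (e₂ P j)).1]
  have hh₁ := as.nonneg
  obtain ⟨T, hT⟩ := exists_nat_ge ((g + 19) / (η / 2))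
  rw [div_le_iff₀ (half_pos hη)] at hT
  have hT0 : 1 ≤ T := Nat.pos_of_ne_zero fun h => by
    rw [h, Nat.cast_zero, zero_mul] at hT
    have : (0 : ℝ) < g + 19 := by positivity
    linarith
  obtain ⟨σ, hσ1, hσ2⟩ : ∃ σ : ℕ, 2 * Ns * (C₁ * T ^ 3) ≤ 2 ^ σ ∧
      d * T + r * Fintype.card (ι₁ ⊕ ι₂) ≤ 2 ^ σ :=
    ⟨max _ _, (le_max_left _ _).trans Nat.lt_two_pow_self.le,
      (le_max_right _ _).trans Nat.lt_two_pow_self.le⟩
  have hq1 : 1 ≤ 2 ^ σ := Nat.one_le_two_pow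
  obtain ⟨m, hm⟩ : ∃ m, m = (2 ^ σ) ^ 2 := ⟨_, rfl⟩
  have hm1 : (1 : ℝ) ≤ m := by
    rw [hm]
    exact_mod_cast Nat.one_le_pow _ _ hq1
  obtain ⟨tw, htw⟩ : ∃ tw : ℝ, tw = totalWeight k := ⟨_, rfl⟩
  have htw0 : 0 ≤ tw := by rw [htw]; positivity
  obtain ⟨K₁, hK₁⟩ : ∃ K₁ : ℝ,
    K₁ = m * (g + 1 + Fintype.card (Fin m × Fin 3) * (3 * (4 * g + 12))) := ⟨_, rfl⟩
  have hK₁0 : 0 < K₁ := by rw [hK₁]; positivity
  obtain ⟨K, hK⟩ : ∃ K : ℝ, K = tw * (1 + K₁) + K₁ + 1 := ⟨_, rfl⟩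
  have hK1 : K₁ + 1 ≤ K := by
    have : 0 ≤ tw * (1 + K₁) := by positivity
    linarith
  have hK0 : 0 < K := by linarith
  obtain ⟨B', ζ, hζ, hnv⟩ := nvk k (ι₁ ⊕ ι₂) (Option (Fin m × Fin 3)) g B₀
    (θ := 1 / ((2 * (κr + C) + 1) * K)) (by positivity)
  obtain ⟨a, ha⟩ : ∃ a : ℝ, a = Cs + C + 1 + (3 + Fintype.card ι₁) * h₁ := ⟨_, rfl⟩
  have hι : 0 ≤ Fintype.card ι₁ * h₁ := by positivity
  refine ⟨m, B', 1 / (2 * K₁), ζ, 1 / K, by positivity, hζ, by positivity, fun ε hε hε0 => ?_⟩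
  rw [le_div_iff₀ hK0] at hε0
  have hε1 : ε ≤ 1 := by nlinarith
  obtain ⟨Wn, hWn⟩ := hnv ε hε
  refine ⟨max (max Wn 1) (max (a / ε) (2 ^ σ * (2 * C₂))), fun b j hG hW hr hN => ?_⟩
  simp only [max_le_iff, div_le_iff₀' hε, forall_and] at hW
  obtain ⟨⟨hW0, hW1⟩, hW2, hW4⟩ := hW
  have hw0 : ∀ o, 0 ≤ (b o).H := fun o => zero_le_one.trans (hW1 o)
  have hb : ∀ o, (b o).Geom Y := fun o => (hG o).toGeom
  choose ξ hξ using fun o => (b o).C.exists_br (hb o).atx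
  choose q aq hq using fun o => hrad (b o).C (b o).w (ξ o) (b o).H (hb o).atx (hξ o)
    le_rfl fun a => ⟨((hG o).smφ a).1, fun μ => (((hG o).smφ a).2 μ).trans
      (mul_le_of_le_one_left (hw0 o) hε1)⟩
  obtain ⟨ch, a₀, hfr⟩ := exists_frame σ j hb hξ
  obtain ⟨J, hJ⟩ : ∃ J, ∀ i, j i ≤ J := ⟨univ.sup j, fun i => le_sup (mem_univ i)⟩
  obtain ⟨N, hN'⟩ : ∃ N, N = 2 ^ σ * 4 ^ J := ⟨_, rfl⟩
  obtain ⟨n, hn, hn'⟩ : ∃ n : Fin m × Fin 3 → ℕ, (∀ i, n i * 4 ^ j i = N) ∧ ∀ i, 2 ^ σ ≤ n i :=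
    ⟨fun i => 2 ^ σ * 4 ^ (J - j i), fun i => by
      rw [hN', mul_assoc, ← pow_add, Nat.sub_add_cancel (hJ i)],
      fun i => Nat.le_mul_of_pos_right _ (by positivity)⟩
  have hok : ∀ v, (cfg Y σ ((2 ^ σ) ^ 2 * N) n j ch rd).Ok v fun _ => s v := fun v =>
    cfg_ok (hs v).1 (hs v).2.1 (hs v).2.2.1 (hs v).2.2.2
  have hdc : ∀ i, dC g (2 ^ σ) (n i) (j i) ≤ (4 * g + 12) * ((2 ^ σ) ^ 2 * N) := fun i =>
    hn i ▸ dC_le g hq1 (n i) (j i)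
  obtain ⟨c, hc0, hc', hV⟩ := hsieg (g + 1) m d r (T * N) _
    (cfg Y σ ((2 ^ σ) ^ 2 * N) n j ch rd) {0} (fun _ => s) (fun _ => h₁) cfg_hom (fun _ => hrd)
    (fun _ => as) hok fun p => by
      have h1 := hcnt k _ m d (2 ^ σ) N T n (cfg Y σ ((2 ^ σ) ^ 2 * N) n j ch rd) {0} Y.pos
        (by simp) hT0 (by omega) hσ2 rfl hn (fun i => hq1.trans (hn' i))
        (fun i => Nat.one_le_pow _ _ (by norm_num)) (fun i => le_dA g _ _)
        (fun i => dA_le g hq1 (hq1.trans (hn' i))) hdc p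
      exact hm ▸ Cn.emain_card hq1 hσ1 h1
  have hne := hfr _ n rd c hc0
  obtain ⟨p₁, p₂, hp⟩ := exists_pts hb hξ
  obtain ⟨f, hf⟩ := FF_pres (x := xh ξ) (fun o => (hp o).2.2.1) (fun o => (hp o).2.2.2.1)
    (fun i => rep_co (p₁ (some i) + 2 ^ j i • p₁ none))
    (fun i => rep_co (p₂ (some i) + 2 ^ j i • p₂ none)) c
  let lo : LinearOrder (Option (Fin m × Fin 3)) :=
    LinearOrder.lift' (Fintype.equivFin _) (Fintype.equivFin _).injective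
  obtain ⟨d₀, l1, l2, l3⟩ := @exists_lex k _ _ _ lo g f fun h => hne (by rw [hf, h, mul_zero])
  choose a₁ u₁ using fun i => uu_unit g (2 ^ σ) (n i) (rep_co (p₁ (some i) + 2 ^ j i • p₁ none))
    ((hp none).2.2.1.dbn (j i)) (hp (some i)).2.2.1
  choose a₂ u₂ using fun i => uu_unit g (2 ^ σ) (n i) (rep_co (p₂ (some i) + 2 ^ j i • p₂ none))
    ((hp none).2.2.2.1.dbn (j i)) (hp (some i)).2.2.2.1
  have hU := (((IsUnit.prod_univ_iff.2 fun i => (u₁ i).mul (u₂ i))).map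
    MvPowerSeries.constantCoeff).ne_zero
  have hf₁ := hf fun i => (a₁ i, a₂ i)
  obtain ⟨D, hD⟩ : ∃ D : ℝ, D = N * (b none).H := ⟨_, rfl⟩
  have hN1 : (1 : ℝ) ≤ N := by
    rw [hN']
    exact_mod_cast (show 0 < 2 ^ σ * 4 ^ J by positivity)
  have hD1 : (b none).H ≤ D := hD ▸ le_mul_of_one_le_left (hw0 _) hN1
  have hD0 : 0 < D := by linarith [hW1 none]
  have hnr : ∀ i, (n i : ℝ) * 4 ^ j i = N := fun i => by exact_mod_cast hn i
  have hnw : ∀ i, n i * (b (some i)).H ≤ 2 * D := fun i => by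
    have := mul_le_mul_of_nonneg_left (hN i).le' (Nat.cast_nonneg (n i))
    rw [hD, ← hnr i]
    linarith
  obtain ⟨dg, hdg⟩ : ∃ dg, dg = (cfg Y σ ((2 ^ σ) ^ 2 * N) n j ch rd).dg := ⟨_, rfl⟩
  have hdg0 : ∀ o, (0 : ℝ) ≤ dg o := fun o => Nat.cast_nonneg _
  have hd0 : dg none = (g + 1) * (m * N) + ∑ i, dC g (2 ^ σ) (n i) (j i) := by
    rw [hdg, show m * N = (2 ^ σ) ^ 2 * N by rw [hm]]
    rfl
  have hd1 : ∀ i, dg (some i) = dA g (2 ^ σ) (n i) := fun i => by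
    rw [hdg]
    rfl
  have h8 : ∑ o, dg o * (b o).H ≤ K₁ * D := by
    rw [hK₁, hD, Fintype.sum_option, hd0]
    push_cast
    refine num_deg (hw0 _) (fun i => ?_) fun i => ?_
    · have := hdc i
      rw [← hm] at this
      exact_mod_cast this
    · have h1 := dA_le g hq1 (hq1.trans (hn' i))
      rw [← hm, ← hd1] at h1
      have h2 : (dg (some i) : ℝ) ≤ (4 * g + 12) * (m * n i) := by exact_mod_cast h1
      have h3 := mul_le_mul_of_nonneg_right h2 (hw0 (some i))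
      have h4 := mul_le_mul_of_nonneg_left (hnw i) (show (0 : ℝ) ≤ (4 * g + 12) * m by positivity)
      rw [← hD]
      linarith
  rw [← hdg] at hc'
  obtain ⟨lH, hlH⟩ : ∃ lH, lH = Cs + ∑ o, dg o * (3 * h₁ + 1) := ⟨_, rfl⟩
  rw [← hlH] at hc'
  have h7 : lH ≤ (1 + K₁) * (ε * D) := by
    have e1 := num_sum (c := 3 * h₁ + 1) (fun o => by linarith [hW2 o]) hdg0 hε.le h8
    have e2 := mul_le_mul_of_nonneg_left hD1 hε.le
    linarith [hW2 none]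
  have hH : 1 ≤ Real.exp lH := Real.one_le_exp (hlH ▸ add_nonneg hCs (sum_nonneg fun o _ => by
    positivity))
  have hG' := Cn.Cfg.map_FF _ (aeval (xo fun o => ext (ξ o)) :
    MvPolynomial (Option (Fin m × Fin 3) × (ι₁ ⊕ ι₂)) k →ₐ[k] _) c (fun i => (a₁ i, a₂ i))
    fun o d => X (o, d)
  simp only [aeval_X] at hG'
  replace hG' := hG'.trans hf₁
  have hdeg := Cn.Cfg.FF_deg cfg_hom c fun i => (a₁ i, a₂ i)
  have hcf := fun v => Cn.Cfg.FF_coeff cfg_hom (hok v) hH hc' fun i => (a₁ i, a₂ i)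
  rw [← hdg] at hdeg hcf
  obtain ⟨G', g1, g2⟩ := exists_dT (g := g) ((cfg Y σ ((2 ^ σ) ^ 2 * N) n j ch rd).FF c
    (fun i => (a₁ i, a₂ i)) fun o d => (X (o, d) : MvPolynomial _ k)) d₀
  replace g2 := fun α => (g2 ξ α).trans (congrArg _ hG')
  have s1 := mul_le_mul_of_nonneg_right hK1 hD0.le
  have s2 := mul_nonneg hK₁0.le hD0.le
  have aG := (ad_E (k := k) hH).mul (ad_prod univ fun o _ => as.pow ((Fintype.card ι₁ + 3) * dg o))
  have hsup : ∀ ν ∈ G'.support, ∀ p, ν p ≤ dg p.1 := fun ν hν => hdeg ν (by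
    obtain ⟨_, -, h⟩ := g1 ν
    exact mem_support_iff.2 (right_ne_zero_of_mul (h ▸ mem_support_iff.1 hν)))
  refine (hWn (fun o => (b o).H) (fun o => (b o).C) (fun o => (b o).w) ξ hW0 hr
    (fun o => (hb o).atx) hξ (fun o => (hG o).smφ) (K * D) G' _ (by linarith [hW0 none])
    (fun ν hν p => ?_) (aG.mono ?_) (fun ν v _ => ?_) ?_).resolve_left ?_
  · have h1 : (ν p : ℝ) ≤ dg p.1 := by exact_mod_cast hsup ν hν p
    have h2 := mul_le_mul_of_nonneg_left h1 (hw0 p.1)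
    have h3 := single_le_sum (f := fun o => dg o * (b o).H)
      (fun o _ => mul_nonneg (hdg0 o) (hw0 o)) (mem_univ p.1)
    linarith
  · have e1 := num_sum (c := (Fintype.card ι₁ + 3) * h₁) (fun o => by linarith [hW2 o]) hdg0
      hε.le h8
    have e2 := mul_le_mul_of_nonneg_left h7 htw0
    have e3 : ∑ o, (((Fintype.card ι₁ + 3) * dg o : ℕ) : ℝ) * h₁ =
        ∑ o, dg o * ((Fintype.card ι₁ + 3) * h₁) := sum_congr rfl fun o _ => by push_cast; ring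
    rw [Real.log_exp, ← htw, hK, e3]
    linarith [mul_pos hε hD0]
  · by_cases hν : ν ∈ G'.support
    swap
    · rw [notMem_support_iff.1 hν, map_zero]
      exact (aG.pos v).le
    obtain ⟨t, t1, t2⟩ := g1 ν
    have t3 : v t ≤ s v ^ (∑ o, Fintype.card ι₁ * dg o) :=
      ((absSN v).natCast_le t).trans (E_le_pow (hs v).1.two (by
        exact_mod_cast t1.trans (Nat.pow_le_pow_right two_pos (sum_le_sum fun o _ =>
          (sum_le_card_nsmul _ _ (dg o) fun a _ => hsup ν hν (o, .inl a)).trans_eq (by simp)))))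
    rw [t2, map_mul]
    refine (mul_le_mul t3 (hcf v ν) (v.nonneg _) (pow_nonneg (as.pos v).le _)).trans_eq ?_
    simp only [add_mul, pow_add, prod_mul_distrib, prod_pow_eq_pow_sum]
    ring
  · obtain ⟨γ, e1, e2⟩ := l2 _ hU
    obtain ⟨γ, rfl⟩ := exists_unc γ
    refine fun h => e2 ?_
    have e3 := g2 fun o => (γ o).tail
    rw [h, map_zero] at e3
    rw [e3]
    congr 3
    funext o
    rw [← e1 o]
    exact (Finsupp.cons_tail _).symm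
  rintro ⟨κ', k1, k2⟩
  obtain ⟨κ', rfl⟩ := exists_unc κ'
  rw [g2] at k2
  obtain ⟨γ, k3, k4, k5, k6⟩ := l3 _ _ (fun o => by simp) k2
  obtain ⟨γ, rfl⟩ := exists_unc γ
  have h2 := hglob (Fin 3) m σ _ n j ch rd b ξ lo c _ h₁ s q _ p₁ p₂ f γ hb hξ hH hc' as hok aq hq
    (fun o => (hp o).2.2.2.2.1) (fun o => (hp o).2.2.2.2.2) hf
    (fun U γ' h => l1 U γ' (funext k4 ▸ h)) k5 k6
  rw [← hdg, Real.log_exp, ← htw] at h2
  have hord := ord_le Y.pos cfg_hom (fun _ => hrd) (xh_zero hb hξ) (T := fun i => (some i, 0))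
    (fun _ _ h => by simpa using h) (fun i l hl => by
      rw [mem_singleton.1 hl]
      exact xh_dvd hb hξ _ _ Y.u₀) hV (fun i => (a₁ i, a₂ i)) (γ := unc γ)
    (by rw [hf₁, k6]; exact mul_ne_zero hU k5)
  refine num_main (G := m * (T * D) / 2) (Z := (g + 1) * (m * D))
    (dc := fun i => dC g (2 ^ σ) (n i) (j i)) (θ := 1 / (2 * K₁)) hD0 hW1
    (fun o => by linarith [hW2 o]) (fun _ => Nat.cast_nonneg _) (fun o => Nat.cast_le.2 ?_) hdg0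
    (fun _ => Nat.cast_nonneg _) (fun o => (hG o).big) hη.le (by positivity) hκr hC htw0 hε.le
    (fun _ => rfl) ?_ (fun i => ?_) h2 k1 (le_of_eq (by field_simp)) h7 h8
    (by rw [hK] at hε0; linarith) (le_of_eq (by field_simp)) ?_ ?_
  · rw [Finsupp.degree_eq_sum]
    exact sum_le_sum fun l _ => by simpa [Finsupp.tail_apply] using k3 (o, l.succ)
  · rw [hd0, hD, ← sum_mul]
    push_cast
    ring
  · have e1 := num_arm (y := Cn.DY g (2 ^ σ) (n i)) (q := (2 ^ σ : ℕ)) (n := n i) (D := D)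
      (Nat.cast_nonneg _) (by exact_mod_cast hq1) (by exact_mod_cast hn' i) (by positivity) (hw0 _)
      (by positivity) (hN i).par₁ (hN i).par₂ (hC₁ _ _) (hC₂ _ _) (hG _).bal (hG _).bal (hN i).le
      (hN i).ge (hnw i) (by
        rw [hnr, hD]
        exact mul_le_mul_of_nonneg_left (by exact_mod_cast hW4 none) (by linarith))
    have e2 : (((3 * 2 ^ σ - 1 : ℕ)) : ℝ) = 3 * (2 ^ σ : ℕ) - 1 := by
      rw [Nat.cast_sub (by omega)]
      simp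
    simp only [hd1, dA, dC, hu, Nat.cast_add, Nat.cast_mul, Nat.cast_sub hq1, e2, Nat.cast_one,
      Nat.cast_pow 4, Nat.cast_ofNat]
    exact e1
  · rw [Fintype.sum_prod_type]
    refine le_trans (le_of_eq ?_) (sum_le_sum (f := fun _ => T * D / 2) fun p _ => ?_)
    · rw [sum_const, card_univ, Fintype.card_fin, nsmul_eq_mul, mul_div_assoc]
    · have e1 : ((T * N : ℕ) : ℝ) ≤ ∑ t, 4 ^ j (p, t) * γ (some (p, t)) 0 := by
        exact_mod_cast hord p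
      have e2 := mul_le_mul_of_nonneg_right e1 (hw0 none)
      push_cast at e2
      rw [sum_mul] at e2
      have e3 := sum_le_sum fun t (_ : t ∈ univ) => mul_le_mul_of_nonneg_left (hN (p, t)).ge
        (Nat.cast_nonneg (α := ℝ) (γ (some (p, t)) 0))
      have e4 : ∑ t, (γ (some (p, t)) 0 : ℝ) * (2 * (b (some (p, t))).H) =
          2 * ∑ t, γ (some (p, t)) 0 * (b (some (p, t))).H := by
        rw [mul_sum]
        exact sum_congr rfl fun _ _ => by ring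
      have e5 : ∑ t, (γ (some (p, t)) 0 : ℝ) * (4 ^ j (p, t) * (b none).H) =
          ∑ t, 4 ^ j (p, t) * γ (some (p, t)) 0 * (b none).H := sum_congr rfl fun _ _ => by ring
      rw [hD]
      linarith
  · have h3 := mul_le_mul_of_nonneg_right hT (show 0 ≤ m * D by positivity)
    have h4 := mul_le_mul_of_nonneg_right hm1 hD0.le
    rw [Fintype.card_prod, Fintype.card_fin, Fintype.card_fin]
    push_cast
    linarith

end Pool.Agent.Lib.MP_651af7_nt.Jn
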