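import Pool.Agent.Lib.MP_651af7_nt.Jn.OVoc
import Pool.Agent.Lib.MP_651af7_nt.Cn.SCone

/-! Points in a narrow cone. -/

namespace Pool.Agent.Lib.MP_651af7_nt.Jn

open MvPolynomial Height Filter
open Pool.Agent.Lib.MP_651af7_nt.Av Pool.Agent.Lib.MP_651af7_nt.Av.AV
open Pool.Agent.Lib.MP_8865d3_nt.Sv

variable {α : Type} {U : Ultrafilter α} {k ι₁ ι₂ : Type} [Field k] [NumberField k] [Fintype ι₁]
  [Fintype ι₂] {A₁ : AV k ι₁} {A₂ : AV k ι₂} {g : ℕ}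

theorem cone_two (j : ℕ) : ((2 : ℝ) ^ j) ^ 2 = 4 ^ j := by
  rw [← pow_mul, mul_comm, pow_mul]
  norm_num

theorem cone_bd {E : Type} [NormedAddCommGroup E] [NormedSpace ℝ E] {x : E} {h H C δ : ℝ} {κ : ℕ}
    (hx : |‖x‖ ^ 2 - h| ≤ C) (hh : h ≤ H) (b1 : 1 ≤ H) (b2 : C ≤ δ * H) (d1 : δ ≤ 1 / 2)
    (a0 : H ≤ 4 * 4 ^ κ) : ‖((2 : ℝ) ^ κ)⁻¹ • x‖ ≤ 8 := by
  have p4 : (0 : ℝ) < 4 ^ κ := by positivity
  have p2 : (0 : ℝ) < 2 ^ κ := by positivity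
  rw [norm_smul, norm_inv, Real.norm_of_nonneg p2.le, inv_mul_le_iff₀ p2]
  refine (pow_le_pow_iff_left₀ (norm_nonneg _) (by positivity) two_ne_zero).1 ?_
  have a1 := (abs_le.1 hx).2
  have a2 := mul_le_mul_of_nonneg_right d1 (zero_le_one.trans b1)
  rw [mul_pow, cone_two]
  linarith

theorem cone_par {ι E : Type} [Fintype ι] {A : AV k ι} [NormedAddCommGroup E]
    [InnerProductSpace ℝ E] (φ : A.Pt k →+ E) {C δ θ H H' : ℝ}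
    (hφ : ∀ P, |‖φ P‖ ^ 2 - ht P| ≤ C) {P P' : A.Pt k} {j κ : ℕ}
    (c4 : ‖φ P' - (2 : ℝ) ^ j • φ P‖ ≤ δ * 2 ^ κ) (d0 : 0 < δ) (d1 : δ ≤ 1 / 2) (d2 : 8 * δ ≤ θ)
    (b1' : 1 ≤ H') (b2 : C ≤ δ * H) (b2' : C ≤ δ * H') (a0 : (4 : ℝ) ^ κ ≤ H')
    (a3 : 4 ^ j * H ≤ 2 * H') :
    2 * (ht P' + 4 ^ j * ht P) ≤ ht (P' + 2 ^ j • P) + θ * H' := by
  have g0 : (0 : ℝ) ≤ 4 ^ j := by positivity
  have a1 := mul_le_mul_of_nonneg_left a0 d0.le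
  have g7 := mul_le_mul_of_nonneg_left a3 d0.le
  have g1 := (abs_le.1 (hφ (P' + 2 ^ j • P))).2
  have g2 := (abs_le.1 (hφ P')).1
  have g3 := mul_le_mul_of_nonneg_left (abs_le.1 (hφ P)).1 g0
  have g4 := parallelogram_law_with_norm ℝ (φ P') ((2 : ℝ) ^ j • φ P)
  rw [map_add, map_nsmul, ← Nat.cast_smul_eq_nsmul ℝ, Nat.cast_pow, Nat.cast_ofNat] at g1
  have g5 := pow_le_pow_left₀ (norm_nonneg _) c4 2
  rw [norm_smul, Real.norm_of_nonneg (by positivity), mul_pow, cone_two] at g4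
  rw [mul_pow, cone_two] at g5
  have g6 := mul_le_mul_of_nonneg_left b2 g0
  have g8 := mul_le_mul_of_nonneg_right d2 (zero_le_one.trans b1')
  have g9 := mul_le_mul (show δ ≤ 1 by linarith) a1 (by positivity) zero_le_one
  linarith

theorem cone (b : α → Blk A₁ A₂ g) (h₁ : ∀ n, ht (b n).P₁ ≤ (b n).H)
    (h₂ : ∀ n, ht (b n).P₂ ≤ (b n).H) (hH : Tendsto (fun n => (b n).H) U atTop) {θ : ℝ}
    (hθ : 0 < θ) : ∃ S ∈ U, ∀ n ∈ S, ∀ n' ∈ S, (b n).H ≤ (b n').H →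
      ∃ j, (b n).Near θ j (b n') := by
  obtain ⟨r₁, φ₁, C₁, H₁⟩ := A₁.exists_euclid
  obtain ⟨r₂, φ₂, C₂, H₂⟩ := A₂.exists_euclid
  have H₁' : ∀ P, |‖φ₁ P‖ ^ 2 - ht P| ≤ C₁ := H₁
  have H₂' : ∀ P, |‖φ₂ P‖ ^ 2 - ht P| ≤ C₂ := H₂
  obtain ⟨δ, d0, d1, d2⟩ : ∃ δ : ℝ, 0 < δ ∧ δ ≤ 1 / 2 ∧ 8 * δ ≤ θ :=
    ⟨min (1 / 2) (θ / 8), by positivity, min_le_left _ _, by
      linarith [min_le_right (1 / 2) (θ / 8)]⟩
  obtain ⟨κ, hκ⟩ : ∃ κ : α → ℕ, ∀ n, κ n = Nat.log 4 ⌊(b n).H⌋₊ := ⟨_, fun _ => rfl⟩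
  have k1 : ∀ n, 1 ≤ (b n).H → (4 : ℝ) ^ κ n ≤ (b n).H := fun n hn => by
    refine le_trans ?_ (Nat.floor_le (by linarith))
    rw [hκ]
    exact_mod_cast Nat.pow_log_le_self 4 (Nat.floor_pos.2 hn).ne'
  have k2 : ∀ n, (b n).H ≤ 4 * 4 ^ κ n := fun n => by
    refine (Nat.lt_floor_add_one _).le.trans ?_
    rw [hκ, ← pow_succ']
    exact_mod_cast Nat.lt_pow_succ_log_self (b := 4) (by norm_num) _
  have big := (hH.eventually_ge_atTop 1).and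
    (((hH.const_mul_atTop d0).eventually_ge_atTop C₁).and
      ((hH.const_mul_atTop d0).eventually_ge_atTop C₂))
  obtain ⟨S, hS, hc'⟩ := cone_lim U (M := 8) (fun n => (((2 : ℝ) ^ κ n)⁻¹ • φ₁ (b n).P₁,
      ((2 : ℝ) ^ κ n)⁻¹ • φ₂ (b n).P₂, ((4 : ℝ) ^ κ n)⁻¹ • (b n).H))
      (big.mono fun n ⟨b1, b2, b3⟩ => by
    have p4 : (0 : ℝ) < 4 ^ κ n := by positivity
    have a0 := k2 n
    refine norm_prod_le_iff.2 ⟨cone_bd (H₁' _) (h₁ n) b1 b2 d1 a0,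
      norm_prod_le_iff.2 ⟨cone_bd (H₂' _) (h₂ n) b1 b3 d1 a0, ?_⟩⟩
    rw [norm_smul, norm_inv, Real.norm_of_nonneg p4.le, inv_mul_le_iff₀ p4,
      Real.norm_of_nonneg (zero_le_one.trans b1)]
    linarith) d0
  refine ⟨_, Filter.inter_mem hS big, ?_⟩
  rintro n ⟨s1, b1, b2, b3⟩ n' ⟨s1', b1', b2', b3'⟩ hle
  have hk : κ n ≤ κ n' := by
    rw [hκ, hκ]
    exact Nat.log_mono_right (Nat.floor_mono hle)
  obtain ⟨c1, c2⟩ := norm_prod_le_iff.1 (hc' n s1 n' s1')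
  obtain ⟨c2, c3⟩ := norm_prod_le_iff.1 c2
  have c5 := abs_le.1 (cone_scale (c := 4) (by norm_num) hk c3)
  have a1 := mul_le_mul_of_nonneg_left (k1 n' b1') d0.le
  have a2 := mul_le_mul_of_nonneg_right d1 (zero_le_one.trans b1')
  have a4 := mul_le_mul_of_nonneg_right d2 (zero_le_one.trans b1')
  have a5 := mul_nonneg d0.le (zero_le_one.trans b1')
  rw [smul_eq_mul] at c5
  have a3 : 4 ^ (κ n' - κ n) * (b n).H ≤ 2 * (b n').H := by linarith [c5.1]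
  exact ⟨κ n' - κ n,
    cone_par φ₁ H₁' (cone_scale two_pos hk c1) d0 d1 d2 b1' b2 b2' (k1 n' b1') a3,
    cone_par φ₂ H₂' (cone_scale two_pos hk c2) d0 d1 d2 b1' b3 b3' (k1 n' b1') a3,
    by linarith [c5.2], by linarith [c5.2], a3⟩

end Pool.Agent.Lib.MP_651af7_nt.Jn
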