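import Pool.Agent.Lib.MP_651af7_nt.Jn.OFix
import Pool.Agent.Lib.MP_651af7_nt.Jn.OCone
import Pool.Agent.Lib.MP_651af7_nt.Jn.Main

/-! The contradiction along an ultrafilter. -/

namespace Pool.Agent.Lib.MP_651af7_nt.Jn

open MvPolynomial Height Filter
open Pool.Agent.Lib.MP_651af7_nt.Av Pool.Agent.Lib.MP_651af7_nt.Av.AV
open Pool.Agent.Lib.MP_8865d3_nt.Sv
open Pool.Agent.Lib.MP_651af7_nt.Cn (gv)

variable {k ι₁ ι₂ : Type} [Field k] [NumberField k] [Fintype ι₁] [Fintype ι₂] {A₁ : AV k ι₁}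
  {A₂ : AV k ι₂} {p : Ideal (MvPolynomial (ι₁ ⊕ ι₂) k)} {e m n : ℕ}
  {σ : Fin (e + 2) → MvPolynomial (ι₁ ⊕ ι₂) k} {α : Type} {U : Ultrafilter α}
  {x₁ : α → A₁.Pt k} {x₂ : α → A₂.Pt k} {w : α → ι₁ ⊕ ι₂ → k}

theorem Fam.exists_charts (hF : Fam U p x₁ x₂ w) {H : α → ℝ} {hH : Tendsto H U atTop} {g : ℕ}
    (hg : td (Sm k hH) (rat (gv U w)) = g) {c : ι₁ ⊕ ι₂} (hc : ∀ n, w n c = 1) :
    ∃ (B₀ : ℕ) (Cn : α → Chart k (ι₁ ⊕ ι₂) g) (I : Fin g → ι₁ ⊕ ι₂),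
      (∀ n, (Cn n).a₀ = c ∧ (Cn n).I = I) ∧ (∀ᶠ n in U, (Cn n).At (w n) ∧ (Cn n).On p (w n)) ∧
      (∀ ε : ℝ, 0 < ε → ∀ᶠ n in U, ∀ a, SmallP B₀ (ε * H n) ((Cn n).φ a)) ∧
      AlgebraicIndependent (Sm k hH) fun j => (germ U fun n => w n (I j) : Up U k) := by
  classical
  have : CharZero (Sm k hH) := charZero_of_injective_algebraMap (algebraMap k _).injective
  obtain ⟨r, D, ha₀, hat, hr, hind, hon⟩ := exists_chart (K := Sm k hH) (gv U w) c
    ((congrArg (germ U) (funext hc)).trans (map_one _))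
  rw [hg, Nat.cast_inj] at hr
  subst hr
  obtain ⟨Cn, hD, hD0⟩ := Cn.sblk_reprC (U := U) (k := k) D
  obtain ⟨m, P, hP⟩ := Submodule.fg_iff_exists_fin_generating_family.1 (IsNoetherian.noetherian p)
  have hP' : Ideal.span (Set.range P) = p := hP
  have g4 : ∀ᶠ n in U, ∀ j, ∃ s, IsUnit (aeval (w n) s) ∧ s * P j ∈ (Cn n).ideal := by
    refine eventually_all.2 fun j => ?_
    obtain ⟨s, hs, hs'⟩ := hon (map (algebraMap k (Sm k hH)) (P j)) (by
      rw [RingHom.mem_ker, aeval_map_algebraMap]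
      exact hF.gp.1 _ (hP' ▸ Ideal.subset_span ⟨j, rfl⟩))
    obtain ⟨t, ht⟩ := exists_repr (map (algebraMap (Sm k hH) (Up U k)) s)
    rw [show aeval (gv U w) s = _ from ht.aeval' w, germ_isUnit] at hs
    have h2 := Ideal.mem_map_of_mem (MvPolynomial.map (algebraMap (Sm k hH) (Up U k))) hs'
    rw [D.ideal_eq, Ideal.map_span, ← Set.range_comp, map_mul, MvPolynomial.map_map,
      ← IsScalarTower.algebraMap_eq] at h2
    have h3 := Repr.mem_span (g := fun n (a : ↥(Set.range D.I)ᶜ) => (Cn n).φ a)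
      (fun a => hD.φ a) (ht.mul (Repr.const (P j))) h2
    refine (hs.and h3).mono fun n hn => ⟨t n, hn.1, ?_⟩
    rw [Chart.ideal, hD.I, Set.image_eq_range]
    exact hn.2
  obtain ⟨B₁, hB₁⟩ := Finite.exists_le fun a => (D.φ a).totalDegree
  refine ⟨B₁, Cn, D.I, fun n => ⟨(hD0 n).trans ha₀, hD.I n⟩, ?_,
    fun ε hε => eventually_all.2 fun a => (hD.φ a).small hH (hB₁ a) hε, hind⟩
  filter_upwards [hD.atx hat, g4] with n h1 h2
  refine ⟨h1, hP' ▸ (Cn n).on_span ?_⟩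
  rintro _ ⟨j, rfl⟩
  exact h2 j

theorem Fam.false (Hy : Hyp A₁ A₂ p) (hR : Rel p e m n σ) (hF : Fam U p x₁ x₂ w)
    (hH : Tendsto (fun n => 2 * logHeight (w n)) U atTop) {c : ι₂} (hc : ∀ n, w n (.inr c) = 1) :
    False := by
  obtain ⟨g, h1, h2, hcos⟩ := hF.cos Hy hR hH
  obtain ⟨r, X, hXp, hXρ⟩ := exists_fix Hy hR hF.gp h1 hcos
  obtain ⟨B₀, Cn, I, hC, hat, hsm, hind⟩ := hF.exists_charts h2 hc
  have hbig := hF.big Hy hR h1 h2
  simp only [Lo, not_forall] at hbig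
  obtain ⟨η, hη, hbig⟩ := hbig
  let b : α → Blk A₁ A₂ g := fun n => ⟨x₁ n, x₂ n, w n, Cn n⟩
  have hH' : Tendsto (fun n => (b n).H) U atTop :=
    (tendsto_const_mul_atTop_of_pos two_pos).1 hH
  obtain ⟨M, B', θ, ζ, ε₀, hθ, hζ, hε₀, heng⟩ := engine X B₀ hη
  obtain ⟨δ, hδ, hex⟩ := exists_not_exit hH (fun n j => w n (I j)) hind B'
  have hε : 0 < min ε₀ (δ / (B' + 1)) := lt_min hε₀ (by positivity)
  obtain ⟨W, hW⟩ := heng _ hε (min_le_left _ _)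
  have hgood : ∀ᶠ n in U, (b n).Good X B₀ (min ε₀ (δ / (B' + 1))) η θ := by
    filter_upwards [hat, hsm _ (half_pos hε), Ultrafilter.eventually_not.2 hbig,
      hF.bal _ (half_pos hθ), hF.gen _ _ (hR.tay_hom 1) hR.tay_one,
      hF.gen _ _ (hR.hom _) hR.last] with n g1 g2 g3 g4 g5 g6
    have g0 := mul_nonneg hη.le (logHeight_nonneg (w n))
    refine ⟨⟨hF.rep₁ n, hF.rep₂ n, ⟨c, (hC n).1⟩, g1.1, hXp ▸ g1.2, hXρ ▸ g5, ?_⟩, fun a => ?_,
      ?_, ?_⟩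
    · rw [hXρ, tay_last]
      exact g6
    · have := g2 a
      rwa [← mul_assoc, div_mul_cancel₀ _ two_ne_zero] at this
    · rw [hXρ]
      change η * logHeight (w n) ≤ logHeight fun t => eval (w n) (tay σ t)
      linarith [not_le.1 g3]
    · change 2 * logHeight (w n) ≤ ht (x₁ n) + ht (x₂ n) + θ * logHeight (w n)
      linarith
  obtain ⟨S, hS, hcone⟩ := cone b (fun n => (ht_eq (hF.rep₁ n)).trans_le (ht_inl _))
    (fun n => (ht_eq (hF.rep₂ n)).trans_le (ht_inr _)) hH' hθ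
  obtain ⟨f, hf, hsep⟩ := exists_chain hH' (((hgood.and hex).and
    (hH'.eventually_ge_atTop W)).and hS) hζ
  let ix : Option (Fin M × Fin 3) → ℕ := fun o => o.elim 0 fun i => Fintype.equivFin _ i + 1
  have hix : Function.Injective ix := by
    rintro (_ | i) (_ | i') h
    · rfl
    · simp [ix] at h
    · simp [ix] at h
    · simp only [ix, Option.elim_some, add_left_inj] at h
      rw [(Fintype.equivFin _).injective (Fin.ext h)]
  choose j hj using fun i : Fin M × Fin 3 => hcone (f 0) (hf 0).2 (f (ix (some i))) (hf _).2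
    (hsep 0 _ (Nat.succ_pos _)).1
  obtain ⟨o, q, h0, h3, h4, h5, h6⟩ := hW (fun o => b (f (ix o))) j (fun o => (hf _).1.1.1)
    (fun o => (hf _).1.2) (fun o o' h => (lt_or_gt_of_ne (hix.ne h)).imp
      (fun h => (hsep _ _ h).2) fun h => (hsep _ _ h).2) hj
  refine (hf (ix o)).1.1.2 q h0 h3 h4 (h5.trans (Real.exp_le_exp.2 ?_)) ?_
  · have g0 := logHeight_nonneg (w (f (ix o)))
    have g1 : (B' : ℝ) * min ε₀ (δ / (B' + 1)) ≤ δ :=
      calc (B' : ℝ) * min ε₀ (δ / (B' + 1)) ≤ (B' + 1) * (δ / (B' + 1)) := by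
            gcongr
            · linarith
            · exact min_le_right _ _
        _ = δ := by field_simp
    exact mul_le_mul g1 (show logHeight (w _) ≤ _ by linarith) g0 hδ.le
  · simpa only [b, (hC _).2] using h6

omit [NumberField k] [Fintype ι₁] [Fintype ι₂] in
theorem Rel.exists_inr (hR : Rel p e m n σ) (hp : p.IsPrime) : ∃ c, X (.inr c) ∉ p := by
  by_contra! h
  obtain ⟨F, _, _, _, _, x, hx⟩ := exists_genpt k p
  have h1 := aeval_mul_of_bih (hR.bih 0) 1 0 (fun a => x (.inl a)) fun b => x (.inr b)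
  have h2 : (fun b => 0 * x (.inr b)) = fun b => x (.inr b) := funext fun b => by
    rw [zero_mul, ← (hx _).2 (h b), aeval_X]
  simp only [one_mul, h2, elim_eta] at h1
  exact hR.first ((hx _).1 (by simpa using h1))

theorem core (Hy : Hyp A₁ A₂ p) (hR : Rel p e m n σ) : Core p := by
  by_contra hcon
  have hp := Hy.prime
  obtain ⟨c, hc⟩ := hR.exists_inr hp
  let β := {z : A₁.Pt k × A₂.Pt k × (ι₁ ⊕ ι₂ → k) // Rep z.1 (fun a => z.2.2 (.inl a)) ∧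
    Rep z.2.1 (fun b => z.2.2 (.inr b)) ∧ (∀ f ∈ p, eval z.2.2 f = 0) ∧ z.2.2 (.inr c) = 1}
  let T := {t : MvPolynomial (ι₁ ⊕ ι₂) k × ℕ × ℝ × ℝ //
    t.1.IsHomogeneous t.2.1 ∧ t.1 ∉ p ∧ 0 < t.2.2.1}
  let S : T → Set β := fun t => {z | eval z.1.2.2 t.1.1 ≠ 0 ∧
    (2 - t.1.2.2.1) * logHeight z.1.2.2 + t.1.2.2.2 < ht z.1.1 + ht z.1.2.1}
  have hS : ∀ t, (S t).Nonempty := fun t => by
    by_contra h
    refine hcon ⟨t.1.1 * X (.inr c), t.1.2.1 + 1, t.1.2.2.1, t.1.2.2.2,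
      t.2.1.mul (isHomogeneous_X _ _), fun h => (hp.mem_or_mem h).elim t.2.2.1 hc, t.2.2.2,
      fun v v' h0 h0' hz h1 => not_lt.1 fun h2 => h ?_⟩
    rw [map_mul, mul_ne_zero_iff, eval_X] at h1
    have h3 : (v' c)⁻¹ ≠ 0 := inv_ne_zero h1.2
    simp only [← aeval_eq_eval] at hz
    obtain ⟨P, hP⟩ := exists_rep_of_ne (A := A₁) h0 fun f hf => by
      simpa only [aeval_rename, Sum.elim_comp_inl] using hz _ (Hy.le₁ f hf)
    obtain ⟨Q, hQ⟩ := exists_rep_of_ne (A := A₂) h0' fun f hf => by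
      simpa only [aeval_rename, Sum.elim_comp_inr] using hz _ (Hy.le₂ f hf)
    refine ⟨⟨(P, Q, fun a => (v' c)⁻¹ * Sum.elim v v' a), hP.smul h3.isUnit, hQ.smul h3.isUnit,
      zero_mul_of_hom Hy.hom hz _, inv_mul_cancel₀ h1.2⟩, ?_, ?_⟩
    · rw [eval_mul_of_hom t.2.1]
      exact mul_ne_zero (pow_ne_zero _ h3) h1.1
    · rwa [logHeight_mul_left h3, ht_eq hP, ht_eq hQ]
  have hdir : Directed (· ≥ ·) fun t => 𝓟 (S t) := fun t t' =>
    ⟨⟨(t.1.1 * t'.1.1, t.1.2.1 + t'.1.2.1, min t.1.2.2.1 t'.1.2.2.1, max t.1.2.2.2 t'.1.2.2.2),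
      t.2.1.mul t'.2.1, fun h => (hp.mem_or_mem h).elim t.2.2.1 t'.2.2.1, lt_min t.2.2.2 t'.2.2.2⟩,
      principal_mono.2 fun z hz => ⟨left_ne_zero_of_mul (map_mul (eval z.1.2.2) _ _ ▸ hz.1),
        lt_of_le_of_lt (add_le_add (mul_le_mul_of_nonneg_right (sub_le_sub_left (min_le_left _ _) _)
          (logHeight_nonneg _)) (le_max_left _ _)) hz.2⟩,
      principal_mono.2 fun z hz => ⟨right_ne_zero_of_mul (map_mul (eval z.1.2.2) _ _ ▸ hz.1),
        lt_of_le_of_lt (add_le_add (mul_le_mul_of_nonneg_right (sub_le_sub_left (min_le_right _ _) _)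
          (logHeight_nonneg _)) (le_max_right _ _)) hz.2⟩⟩
  have h1 : (1 : MvPolynomial (ι₁ ⊕ ι₂) k) ∉ p := (Ideal.ne_top_iff_one _).1 hp.ne_top
  have : Nonempty β := (hS ⟨(1, 0, 1, 0), isHomogeneous_one _ _, h1, one_pos⟩).to_type
  have hne := iInf_neBot_of_directed hdir fun t => principal_neBot_iff.2 (hS t)
  have hU : ∀ t, ∀ᶠ z in Ultrafilter.of (⨅ t, 𝓟 (S t)), z ∈ S t := fun t =>
    (Ultrafilter.of_le _).trans (iInf_le _ t) (mem_principal_self _)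
  refine Fam.false Hy hR (U := Ultrafilter.of (⨅ t, 𝓟 (S t))) (x₁ := fun z => z.1.1)
    (x₂ := fun z => z.1.2.1) (w := fun z => z.1.2.2) ⟨fun z => z.2.1, fun z => z.2.2.1,
      fun z => z.2.2.2.1, fun f d hf h => (hU ⟨(f, d, 1, 0), hf, h, one_pos⟩).mono fun _ h => h.1,
      fun ε hε => (hU ⟨(1, 0, 2 * ε, 0), isHomogeneous_one _ _, h1, by positivity⟩).mono
        fun z hz => ?_⟩ (tendsto_atTop.2 fun W => (hU ⟨(1, 0, 2, W), isHomogeneous_one _ _, h1,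
          two_pos⟩).mono fun z hz => ?_) fun z => z.2.2.2.2
  · have h2 : (2 - 2 * ε) * logHeight z.1.2.2 + 0 < ht z.1.1 + ht z.1.2.1 := hz.2
    linarith
  · have h2 : (2 - 2) * logHeight z.1.2.2 + W < ht z.1.1 + ht z.1.2.1 := hz.2
    linarith [(ht_eq z.2.1).trans_le (ht_inl _), (ht_eq z.2.2.1).trans_le (ht_inr _)]

end Pool.Agent.Lib.MP_651af7_nt.Jn
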