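import Pool.Agent.Lib.MP_651af7_nt.Jn.ORel
import Pool.Agent.Lib.MP_651af7_nt.Cn.SBlk
import Pool.Agent.Lib.MP_651af7_nt.Cn.SCos

/-! The base is a coset, and the germ is generic over the small field. -/

namespace Pool.Agent.Lib.MP_651af7_nt.Jn

open MvPolynomial Height Filter
open Pool.Agent.Lib.MP_651af7_nt.Av Pool.Agent.Lib.MP_651af7_nt.Av.AV
open Pool.Agent.Lib.MP_8865d3_nt.Sv
open Pool.Agent.Lib.MP_651af7_nt.Cn (gv Cos hid rep_ne)

variable {k ι₁ ι₂ : Type} [Field k] {p : Ideal (MvPolynomial (ι₁ ⊕ ι₂) k)}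

/-- The ideal of the base in Segre coordinates. -/
def vI (p : Ideal (MvPolynomial (ι₁ ⊕ ι₂) k)) : Ideal (MvPolynomial (ι₁ × ι₂) k) where
  carrier := {G | ∀ (R : Type) [CommRing R] [Algebra k R] (v : ι₁ → R) (v' : ι₂ → R),
    InV p v v' → aeval (sg v v') G = 0}
  add_mem' hf hg R _ _ v v' h := by rw [map_add, hf R v v' h, hg R v v' h, add_zero]
  zero_mem' _ _ _ _ _ _ := map_zero _
  smul_mem' c _ hf R _ _ v v' h := by rw [smul_eq_mul, map_mul, hf R v v' h, mul_zero]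

theorem vI_hom : ∀ G ∈ vI p, ∀ d, homogeneousComponent d G ∈ vI p := by
  intro G hG d R _ _ v v' h
  have h0 : InV p (fun a => algebraMap R (Polynomial R) (v a))
      fun b => algebraMap R (Polynomial R) (v' b) := fun f d hf hp => by
    have := aeval_alg (B := Polynomial R) (Sum.elim v v') f
    rw [h f d hf hp, map_zero] at this
    refine Eq.trans ?_ this
    congr 2
    funext c
    cases c <;> rfl
  have h1 := hG _ _ _ (h0.smul Polynomial.X 1)
  have h2 : (sg (fun a => Polynomial.X * algebraMap R (Polynomial R) (v a))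
      fun b => 1 * algebraMap R (Polynomial R) (v' b)) =
      fun a : ι₁ × ι₂ => Polynomial.X * Polynomial.C (sg v v' a) := by
    funext a
    rw [sg, sg, map_mul, mul_assoc, one_mul]
    rfl
  rw [← coeff_aeval, ← h2, h1, Polynomial.coeff_zero]

theorem aeval_ren {R : Type} [CommRing R] [Algebra k R] {f : MvPolynomial (ι₁ ⊕ ι₂) k} {d : ℕ × ℕ}
    (hf : f.IsWeightedHomogeneous (bw ι₁ ι₂) d) (a : ι₁) (b : ι₂) (v : ι₁ → R) (v' : ι₂ → R) :
    aeval (sg v v') (rename (Sum.elim (fun c => (c, b)) fun c => (a, c)) f) =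
      v' b ^ d.1 * v a ^ d.2 * aeval (Sum.elim v v') f := by
  rw [aeval_rename, ← aeval_mul_of_bih (d := d.1) (e := d.2) hf]
  congr 2
  funext c
  cases c
  · exact mul_comm _ _
  · rfl

section field

variable {K F : Type} [Field K] [Field F] [Algebra K F]

theorem td_sg {v : ι₁ → F} {v' : ι₂ → F} (hv : v ≠ 0) (hv' : v' ≠ 0) :
    td K (rat (sg v v')) = td K (rat v ∪ rat v') := by
  obtain ⟨a, ha⟩ := Function.ne_iff.1 hv
  obtain ⟨b, hb⟩ := Function.ne_iff.1 hv'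
  refine le_antisymm (tr_td_le ?_) (td_mono ?_)
  · obtain ⟨L, hL, hS⟩ := tr_cl (K := K) (rat v ∪ rat v')
    rintro _ ⟨⟨c, d⟩, rfl⟩
    rw [← hL]
    change v c.1 * v' c.2 / (v d.1 * v' d.2) ∈ L
    rw [mul_div_mul_comm]
    exact mul_mem (hS (.inl ⟨(_, _), rfl⟩)) (hS (.inr ⟨(_, _), rfl⟩))
  · rintro _ (⟨⟨c, d⟩, rfl⟩ | ⟨⟨c, d⟩, rfl⟩)
    · exact ⟨((c, b), (d, b)), mul_div_mul_right _ _ hb⟩
    · exact ⟨((a, c), (a, d)), mul_div_mul_left _ _ ha⟩

variable [Algebra k K] [Algebra k F] [IsScalarTower k K F] {e m n : ℕ}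
  {σ : Fin (e + 2) → MvPolynomial (ι₁ ⊕ ι₂) k}

theorem Rel.td_rat (h : Rel p e m n σ) (hh : ∀ f ∈ p, ∀ d, homogeneousComponent d f ∈ p)
    {w : ι₁ ⊕ ι₂ → F} (hw : ∀ f ∈ p, aeval w f = 0) (h0 : aeval w (σ (Fin.last _)) ≠ 0)
    (h1 : (fun b => w (.inr b)) ≠ 0) :
    td K (rat w) = td K (rat (fun a => w (.inl a)) ∪ rat fun b => w (.inr b)) := by
  obtain ⟨b, hb⟩ := Function.ne_iff.1 h1
  replace hb : w (.inr b) ≠ 0 := hb
  refine le_antisymm ?_ (td_mono ?_)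
  · rw [td_rat_eq hb]
    refine tr_td_le ?_
    have h2 : (Set.range fun c => (w (.inr b))⁻¹ * w (.inr c)) ⊆ rat fun b => w (.inr b) := by
      rintro _ ⟨c, rfl⟩
      exact ⟨(c, b), (div_eq_inv_mul _ _)⟩
    rintro _ ⟨a | c, rfl⟩
    · have h3 := h.alg (K := K) (zero_mul_of_hom hh hw (w (.inr b))⁻¹) (by
        rw [aeval_mul_of_hom (h.hom _)]
        exact mul_ne_zero (pow_ne_zero _ (inv_ne_zero hb)) h0) a
      rw [td_rat_smul (inv_ne_zero hb)] at h3
      exact Matroid.closure_subset_closure _ (Set.union_subset_union_right _ h2) h3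
    · obtain ⟨L, hL, hS⟩ := tr_cl (K := K) (rat (fun a => w (.inl a)) ∪ rat fun b => w (.inr b))
      exact hL ▸ hS (.inr (h2 ⟨c, rfl⟩))
  · rintro _ (⟨⟨c, d⟩, rfl⟩ | ⟨⟨c, d⟩, rfl⟩)
    · exact ⟨(.inl c, .inl d), rfl⟩
    · exact ⟨(.inr c, .inr d), rfl⟩

end field

variable [Fintype ι₁] [Fintype ι₂] {A₁ : AV k ι₁} {A₂ : AV k ι₂}

section onv

variable {F : Type} [Field F] [Algebra k F]

theorem onV_iff {z : (prod A₁ A₂).Pt F} {u : ι₁ × ι₂ → F} (hu : Rep z u) :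
    OnV A₁ A₂ p z ↔ ∀ G ∈ vI p, aeval u G = 0 := by
  have h0 := rep_prod (z := z) (rep_co _) (rep_co _)
  refine ⟨fun h => h0.zero_of vI_hom hu fun G hG => hG _ _ _ h, fun h f d hf hp => ?_⟩
  obtain ⟨a, ha⟩ := (rep_co (prodE A₁ A₂ F z).1).unit
  obtain ⟨b, hb⟩ := (rep_co (prodE A₁ A₂ F z).2).unit
  have h1 := hu.zero_of vI_hom h0 h (rename (Sum.elim (fun c => (c, b)) fun c => (a, c)) f)
    fun R _ _ v v' hv => by rw [aeval_ren hf, hv f d hf hp, mul_zero]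
  rw [aeval_ren hf] at h1
  exact ((hb.pow _).mul (ha.pow _)).mul_right_eq_zero.1 h1

theorem onV_symm {p₁ : A₁.Pt F} {p₂ : A₂.Pt F} {v : ι₁ → F} {v' : ι₂ → F} (h₁ : Rep p₁ v)
    (h₂ : Rep p₂ v') (h : InV p v v') : OnV A₁ A₂ p ((prodE A₁ A₂ F).symm (p₁, p₂)) := by
  rw [OnV, AddEquiv.apply_symm_apply]
  exact h.rep h₁ h₂ (rep_co _) (rep_co _)

theorem td_cos {ι : Type} [Fintype ι] {A B : AV k ι} (h : Sub A B) (b : B.Pt F) (a : A.Pt k) :
    td k (rat (h.inc F b + A.map (Algebra.ofId k F) a).co) ≤ B.dim := by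
  refine ((tr_td_le (A.rat_add_sub _ _).1).trans (td_union_le _ _)).trans ?_
  rw [show Algebra.ofId k F = IsScalarTower.toAlgHom k k F from rfl, td_map, add_zero,
    A.tr_rat_rep (h.rep_inc (rep_co b))]
  exact B.td_le_dim (rep_co b).zero

theorem td_prod {K : Type} [Field K] [Algebra K F] {p₁ : A₁.Pt F} {p₂ : A₂.Pt F} {v : ι₁ → F}
    {v' : ι₂ → F} (h₁ : Rep p₁ v) (h₂ : Rep p₂ v') :
    td K (rat ((prodE A₁ A₂ F).symm (p₁, p₂)).co) = td K (rat v ∪ rat v') := by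
  rw [tr_rat_rep _ (rep_symm h₁ h₂),
    td_sg (Function.ne_iff.2 (h₁.unit.imp fun _ h => h.ne_zero))
      (Function.ne_iff.2 (h₂.unit.imp fun _ h => h.ne_zero))]

variable {B : AV k (ι₁ × ι₂)} {h : Sub (prod A₁ A₂) B} {a : (prod A₁ A₂).Pt k}

theorem InCos.td_le (hc : InCos A₁ A₂ p h a) {z z' : (prod A₁ A₂).Pt F} (hz : OnV A₁ A₂ p z)
    (hz' : OnV A₁ A₂ p z') (N : ℕ) : td k (rat (z - N • z').co) ≤ B.dim := by
  obtain ⟨b, hb⟩ := hc F z hz
  obtain ⟨b', hb'⟩ := hc F z' hz'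
  have e : z - N • z' = h.inc F (b - N • b') + (prod A₁ A₂).map (Algebra.ofId k F) (a - N • a) := by
    rw [map_sub, map_sub, map_nsmul, map_nsmul, hb, hb', smul_sub]
    abel
  exact e ▸ td_cos h _ _

end onv

variable [NumberField k] {α : Type} {U : Ultrafilter α} {H : α → ℝ} {hH : Tendsto H U atTop}

section cos

variable {ι : Type} [Fintype ι] {A B : AV k ι} {h : Sub A B}
  {x : α → A.Pt k} {y : α → B.Pt k} {a : α → A.Pt k} {X : A.Pt (Up U k)} {Y : B.Pt (Up U k)}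
  {aK : A.Pt (Sm k hH)} {a' : α → ι → k}

/-- The cosets of the members lie in every variety that contains the germ. -/
theorem cos_in (hC : Cos h hH x y a X Y aK a') {J : Ideal (MvPolynomial ι k)}
    (hJ : ∀ G ∈ J, ∀ d, homogeneousComponent d G ∈ J) (hX : ∀ G ∈ J, aeval X.co G = 0) :
    ∀ᶠ n in U, ∀ (F : Type) [Field F] [Algebra k F] (b : B.Pt F),
      ∀ G ∈ J, aeval (h.inc F b + A.map (Algebra.ofId k F) (a n)).co G = 0 := by
  classical
  have hg : Gen (B.IK (Sm k hH)) Y.co := (B.gen_iff (Cn.scos_ne Y) (rep_co Y).zero).2 hC.gen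
  obtain ⟨m, P, hP⟩ := Submodule.fg_iff_exists_fin_generating_family.1
    (IsNoetherian.noetherian B.I)
  have hP' : Ideal.span (Set.range P) = B.I := hP
  have hB : ∀ Q ∈ hid (Sm k hH) Y.co, ∀ q, Repr U (map (algebraMap (Sm k hH) (Up U k)) Q) q →
      ∀ᶠ n in U, q n ∈ (fun _ : α => B.I) n := fun Q hQ q hq => by
    have h1 : Q ∈ B.IK (Sm k hH) := (Ideal.span_le.2 ?_ : hid _ _ ≤ _) hQ
    · have h2 := Ideal.mem_map_of_mem (MvPolynomial.map (algebraMap (Sm k hH) (Up U k))) h1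
      rw [IK, map_map_ideal, ← hP', Ideal.map_span, ← Set.range_comp] at h2
      exact hP' ▸ Repr.mem_span (g := fun _ j => P j) (fun j => Repr.const (P j)) hq h2
    · rintro f ⟨⟨d, hd⟩, h0⟩
      exact hg f d hd h0
  have hXr : ∀ d : ι, Repr U (map (algebraMap (Sm k hH) (Up U k)) (MvPolynomial.X d))
      fun _ => (MvPolynomial.X d : MvPolynomial ι k) := fun d => by
    simpa only [map_X] using Repr.const (U := U) (MvPolynomial.X d : MvPolynomial ι k)
  have hCr : ∀ d, Repr U (map (algebraMap (Sm k hH) (Up U k)) (C (aK.co d)))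
      fun n => (C (a' n d) : MvPolynomial ι k) := fun d => by
    simpa only [map_C, hC.co, evP, Pi.evalRingHom_apply] using
      repr_lift (U := U) (C (fun n => a' n d) : MvPolynomial ι (α → k))
  have g2 := eventually_all.2 fun b : ι => Cn.sblk_sub hB hJ
    (G := fun c => A.ph c b MvPolynomial.X fun e => C (aK.co e))
    (Gn := fun n c => A.ph c b MvPolynomial.X fun e => C (a' n e))
    (fun c => ph_hom aK.co c b)
    (fun c => Cn.sblk_comp (Gn := fun n => Sum.elim MvPolynomial.X fun e => C (a' n e))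
      (Sum.rec hXr hCr) _)
    fun f hf => by
      have h2 := fun c => A.map_ph ((aeval Y.co :
        MvPolynomial ι (Sm k hH) →ₐ[_] _).restrictScalars k) c b MvPolynomial.X fun e => C (aK.co e)
      simp only [AlgHom.restrictScalars_apply, aeval_X, aeval_C] at h2
      obtain ⟨q, -, hq⟩ := exists_ph_eq (h.rep_inc (rep_co Y))
        ((rep_co aK).map (IsScalarTower.toAlgHom k (Sm k hH) (Up U k))) (s := X.co)
        (by rw [hC.sub, sub_add_cancel]; exact rep_co X)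
      simp only [h2]
      exact (congrArg (fun z => aeval z f) (funext fun c => hq c b)).trans
        (zero_mul_of_hom hJ hX _ f hf)
  filter_upwards [g2, hC.rep] with n g2 g3 F _ _ b
  have h3 := g3.map (Algebra.ofId k F)
  obtain ⟨c, d, hu⟩ := exists_unit_ph (h.rep_inc (rep_co b)) h3
  refine (rep_add (h.rep_inc (rep_co b)) h3 hu).zero_of hJ (rep_co _) fun G hG => ?_
  have h4 := (rep_co b).zero _ (g2 d G hG)
  rw [A.geo_aeval_ph _ _ (fun c => c) (fun _ => d) G b.co] at h4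
  simp only [aeval_X, aeval_C] at h4
  exact h4

end cos

omit [Fintype ι₁] [Fintype ι₂] in
theorem lo_near {ι : Type} [Fintype ι] (A : AV k ι) {x y a : α → A.Pt k}
    (h : ∀ n, x n = y n + a n) (hx : ∀ n, ht (x n) ≤ H n) (hH : Tendsto H U atTop)
    (ha : Lo U H fun n => ht (a n)) : Lo U H fun n => |ht (x n) - ht (y n)| := by
  intro ε hε
  obtain ⟨δ, d0, d1, d2⟩ : ∃ δ : ℝ, 0 < δ ∧ δ ≤ 1 ∧ 4 * δ ≤ ε :=
    ⟨min 1 (ε / 4), by positivity, min_le_left _ _, by linarith [min_le_right 1 (ε / 4)]⟩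
  obtain ⟨C, hC, hadd⟩ := A.ht_add_le d0
  filter_upwards [lo_mul_nonneg hH (ha.add (Lo.const hH 1)) hC δ d0,
    hH.eventually_ge_atTop 0] with n h1 h2
  have h3 := (hadd (y n) (a n)).1
  have h4 := (hadd (x n) (a n)).2
  rw [← h n] at h3
  rw [h n, add_sub_cancel_right, ← h n] at h4
  have h5 := mul_le_mul_of_nonneg_left (hx n) d0.le
  have h6 := mul_le_mul_of_nonneg_right d1 h2
  have h7 := mul_le_mul_of_nonneg_right d2 h2
  have h8 := mul_le_mul_of_nonneg_left (show ht (y n) ≤ 3 * H n by linarith [hx n]) d0.le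
  rw [abs_le]
  constructor <;> linarith

variable {x₁ : α → A₁.Pt k} {x₂ : α → A₂.Pt k} {w : α → ι₁ ⊕ ι₂ → k}

omit [Fintype ι₁] [Fintype ι₂] in
theorem Fam.gp (hF : Fam U p x₁ x₂ w) : Gp p (gv U w) :=
  ⟨fun f hf => (aeval_germ f w).trans (germ_eq_zero.2 (.of_forall fun n => hF.zero n f hf)),
    fun f d hf h0 => by_contra fun h1 =>
      germ_ne_zero.2 (hF.gen f d hf h1) ((aeval_germ f w).symm.trans h0)⟩

theorem Fam.cos (Hy : Hyp A₁ A₂ p) {e m n : ℕ} {σ : Fin (e + 2) → MvPolynomial (ι₁ ⊕ ι₂) k}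
    (hR : Rel p e m n σ) (hF : Fam U p x₁ x₂ w)
    (hH : Tendsto (fun n => 2 * logHeight (w n)) U atTop) :
    ∃ g : ℕ, td k (rat (gv U w)) = g ∧ td (Sm k hH) (rat (gv U w)) = g ∧
      ∀ (F : Type) [Field F] [Algebra k F] (w w' : ι₁ ⊕ ι₂ → F), (∀ f ∈ p, aeval w f = 0) →
      (∀ f ∈ p, aeval w' f = 0) → ∀ (p₁ q₁ : A₁.Pt F) (p₂ q₂ : A₂.Pt F),
      Rep p₁ (fun a => w (.inl a)) → Rep p₂ (fun b => w (.inr b)) →
      Rep q₁ (fun a => w' (.inl a)) → Rep q₂ (fun b => w' (.inr b)) → ∀ j : ℕ,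
        td k (rat (p₁ - 2 ^ j • q₁).co ∪ rat (p₂ - 2 ^ j • q₂).co) ≤ g := by
  have l1 : ∀ n, ht (x₁ n) ≤ logHeight (w n) := fun n => (ht_eq (hF.rep₁ n)).trans_le (ht_inl _)
  have l2 : ∀ n, ht (x₂ n) ≤ logHeight (w n) := fun n => (ht_eq (hF.rep₂ n)).trans_le (ht_inr _)
  obtain ⟨B, h, y, a, X, Y, aK, a', hC⟩ := Cn.exists_cos (prod A₁ A₂) hH
    (fun n => (prodE A₁ A₂ k).symm (x₁ n, x₂ n)) fun n => by
      rw [ht_prod, AddEquiv.apply_symm_apply]
      linarith [l1 n, l2 n]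
  obtain ⟨γ₁, -, g₁, -⟩ := A₁.exists_germ U
  obtain ⟨γ₂, -, g₂, -⟩ := A₂.exists_germ U
  have r1 : Rep (γ₁ x₁) fun a => gv U w (.inl a) := (g₁ x₁).rep (.of_forall hF.rep₁)
  have r2 : Rep (γ₂ x₂) fun a => gv U w (.inr a) := (g₂ x₂).rep (.of_forall hF.rep₂)
  have hX : X = (prodE A₁ A₂ _).symm (γ₁ x₁, γ₂ x₂) := by
    refine (hC.rep_gv fun n => rep_symm (hF.rep₁ n) (hF.rep₂ n)).inj ?_
    have e : (gv U fun n => sg (fun a => w n (.inl a)) fun b => w n (.inr b)) =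
        sg (fun a => gv U w (.inl a)) fun b => gv U w (.inr b) :=
      funext fun c => map_mul (germ U) (fun n => w n (.inl c.1)) fun n => w n (.inr c.2)
    exact e ▸ rep_symm r1 r2
  have hV : OnV A₁ A₂ p X := hX ▸ onV_symm r1 r2 (inV_of_zero hF.gp.1)
  obtain ⟨n₀, h₀⟩ := (cos_in hC vI_hom ((onV_iff (rep_co X)).1 hV)).exists
  rcases Hy.cos B h (a n₀) (fun F _ _ b => (onV_iff (rep_co _)).2 (h₀ F b)) with hc | ⟨η, C, hη, hd⟩
  · have h0 : aeval (gv U w) (σ (Fin.last _)) ≠ 0 := fun e => hR.last (hF.gp.2 _ _ (hR.hom _) e)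
    have h1 : (fun b => gv U w (.inr b)) ≠ 0 :=
      Function.ne_iff.2 (r2.unit.imp fun _ h => h.ne_zero)
    have h2 : td k (rat (gv U w)) ≤ B.dim := by
      rw [hR.td_rat Hy.hom hF.gp.1 h0 h1, ← td_prod r1 r2, ← hX]
      simpa using hc.td_le hV hV 0
    have h3 : (B.dim : ℕ∞) ≤ td (Sm k hH) (rat (gv U w)) := by
      rw [hR.td_rat Hy.hom hF.gp.1 h0 h1, ← td_prod r1 r2, ← hX]
      exact hC.dim_le
    have h4 := td_le_of_tower (K := k) (M := Sm k hH) (rat (gv U w))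
    refine ⟨B.dim, le_antisymm h2 (h3.trans h4), le_antisymm (h4.trans h2) h3,
      fun F _ _ u u' hu hu' p₁ q₁ p₂ q₂ a1 a2 a3 a4 j => ?_⟩
    have h5 := hc.td_le (onV_symm a1 a2 (inV_of_zero hu)) (onV_symm a3 a4 (inV_of_zero hu')) (2 ^ j)
    rwa [← map_nsmul, ← map_sub, Prod.smul_mk, Prod.mk_sub_mk, td_prod (rep_co _) (rep_co _)] at h5
  · exfalso
    have e : ∀ n, (x₁ n, x₂ n) = prodE A₁ A₂ k (h.inc k (y n)) + prodE A₁ A₂ k (a n) := fun n => by
      rw [← map_add, ← hC.add n, AddEquiv.apply_symm_apply]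
    have h0 := fun n => logHeight_nonneg (w n)
    have h1 := lo_near A₁ (fun n => congrArg Prod.fst (e n)) (fun n => by linarith [l1 n, h0 n]) hH
      (hC.lo.mono (.of_forall fun n => by
        rw [ht_prod]; exact le_add_of_nonneg_right (ht_nonneg _)))
    have h2 := lo_near A₂ (fun n => congrArg Prod.snd (e n)) (fun n => by linarith [l2 n, h0 n]) hH
      (hC.lo.mono (.of_forall fun n => by
        rw [ht_prod]; exact le_add_of_nonneg_left (ht_nonneg _)))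
    have h3 := ((hF.bal.add (h1.add h2)).const_mul (add_pos hη one_pos)).add (Lo.const hH C)
    obtain ⟨n, h4, h5⟩ := ((h3 _ (half_pos hη)).and (hH.eventually_gt_atTop 0)).exists
    have h6 := hd (y n)
    have h7 := mul_pos hη h5
    have h8 := l1 n
    have h9 := l2 n
    beta_reduce at h4
    generalize ht (prodE A₁ A₂ k (h.inc k (y n))).1 = s at h4 h6
    generalize ht (prodE A₁ A₂ k (h.inc k (y n))).2 = t at h4 h6
    have b1 := abs_le.1 (le_refl |ht (x₁ n) - s|)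
    have b2 := abs_le.1 (le_refl |ht (x₂ n) - t|)
    have b3 : |s - t| ≤ 2 * logHeight (w n) - (ht (x₁ n) + ht (x₂ n)) +
        (|ht (x₁ n) - s| + |ht (x₂ n) - t|) := abs_le.2 ⟨by linarith, by linarith⟩
    have b4 := mul_le_mul_of_nonneg_left (show 2 * logHeight (w n) - (2 * logHeight (w n) -
      (ht (x₁ n) + ht (x₂ n)) + (|ht (x₁ n) - s| + |ht (x₂ n) - t|)) ≤ s + t by linarith) hη.le
    linarith

end Pool.Agent.Lib.MP_651af7_nt.Jn
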