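import Pool.Agent.Lib.MP_651af7_nt.Jn.OVoc
import Pool.Agent.Lib.MP_651af7_nt.Av.Fin
import Pool.Agent.Lib.MP_651af7_nt.Cn.SFin

/-! From the defect of the heights to the counting function. -/

namespace Pool.Agent.Lib.MP_651af7_nt.Jn

open MvPolynomial Height
open Pool.Agent.Lib.MP_651af7_nt.Av Pool.Agent.Lib.MP_651af7_nt.Av.AV
open Pool.Agent.Lib.MP_651af7_nt.Vj Pool.Agent.Lib.MP_8865d3_nt.Sv
open Pool.Agent.Lib.MP_651af7_nt.Cn (ell)

variable {k ι₁ ι₂ : Type} [Field k] [NumberField k] [Fintype ι₁] [Fintype ι₂] {A₁ : AV k ι₁}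
  {A₂ : AV k ι₂} {p : Ideal (MvPolynomial (ι₁ ⊕ ι₂) k)} {e m n : ℕ}
  {σ : Fin (e + 2) → MvPolynomial (ι₁ ⊕ ι₂) k}

/-- The theorem of Faltings for a bihomogeneous form. -/
theorem falt (A₁ : AV k ι₁) (A₂ : AV k ι₂) {f : MvPolynomial (ι₁ ⊕ ι₂) k} {d₁ d₂ : ℕ}
    (hf : f.IsWeightedHomogeneous (bw ι₁ ι₂) (d₁, d₂)) {w : AbsoluteValue k ℝ} (hw : Adm w)
    {ε : ℝ} (hε : 0 < ε) : ∃ C : ℝ, ∀ (v : ι₁ → k) (v' : ι₂ → k), v ≠ 0 → v' ≠ 0 →
      (∀ P ∈ A₁.I, aeval v P = 0) → (∀ P ∈ A₂.I, aeval v' P = 0) → eval (Sum.elim v v') f ≠ 0 →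
      d₁ * ell w v + d₂ * ell w v' - Real.log (w (eval (Sum.elim v v') f)) ≤
        ε * (logHeight v + logHeight v') + C := by
  choose C hC using fun c : ι₁ × ι₂ => (prod A₁ A₂).prox_part
    (R := rename (Sum.elim (fun a => (a, c.2)) fun b => (c.1, b)) f)
    (bih_hom hf).rename_isHomogeneous hw hε
  obtain ⟨C₀, h₀⟩ := Finite.exists_le C
  refine ⟨C₀, fun v v' hv hv' z z' h0 => ?_⟩
  have : Nonempty ι₁ := ⟨(Function.ne_iff.1 hv).choose⟩
  have : Nonempty ι₂ := ⟨(Function.ne_iff.1 hv').choose⟩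
  obtain ⟨a, ha⟩ := exists_nm w v
  obtain ⟨b, hb⟩ := exists_nm w v'
  have pa := nm_pos w hv
  have pb := nm_pos w hv'
  have e1 : eval (sg v v') (rename (Sum.elim (fun c => (c, b)) fun c => (a, c)) f) =
      v' b ^ d₁ * v a ^ d₂ * eval (Sum.elim v v') f := by
    have := aeval_mul_of_bih hf (v' b) (v a) v v'
    simp only [aeval_eq_eval] at this
    rw [eval_rename, ← this]
    congr 2
    funext c
    cases c <;> simp [sg, mul_comm]
  have a0 : v a ≠ 0 := fun h => by rw [h, w.map_zero] at ha; exact pa.ne ha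
  have b0 : v' b ≠ 0 := fun h => by rw [h, w.map_zero] at hb; exact pb.ne hb
  have h1 := hC (a, b) (sg v v') (Function.ne_iff.2 ⟨(a, b), mul_ne_zero a0 b0⟩)
    (fun P hP => by simpa only [aeval_eq_eval] using mem_sgI.1 hP k v v' z z')
    (by rw [e1]; exact mul_ne_zero (mul_ne_zero (pow_ne_zero _ b0) (pow_ne_zero _ a0)) h0)
  have h2 : nm w v * nm w v' ≤ ⨆ c, w (sg v v' c) := by
    rw [← ha, ← hb, ← map_mul]
    exact le_nm w (sg v v') (a, b)
  have h3 := Real.log_le_log (mul_pos pa pb) h2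
  have p0 := w.pos h0
  rw [e1, ht_sg hv hv', map_mul, map_mul, map_pow, map_pow, ha, hb,
    Real.log_div (pow_pos ((mul_pos pa pb).trans_le h2) _).ne' (by positivity), Real.log_pow,
    Real.log_mul (by positivity) p0.ne', Real.log_mul (by positivity) (by positivity),
    Real.log_pow, Real.log_pow] at h1
  rw [Real.log_mul pa.ne' pb.ne'] at h3
  have h4 := mul_le_mul_of_nonneg_left h3 (Nat.cast_nonneg (α := ℝ) (d₁ + d₂))
  simp only [ell]
  push_cast at h1 h4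
  linarith [h₀ (a, b)]

omit [NumberField k] in
theorem Rel.ends (h : Rel p e m n σ) (w : AbsoluteValue k ℝ) : ∃ c : ℝ,
    ∀ (v : ι₁ → k) (v' : ι₂ → k), v ≠ 0 → v' ≠ 0 → (∀ f ∈ p, eval (Sum.elim v v') f = 0) →
      (eval (Sum.elim v v') (σ 0) ≠ 0 → ell w v ≤ ell w v' →
        Real.log (w (eval (Sum.elim v v') (σ 0))) ≤ (m + 1) * ell w v + (n + e) * ell w v' + c) ∧
      (eval (Sum.elim v v') (σ (Fin.last _)) ≠ 0 → ell w v' ≤ ell w v →
        Real.log (w (eval (Sum.elim v v') (σ (Fin.last _)))) ≤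
          (m + e) * ell w v + (n + 1) * ell w v' + c) := by
  have c0 : 0 < 1 + ∑ t, pl w (σ t) :=
    add_pos_of_pos_of_nonneg one_pos (Finset.sum_nonneg fun t _ => pl_nonneg _ _)
  refine ⟨Real.log (1 + ∑ t, pl w (σ t)), fun v v' hv hv' z => ?_⟩
  have pa := nm_pos w hv
  have pb := nm_pos w hv'
  have key : ∀ (s : Fin (e + 2)) (i j : ℕ), eval (Sum.elim v v') (σ s) ≠ 0 →
      (∀ t, t ≠ s → nm w v ^ (m + t) * nm w v' ^ (n + (e + 1 - t)) ≤ nm w v ^ i * nm w v' ^ j) →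
      Real.log (w (eval (Sum.elim v v') (σ s))) ≤
        i * ell w v + j * ell w v' + Real.log (1 + ∑ t, pl w (σ t)) := fun s i j h0 h1 => by
    have h2 := z _ h.mem
    rw [← Finset.add_sum_erase _ _ (Finset.mem_univ s), map_add, add_eq_zero_iff_eq_neg,
      map_sum] at h2
    have h3 : w (eval (Sum.elim v v') (σ s)) ≤
        nm w v ^ i * nm w v' ^ j * (1 + ∑ t, pl w (σ t)) := by
      rw [h2, w.map_neg]
      refine (w.sum_le _ _).trans ((Finset.sum_le_sum fun t ht => (bih_le w (h.bih t) pa.le pb.le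
        (le_nm w v) (le_nm w v')).trans (mul_le_mul_of_nonneg_left
          (h1 t (Finset.mem_erase.1 ht).1) (pl_nonneg _ _))).trans ?_)
      rw [← Finset.sum_mul, mul_comm]
      refine mul_le_mul_of_nonneg_left ?_ (by positivity)
      linarith [Finset.sum_le_sum_of_subset_of_nonneg (f := fun t => pl w (σ t))
        (Finset.erase_subset s Finset.univ) fun t _ _ => pl_nonneg _ _]
    have h4 := Real.log_le_log (w.pos h0) h3
    rwa [Real.log_mul (by positivity) c0.ne', Real.log_mul (by positivity) (by positivity),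
      Real.log_pow, Real.log_pow] at h4
  refine ⟨fun h0 hl => ?_, fun h0 hl => ?_⟩
  · have hl' : nm w v ≤ nm w v' := (Real.log_le_log_iff pa pb).1 hl
    have := key 0 (m + 1) (n + e) h0 fun t ht => by
      obtain ⟨s, hs⟩ := Nat.exists_eq_add_of_le' (Nat.pos_of_ne_zero fun h => ht (Fin.ext h))
      have := t.2
      obtain ⟨r, hr⟩ := Nat.exists_eq_add_of_le (show s ≤ e by omega)
      rw [hs, hr, show s + r + 1 - (s + 1) = r by omega, show m + (s + 1) = m + 1 + s by omega,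
        show n + (s + r) = s + (n + r) by omega, pow_add _ (m + 1), pow_add _ s, mul_assoc]
      gcongr
    push_cast at this
    exact this
  · have hl' : nm w v' ≤ nm w v := (Real.log_le_log_iff pb pa).1 hl
    have := key (Fin.last _) (m + e) (n + 1) h0 fun t ht => by
      have h5 : (t : ℕ) ≤ e := Nat.lt_succ_iff.1 (Fin.val_lt_last ht)
      obtain ⟨r, hr⟩ := Nat.exists_eq_add_of_le h5
      generalize (t : ℕ) = s at hr
      rw [hr, show n + (s + r + 1 - s) = r + (n + 1) by omega, ← add_assoc m, pow_add _ (m + s),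
        pow_add _ r, mul_assoc]
      gcongr
    push_cast at this
    exact this

/-- One place. If `nm w v' ≤ nm w v`: `σ last = - ∑ t < last, σ t` at the point, so
`w (σ last) ≤ c * nm v ^ (m + e) * nm v' ^ (n + 1)` (`bih_le`). `AV.prox_part` on `prod A₁ A₂` at
`sg v v'` for the forms `rename (Sum.elim (·, b) (a, ·)) (σ last)`, with `a`, `b` the largest
coordinates (`aeval_mul_of_bih`, `ht_sg`). The other case with `σ 0`. -/
theorem Rel.loc (h : Rel p e m n σ) (le₁ : ∀ f ∈ A₁.I, rename .inl f ∈ p)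
    (le₂ : ∀ f ∈ A₂.I, rename .inr f ∈ p) {w : AbsoluteValue k ℝ} (hw : Adm w) {ε : ℝ}
    (hε : 0 < ε) : ∃ C : ℝ, ∀ (v : ι₁ → k) (v' : ι₂ → k), v ≠ 0 → v' ≠ 0 →
      (∀ f ∈ p, eval (Sum.elim v v') f = 0) → eval (Sum.elim v v') (σ 0) ≠ 0 →
      eval (Sum.elim v v') (σ (Fin.last _)) ≠ 0 →
      |ell w v - ell w v'| ≤ ε * logHeight (Sum.elim v v') + C := by
  obtain ⟨c, hc⟩ := h.ends w
  obtain ⟨C₀, h₀⟩ := falt A₁ A₂ (h.bih 0) hw (half_pos hε)
  obtain ⟨C₁, h₁⟩ := falt A₁ A₂ (h.bih (Fin.last _)) hw (half_pos hε)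
  refine ⟨max C₀ C₁ + c, fun v v' hv hv' z s0 s1 => ?_⟩
  have z₁ : ∀ P ∈ A₁.I, aeval v P = 0 := fun P hP => by
    simpa only [eval_rename, aeval_eq_eval, Sum.elim_comp_inl] using z _ (le₁ P hP)
  have z₂ : ∀ P ∈ A₂.I, aeval v' P = 0 := fun P hP => by
    simpa only [eval_rename, aeval_eq_eval, Sum.elim_comp_inr] using z _ (le₂ P hP)
  have e0 := h₀ v v' hv hv' z₁ z₂ s0
  have e1 := h₁ v v' hv hv' z₁ z₂ s1
  have e2 : logHeight v ≤ logHeight (Sum.elim v v') := ht_inl (Sum.elim v v')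
  have e3 : logHeight v' ≤ logHeight (Sum.elim v v') := ht_inr (Sum.elim v v')
  have e4 := mul_le_mul_of_nonneg_left (add_le_add e2 e3) (half_pos hε).le
  simp only [Fin.val_zero, Fin.val_last, Nat.sub_zero, Nat.sub_self] at e0 e1
  push_cast at e0 e1
  rcases le_total (ell w v) (ell w v') with hl | hl
  · rw [abs_of_nonpos (sub_nonpos.2 hl)]
    linarith [(hc v v' hv hv' z).1 s0 hl, le_max_left C₀ C₁]
  · rw [abs_of_nonneg (sub_nonneg.2 hl)]
    linarith [(hc v v' hv hv' z).2 s1 hl, le_max_right C₀ C₁]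

/-- `ell w (Sum.elim v v') = max (ell w v) (ell w v')` and `gsum_ell`. -/
theorem gsum_abs {v : ι₁ → k} {v' : ι₂ → k} (hv : v ≠ 0) (hv' : v' ≠ 0) :
    gsum (fun w => |ell w v - ell w v'|) =
      2 * logHeight (Sum.elim v v') - (logHeight v + logHeight v') := by
  have h0 : Sum.elim v v' ≠ 0 := fun h => hv (funext fun a => congrFun h (.inl a))
  have e : ∀ w : AbsoluteValue k ℝ, |ell w v - ell w v'| =
      2 * ell w (Sum.elim v v') - (ell w v + ell w v') := fun w => by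
    have pa := nm_pos w hv
    have pb := nm_pos w hv'
    have e1 : nm w (Sum.elim v v') = max (nm w v) (nm w v') := by
      refine le_antisymm (Real.iSup_le ?_ (le_max_of_le_left pa.le)) (max_le
        (Real.iSup_le (fun a => le_nm w (Sum.elim v v') (.inl a)) (nm_nn _ _))
        (Real.iSup_le (fun a => le_nm w (Sum.elim v v') (.inr a)) (nm_nn _ _)))
      rintro (a | a)
      exacts [le_max_of_le_left (le_nm w v a), le_max_of_le_right (le_nm w v' a)]
    simp only [ell, e1]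
    rcases le_total (nm w v) (nm w v') with h | h
    · rw [max_eq_right h, abs_of_nonpos (sub_nonpos.2 (Real.log_le_log pa h))]
      ring
    · rw [max_eq_left h, abs_of_nonneg (sub_nonneg.2 (Real.log_le_log pb h))]
      ring
  simp only [e]
  rw [gsum_sub ((Cn.finS_ell _).const_mul 2) ((Cn.finS_ell v).add (Cn.finS_ell v')),
    gsum_const_mul (Cn.finS_ell _), gsum_add (Cn.finS_ell v) (Cn.finS_ell v'), Cn.gsum_ell h0,
    Cn.gsum_ell hv, Cn.gsum_ell hv']

/-- `Θ * σ 0 * σ last`, `c = 2 / δ`; compare `Cn.both_parts`. -/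
theorem final (hp : p.IsPrime) (h : Rel p e m n σ) (le₁ : ∀ f ∈ A₁.I, rename .inl f ∈ p)
    (le₂ : ∀ f ∈ A₂.I, rename .inr f ∈ p) (hc : Core p) :
    ∃ (Θ : MvPolynomial (ι₁ ⊕ ι₂) k) (t : ℕ) (c : ℝ), Θ.IsHomogeneous t ∧ Θ ∉ p ∧
      ∀ T : Finset (AbsoluteValue k ℝ), ∃ C : ℝ, ∀ (v : ι₁ → k) (v' : ι₂ → k),
        (∀ f ∈ p, eval (Sum.elim v v') f = 0) → eval (Sum.elim v v') Θ ≠ 0 → v ≠ 0 ∧ v' ≠ 0 ∧
          logHeight (Sum.elim v v') ≤ c * osum T (fun w => |ell w v - ell w v'|) + C := by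
  classical
  obtain ⟨Θ, t, δ, C, h1, h2, hδ, h3⟩ := hc
  refine ⟨Θ * σ 0 * σ (Fin.last _), _, 2 / δ, (h1.mul (h.hom _)).mul (h.hom _), fun hm => ?_,
    fun T => ?_⟩
  · simp only [hp.mul_mem_iff_mem_or_mem, h2, h.first, h.last, or_self] at hm
  obtain ⟨N, hN⟩ : ∃ N, N = ∑ w ∈ T, mlt w := ⟨_, rfl⟩
  have hN0 : 0 ≤ N := hN ▸ Finset.sum_nonneg fun w _ => mlt_nonneg w
  have hε : 0 < δ / 2 / (N + 1) := by positivity
  choose! c' h7 using fun (w : AbsoluteValue k ℝ) (hw : Adm w) => h.loc le₁ le₂ hw hε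
  refine ⟨2 / δ * (C + ∑ w ∈ T, mlt w * c' w), fun v v' z vΘ => ?_⟩
  simp only [map_mul, mul_ne_zero_iff] at vΘ
  have hv : v ≠ 0 := by
    rintro rfl
    have := aeval_mul_of_bih (h.bih (Fin.last _)) (0 : k) 1 0 v'
    simp only [aeval_eq_eval, zero_mul, one_mul, Fin.val_last, ← add_assoc, pow_succ,
      mul_zero] at this
    exact vΘ.2 this
  have hv' : v' ≠ 0 := by
    rintro rfl
    have := aeval_mul_of_bih (h.bih 0) (1 : k) 0 v 0
    simp only [aeval_eq_eval, zero_mul, one_mul, Fin.val_zero, Nat.sub_zero, ← add_assoc, pow_succ,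
      mul_zero] at this
    exact vΘ.1.2 this
  refine ⟨hv, hv', ?_⟩
  have e1 := h3 v v' hv hv' z vΘ.1.1
  have e2 : isum T (fun w => |ell w v - ell w v'|) ≤
      isum T fun w => δ / 2 / (N + 1) * logHeight (Sum.elim v v') + c' w :=
    isum_mono T fun w hw _ => h7 w hw v v' hv hv' z vΘ.1.2 vΘ.2
  rw [isum_eq_sum T fun w => _ + _] at e2
  simp only [mul_add, Finset.sum_add_distrib, ← mul_assoc, ← Finset.sum_mul, ← hN] at e2
  have e3 := isum_add_osum T (finS_abs (finS_sub (Cn.finS_ell v) (Cn.finS_ell v')))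
  rw [gsum_abs hv hv'] at e3
  have e4 : N * (δ / 2 / (N + 1)) * logHeight (Sum.elim v v') ≤
      δ / 2 * logHeight (Sum.elim v v') := by
    refine mul_le_mul_of_nonneg_right ?_ (logHeight_nonneg _)
    rw [mul_div_assoc', div_le_iff₀ (by positivity)]
    nlinarith
  rw [← mul_add, div_mul_eq_mul_div, le_div_iff₀ hδ]
  linarith

end Pool.Agent.Lib.MP_651af7_nt.Jn
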