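import Pool.Agent.Lib.MP_651af7_nt.Jn.OCore
import Pool.Agent.Lib.MP_651af7_nt.Jn.OFin

/-! The dictionary between geometric points and the group functors. -/

namespace Pool.Agent.Lib.MP_651af7_nt.Jn

open MvPolynomial Height
open Pool.Agent.Lib.MP_651af7_nt.Av Pool.Agent.Lib.MP_651af7_nt.Av.AV

variable {k ι ι₁ ι₂ : Type} [Field k]

theorem wh_aeval {σ τ M : Type} [AddCommMonoid M] {w : τ → M} {δ : M} {f : MvPolynomial σ k}
    {d : ℕ} (hf : f.IsHomogeneous d) {G : σ → MvPolynomial τ k}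
    (hG : ∀ a, (G a).IsWeightedHomogeneous w δ) : (aeval G f).IsWeightedHomogeneous w (d • δ) := by
  rw [aeval_def, eval₂_eq]
  refine IsWeightedHomogeneous.sum _ _ _ fun m hm => ?_
  have h : ∑ i ∈ m.support, m i = d := by
    simpa [Finsupp.weight_apply, Finsupp.sum] using hf (mem_support_iff.mp hm)
  have h1 := (isWeightedHomogeneous_C w (coeff m f)).mul
    (IsWeightedHomogeneous.prod m.support (fun a => G a ^ m a) (fun a => m a • δ)
      fun a _ => (hG a).pow _)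
  rwa [zero_add, ← Finset.sum_smul, h] at h1

variable {p : Ideal (MvPolynomial (ι₁ ⊕ ι₂) k)} {R : Type} [CommRing R] [Algebra k R]

theorem InV.zero_of {v : ι₁ → R} {v' : ι₂ → R} (h : InV p v v') {I : Ideal (MvPolynomial ι k)}
    (hI : ∀ P ∈ I, ∀ d, homogeneousComponent d P ∈ I) {G : ι → MvPolynomial (ι₁ ⊕ ι₂) k}
    {δ : ℕ × ℕ} (hG : ∀ a, (G a).IsWeightedHomogeneous (bw ι₁ ι₂) δ)
    (hp : ∀ f ∈ I, aeval G f ∈ p) :
    ∀ f ∈ I, aeval (fun a => aeval (Sum.elim v v') (G a)) f = 0 := fun f hf => by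
  rw [← sum_homogeneousComponent f, map_sum]
  refine Finset.sum_eq_zero fun d _ => ?_
  rw [aeval_hom]
  exact h _ _ (wh_aeval (homogeneousComponent_isHomogeneous d f) hG) (hp _ (hI f hf d))

theorem inV_map {I : Ideal (MvPolynomial (ι₁ × ι₂) k)}
    (hI : ∀ P ∈ I, ∀ d, homogeneousComponent d P ∈ I) {v : ι₁ → R} {v' : ι₂ → R} :
    InV (I.map (sgm k ι₁ ι₂)) v v' ↔ ∀ f ∈ I, aeval (sg v v') f = 0 := by
  refine ⟨fun h f hf => ?_, fun h f _ _ hf => ?_⟩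
  · have h0 : ∀ a : ι₁ × ι₂, (sg (fun a => X (.inl a)) (fun b => X (.inr b)) a :
        MvPolynomial (ι₁ ⊕ ι₂) k).IsWeightedHomogeneous (bw ι₁ ι₂) ((1, 0) + (0, 1)) := fun a =>
      (isWeightedHomogeneous_X k (bw ι₁ ι₂) (.inl a.1)).mul
        (isWeightedHomogeneous_X k (bw ι₁ ι₂) (.inr a.2))
    have h1 := h.zero_of hI h0 (fun f hf => Ideal.mem_map_of_mem (sgm k ι₁ ι₂) hf) f hf
    rwa [aeval_hom, ← sgm, aeval_sgm] at h1
  · have h1 : I.map (sgm k ι₁ ι₂) ≤ RingHom.ker (aeval (R := k) (Sum.elim v v')) :=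
      Ideal.map_le_iff_le_comap.2 fun P hP => by
        rw [Ideal.mem_comap, RingHom.mem_ker, aeval_sgm]
        exact h P hP
    exact h1 hf

variable [Fintype ι₁] [Fintype ι₂] {A₁ : AV k ι₁} {A₂ : AV k ι₂} {B : AV k (ι₁ × ι₂)}
  {h : Sub (prod A₁ A₂) B} {a : (prod A₁ A₂).Pt k}

/-- Nullstellensatz. -/
theorem inCos_of (le₁ : ∀ f ∈ A₁.I, rename .inl f ∈ p) (le₂ : ∀ f ∈ A₂.I, rename .inr f ∈ p)
    (hc : ∀ z : (prod A₁ A₂).Pt (AlgebraicClosure k), OnV A₁ A₂ p z →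
      z - (prod A₁ A₂).map (Algebra.ofId k _) a ∈ (h.inc _).range) : InCos A₁ A₂ p h a := by
  intro F _ _ z hz
  have hu := rep_prod (z := z) (rep_co _) (rep_co _)
  have ha := (rep_co a).map (Algebra.ofId k F)
  obtain ⟨c, b, hb⟩ := exists_unit_ph hu ha
  refine (h.mem_range_inc (rep_sub hu ha hb)).2 fun f hf => ?_
  obtain ⟨G, hG⟩ : ∃ G : MvPolynomial (ι₁ ⊕ ι₂) k, ∀ (R : Type) [CommRing R] [Algebra k R]
      (v : ι₁ → R) (v' : ι₂ → R), aeval (Sum.elim v v') G =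
        aeval (fun b => (prod A₁ A₂).ph c b (sg v v') fun d => algebraMap k R (a.co d)) f := by
    refine ⟨aeval (fun b => (prod A₁ A₂).ph c b (sg (fun a => X (.inl a)) fun b => X (.inr b))
      fun d => C (a.co d)) f, fun R _ _ v v' => ?_⟩
    rw [← aeval_hom]
    simp only [map_ph, sg, map_mul, aeval_X, aeval_C, Sum.elim_inl, Sum.elim_inr]
    rfl
  obtain ⟨i, hi⟩ := (rep_co (prodE A₁ A₂ F z).1).unit
  obtain ⟨j, hj⟩ := (rep_co (prodE A₁ A₂ F z).2).unit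
  have h1 : X (.inl i) * X (.inr j) * G ∈ (Ideal.span
      {f | (∃ d, f.IsWeightedHomogeneous (bw ι₁ ι₂) d) ∧ f ∈ p}).radical := by
    rw [← vanishingIdeal_zeroLocus_eq_radical (K := AlgebraicClosure k)]
    intro x hx
    rw [map_mul, map_mul, aeval_X, aeval_X]
    by_contra h0
    simp only [← Ne.eq_def, mul_ne_zero_iff] at h0
    have h2 : InV p (fun a => x (.inl a)) fun b => x (.inr b) := fun f d h3 h4 => by
      rw [elim_eta]
      exact hx f (Ideal.subset_span ⟨⟨d, h3⟩, h4⟩)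
    have z1 := h2.zero_of A₁.hom (G := X ∘ Sum.inl) (δ := (1, 0))
      (fun a => isWeightedHomogeneous_X k (bw ι₁ ι₂) (.inl a))
      fun f hf => rename_eq_aeval (R := k) (Sum.inl : ι₁ → ι₁ ⊕ ι₂) ▸ le₁ f hf
    have z2 := h2.zero_of A₂.hom (G := X ∘ Sum.inr) (δ := (0, 1))
      (fun a => isWeightedHomogeneous_X k (bw ι₁ ι₂) (.inr a))
      fun f hf => rename_eq_aeval (R := k) (Sum.inr : ι₂ → ι₁ ⊕ ι₂) ▸ le₂ f hf
    simp only [Function.comp_apply, aeval_X, Sum.elim_inl, Sum.elim_inr] at z1 z2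
    obtain ⟨P, hP⟩ := exists_rep (A := A₁) (v := fun a => x (.inl a)) ⟨i, h0.1.1.isUnit⟩ z1
    obtain ⟨Q, hQ⟩ := exists_rep (A := A₂) (v := fun a => x (.inr a)) ⟨j, h0.1.2.isUnit⟩ z2
    refine h0.2 ?_
    rw [← elim_eta x, hG]
    exact Cn.cos_zero (K := k) h (rep_symm hP hQ) (hc _ (onV_symm hP hQ h2)) hf c
  obtain ⟨N, hN⟩ := h1
  have h2 : Ideal.span {f | (∃ d, f.IsWeightedHomogeneous (bw ι₁ ι₂) d) ∧ f ∈ p} ≤
      RingHom.ker (aeval (R := k) (Sum.elim (prodE A₁ A₂ F z).1.co (prodE A₁ A₂ F z).2.co)) :=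
    Ideal.span_le.2 fun f ⟨⟨d, h3⟩, h4⟩ => hz f d h3 h4
  have h3 := h2 hN
  rw [RingHom.mem_ker, map_pow, map_mul, map_mul, aeval_X, aeval_X, hG] at h3
  exact (hi.mul hj).mul_right_eq_zero.1 (eq_zero_of_pow_eq_zero h3)

theorem abs_ell {v : ι₁ → k} {v' : ι₂ → k} (hv : v ≠ 0) (hv' : v' ≠ 0)
    (w : AbsoluteValue k ℝ) : |Cn.ell w v - Cn.ell w v'| =
      Real.log ((⨆ c, w (Sum.elim v v' c)) / ⨆ a, w (v a)) +
        Real.log ((⨆ c, w (Sum.elim v v' c)) / ⨆ b, w (v' b)) := by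
  have pa := nm_pos w hv
  have pb := nm_pos w hv'
  have e1 : nm w (Sum.elim v v') = max (nm w v) (nm w v') := by
    refine le_antisymm (Real.iSup_le ?_ (le_max_of_le_left pa.le)) (max_le
      (Real.iSup_le (fun a => le_nm w (Sum.elim v v') (.inl a)) (nm_nn _ _))
      (Real.iSup_le (fun a => le_nm w (Sum.elim v v') (.inr a)) (nm_nn _ _)))
    rintro (a | a)
    exacts [le_max_of_le_left (le_nm w v a), le_max_of_le_right (le_nm w v' a)]
  change |Real.log (nm w v) - Real.log (nm w v')| =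
    Real.log (nm w (Sum.elim v v') / nm w v) + Real.log (nm w (Sum.elim v v') / nm w v')
  rw [e1]
  rcases le_total (nm w v) (nm w v') with h | h
  · rw [max_eq_right h, abs_of_nonpos (sub_nonpos.2 (Real.log_le_log pa h)), div_self pb.ne',
      Real.log_one, add_zero, Real.log_div pb.ne' pa.ne', neg_sub]
  · rw [max_eq_left h, abs_of_nonneg (sub_nonneg.2 (Real.log_le_log pb h)), div_self pa.ne',
      Real.log_one, zero_add, Real.log_div pa.ne' pb.ne']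

variable [NumberField k]

theorem cos_of {G₁ G₂ : Type} [AddCommGroup G₁] [AddCommGroup G₂]
    {co₁ : G₁ → ι₁ → AlgebraicClosure k} {co₂ : G₂ → ι₂ → AlgebraicClosure k}
    (e₁ : G₁ ≃+ A₁.Pt (AlgebraicClosure k)) (e₂ : G₂ ≃+ A₂.Pt (AlgebraicClosure k))
    (h₁ : ∀ x, Rep (e₁ x) (co₁ x)) (h₂ : ∀ x, Rep (e₂ x) (co₂ x))
    (le₁ : ∀ f ∈ A₁.I, rename .inl f ∈ p) (le₂ : ∀ f ∈ A₂.I, rename .inr f ∈ p)
    (hH : ∀ (q : Ideal (MvPolynomial (ι₁ ⊕ ι₂) k)) (B : AddSubgroup (G₁ × G₂)) (a : G₁ × G₂),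
      (∀ x, x ∈ B ↔ InV q (co₁ x.1) (co₂ x.2)) →
      (∀ b ∈ B, InV p (co₁ (a + b).1) (co₂ (a + b).2)) →
      (∀ x, InV p (co₁ x.1) (co₂ x.2) → x - a ∈ B) ∨ ∃ η C : ℝ, 0 < η ∧
        ∀ (v : ι₁ → k) (v' : ι₂ → k), v ≠ 0 → v' ≠ 0 → (∀ f ∈ A₁.I, eval v f = 0) →
          (∀ f ∈ A₂.I, eval v' f = 0) → InV q v v' →
          η * (logHeight v + logHeight v') ≤ |logHeight v - logHeight v'| + C)
    (hc : CosIn A₁ A₂ p h a) : InCos A₁ A₂ p h a ∨ Dfn A₁ A₂ h := by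
  let ψ := (AddEquiv.prodCongr e₁ e₂).trans (prodE A₁ A₂ (AlgebraicClosure k)).symm
  have r : ∀ x, Rep (ψ x) (sg (co₁ x.1) (co₂ x.2)) := fun x => rep_symm (h₁ x.1) (h₂ x.2)
  have o : ∀ x, OnV A₁ A₂ p (ψ x) ↔ InV p (co₁ x.1) (co₂ x.2) := fun x =>
    ⟨fun h => by
      rw [OnV, show ψ x = (prodE A₁ A₂ _).symm (e₁ x.1, e₂ x.2) from rfl,
        AddEquiv.apply_symm_apply] at h
      exact h.rep (rep_co _) (rep_co _) (h₁ _) (h₂ _), onV_symm (h₁ x.1) (h₂ x.2)⟩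
  refine (hH (B.I.map (sgm k ι₁ ι₂)) ((h.inc _).range.comap ψ.toAddMonoidHom)
    (ψ.symm ((prod A₁ A₂).map (Algebra.ofId k _) a))
    (fun x => (h.mem_range_inc (r x)).trans (inV_map B.hom).symm) fun b ⟨c, hb⟩ => ?_).imp
    (fun h3 => inCos_of le₁ le₂ fun z hz => ?_) fun ⟨η, C, hη, h3⟩ => ⟨η, C, hη, fun b => ?_⟩
  · rw [← o, map_add, AddEquiv.apply_symm_apply, add_comm, show ψ b = _ from hb.symm]
    exact hc _ c
  · have h4 := h3 (ψ.symm z) ((o _).1 (by rwa [AddEquiv.apply_symm_apply]))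
    rwa [AddSubgroup.mem_comap, AddEquiv.coe_toAddMonoidHom, map_sub, AddEquiv.apply_symm_apply,
      AddEquiv.apply_symm_apply] at h4
  · exact h3 _ _ (Cn.rep_ne (rep_co _)) (Cn.rep_ne (rep_co _)) (rep_co _).zero (rep_co _).zero
      ((inV_map B.hom).2 (h.rep_of_inc (rep_prod (rep_co _) (rep_co _))).zero)

end Pool.Agent.Lib.MP_651af7_nt.Jn
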