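import Pool.Agent.Lib.MP_651af7_nt.Jn.OVoc

/-! The relation of minimal width divides with multiplicity. -/

namespace Pool.Agent.Lib.MP_651af7_nt.Jn

open MvPolynomial
open Pool.Agent.Lib.MP_651af7_nt.Av

variable {k ι₁ ι₂ : Type} [Field k] {p : Ideal (MvPolynomial (ι₁ ⊕ ι₂) k)} {e m n : ℕ}
  {σ : Fin (e + 2) → MvPolynomial (ι₁ ⊕ ι₂) k}

theorem Rel.tay_one [CharZero k] (h : Rel p e m n σ) : tay σ 1 ∉ p := by
  intro h1
  have hs : tay σ 1 = ∑ t : Fin (e + 1), ((t : ℕ) + 1) • σ t.succ := by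
    rw [tay, Fin.sum_univ_succ]
    simp
  have h2 := h.min (m + 1) n (fun t => ((t : ℕ) + 1) • σ t.succ) (fun t => by
    have h3 := h.bih t.succ
    rw [Fin.val_succ, show m + ((t : ℕ) + 1) = m + 1 + t by omega,
      show e + 1 - ((t : ℕ) + 1) = e - t by omega] at h3
    exact (weightedHomogeneousSubmodule _ _ _).toAddSubmonoid.nsmul_mem h3 _) (hs ▸ h1)
    (Fin.last e)
  rw [Fin.succ_last, ← Nat.cast_smul_eq_nsmul k] at h2
  have h4 := p.smul_of_tower_mem ((((Fin.last e : ℕ) + 1 : ℕ) : k))⁻¹ h2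
  rw [inv_smul_smul₀ (Nat.cast_ne_zero.2 (Nat.succ_ne_zero _))] at h4
  exact h.last h4

variable {F : Type} [Field F] [Algebra k F] {w : ι₁ ⊕ ι₂ → F}

theorem div_pow_dvd {S : Type} [CommRing S] (ψ : S →+* Polynomial F) {r : S} {s : Polynomial F}
    (hr : ψ r = Polynomial.X * s) (hs : ¬ Polynomial.X ∣ s)
    (hd : ∀ q, Polynomial.X ∣ ψ q → r ∣ q) (N : ℕ) :
    ∀ q, Polynomial.X ^ N ∣ ψ q → r ^ N ∣ q := by
  induction N with
  | zero => intro q _; simp
  | succ N ih =>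
    intro q hq
    obtain ⟨q', rfl⟩ := hd q ((dvd_pow_self _ N.succ_ne_zero).trans hq)
    rw [map_mul, hr, pow_succ', mul_assoc, mul_dvd_mul_iff_left Polynomial.X_ne_zero] at hq
    rw [pow_succ']
    exact mul_dvd_mul_left _ (ih q' (Polynomial.prime_X.pow_dvd_of_dvd_mul_left N hs hq))

theorem div_bih {a : ι₁} {b : ι₂} (ha : w (.inl a) = 1) (hb : w (.inr b) = 1)
    (f : MvPolynomial (ι₁ ⊕ ι₂) k) : ∃ M : ℕ, ∀ x y : ℕ, M ≤ x → M ≤ y →
      ∃ f' : MvPolynomial (ι₁ ⊕ ι₂) k, f'.IsWeightedHomogeneous (bw ι₁ ι₂) (x, y) ∧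
        aeval w f' = aeval w f := by
  induction f using MvPolynomial.induction_on' with
  | monomial μ c =>
    obtain ⟨⟨x₀, y₀⟩, h₀⟩ : ∃ z, Finsupp.weight (bw ι₁ ι₂) μ = z := ⟨_, rfl⟩
    refine ⟨x₀ + y₀, fun x y hx hy => ⟨monomial μ c * X (.inl a) ^ (x - x₀) *
      X (.inr b) ^ (y - y₀), ?_, by simp [ha, hb]⟩⟩
    have h := ((isWeightedHomogeneous_monomial (bw ι₁ ι₂) μ c h₀).mul
      ((isWeightedHomogeneous_X k (bw ι₁ ι₂) (.inl a)).pow (x - x₀))).mul
      ((isWeightedHomogeneous_X k (bw ι₁ ι₂) (.inr b)).pow (y - y₀))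
    have h2 : (x₀, y₀) + (x - x₀) • bw ι₁ ι₂ (.inl a) + (y - y₀) • bw ι₁ ι₂ (.inr b) = (x, y) := by
      simp only [bw, Sum.elim_inl, Sum.elim_inr, Prod.smul_mk, smul_eq_mul, Prod.mk_add_mk,
        Prod.mk.injEq]
      omega
    rwa [h2] at h
  | add f g hf hg =>
    obtain ⟨M, hM⟩ := hf
    obtain ⟨M', hM'⟩ := hg
    refine ⟨M + M', fun x y hx hy => ?_⟩
    obtain ⟨f', h1, h2⟩ := hM x y (by omega) (by omega)
    obtain ⟨g', h3, h4⟩ := hM' x y (by omega) (by omega)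
    exact ⟨f' + g', h1.add h3, by rw [map_add, map_add, h2, h4]⟩

theorem div_scale {u : ι₁ ⊕ ι₂ → F} {τ : F} (h₁ : ∀ c, w (.inl c) = τ * u (.inl c))
    (h₂ : ∀ c, w (.inr c) = u (.inr c)) {f : MvPolynomial (ι₁ ⊕ ι₂) k} {x y : ℕ}
    (hf : f.IsWeightedHomogeneous (bw ι₁ ι₂) (x, y)) : aeval w f = τ ^ x * aeval u f := by
  have h := aeval_mul_of_bih hf τ 1 (fun c => u (.inl c)) fun c => u (.inr c)
  rw [elim_eta, one_pow, mul_one] at h
  rw [← h]
  congr 2
  funext c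
  cases c
  · exact h₁ _
  · exact (h₂ _).trans (one_mul _).symm

/-- The powers `1, τ, ..., τ ^ e` are independent over the values of polynomials at `u`. -/
theorem Rel.div_ind (h : Rel p e m n σ) (hw : Gp p w) {u : ι₁ ⊕ ι₂ → F} {τ : F} (hτ : τ ≠ 0)
    (h₁ : ∀ c, w (.inl c) = τ * u (.inl c)) (h₂ : ∀ c, w (.inr c) = u (.inr c)) {a : ι₁} {b : ι₂}
    (ha : u (.inl a) = 1) (hb : u (.inr b) = 1) (g : Fin (e + 1) → MvPolynomial (ι₁ ⊕ ι₂) k)
    (hg : ∑ t, aeval u (g t) * τ ^ (t : ℕ) = 0) (t : Fin (e + 1)) : aeval u (g t) = 0 := by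
  choose M hM using fun t => div_bih ha hb (g t)
  have hle : ∀ t, M t ≤ ∑ t, M t := fun t =>
    Finset.single_le_sum (fun _ _ => Nat.zero_le _) (Finset.mem_univ t)
  choose f hf hf' using fun t : Fin (e + 1) => hM t (∑ t, M t + t) (∑ t, M t + (e - t))
    ((hle t).trans (Nat.le_add_right _ _)) ((hle t).trans (Nat.le_add_right _ _))
  have h3 : ∑ t, f t ∈ p := by
    refine hw.2 _ (∑ t, M t + ∑ t, M t + e) (IsHomogeneous.sum _ _ _ fun t _ => ?_) ?_
    · have h4 := bih_hom (hf t)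
      have ht := t.2
      rwa [show (∑ t, M t + t) + (∑ t, M t + (e - t)) = ∑ t, M t + ∑ t, M t + e by omega] at h4
    · rw [map_sum, ← mul_zero (τ ^ ∑ t, M t), ← hg, Finset.mul_sum]
      refine Finset.sum_congr rfl fun t _ => ?_
      rw [div_scale h₁ h₂ (hf t), hf', pow_add]
      ring
  have h5 := hw.1 _ (h.min _ _ f hf h3 t)
  rw [div_scale h₁ h₂ (hf t), hf'] at h5
  exact (mul_eq_zero.1 h5).resolve_left (pow_ne_zero _ hτ)

theorem div_one_add {t N : ℕ} (h : t < N) : (1 + Polynomial.X : Polynomial F) ^ t =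
    ∑ j : Fin N, Polynomial.C (t.choose j : F) * Polynomial.X ^ (j : ℕ) := by
  ext i
  rw [Polynomial.coeff_one_add_X_pow, Polynomial.finsetSum_coeff]
  simp only [Polynomial.coeff_C_mul_X_pow]
  by_cases hi : i < N
  · rw [Finset.sum_eq_single ⟨i, hi⟩ (fun j _ hj => if_neg fun h' => hj (Fin.ext h'.symm))
      (fun h' => absurd (Finset.mem_univ _) h'), if_pos rfl]
  · rw [Nat.choose_eq_zero_of_lt (by omega), Nat.cast_zero]
    exact (Finset.sum_eq_zero fun j _ => if_neg (by have := j.2; omega)).symm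

theorem rr_tay (σ : Fin (e + 2) → MvPolynomial (ι₁ ⊕ ι₂) k) (w : ι₁ ⊕ ι₂ → F) : rr (tay σ) w =
    ∑ t, Polynomial.C (aeval w (σ t)) * (1 + Polynomial.X) ^ (t : ℕ) := by
  simp only [rr, tay, map_sum, Finset.sum_mul]
  rw [Finset.sum_comm]
  refine Finset.sum_congr rfl fun t _ => ?_
  rw [div_one_add t.2, Finset.mul_sum]
  refine Finset.sum_congr rfl fun j _ => ?_
  rw [map_nsmul, nsmul_eq_mul, map_mul]
  ring

theorem rr_coeff {κ : Type} (ρ : Fin (e + 2) → MvPolynomial κ k) (w : κ → F) (j : Fin (e + 2)) :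
    (rr ρ w).coeff j = aeval w (ρ j) := by
  rw [rr, Polynomial.finsetSum_coeff]
  simp only [Polynomial.coeff_C_mul_X_pow]
  rw [Finset.sum_eq_single j (fun i _ hi => if_neg fun h' => hi (Fin.ext h'.symm))
    (fun h' => absurd (Finset.mem_univ _) h'), if_pos rfl]

theorem Rel.div [CharZero k] (hp : p.IsPrime) (h : Rel p e m n σ) (hw : Gp p w) {b : ι₂}
    (hb : w (.inr b) = 1) (P : MvPolynomial (ι₁ ⊕ ι₂) k) (N : ℕ)
    (hP : Polynomial.X ^ N ∣ hat w P) : rr (tay σ) w ^ N ∣ hat w P := by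
  classical
  have _ := hp
  obtain ⟨a, hτ⟩ : ∃ a, w (.inl a) ≠ 0 := by
    by_contra hc
    refine h.last (hw.2 _ _ (h.hom _) ?_)
    rw [div_scale (u := w) (τ := 0) (fun c => by
      rw [zero_mul]; exact not_not.1 fun h' => hc ⟨c, h'⟩) (fun _ => rfl) (h.bih _),
      zero_pow (by simp), zero_mul]
  obtain ⟨τ, hτa⟩ : ∃ τ, w (.inl a) = τ := ⟨_, rfl⟩
  rw [hτa] at hτ
  obtain ⟨u, h₁, h₂⟩ : ∃ u : ι₁ ⊕ ι₂ → F, (∀ c, w (.inl c) = τ * u (.inl c)) ∧
      ∀ c, w (.inr c) = u (.inr c) :=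
    ⟨Sum.elim (fun c => τ⁻¹ * w (.inl c)) fun c => w (.inr c),
      fun c => (mul_inv_cancel_left₀ hτ _).symm, fun _ => rfl⟩
  have ha : u (.inl a) = 1 := mul_left_cancel₀ hτ (by rw [← h₁, hτa, mul_one])
  have hb' : u (.inr b) = 1 := (h₂ b).symm.trans hb
  let K : IntermediateField k F := IntermediateField.adjoin k (Set.range u)
  have hK : ∀ f : MvPolynomial (ι₁ ⊕ ι₂) k, aeval u f ∈ K := fun f =>
    (IntermediateField.mem_adjoin_range_iff k u _).2 ⟨f, 1, by simp⟩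
  have hK' : ∀ x : K, ∃ r s : MvPolynomial (ι₁ ⊕ ι₂) k, aeval u s ≠ 0 ∧
      aeval u r = aeval u s * (x : F) := fun x => by
    obtain ⟨r, s, hx⟩ := (IntermediateField.mem_adjoin_range_iff k u _).1 x.2
    by_cases hs : aeval u s = 0
    · exact ⟨0, 1, by simp, by rw [hx, hs]; simp⟩
    · exact ⟨r, s, hs, by rw [hx, mul_div_cancel₀ _ hs]⟩
  have hI : ∀ q : Polynomial K, q.degree < (e + 1 : ℕ) → Polynomial.aeval τ q = 0 → q = 0 := by
    intro q hq h0
    choose r s hs hrs using fun t : Fin (e + 1) => hK' (q.coeff t)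
    have hv : ∀ t, aeval u (r t * ∏ i ∈ Finset.univ.erase t, s i) =
        (∏ i, aeval u (s i)) * (q.coeff t : F) := fun t => by
      rw [map_mul, map_prod, hrs, ← Finset.mul_prod_erase _ _ (Finset.mem_univ t)]
      ring
    have h3 := h.div_ind hw hτ h₁ h₂ ha hb' (fun t => r t * ∏ i ∈ Finset.univ.erase t, s i) (by
      rw [Polynomial.aeval_eq_sum_range' (n := e + 1) (by
        by_cases hq0 : q = 0
        · simp [hq0]
        · exact (Polynomial.natDegree_lt_iff_degree_lt hq0).2 hq), Finset.sum_range] at h0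
      rw [← mul_zero (∏ i, aeval u (s i)), ← h0, Finset.mul_sum]
      refine Finset.sum_congr rfl fun t _ => ?_
      rw [hv, mul_assoc]
      rfl)
    ext i
    by_cases hi : i < e + 1
    · have h4 := h3 ⟨i, hi⟩
      rw [hv] at h4
      exact (mul_eq_zero.1 h4).resolve_left (Finset.prod_ne_zero_iff.2 fun i _ => hs i)
    · rw [Polynomial.coeff_eq_zero_of_degree_lt (hq.trans_le (by exact_mod_cast not_lt.1 hi))]
      rfl
  let ψ : Polynomial K →ₐ[K] Polynomial F :=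
    Polynomial.aeval ((1 + Polynomial.X) * Polynomial.C τ)
  have hC : ∀ x : K, ψ (Polynomial.C x) = Polynomial.C (x : F) := fun x => Polynomial.aeval_C _ _
  have hX : ψ Polynomial.X = (1 + Polynomial.X) * Polynomial.C τ := Polynomial.aeval_X _
  have h0 : ∀ q, (ψ q).eval 0 = Polynomial.aeval τ q := fun q => by
    induction q using Polynomial.induction_on' with
    | add f g hf hg => rw [map_add, Polynomial.eval_add, hf, hg, map_add]
    | monomial i c =>
      rw [← Polynomial.C_mul_X_pow_eq_monomial, map_mul, map_pow, hC, hX, map_mul, map_pow,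
        Polynomial.aeval_C, Polynomial.aeval_X]
      simp
  obtain ⟨π, hπ⟩ : ∃ π, ψ π = hat w P := by
    clear hP
    induction P using MvPolynomial.induction_on with
    | C c => exact ⟨Polynomial.C (algebraMap k K c), by rw [hC, hat, aeval_C]; rfl⟩
    | add f g hf hg =>
      obtain ⟨x, hx⟩ := hf
      obtain ⟨y, hy⟩ := hg
      exact ⟨x + y, by rw [map_add, hx, hy, hat, hat, hat, map_add]⟩
    | mul_X f c hf =>
      obtain ⟨x, hx⟩ := hf
      have hc : u c ∈ K := IntermediateField.subset_adjoin _ _ ⟨c, rfl⟩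
      rcases c with c | c
      · refine ⟨x * (Polynomial.X * Polynomial.C ⟨_, hc⟩), ?_⟩
        rw [map_mul, map_mul, hx, hX, hC, hat, hat, map_mul, aeval_X, Sum.elim_inl, h₁, map_mul,
          mul_assoc (1 + Polynomial.X)]
      · refine ⟨x * Polynomial.C ⟨_, hc⟩, ?_⟩
        rw [map_mul, hx, hC, hat, hat, map_mul, aeval_X, Sum.elim_inr, h₂]
  obtain ⟨r, hr, hdeg⟩ : ∃ r : Polynomial K, rr (tay σ) w = Polynomial.C (τ ^ m) * ψ r ∧
      r.degree ≤ (e + 1 : ℕ) := by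
    refine ⟨∑ t : Fin (e + 2), Polynomial.C ⟨_, hK (σ t)⟩ * Polynomial.X ^ (t : ℕ), ?_, ?_⟩
    · rw [rr_tay, map_sum, Finset.mul_sum]
      refine Finset.sum_congr rfl fun t _ => ?_
      rw [map_mul, map_pow ψ, hC, hX, div_scale h₁ h₂ (h.bih t), pow_add, map_mul, map_mul,
        map_pow Polynomial.C τ t, mul_pow]
      ring
    · refine (Polynomial.degree_sum_le _ _).trans (Finset.sup_le fun t _ => ?_)
      exact (Polynomial.degree_C_mul_X_pow_le _ _).trans (by exact_mod_cast Nat.lt_succ_iff.1 t.2)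
  have hu : IsUnit (Polynomial.C (τ ^ m)) := Polynomial.isUnit_C.2 (pow_ne_zero _ hτ).isUnit
  have hc0 : (rr (tay σ) w).coeff 0 = 0 := by
    have h3 := rr_coeff (tay σ) w 0
    rwa [tay_zero, hw.1 _ h.mem] at h3
  have hc1 : (rr (tay σ) w).coeff 1 ≠ 0 := by
    have h3 := rr_coeff (tay σ) w 1
    rw [Fin.val_one] at h3
    rw [h3]
    exact fun h4 => h.tay_one (hw.2 _ _ (h.tay_hom 1) h4)
  obtain ⟨s, hs⟩ : Polynomial.X ∣ ψ r := by
    rw [← hu.dvd_mul_left, ← hr]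
    exact Polynomial.X_dvd_iff.2 hc0
  have hs' : ¬ Polynomial.X ∣ s := fun h3 => hc1 (by
    rw [hr, hs, Polynomial.coeff_C_mul, Polynomial.coeff_X_mul, Polynomial.X_dvd_iff.1 h3,
      mul_zero])
  have hr0 : r ≠ 0 := fun h3 => hc1 (by rw [hr, h3]; simp)
  have hd : ∀ q, Polynomial.X ∣ ψ q → r ∣ q := fun q hq => by
    refine EuclideanDomain.mod_eq_zero.1 (hI _ ((Polynomial.degree_mod_lt q hr0).trans_le hdeg) ?_)
    rw [← h0, ← Polynomial.coeff_zero_eq_eval_zero, ← Polynomial.X_dvd_iff,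
      EuclideanDomain.mod_eq_sub_mul_div, map_sub, map_mul, hs, mul_assoc]
    exact dvd_sub hq (dvd_mul_right _ _)
  rw [← hπ] at hP ⊢
  rw [hr, mul_pow, (hu.pow N).mul_left_dvd, ← map_pow]
  exact map_dvd ψ (div_pow_dvd ψ.toRingHom hs hs' hd N π hP)

end Pool.Agent.Lib.MP_651af7_nt.Jn
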