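import Pool.Agent.Lib.MP_651af7_nt.Jn.OCos
import Pool.Agent.Lib.MP_651af7_nt.Cn.SNoe

/-! The fixed data. -/

namespace Pool.Agent.Lib.MP_651af7_nt.Jn

open MvPolynomial Height Filter
open Pool.Agent.Lib.MP_651af7_nt.Av Pool.Agent.Lib.MP_651af7_nt.Av.AV
open Pool.Agent.Lib.MP_8865d3_nt.Sv
open Pool.Agent.Lib.MP_651af7_nt.Cn (gv hid mem_hid)

variable {k ι₁ ι₂ : Type} [Field k] {p : Ideal (MvPolynomial (ι₁ ⊕ ι₂) k)} {e m n : ℕ}
  {σ : Fin (e + 2) → MvPolynomial (ι₁ ⊕ ι₂) k}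

/-- The part of degree `t` in the first block. -/
noncomputable def cp1 (t : ℕ) (f : MvPolynomial (ι₁ ⊕ ι₂) k) : MvPolynomial (ι₁ ⊕ ι₂) k :=
  weightedHomogeneousComponent (Sum.elim (fun _ => 1) fun _ => 0 : ι₁ ⊕ ι₂ → ℕ) t f

theorem cp1_hom {f : MvPolynomial (ι₁ ⊕ ι₂) k} {d : ℕ} (hf : f.IsHomogeneous d) (t : ℕ) :
    (cp1 t f).IsHomogeneous d := by
  classical
  intro μ hμ
  rw [cp1, coeff_weightedHomogeneousComponent] at hμ
  split_ifs at hμ
  · exact hf hμ
  · exact (hμ rfl).elim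

section

variable {R : Type} [CommRing R] [Algebra k R]

theorem aeval_scale (f : MvPolynomial (ι₁ ⊕ ι₂) k) : ∃ N : ℕ, ∀ (R : Type) [CommRing R]
    [Algebra k R] (s : R) (w : ι₁ ⊕ ι₂ → R),
    aeval (Sum.elim (fun a => s * w (.inl a)) fun b => w (.inr b)) f =
      ∑ t ∈ Finset.range N, s ^ t * aeval w (cp1 t f) := by
  classical
  refine ⟨f.totalDegree + 1, fun R _ _ s w => ?_⟩
  conv_lhs => rw [f.as_sum, map_sum]
  simp only [cp1, weightedHomogeneousComponent_apply, map_sum, Finset.mul_sum, Finset.sum_filter]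
  rw [Finset.sum_comm]
  refine Finset.sum_congr rfl fun μ hμ => ?_
  have h1 : Finsupp.weight (Sum.elim (fun _ => 1) fun _ => 0 : ι₁ ⊕ ι₂ → ℕ) μ ≤ f.totalDegree := by
    refine le_trans ?_ (le_totalDegree hμ)
    rw [Finsupp.weight_apply]
    refine Finset.sum_le_sum ?_
    rintro (a | b) - <;> simp
  rw [Finset.sum_eq_single (Finsupp.weight (Sum.elim (fun _ => 1) fun _ => 0 : ι₁ ⊕ ι₂ → ℕ) μ)
    (fun t _ ht => by rw [if_neg ht.symm, map_zero, mul_zero])
    fun h => (h (Finset.mem_range.2 (Nat.lt_succ_of_le h1))).elim, if_pos rfl, aeval_monomial,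
    aeval_monomial, mul_left_comm, Finsupp.weight_apply, Finsupp.sum, ← Finset.prod_pow_eq_pow_sum,
    Finsupp.prod, Finsupp.prod, ← Finset.prod_mul_distrib]
  congr 1
  refine Finset.prod_congr rfl ?_
  rintro (a | b) - <;> simp [mul_pow]

end

section

variable {E : Type} [Field E] [Algebra k E] {x : ι₁ ⊕ ι₂ → E}

/-- The generic point of the torsor. -/
noncomputable def tor (x : ι₁ ⊕ ι₂ → E) : ι₁ ⊕ ι₂ → RatFunc E :=
  Sum.elim (fun a => RatFunc.X * algebraMap E (RatFunc E) (x (.inl a)))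
    fun b => algebraMap E (RatFunc E) (x (.inr b))

theorem tor_zero {f : MvPolynomial (ι₁ ⊕ ι₂) k} (h : aeval (tor x) f = 0) :
    ∃ N : ℕ, (∀ t ∈ Finset.range N, aeval x (cp1 t f) = 0) ∧ ∀ (R : Type) [CommRing R]
      [Algebra k R] (s : R) (w : ι₁ ⊕ ι₂ → R),
      aeval (Sum.elim (fun a => s * w (.inl a)) fun b => w (.inr b)) f =
        ∑ t ∈ Finset.range N, s ^ t * aeval w (cp1 t f) := by
  obtain ⟨N, hN⟩ := aeval_scale f
  refine ⟨N, fun t ht => ?_, hN⟩
  have h1 := hN (RatFunc E) RatFunc.X fun c => algebraMap E (RatFunc E) (x c)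
  have h2 : algebraMap (Polynomial E) (RatFunc E) (∑ t ∈ Finset.range N,
      Polynomial.monomial t (aeval x (cp1 t f))) = 0 := by
    rw [← h, tor, h1, map_sum]
    refine Finset.sum_congr rfl fun t _ => ?_
    rw [aeval_alg, ← Polynomial.C_mul_X_pow_eq_monomial, map_mul, map_pow, RatFunc.algebraMap_X,
      RatFunc.algebraMap_C, mul_comm]
    rfl
  have h3 := congrArg (Polynomial.coeff · t) (RatFunc.algebraMap_injective E
    (h2.trans (map_zero _).symm))
  simpa only [Polynomial.finsetSum_coeff, Polynomial.coeff_monomial, Finset.sum_ite_eq', if_pos ht,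
    Polynomial.coeff_zero] using h3

theorem tor_spec (hx : Gp p x) {f : MvPolynomial (ι₁ ⊕ ι₂) k} {d : ℕ} (hf : f.IsHomogeneous d)
    (h : aeval (tor x) f = 0) {R : Type} [CommRing R] [Algebra k R] (s : R) {w : ι₁ ⊕ ι₂ → R}
    (hw : ∀ f ∈ p, aeval w f = 0) :
    aeval (Sum.elim (fun a => s * w (.inl a)) fun b => w (.inr b)) f = 0 := by
  obtain ⟨N, h1, h2⟩ := tor_zero h
  rw [h2]
  exact Finset.sum_eq_zero fun t ht => by
    rw [hw _ (hx.2 _ _ (cp1_hom hf t) (h1 t ht)), mul_zero]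

theorem Rel.tor_ne (h : Rel p e m n σ) (hx : Gp p x) : aeval (tor x) (∑ t, σ t) ≠ 0 := by
  intro h0
  have h1 : ∑ t, aeval x (σ t) * 0 ^ (t : ℕ) = 0 := by
    have h2 : algebraMap (Polynomial E) (RatFunc E) (Polynomial.X ^ m *
        ∑ t : Fin (e + 2), Polynomial.C (aeval x (σ t)) * Polynomial.X ^ (t : ℕ)) = 0 := by
      rw [← h0, map_sum, Finset.mul_sum, map_sum]
      refine Finset.sum_congr rfl fun t _ => ?_
      have h3 := aeval_mul_of_bih (h.bih t) RatFunc.X 1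
        (fun a => algebraMap E (RatFunc E) (x (.inl a))) fun b => algebraMap E (RatFunc E) (x (.inr b))
      simp only [one_mul, one_pow, mul_one] at h3
      rw [tor, h3, elim_eta fun c => algebraMap E (RatFunc E) (x c), aeval_alg, map_mul, map_mul,
        map_pow, map_pow, RatFunc.algebraMap_X, RatFunc.algebraMap_C, pow_add]
      change _ = _ * RatFunc.C _
      ring
    have h3 := congrArg (Polynomial.eval 0) ((mul_eq_zero.1 (RatFunc.algebraMap_injective E
      (h2.trans (map_zero _).symm))).resolve_left (pow_ne_zero _ Polynomial.X_ne_zero))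
    simpa only [Polynomial.eval_finsetSum, Polynomial.eval_mul, Polynomial.eval_C,
      Polynomial.eval_pow, Polynomial.eval_X, Polynomial.eval_zero] using h3
  rw [Fin.sum_univ_succ] at h1
  exact h.first (hx.2 _ _ (h.hom 0) (by simpa using h1))

theorem Rel.ne_zero (h : Rel p e m n σ) (hx : Gp p x) : x ≠ 0 := fun h0 =>
  h.first (hx.2 _ _ (h.hom 0) (by
    have := aeval_mul_of_hom (h.hom 0) (0 : E) x
    simp only [zero_mul, zero_pow (Nat.succ_ne_zero _)] at this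
    exact h0 ▸ this))

variable [Fintype ι₁] [Fintype ι₂]

theorem Rel.td_tor (h : Rel p e m n σ) (hx : Gp p x) {g : ℕ} (hg : td k (rat x) = g) :
    td k (rat (tor x)) = (g + 1 : ℕ) := by
  refine le_antisymm ?_ ?_
  · let i := IsScalarTower.toAlgHom k E (RatFunc E)
    obtain ⟨L, hL, hS⟩ := tr_cl (K := k) (insert RatFunc.X (i '' rat x))
    refine (tr_td_le (S := insert RatFunc.X (i '' rat x)) ?_).trans ((td_insert_le _ _).trans ?_)
    · have h1 : ∀ c d, i (x c) / i (x d) ∈ L := fun c d =>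
        hS (.inr ⟨_, ⟨(c, d), rfl⟩, map_div₀ _ _ _⟩)
      have h2 : RatFunc.X ∈ L := hS (.inl rfl)
      rw [← hL]
      rintro _ ⟨⟨a | a, b | b⟩, rfl⟩
      · change RatFunc.X * i _ / (RatFunc.X * i _) ∈ L
        rw [mul_div_mul_comm]
        exact mul_mem (div_mem h2 h2) (h1 _ _)
      · change RatFunc.X * i _ / i _ ∈ L
        rw [mul_div_assoc]
        exact mul_mem h2 (h1 _ _)
      · change i _ / (RatFunc.X * i _) ∈ L
        rw [div_mul_eq_div_div_swap]
        exact div_mem (h1 _ _) h2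
      · exact h1 _ _
    · rw [td_image, hg, Nat.cast_add, Nat.cast_one]
  · obtain ⟨h1, h2⟩ := td_rat_le_of_spec (K := k) (x := tor x) (h.ne_zero hx) fun f d hf h0 => by
      simpa only [one_mul, elim_eta] using tor_spec hx hf h0 1 hx.1
    rw [Nat.cast_add, Nat.cast_one, ← hg]
    exact Order.add_one_le_of_lt (h1.lt_of_not_ge fun h3 => h.tor_ne hx
      (h2 h3 _ _ (IsHomogeneous.sum _ _ _ fun t _ => h.hom t) (hx.1 _ h.mem)))

theorem gp_of_gn (hx : Gp p x) {g : ℕ} (hg : td k (rat x) = g) {F : Type} [Field F] [Algebra k F]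
    {w : ι₁ ⊕ ι₂ → F} (hw : ∀ f ∈ p, aeval w f = 0) (h : Gn k g w) : Gp p w := by
  obtain ⟨⟨b, hb⟩, I, hI⟩ := h
  refine ⟨hw, fun f d hf h0 => hx.2 f d hf ((td_rat_le_of_spec (K := k) (x := x)
    (Function.ne_iff.2 ⟨.inr b, hb ▸ one_ne_zero⟩) fun f d hf h0 =>
      hw f (hx.2 f d hf h0)).2 ?_ f d hf h0)⟩
  rw [hg]
  simpa using card_le_td hI (S := rat w) fun l => ⟨(I l, .inr b), by simp only [hb, div_one]⟩

variable [NumberField k] {A₁ : AV k ι₁} {A₂ : AV k ι₂}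

theorem exists_fix (Hy : Hyp A₁ A₂ p) (h : Rel p e m n σ) (hx : Gp p x) {g : ℕ}
    (hg : td k (rat x) = g)
    (hc : ∀ (F : Type) [Field F] [Algebra k F] (w w' : ι₁ ⊕ ι₂ → F), (∀ f ∈ p, aeval w f = 0) →
      (∀ f ∈ p, aeval w' f = 0) → ∀ (p₁ q₁ : A₁.Pt F) (p₂ q₂ : A₂.Pt F),
      Rep p₁ (fun a => w (.inl a)) → Rep p₂ (fun b => w (.inr b)) →
      Rep q₁ (fun a => w' (.inl a)) → Rep q₂ (fun b => w' (.inr b)) → ∀ j : ℕ,
        td k (rat (p₁ - 2 ^ j • q₁).co ∪ rat (p₂ - 2 ^ j • q₂).co) ≤ g) :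
    ∃ (r : ℕ) (X : Fix A₁ A₂ g e (m + n + e + 1) r), X.p = p ∧ X.ρ = tay σ := by
  have hR : (∑ t, σ t).IsHomogeneous (m + n + e + 1) := IsHomogeneous.sum _ _ _ fun t _ => h.hom t
  have h0 : tor x ≠ 0 := fun h0 => h.tor_ne hx (by
    have := aeval_mul_of_hom hR (0 : RatFunc E) (tor x)
    simp only [zero_mul, zero_pow (Nat.succ_ne_zero _)] at this
    exact h0 ▸ this)
  obtain ⟨u, r, c, hnn, hu⟩ := Cn.exists_par h0 (h.td_tor hx hg) (Nat.le_add_left 1 _) {0}
    (𝒢 := {∑ t, σ t}) (fun f hf => Finset.mem_singleton.1 hf ▸ hR) fun F _ _ z z0 h1 h2 i hi => by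
      obtain ⟨h3, h4⟩ := td_rat_le_of_spec (x := tor x) z0 fun f n hf e =>
        h1 f ((mem_hid hf).2 e)
      rw [Finset.mem_singleton.1 hi, ← h.td_tor hx hg]
      exact Order.add_one_le_of_lt (h3.lt_of_not_ge fun h5 =>
        h.tor_ne hx (h4 h5 _ _ hR (h2 _ (Finset.mem_singleton_self _))))
  obtain ⟨-, γ, hγ⟩ := hu 0 (Finset.mem_singleton_self _)
  refine ⟨r, ⟨p, hid k (tor x), u, c, tay σ, Hy.le₁, Hy.le₂, Nat.le_add_left 1 _, hnn, ?_,
    tay_zero σ ▸ h.mem, fun R _ _ w hw f hf => ?_, fun F _ _ w hw hn P N hP => ?_,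
    fun F _ _ w hw hn a => ?_, hc⟩, rfl, rfl⟩
  · rw [hγ, Finset.sum_singleton]
    exact p.mul_mem_left _ h.mem
  · rw [← sum_homogeneousComponent f, hat, map_sum]
    refine Finset.sum_eq_zero fun d _ => ?_
    have h1 := tor_spec hx (homogeneousComponent_isHomogeneous d f)
      (Cn.hid_zero _ (Cn.hid_hom f hf d)) (1 + Polynomial.X) (zero_alg (S := Polynomial R) hw)
    simpa only [Polynomial.algebraMap_eq] using h1
  · obtain ⟨b, hb⟩ := hn.1
    exact h.div Hy.prime (gp_of_gn hx hg hw hn) hb P N hP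
  · exact h.alg hw (fun e => h.last ((gp_of_gn hx hg hw hn).2 _ _ (h.hom _) e)) a

end

variable [NumberField k] [Fintype ι₁] [Fintype ι₂] {A₁ : AV k ι₁} {A₂ : AV k ι₂} {α : Type}
  {U : Ultrafilter α} {x₁ : α → A₁.Pt k} {x₂ : α → A₂.Pt k} {w : α → ι₁ ⊕ ι₂ → k}

omit [NumberField k] [Fintype ι₁] [Fintype ι₂] in
theorem tay_neg {κ : Type} {N : ℕ} (σ : Fin (N + 1) → MvPolynomial κ k) :
    ∑ j : Fin (N + 1), (-1) ^ (j : ℕ) * tay σ j = σ 0 := by
  simp only [tay, Finset.mul_sum, nsmul_eq_mul, ← mul_assoc]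
  rw [Finset.sum_comm, Finset.sum_eq_single 0 (fun t _ ht => ?_) (by simp),
    Finset.sum_eq_single 0 (fun j _ hj => ?_) (by simp)]
  · simp
  · rw [Nat.choose_eq_zero_of_lt (Fin.pos_iff_ne_zero.2 hj), Nat.cast_zero, mul_zero, zero_mul]
  · have h1 := congrArg (Int.cast (R := MvPolynomial κ k))
      (Int.alternating_sum_range_choose_of_ne (Fin.val_ne_zero_iff.2 ht))
    push_cast at h1
    rw [← Finset.sum_mul, Fin.sum_univ_eq_sum_range
      (fun j => (-1 : MvPolynomial κ k) ^ j * ((t : ℕ).choose j)), ← Finset.sum_subset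
      (Finset.range_mono (Nat.succ_le_of_lt t.2)) fun j _ hj => ?_, h1, zero_mul]
    rw [Nat.choose_eq_zero_of_lt (by simpa using hj), Nat.cast_zero, mul_zero]

theorem Fam.big (Hy : Hyp A₁ A₂ p) (h : Rel p e m n σ) (hF : Fam U p x₁ x₂ w) {H : α → ℝ}
    {hH : Tendsto H U atTop} {g : ℕ} (h1 : td k (rat (gv U w)) = g)
    (h2 : td (Sm k hH) (rat (gv U w)) = g) :
    ¬Lo U H fun n => logHeight fun t => eval (w n) (tay σ t) := by
  intro hlo
  have h0 : aeval (gv U w) (σ (Fin.last _)) ≠ 0 := fun e => h.last (hF.gp.2 _ _ (h.hom _) e)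
  have h3 : ∀ j, aeval (gv U w) (tay σ j) / aeval (gv U w) (σ (Fin.last _)) ∈ Sm k hH := fun j => by
    rw [← tay_last σ, show aeval (gv U w) _ = _ from aeval_germ _ w,
      show aeval (gv U w) _ = _ from aeval_germ _ w]
    change germ U (fun n => eval (w n) (tay σ j) / eval (w n) (tay σ (Fin.last _))) ∈ _
    refine (mem_sm_iff hH).2 (hlo.mono ?_)
    filter_upwards [hF.gen _ _ (h.hom _) h.last] with n hn
    rw [← tay_last σ] at hn
    rw [logHeight₁_div_eq_logHeight]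
    refine le_trans (le_of_eq ?_) (logHeight_comp_le ![j, Fin.last _] _)
    congr 1
    funext l
    fin_cases l <;> rfl
  obtain ⟨c, hc⟩ : ∃ c, c = aeval (gv U w) (σ 0) / aeval (gv U w) (σ (Fin.last _)) := ⟨_, rfl⟩
  have h4 : c ∈ Sm k hH := by
    rw [hc, ← tay_neg σ, map_sum, Finset.sum_div]
    refine sum_mem fun j _ => ?_
    rw [map_mul, mul_div_assoc, map_pow, map_neg, map_one]
    exact mul_mem (pow_mem (neg_mem (one_mem _)) _) (h3 j)
  have h5 : td k (insert c (rat (gv U w))) ≤ g := by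
    obtain ⟨L, hL, hS⟩ := tr_cl (K := k) (rat (gv U w))
    obtain ⟨b, hb⟩ := Function.ne_iff.1 (h.ne_zero hF.gp)
    replace hb : gv U w b ≠ 0 := hb
    refine (tr_td_le (Set.insert_subset ?_ (hL ▸ hS))).trans h1.le
    have h6 : ∀ t, aeval (fun a => (gv U w b)⁻¹ * gv U w a) (σ t) ∈ L := fun t =>
      tr_aeval_mem L (fun a => hS ⟨(a, b), div_eq_inv_mul _ _⟩) _
    rw [← hL, hc, ← mul_div_mul_left _ _ (pow_ne_zero (m + n + e + 1) (inv_ne_zero hb)),
      ← aeval_mul_of_hom (h.hom _), ← aeval_mul_of_hom (h.hom _)]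
    exact div_mem (h6 _) (h6 _)
  have h6 := (td_add_le (K := k) (M := Sm k hH) (S := {c}) (T := rat (gv U w))
    (Set.singleton_subset_iff.2 ⟨⟨c, h4⟩, rfl⟩)).trans h5
  rw [h2] at h6
  have h7 : IsAlgebraic k c := by_contra fun h7 => by
    have h8 := card_le_td (K := k) (y := fun _ : Unit => c) (S := {c})
      (algebraicIndependent_unique_type_iff.2 h7) fun _ => rfl
    have h9 := (add_le_add h8 le_rfl).trans h6
    simp only [ENat.card_eq_coe_fintype_card, Fintype.card_unique] at h9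
    have : 1 + g ≤ g := by exact_mod_cast h9
    omega
  obtain ⟨z, hz⟩ := relCl_up c h7
  refine h.first (Hy.bin _ (C (-z) * σ (Fin.last _)) _ _ (h.bih 0)
    (by simpa using (isWeightedHomogeneous_C _ (-z)).mul (h.bih (Fin.last _))) (by simp)
    (hF.gp.2 _ _ ((h.hom _).add ((h.hom _).C_mul _)) ?_))
  rw [map_add, map_mul, aeval_C, map_neg, hz, hc, neg_mul, div_mul_cancel₀ _ h0, add_neg_cancel]

end Pool.Agent.Lib.MP_651af7_nt.Jn
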