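import Pool.Agent.Lib.MP_651af7_nt.Jn.ODiv
import Pool.Agent.Lib.MP_651af7_nt.Av.Tr

/-! The relation of minimal width. -/

namespace Pool.Agent.Lib.MP_651af7_nt.Jn

open MvPolynomial
open Pool.Agent.Lib.MP_651af7_nt.Av

variable {k ι₁ ι₂ : Type} [Field k] {p : Ideal (MvPolynomial (ι₁ ⊕ ι₂) k)} {e m n : ℕ}
  {σ : Fin (e + 2) → MvPolynomial (ι₁ ⊕ ι₂) k}

theorem orel_deg (μ : ι₁ ⊕ ι₂ →₀ ℕ) :
    μ.degree = (Finsupp.weight (bw ι₁ ι₂) μ).1 + (Finsupp.weight (bw ι₁ ι₂) μ).2 := by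
  classical
  have h := bih_hom (isWeightedHomogeneous_monomial (bw ι₁ ι₂) μ (1 : ℚ) rfl)
  rw [Finsupp.degree_eq_weight_one]
  exact @h μ (by rw [coeff_monomial, if_pos rfl]; exact one_ne_zero)

theorem orel_sum (f : MvPolynomial (ι₁ ⊕ ι₂) k) (D : ℕ) :
    ∑ t : Fin (D + 1), weightedHomogeneousComponent (bw ι₁ ι₂) ((t : ℕ), D - t) f =
      homogeneousComponent D f := by
  classical
  ext μ
  have h := orel_deg μ
  rw [coeff_sum, coeff_homogeneousComponent]
  simp only [coeff_weightedHomogeneousComponent]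
  split_ifs with h1
  · rw [Finset.sum_eq_single (⟨(Finsupp.weight (bw ι₁ ι₂) μ).1, by omega⟩ : Fin (D + 1))]
    · refine if_pos ?_
      exact Prod.ext rfl (Nat.eq_sub_of_add_eq' (h.symm.trans h1))
    · exact fun t _ ht => if_neg fun e => ht (Fin.ext (by simp only [e]))
    · exact fun e => absurd (Finset.mem_univ _) e
  · refine Finset.sum_eq_zero fun t _ => if_neg fun e => h1 ?_
    have := t.2
    rw [h, e]
    simp only
    omega

/-- Call `N` good if some family `τ : Fin N → _` of bidegrees `(m + t, n + (N - 1 - t))` has its sum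
in `p` and a member outside `p`; take the least good `N`. -/
theorem exists_rel (hh : ∀ f ∈ p, ∀ d, homogeneousComponent d f ∈ p)
    (hn : ∃ f ∈ p, ∃ d, weightedHomogeneousComponent (bw ι₁ ι₂) d f ∉ p) :
    ∃ (e m n : ℕ) (σ : Fin (e + 2) → MvPolynomial (ι₁ ⊕ ι₂) k), Rel p e m n σ := by
  classical
  let G : ℕ → Prop := fun N => ∃ (m n : ℕ) (τ : Fin (N + 1) → MvPolynomial (ι₁ ⊕ ι₂) k),
    (∀ t, (τ t).IsWeightedHomogeneous (bw ι₁ ι₂) (m + t, n + (N - t))) ∧ ∑ t, τ t ∈ p ∧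
      ∃ t, τ t ∉ p
  have hG : ∃ N, G N := by
    obtain ⟨f, hf, d, hd⟩ := hn
    refine ⟨d.1 + d.2, 0, 0, fun t => weightedHomogeneousComponent (bw ι₁ ι₂)
      ((t : ℕ), d.1 + d.2 - t) f, fun t => ?_, orel_sum f _ ▸ hh f hf _, ⟨d.1, by omega⟩, ?_⟩
    · rw [zero_add, zero_add]
      exact weightedHomogeneousComponent_isWeightedHomogeneous _ _
    · simpa using hd
  have hmin : ∀ N < Nat.find hG, ¬ G N := fun N => Nat.find_min hG
  have hN := Nat.find_spec hG
  generalize Nat.find hG = N at hmin hN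
  obtain ⟨m, n, τ, h1, h2, t, h3⟩ := hN
  rcases N with _ | e
  · rw [Fin.sum_univ_succ, Fin.sum_univ_zero, add_zero] at h2
    exact absurd (Fin.fin_one_eq_zero t ▸ h2) h3
  have hm := hmin e e.lt_succ_self
  refine ⟨e, m, n, τ, h1, h2, fun h => hm ⟨m + 1, n, fun s => τ s.succ, fun s => ?_, ?_, ?_⟩,
    fun h => hm ⟨m, n + 1, fun s => τ s.castSucc, fun s => ?_, ?_, ?_⟩,
    fun m' n' τ' a b s => not_not.1 fun c => hm ⟨m', n', τ', a, b, s, c⟩⟩
  · have := h1 s.succ
    rwa [Fin.val_succ, Nat.add_sub_add_right, add_comm (s : ℕ), ← add_assoc] at this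
  · rw [Fin.sum_univ_succ] at h2
    exact (p.add_mem_iff_right h).1 h2
  · rcases Fin.eq_zero_or_eq_succ t with rfl | ⟨s, rfl⟩
    exacts [absurd h h3, ⟨s, h3⟩]
  · have := h1 s.castSucc
    have hs := s.2
    rwa [Fin.val_castSucc, show n + (e + 1 - s) = n + 1 + (e - s) by omega] at this
  · rw [Fin.sum_univ_castSucc] at h2
    exact (p.add_mem_iff_left h).1 h2
  · rcases Fin.eq_castSucc_or_eq_last t with ⟨s, rfl⟩ | rfl
    exacts [⟨s, h3⟩, absurd h h3]

variable {F : Type} [Field F] [Algebra k F] {w : ι₁ ⊕ ι₂ → F}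

/-- If `w (inl a) ≠ 0`, it is a root of `∑ t, σ t (v / v a, v') U ^ (m + t)`. -/
theorem Rel.alg {K : Type} [Field K] [Algebra k K] [Algebra K F] [IsScalarTower k K F]
    (h : Rel p e m n σ) (hw : ∀ f ∈ p, aeval w f = 0) (h0 : aeval w (σ (Fin.last _)) ≠ 0)
    (a : ι₁) : w (.inl a) ∈ (AlgebraicIndependent.matroid K F).closure
      (rat (fun a => w (.inl a)) ∪ Set.range fun b => w (.inr b)) := by
  obtain ⟨L, hL, hS⟩ := tr_cl (K := K) (rat (fun a => w (.inl a)) ∪ Set.range fun b => w (.inr b))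
  by_cases ha : w (.inl a) = 0
  · rw [ha, ← hL]
    exact L.zero_mem
  let c : Fin (e + 2) → F := fun t =>
    aeval (Sum.elim (fun b => w (.inl b) / w (.inl a)) fun b => w (.inr b)) (σ t)
  have hc : ∀ t, c t ∈ L := fun t => tr_aeval_mem L (by
    rintro (b | b)
    exacts [hS (.inl ⟨(b, a), rfl⟩), hS (.inr ⟨b, rfl⟩)]) _
  have h1 : ∀ t, aeval w (σ t) = c t * w (.inl a) ^ (m + t) := fun t => by
    have h2 := aeval_mul_of_bih (h.bih t) (w (.inl a)) 1 (fun b => w (.inl b) / w (.inl a))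
      fun b => w (.inr b)
    simp only [mul_div_cancel₀ _ ha, one_mul, one_pow, mul_one, elim_eta] at h2
    rw [h2, mul_comm]
  rw [← Matroid.closure_closure, ← hL, AlgebraicIndependent.matroid_closure_eq, SetLike.mem_coe,
    Subalgebra.mem_algebraicClosure]
  let c' : Fin (e + 2) → Algebra.adjoin K (L : Set F) := fun t => ⟨c t, Algebra.subset_adjoin (hc t)⟩
  refine ⟨∑ t : Fin (e + 2), Polynomial.monomial (m + t) (c' t), fun h2 => h0 ?_, ?_⟩
  · have h3 := congrArg (Polynomial.coeff · (m + (Fin.last (e + 1) : Fin (e + 2)))) h2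
    simp only [Polynomial.finsetSum_coeff, Polynomial.coeff_monomial, add_right_inj, Fin.val_inj,
      Finset.sum_ite_eq', Finset.mem_univ, if_true, Polynomial.coeff_zero] at h3
    rw [h1, show c (Fin.last _) = 0 from congrArg Subtype.val h3, zero_mul]
  · rw [← hw _ h.mem, map_sum, map_sum]
    exact Finset.sum_congr rfl fun t _ => by rw [Polynomial.aeval_monomial, h1]; rfl

end Pool.Agent.Lib.MP_651af7_nt.Jn
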