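import Pool.Agent.Lib.MP_651af7_nt.Av.Pt

/-! The product of two abelian varieties in Segre coordinates. -/

namespace Pool.Agent.Lib.MP_651af7_nt.Jn

open MvPolynomial Av

variable {k ι κ : Type} [Field k]

/-- Segre coordinates. -/
def sg {R : Type} [Mul R] (v : ι → R) (w : κ → R) : ι × κ → R := fun a => v a.1 * w a.2

/-- The ideal of the join. -/
noncomputable def jn (I : Ideal (MvPolynomial ι k)) (J : Ideal (MvPolynomial κ k)) :
    Ideal (MvPolynomial (ι ⊕ κ) k) := I.map (rename Sum.inl) ⊔ J.map (rename Sum.inr)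

/-- The Segre substitution. -/
noncomputable def sgm (K ι κ : Type) [CommRing K] :
    MvPolynomial (ι × κ) K →ₐ[K] MvPolynomial (ι ⊕ κ) K :=
  aeval (sg (fun a => X (.inl a)) fun b => X (.inr b))

/-- The ideal of the product. -/
noncomputable def sgI (I : Ideal (MvPolynomial ι k)) (J : Ideal (MvPolynomial κ k)) :
    Ideal (MvPolynomial (ι × κ) k) := (jn I J).comap (sgm k ι κ)

variable {I : Ideal (MvPolynomial ι k)} {J : Ideal (MvPolynomial κ k)}

theorem aeval_sgm {K R : Type} [CommRing K] [CommRing R] [Algebra K R] (v : ι → R) (w : κ → R)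
    (f : MvPolynomial (ι × κ) K) : aeval (Sum.elim v w) (sgm K ι κ f) = aeval (sg v w) f := by
  rw [sgm, ← aeval_hom]
  congr 2
  funext a
  simp [sg]

theorem mem_jn {f : MvPolynomial (ι ⊕ κ) k} :
    f ∈ jn I J ↔ ∀ (R : Type) [CommRing R] [Algebra k R] (v : ι → R) (w : κ → R),
      (∀ P ∈ I, aeval v P = 0) → (∀ P ∈ J, aeval w P = 0) → aeval (Sum.elim v w) f = 0 := by
  refine ⟨fun h R _ _ v w hv hw => ?_, fun h => ?_⟩
  · have h1 : jn I J ≤ RingHom.ker (aeval (R := k) (Sum.elim v w)) :=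
      sup_le (Ideal.map_le_iff_le_comap.2 fun P hP => by
        rw [Ideal.mem_comap, RingHom.mem_ker, aeval_rename]
        exact hv P hP) (Ideal.map_le_iff_le_comap.2 fun P hP => by
        rw [Ideal.mem_comap, RingHom.mem_ker, aeval_rename]
        exact hw P hP)
    exact h1 h
  · let π := Ideal.Quotient.mkₐ k (jn I J)
    have h1 := h _ (fun a => π (X (.inl a))) (fun b => π (X (.inr b))) (fun P hP => by
      have : rename Sum.inl P ∈ jn I J := Ideal.mem_sup_left (Ideal.mem_map_of_mem _ hP)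
      rw [aeval_hom]
      exact Ideal.Quotient.eq_zero_iff_mem.2 (by rwa [rename_eq_aeval] at this)) fun P hP => by
      have : rename Sum.inr P ∈ jn I J := Ideal.mem_sup_right (Ideal.mem_map_of_mem _ hP)
      rw [aeval_hom]
      exact Ideal.Quotient.eq_zero_iff_mem.2 (by rwa [rename_eq_aeval] at this)
    have e : (Sum.elim (fun a => π (X (.inl a))) fun b => π (X (.inr b))) = fun c => π (X c) :=
      funext fun c => by cases c <;> rfl
    rw [e, aeval_hom, aeval_X_left_apply] at h1
    exact Ideal.Quotient.eq_zero_iff_mem.1 h1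

theorem mem_sgI {f : MvPolynomial (ι × κ) k} :
    f ∈ sgI I J ↔ ∀ (R : Type) [CommRing R] [Algebra k R] (v : ι → R) (w : κ → R),
      (∀ P ∈ I, aeval v P = 0) → (∀ P ∈ J, aeval w P = 0) → aeval (sg v w) f = 0 := by
  rw [sgI, Ideal.mem_comap, mem_jn]
  simp only [aeval_sgm]

theorem coeff_aeval {σ R : Type} [CommRing R] [Algebra k R] (v : σ → R) (f : MvPolynomial σ k)
    (d : ℕ) : (aeval (fun a => Polynomial.X * Polynomial.C (v a)) f).coeff d =
      aeval v (homogeneousComponent d f) := by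
  have h : ∀ e, aeval (fun a => Polynomial.X * Polynomial.C (v a)) (homogeneousComponent e f) =
      Polynomial.monomial e (aeval v (homogeneousComponent e f)) := fun e => by
    rw [aeval_mul_of_hom (homogeneousComponent_isHomogeneous e f),
      ← Polynomial.C_mul_X_pow_eq_monomial, mul_comm]
    exact congrArg (· * _) (aeval_alg (B := Polynomial R) v _)
  conv_lhs => rw [← sum_homogeneousComponent f, map_sum]
  simp only [h, Polynomial.finsetSum_coeff, Polynomial.coeff_monomial, Finset.sum_ite_eq',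
    Finset.mem_range]
  split_ifs with hd
  · rfl
  · rw [homogeneousComponent_eq_zero _ _ (by omega), map_zero]

theorem zero_alg {σ R S : Type} [CommRing R] [Algebra k R] [CommRing S] [Algebra k S] [Algebra R S]
    [IsScalarTower k R S] {I : Ideal (MvPolynomial σ k)} {v : σ → R}
    (hv : ∀ P ∈ I, aeval v P = 0) : ∀ P ∈ I, aeval (fun a => algebraMap R S (v a)) P = 0 :=
  fun P hP => by rw [aeval_alg, hv P hP, map_zero]

theorem sgI_hom (hI : ∀ P ∈ I, ∀ d, homogeneousComponent d P ∈ I) :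
    ∀ P ∈ sgI I J, ∀ d, homogeneousComponent d P ∈ sgI I J := by
  intro f hf d
  refine mem_sgI.2 fun R _ _ v w hv hw => ?_
  have h1 := mem_sgI.1 hf (Polynomial R) _ _
    (zero_mul_of_hom hI (zero_alg (S := Polynomial R) hv) Polynomial.X)
    (zero_alg (S := Polynomial R) hw)
  have h2 : (sg (fun a => Polynomial.X * algebraMap R (Polynomial R) (v a))
      fun b => algebraMap R (Polynomial R) (w b)) =
      fun a : ι × κ => Polynomial.X * Polynomial.C (sg v w a) := by
    funext a
    rw [sg, sg, map_mul, mul_assoc]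
    rfl
  rw [← coeff_aeval, ← h2, h1, Polynomial.coeff_zero]

section ext

variable {K : Type} [Field K] [Algebra k K]

theorem sgm_map (f : MvPolynomial (ι × κ) k) :
    sgm K ι κ (map (algebraMap k K) f) = map (algebraMap k K) (sgm k ι κ f) := by
  induction f using MvPolynomial.induction_on with
  | C c => simp [sgm]
  | add p q hp hq => simp only [map_add, hp, hq]
  | mul_X p a hp =>
    simp only [map_mul, hp, map_X]
    simp [sgm, sg]

theorem cf_sgm (l : K →ₗ[k] k) (f : MvPolynomial (ι × κ) K) :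
    cf l (sgm K ι κ f) = sgm k ι κ (cf l f) := by
  have hC : ∀ {σ : Type} (c : K), cf l (C c : MvPolynomial σ K) = C (l c) := by
    intro σ c
    classical
    ext m
    simp only [coeff_cf, coeff_C]
    split_ifs <;> simp
  induction f using MvPolynomial.induction_on' with
  | monomial μ c =>
    have e : monomial μ c = C c * map (algebraMap k K) (monomial μ 1) := by
      rw [map_monomial, map_one, C_mul_monomial, mul_one]
    rw [e, map_mul, sgm_map, cf_mul_map, cf_mul_map, hC, map_mul, algHom_C, algHom_C,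
      algebraMap_eq, hC, algebraMap_eq]
  | add p q hp hq => rw [map_add, cf_add, cf_add, map_add, hp, hq]

theorem map_rename_ideal {σ τ : Type} (I : Ideal (MvPolynomial σ k)) (r : σ → τ) :
    (I.map (rename r)).map (map (algebraMap k K)) =
      (I.map (map (algebraMap k K))).map (rename r) := by
  refine le_antisymm (Ideal.map_le_iff_le_comap.2 (Ideal.map_le_iff_le_comap.2 fun P hP => ?_))
    (Ideal.map_le_iff_le_comap.2 (Ideal.map_le_iff_le_comap.2 fun P hP => ?_))
  · rw [Ideal.mem_comap, Ideal.mem_comap, map_rename]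
    exact Ideal.mem_map_of_mem _ (Ideal.mem_map_of_mem _ hP)
  · rw [Ideal.mem_comap, Ideal.mem_comap, ← map_rename]
    exact Ideal.mem_map_of_mem _ (Ideal.mem_map_of_mem _ hP)

theorem jn_map : (jn I J).map (map (algebraMap k K)) =
    jn (I.map (map (algebraMap k K))) (J.map (map (algebraMap k K))) := by
  rw [jn, jn, Ideal.map_sup, map_rename_ideal, map_rename_ideal]

theorem sgI_map : (sgI I J).map (map (algebraMap k K)) =
    sgI (I.map (map (algebraMap k K))) (J.map (map (algebraMap k K))) := by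
  ext f
  rw [sgI, sgI, Ideal.mem_comap, ← jn_map]
  refine ⟨fun h => ?_, fun h => mem_map_of_cf fun l => ?_⟩
  · refine Ideal.mem_comap.1
      ((Ideal.map_le_iff_le_comap (K := Ideal.comap (sgm K ι κ) _)).2 (fun P hP => ?_) h)
    rw [Ideal.mem_comap, Ideal.mem_comap, sgm_map]
    exact Ideal.mem_map_of_mem _ hP
  · rw [Ideal.mem_comap, ← cf_sgm]
    exact cf_mem h l

end ext

theorem aeval_fst {R : Type} [CommRing R] [Algebra k R] (f : MvPolynomial (ι ⊕ κ) k) (v : ι → R)
    (w : κ → R) : aeval v (aeval (Sum.elim X fun b => (C (w b) : MvPolynomial ι R)) f) =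
      aeval (Sum.elim v w) f := by
  change ((aeval v : MvPolynomial ι R →ₐ[R] R).restrictScalars k) _ = _
  rw [← aeval_hom]
  congr 2
  funext c
  cases c <;> simp

theorem aeval_snd {R : Type} [CommRing R] [Algebra k R] (f : MvPolynomial (ι ⊕ κ) k) (v : ι → R)
    (w : κ → R) : aeval w (aeval (Sum.elim (fun a => (C (v a) : MvPolynomial κ R)) X) f) =
      aeval (Sum.elim v w) f := by
  change ((aeval w : MvPolynomial κ R →ₐ[R] R).restrictScalars k) _ = _
  rw [← aeval_hom]
  congr 2
  funext c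
  cases c <;> simp

theorem mem_jn_of_vanish [Finite ι] [Finite κ] [IsAlgClosed k] (hI : I.IsPrime) (hJ : J.IsPrime)
    {f : MvPolynomial (ι ⊕ κ) k} (h : ∀ (v : ι → k) (w : κ → k), (∀ P ∈ I, aeval v P = 0) →
      (∀ P ∈ J, aeval w P = 0) → aeval (Sum.elim v w) f = 0) : f ∈ jn I J := by
  refine mem_jn.2 fun R _ _ v w hv hw => ?_
  rw [← aeval_snd]
  refine aeval_of_mem_map (S := R) hw _ (mem_map_of_vanish hJ fun y hy => ?_)
  have h1 : aeval (Sum.elim X fun b => (C (y b) : MvPolynomial ι k)) f ∈ I :=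
    mem_of_vanish hI fun x hx => (aeval_fst f x y).trans (h x y hx hy)
  have h2 := hv _ h1
  rw [← aeval_hom] at h2
  refine (aeval_snd f v _).trans (Eq.trans ?_ h2)
  congr 2
  funext c
  cases c <;> simp

theorem jn_prime [Finite ι] [Finite κ] [IsAlgClosed k] (hI : I.IsPrime) (hJ : J.IsPrime) :
    (jn I J).IsPrime := by
  refine ⟨fun h => hI.ne_top ?_, fun {f g} hfg => ?_⟩
  · rw [Ideal.eq_top_iff_one] at h ⊢
    refine mem_of_vanish hI fun x hx => ?_
    refine (hJ.ne_top ((Ideal.eq_top_iff_one _).2 (mem_of_vanish hJ fun y hy => ?_))).elim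
    simpa using mem_jn.1 h k x y hx hy
  by_contra hn
  rw [not_or] at hn
  have h1 := mt (mem_jn_of_vanish hI hJ) hn.1
  have h2 := mt (mem_jn_of_vanish hI hJ) hn.2
  push Not at h1 h2
  obtain ⟨x1, y1, hx1, hy1, h1⟩ := h1
  obtain ⟨x2, y2, hx2, hy2, h2⟩ := h2
  have h3 := mt (mem_of_vanish hI) (fun h => (hI.mem_or_mem
    (x := aeval (Sum.elim X fun b => (C (y1 b) : MvPolynomial ι k)) f)
    (y := aeval (Sum.elim X fun b => (C (y2 b) : MvPolynomial ι k)) g) h).elim
      (fun h => h1 ((aeval_fst f x1 y1).symm.trans (hx1 _ h)))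
      fun h => h2 ((aeval_fst g x2 y2).symm.trans (hx2 _ h)))
  push Not at h3
  obtain ⟨x, hx, h3⟩ := h3
  rw [map_mul, mul_ne_zero_iff] at h3
  have h4 := hJ.mem_or_mem (x := aeval (Sum.elim (fun a => (C (x a) : MvPolynomial κ k)) X) f)
    (y := aeval (Sum.elim (fun a => (C (x a) : MvPolynomial κ k)) X) g)
    (mem_of_vanish hJ fun y hy => by
      rw [← map_mul]
      exact (aeval_snd _ x y).trans (mem_jn.1 hfg k x y hx hy))
  rcases h4 with h4 | h4
  · exact h3.1 ((aeval_fst f x y1).trans ((aeval_snd f x y1).symm.trans (hy1 _ h4)))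
  · exact h3.2 ((aeval_fst g x y2).trans ((aeval_snd g x y2).symm.trans (hy2 _ h4)))

/-- Variables of two points of the product. -/
def pr2 : (ι × κ) ⊕ (ι × κ) → (ι ⊕ ι) × (κ ⊕ κ) :=
  Sum.elim (fun a => (.inl a.1, .inl a.2)) fun a => (.inr a.1, .inr a.2)

theorem bw_sum {σ τ : Type} (t : Multiset (σ ⊕ τ)) :
    ((∀ b ∈ t, bw σ τ b ≠ (1, 0)) → (t.map (bw σ τ)).sum.1 = 0) ∧
    ((∀ b ∈ t, bw σ τ b ≠ (0, 1)) → (t.map (bw σ τ)).sum.2 = 0) := by
  induction t using Multiset.induction_on with
  | empty => simp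
  | cons b t ih =>
    simp only [Multiset.mem_cons, forall_eq_or_imp, Multiset.map_cons, Multiset.sum_cons,
      Prod.fst_add, Prod.snd_add]
    constructor
    · rintro ⟨h1, h2⟩
      rw [ih.1 h2]
      cases b <;> simp_all [bw]
    · rintro ⟨h1, h2⟩
      rw [ih.2 h2]
      cases b <;> simp_all [bw]

theorem lift_ms (s : Multiset (ι ⊕ ι)) : ∀ t : Multiset (κ ⊕ κ),
    (t.map (bw κ κ)).sum = (s.map (bw ι ι)).sum →
    ∃ f : MvPolynomial ((ι × κ) ⊕ (ι × κ)) k,
      f.IsWeightedHomogeneous (bw _ _) (s.map (bw ι ι)).sum ∧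
      ∀ (R : Type) [CommRing R] [Algebra k R] (x : ι ⊕ ι → R) (y : κ ⊕ κ → R),
        aeval (fun c => x (pr2 c).1 * y (pr2 c).2) f = (s.map x).prod * (t.map y).prod := by
  classical
  induction s using Multiset.induction_on with
  | empty =>
    intro t ht
    obtain rfl : t = 0 := Multiset.eq_zero_of_forall_notMem fun b hb => by
      obtain ⟨u, rfl⟩ := Multiset.exists_cons_of_mem hb
      cases b <;> simp [bw, Prod.ext_iff] at ht
    exact ⟨1, isWeightedHomogeneous_one _ _, fun R _ _ x y => by simp⟩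
  | cons a s ih =>
    intro t ht
    rw [Multiset.map_cons, Multiset.sum_cons] at ht ⊢
    obtain ⟨b, hb, e⟩ : ∃ b ∈ t, bw κ κ b = bw ι ι a := by
      by_contra h
      push Not at h
      cases a
      · have := (bw_sum t).1 h
        rw [ht] at this
        simp [bw] at this
      · have := (bw_sum t).2 h
        rw [ht] at this
        simp [bw] at this
    obtain ⟨u, rfl⟩ := Multiset.exists_cons_of_mem hb
    rw [Multiset.map_cons, Multiset.sum_cons, e] at ht
    obtain ⟨f, hf, h⟩ := ih u (add_left_cancel ht)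
    obtain ⟨c, hc, hw⟩ : ∃ c : (ι × κ) ⊕ (ι × κ), pr2 c = (a, b) ∧ bw _ _ c = bw ι ι a := by
      rcases a with a | a <;> rcases b with b | b
      · exact ⟨.inl (a, b), rfl, rfl⟩
      · simp [bw] at e
      · simp [bw] at e
      · exact ⟨.inr (a, b), rfl, rfl⟩
    refine ⟨X c * f, hw ▸ (isWeightedHomogeneous_X _ _ c).mul hf, fun R _ _ x y => ?_⟩
    rw [map_mul, aeval_X, h, hc, Multiset.map_cons, Multiset.map_cons, Multiset.prod_cons,
      Multiset.prod_cons]
    ring

theorem ms_sum {σ M : Type} [AddCommMonoid M] (w : σ → M) (m : σ →₀ ℕ) :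
    ((Finsupp.toMultiset m).map w).sum = Finsupp.weight w m := by
  induction m using Finsupp.induction_linear with
  | zero => simp
  | add p q hp hq => simp [hp, hq]
  | single a n => simp [Finsupp.weight_single, Multiset.nsmul_singleton]

theorem ms_prod {σ R : Type} [CommRing R] (x : σ → R) (m : σ →₀ ℕ) :
    ((Finsupp.toMultiset m).map x).prod = m.prod fun a n => x a ^ n := by
  induction m using Finsupp.induction_linear with
  | zero => simp
  | add p q hp hq => simp [hp, hq, Finsupp.prod_add_index', pow_add]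
  | single a n => simp [Multiset.nsmul_singleton]

theorem exists_lift {P : MvPolynomial (ι ⊕ ι) k} {Q : MvPolynomial (κ ⊕ κ) k} {d : ℕ × ℕ}
    (hP : P.IsWeightedHomogeneous (bw ι ι) d) (hQ : Q.IsWeightedHomogeneous (bw κ κ) d) :
    ∃ f : MvPolynomial ((ι × κ) ⊕ (ι × κ)) k, f.IsWeightedHomogeneous (bw _ _) d ∧
      ∀ (R : Type) [CommRing R] [Algebra k R] (x : ι ⊕ ι → R) (y : κ ⊕ κ → R),
        aeval (fun c => x (pr2 c).1 * y (pr2 c).2) f = aeval x P * aeval y Q := by
  induction hP using IsWeightedHomogeneous.induction_on with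
  | zero => exact ⟨0, isWeightedHomogeneous_zero _ _ _, fun R _ _ x y => by simp⟩
  | add P P' _ _ hP hP' =>
    obtain ⟨f, hf, h⟩ := hP
    obtain ⟨g, hg, h'⟩ := hP'
    exact ⟨f + g, hf.add hg, fun R _ _ x y => by rw [map_add, map_add, h, h', add_mul]⟩
  | monomial m r hm =>
    induction hQ using IsWeightedHomogeneous.induction_on with
    | zero => exact ⟨0, isWeightedHomogeneous_zero _ _ _, fun R _ _ x y => by simp⟩
    | add Q Q' _ _ hQ hQ' =>
      obtain ⟨f, hf, h⟩ := hQ
      obtain ⟨g, hg, h'⟩ := hQ'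
      exact ⟨f + g, hf.add hg, fun R _ _ x y => by rw [map_add, map_add, h, h', mul_add]⟩
    | monomial n s hn =>
      obtain ⟨f, hf, h⟩ := lift_ms (k := k) (Finsupp.toMultiset m) (Finsupp.toMultiset n)
        (by rw [ms_sum, ms_sum, hm, hn])
      rw [ms_sum, hm] at hf
      refine ⟨C (r * s) * f, by simpa using (isWeightedHomogeneous_C _ (r * s)).mul hf,
        fun R _ _ x y => ?_⟩
      rw [map_mul, h, ms_prod, ms_prod, aeval_monomial, aeval_monomial, algHom_C, map_mul]
      ring

section prod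

open AV

variable (A : AV k ι) (A' : AV k κ)

theorem exists_split {R : Type} [CommRing R] [Algebra k R] {z : ι × κ → R}
    (hu : ∃ a, IsUnit (z a)) (hz : ∀ P ∈ sgI A.I A'.I, aeval z P = 0) :
    ∃ (p : A.Pt R) (q : A'.Pt R) (v : ι → R) (w : κ → R), Rep p v ∧ Rep q w ∧ z = sg v w := by
  obtain ⟨⟨a, b⟩, u, hu⟩ := hu
  obtain ⟨p, hp⟩ := exists_rep (A := A) (v := fun c => z (c, b)) ⟨a, u, hu⟩ fun P hP => by
    have := hz (rename (fun c => (c, b)) P) (mem_sgI.2 fun R _ _ v w hv _ => by
      rw [aeval_rename]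
      refine Eq.trans ?_ (zero_mul_of_hom A.hom hv (w b) P hP)
      congr 2
      funext c
      exact mul_comm _ _)
    rwa [aeval_rename] at this
  obtain ⟨q, hq⟩ := exists_rep (A := A') (v := fun c => z (a, c)) ⟨b, u, hu⟩ fun P hP => by
    have := hz (rename (fun c => (a, c)) P) (mem_sgI.2 fun R _ _ v w _ hw => by
      rw [aeval_rename]
      exact zero_mul_of_hom A'.hom hw (v a) P hP)
    rwa [aeval_rename] at this
  refine ⟨p, q, _, _, hp, hq.smul u⁻¹.isUnit, funext fun ⟨c, d⟩ => ?_⟩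
  have := hz (X (c, d) * X (a, b) - X (c, b) * X (a, d)) (mem_sgI.2 fun R _ _ v w _ _ => by
    simp only [map_sub, map_mul, aeval_X, sg]
    ring)
  simp only [map_sub, map_mul, aeval_X, ← hu, sub_eq_zero] at this
  change z (c, d) = z (c, b) * (↑u⁻¹ * z (a, d))
  rw [mul_left_comm, ← this, mul_comm (z (c, d)), Units.inv_mul_cancel_left]

theorem exists_sgE (R : Type) [CommRing R] [Algebra k R] :
    ∃ e : Prj (sgI A.I A'.I) R ≃ A.Pt R × A'.Pt R, ∀ z v w,
      Rep (e z).1 v → Rep (e z).2 w → PR z (sg v w) := by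
  have h : ∀ x : A.Pt R × A'.Pt R, ∃ z : Prj (sgI A.I A'.I) R, PR z (sg x.1.co x.2.co) :=
    fun x => by
      obtain ⟨a, ha⟩ := (rep_co x.1).unit
      obtain ⟨b, hb⟩ := (rep_co x.2).unit
      exact exists_pr ⟨(a, b), ha.mul hb⟩ fun P hP =>
        mem_sgI.1 hP R _ _ (rep_co _).zero (rep_co _).zero
  choose f hf using h
  have h2 : ∀ x v w, Rep x.1 v → Rep x.2 w → PR (f x) (sg v w) := by
    rintro x v w ⟨s, hs⟩ ⟨t, ht⟩
    have e : sg v w = fun a => (s * t : Rˣ) * sg x.1.co x.2.co a := funext fun a => by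
      rw [sg, sg, hs, ht, Units.val_mul]
      ring
    exact e ▸ (hf x).smul (s * t).isUnit
  refine ⟨(Equiv.ofBijective f ⟨fun x y e => ?_, fun z => ?_⟩).symm, fun z v w hv hw => ?_⟩
  · obtain ⟨s, hs⟩ := hf x
    obtain ⟨t, ht⟩ := e ▸ hf y
    obtain ⟨a, α, ha⟩ := (rep_co y.1).unit
    obtain ⟨b, β, hb⟩ := (rep_co y.2).unit
    have h3 : ∀ c d c' d', x.1.co c * x.2.co d * (y.1.co c' * y.2.co d') =
        x.1.co c' * x.2.co d' * (y.1.co c * y.2.co d) := fun c d c' d' => by
      have e1 := hs (c, d)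
      have e2 := hs (c', d')
      have e3 := ht (c, d)
      have e4 := ht (c', d')
      simp only [sg] at e1 e2 e3 e4
      rw [e1, e2, e3, e4]
      ring
    obtain ⟨a', α', ha'⟩ := (rep_co x.1).unit
    obtain ⟨b', β', hb'⟩ := (rep_co x.2).unit
    have hb2 : IsUnit (y.2.co b') := by
      have := h3 a' b' a b
      rw [← ha, ← hb, ← ha', ← hb'] at this
      exact isUnit_of_mul_isUnit_right (isUnit_of_mul_isUnit_right
        (this ▸ (α'.isUnit.mul β'.isUnit).mul (α.isUnit.mul β.isUnit)))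
    have ha2 : IsUnit (y.1.co a') := by
      have := h3 a' b' a b
      rw [← ha, ← hb, ← hb'] at this
      exact isUnit_of_mul_isUnit_left (isUnit_of_mul_isUnit_right
        (this ▸ ((ha' ▸ α'.isUnit).mul β'.isUnit).mul (α.isUnit.mul β.isUnit)))
    refine Prod.ext (((rep_co x.1).of_minors (rep_co y.1).unit fun c d => ?_).inj (rep_co _))
      (((rep_co x.2).of_minors (rep_co y.2).unit fun c d => ?_).inj (rep_co _))
    · refine ((hb' ▸ β'.isUnit).mul hb2).mul_left_cancel ?_
      linear_combination h3 c b' d b'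
    · refine ((ha' ▸ α'.isUnit).mul ha2).mul_left_cancel ?_
      linear_combination h3 a' c a' d
  · obtain ⟨p, q, v, w, hp, hq, e⟩ := exists_split A A' (pr_co z).unit (co_zero z)
    exact ⟨(p, q), (h2 (p, q) v w hp hq).inj (e ▸ pr_co z)⟩
  · have := h2 _ v w hv hw
    rwa [show f _ = z from (Equiv.ofBijective f _).apply_symm_apply z] at this

theorem exists_psi (a b : ι × κ) : ∃ f : MvPolynomial ((ι × κ) ⊕ (ι × κ)) k,
    f.IsWeightedHomogeneous (bw _ _) (2, 2) ∧
      ∀ (R : Type) [CommRing R] [Algebra k R] (x y : ι → R) (x' y' : κ → R),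
        aeval (Sum.elim (sg x x') (sg y y')) f = A.ph a.1 b.1 x y * A'.ph a.2 b.2 x' y' := by
  obtain ⟨f, hf, h⟩ := exists_lift (A.bih a.1 b.1) (A'.bih a.2 b.2)
  refine ⟨f, hf, fun R _ _ x y x' y' => Eq.trans ?_ (h R _ _)⟩
  congr 2
  funext c
  cases c <;> rfl

/-- The product of two abelian varieties. -/
noncomputable def prod [Finite ι] [Finite κ] : AV k (ι × κ) where
  I := sgI A.I A'.I
  hom := sgI_hom A.hom
  prime := prime_of_isAlgClosed (AlgebraicClosure k) (by
    rw [sgI_map]
    have := jn_prime (A.prime (AlgebraicClosure k)) (A'.prime (AlgebraicClosure k))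
    exact Ideal.comap_isPrime _ _)
  Φ a b := (exists_psi A A' a b).choose
  bih a b := (exists_psi A A' a b).choose_spec.1
  ao := (A.ao, A'.ao)
  o := sg A.o A'.o
  o_ao := by rw [sg, A.o_ao, A'.o_ao, one_mul]
  grp R _ _ _ := (exists_sgE A A' R).choose.addCommGroup
  law₀ R _ _ _ := by
    have he := (exists_sgE A A' R).choose_spec
    generalize (exists_sgE A A' R).choose = e at he
    let _ := e.addCommGroup
    refine ⟨?_, fun p q => ?_⟩
    · have h := he 0 (fun a => algebraMap k R (A.o a)) (fun a => algebraMap k R (A'.o a))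
        (by rw [Equiv.zero_def, e.apply_symm_apply]; exact rep_zero)
        (by rw [Equiv.zero_def, e.apply_symm_apply]; exact rep_zero)
      exact h.imp fun u hu a => (map_mul _ _ _).trans (hu a)
    · obtain ⟨s, hs⟩ := he p _ _ (rep_co _) (rep_co _)
      obtain ⟨t, ht⟩ := he q _ _ (rep_co _) (rep_co _)
      obtain ⟨s', hs'⟩ := he (p + q) _ _ (rep_co _) (rep_co _)
      obtain ⟨t', ht'⟩ := he (p - q) _ _ (rep_co _) (rep_co _)
      have e1 : e (p + q) = e p + e q := by rw [Equiv.add_def, e.apply_symm_apply]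
      have e2 : e (p - q) = e p - e q := by rw [Equiv.sub_def, e.apply_symm_apply]
      rw [e1] at hs'
      rw [e2] at ht'
      obtain ⟨c, hc⟩ := law (rep_co (e p).1) (rep_co (e q).1) (rep_co _) (rep_co _)
      obtain ⟨c', hc'⟩ := law (rep_co (e p).2) (rep_co (e q).2) (rep_co _) (rep_co _)
      refine ⟨s⁻¹ ^ 2 * t⁻¹ ^ 2 * c * c' * s' * t', fun a b => ?_⟩
      have e3 : p.co = fun a => ↑s⁻¹ * sg (e p).1.co (e p).2.co a := funext fun a => by
        rw [hs, Units.inv_mul_cancel_left]
      have e4 : q.co = fun a => ↑t⁻¹ * sg (e q).1.co (e q).2.co a := funext fun a => by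
        rw [ht, Units.inv_mul_cancel_left]
      have e5 := hs' a
      have e6 := ht' b
      simp only [sg, Prod.fst_add, Prod.snd_add, Prod.fst_sub, Prod.snd_sub] at e5 e6
      rw [e3, e4, aeval_mul_of_bih (exists_psi A A' a b).choose_spec.1,
        (exists_psi A A' a b).choose_spec.2, hc, hc']
      push_cast
      linear_combination (↑s⁻¹ ^ 2 * ↑t⁻¹ ^ 2 * ↑c * ↑c' * (((e p).1 - (e q).1).co b.1 *
        ((e p).2 - (e q).2).co b.2)) * e5 + (↑s⁻¹ ^ 2 * ↑t⁻¹ ^ 2 * ↑c * ↑c' * ↑s' *
          (p + q).co a) * e6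

variable [Finite ι] [Finite κ]

theorem prod_I : (prod A A').I = sgI A.I A'.I := rfl

theorem prod_ph {R : Type} [CommRing R] [Algebra k R] (a b : ι × κ) (x y : ι → R) (x' y' : κ → R) :
    (prod A A').ph a b (sg x x') (sg y y') = A.ph a.1 b.1 x y * A'.ph a.2 b.2 x' y' :=
  (exists_psi A A' a b).choose_spec.2 R x y x' y'

variable (R : Type) [CommRing R] [IsLocalRing R] [Algebra k R]

/-- The points of the product. -/
noncomputable def prodE : (prod A A').Pt R ≃+ A.Pt R × A'.Pt R :=
  (exists_sgE A A' R).choose.addEquiv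

variable {A A' R}

theorem rep_prod {z : (prod A A').Pt R} {v : ι → R} {w : κ → R}
    (hv : Rep (prodE A A' R z).1 v) (hw : Rep (prodE A A' R z).2 w) : Rep z (sg v w) :=
  (exists_sgE A A' R).choose_spec z v w hv hw

theorem rep_symm {p : A.Pt R} {q : A'.Pt R} {v : ι → R} {w : κ → R} (hv : Rep p v)
    (hw : Rep q w) : Rep ((prodE A A' R).symm (p, q)) (sg v w) :=
  rep_prod (by rwa [AddEquiv.apply_symm_apply]) (by rwa [AddEquiv.apply_symm_apply])

theorem prodE_map {R' : Type} [CommRing R'] [IsLocalRing R'] [Algebra k R'] (f : R →ₐ[k] R')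
    (z : (prod A A').Pt R) : prodE A A' R' ((prod A A').map f z) =
      (A.map f (prodE A A' R z).1, A'.map f (prodE A A' R z).2) := by
  rw [← AddEquiv.eq_symm_apply]
  refine ((rep_prod (rep_co _) (rep_co _)).map f).inj ?_
  simp only [sg, map_mul]
  exact rep_symm ((rep_co (prodE A A' R z).1).map f) ((rep_co (prodE A A' R z).2).map f)

end prod

end Pool.Agent.Lib.MP_651af7_nt.Jn
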