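import Pool.Agent.Lib.MP_651af7_nt.Jn.Defs
import Pool.Agent.Lib.MP_651af7_nt.Jn.Seg
import Pool.Agent.Lib.MP_651af7_nt.Cn.SDefs

/-! Finite covers inside the join: vocabulary of the outer part. -/

namespace Pool.Agent.Lib.MP_651af7_nt.Jn

open MvPolynomial Height Filter
open Pool.Agent.Lib.MP_651af7_nt.Av Pool.Agent.Lib.MP_651af7_nt.Av.AV

variable {k ι₁ ι₂ : Type} [Field k]

/-- The bihomogeneous forms of `p` vanish at `(v, v')`. -/
def InV (p : Ideal (MvPolynomial (ι₁ ⊕ ι₂) k)) {R : Type} [CommRing R] [Algebra k R] (v : ι₁ → R)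
    (v' : ι₂ → R) : Prop :=
  ∀ f d, f.IsWeightedHomogeneous (bw ι₁ ι₂) d → f ∈ p → aeval (Sum.elim v v') f = 0

/-- A relation of minimal width `e + 1`. -/
structure Rel (p : Ideal (MvPolynomial (ι₁ ⊕ ι₂) k)) (e m n : ℕ)
    (σ : Fin (e + 2) → MvPolynomial (ι₁ ⊕ ι₂) k) : Prop where
  bih : ∀ t, (σ t).IsWeightedHomogeneous (bw ι₁ ι₂) (m + t, n + (e + 1 - t))
  mem : ∑ t, σ t ∈ p
  first : σ 0 ∉ p
  last : σ (Fin.last _) ∉ p
  min : ∀ (m' n' : ℕ) (τ : Fin (e + 1) → MvPolynomial (ι₁ ⊕ ι₂) k),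
    (∀ t, (τ t).IsWeightedHomogeneous (bw ι₁ ι₂) (m' + t, n' + (e - t))) → ∑ t, τ t ∈ p →
      ∀ t, τ t ∈ p

/-- The Taylor coefficients at `1` of the polynomial with the coefficients `σ`. -/
noncomputable def tay {κ : Type} {N : ℕ} (σ : Fin N → MvPolynomial κ k) (j : Fin N) :
    MvPolynomial κ k := ∑ t : Fin N, (t : ℕ).choose j • σ t

/-- `w` is a generic point of the homogeneous ideal `p`. -/
def Gp {κ : Type} (p : Ideal (MvPolynomial κ k)) {F : Type} [Field F] [Algebra k F] (w : κ → F) :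
    Prop := (∀ f ∈ p, aeval w f = 0) ∧ Gen p w

variable [Fintype ι₁] [Fintype ι₂] (A₁ : AV k ι₁) (A₂ : AV k ι₂)

/-- The point of the product lies on the base. -/
def OnV (p : Ideal (MvPolynomial (ι₁ ⊕ ι₂) k)) {F : Type} [Field F] [Algebra k F]
    (z : (prod A₁ A₂).Pt F) : Prop := InV p (prodE A₁ A₂ F z).1.co (prodE A₁ A₂ F z).2.co

/-- The base lies in the coset `a + B`. -/
def InCos (p : Ideal (MvPolynomial (ι₁ ⊕ ι₂) k)) {B : AV k (ι₁ × ι₂)} (h : Sub (prod A₁ A₂) B)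
    (a : (prod A₁ A₂).Pt k) : Prop :=
  ∀ (F : Type) [Field F] [Algebra k F] (z : (prod A₁ A₂).Pt F), OnV A₁ A₂ p z →
    z - (prod A₁ A₂).map (Algebra.ofId k F) a ∈ (h.inc F).range

/-- The coset `a + B` lies in the base. -/
def CosIn (p : Ideal (MvPolynomial (ι₁ ⊕ ι₂) k)) {B : AV k (ι₁ × ι₂)} (h : Sub (prod A₁ A₂) B)
    (a : (prod A₁ A₂).Pt k) : Prop :=
  ∀ (F : Type) [Field F] [Algebra k F] (b : B.Pt F),
    OnV A₁ A₂ p (h.inc F b + (prod A₁ A₂).map (Algebra.ofId k F) a)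

variable [NumberField k]

/-- The difference of the two heights is definite on `B`. -/
def Dfn {B : AV k (ι₁ × ι₂)} (h : Sub (prod A₁ A₂) B) : Prop :=
  ∃ η C : ℝ, 0 < η ∧ ∀ b : B.Pt k,
    η * (ht (prodE A₁ A₂ k (h.inc k b)).1 + ht (prodE A₁ A₂ k (h.inc k b)).2) ≤
      |ht (prodE A₁ A₂ k (h.inc k b)).1 - ht (prodE A₁ A₂ k (h.inc k b)).2| + C

/-- The hypotheses. -/
structure Hyp (p : Ideal (MvPolynomial (ι₁ ⊕ ι₂) k)) : Prop where
  prime : p.IsPrime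
  hom : ∀ f ∈ p, ∀ d, homogeneousComponent d f ∈ p
  le₁ : ∀ f ∈ A₁.I, rename .inl f ∈ p
  le₂ : ∀ f ∈ A₂.I, rename .inr f ∈ p
  nb : ∃ f ∈ p, ∃ d, weightedHomogeneousComponent (bw ι₁ ι₂) d f ∉ p
  bin : ∀ f f' d d', f.IsWeightedHomogeneous (bw ι₁ ι₂) d →
    f'.IsWeightedHomogeneous (bw ι₁ ι₂) d' → d ≠ d' → f + f' ∈ p → f ∈ p
  cos : ∀ (B : AV k (ι₁ × ι₂)) (h : Sub (prod A₁ A₂) B) (a : (prod A₁ A₂).Pt k),
    CosIn A₁ A₂ p h a → InCos A₁ A₂ p h a ∨ Dfn A₁ A₂ h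

/-- The heights of the two projections do not add up to twice the height. -/
def Core (p : Ideal (MvPolynomial (ι₁ ⊕ ι₂) k)) : Prop :=
  ∃ (Θ : MvPolynomial (ι₁ ⊕ ι₂) k) (t : ℕ) (δ C : ℝ), Θ.IsHomogeneous t ∧ Θ ∉ p ∧ 0 < δ ∧
    ∀ (v : ι₁ → k) (v' : ι₂ → k), v ≠ 0 → v' ≠ 0 → (∀ f ∈ p, eval (Sum.elim v v') f = 0) →
      eval (Sum.elim v v') Θ ≠ 0 →
        logHeight v + logHeight v' ≤ (2 - δ) * logHeight (Sum.elim v v') + C

variable {A₁ A₂}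

/-- A family of points of the cover that is generic and balanced. -/
structure Fam {α : Type} (U : Ultrafilter α) (p : Ideal (MvPolynomial (ι₁ ⊕ ι₂) k))
    (x₁ : α → A₁.Pt k) (x₂ : α → A₂.Pt k) (w : α → ι₁ ⊕ ι₂ → k) : Prop where
  rep₁ : ∀ n, Rep (x₁ n) fun a => w n (.inl a)
  rep₂ : ∀ n, Rep (x₂ n) fun b => w n (.inr b)
  zero : ∀ n, ∀ f ∈ p, eval (w n) f = 0
  gen : ∀ (f : MvPolynomial (ι₁ ⊕ ι₂) k) (d : ℕ), f.IsHomogeneous d → f ∉ p →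
    ∀ᶠ n in U, eval (w n) f ≠ 0
  bal : Lo U (fun n => 2 * logHeight (w n)) fun n => 2 * logHeight (w n) - (ht (x₁ n) + ht (x₂ n))

section basic

omit [NumberField k] [Fintype ι₁] [Fintype ι₂]

theorem bih_hom {f : MvPolynomial (ι₁ ⊕ ι₂) k} {d : ℕ × ℕ}
    (hf : f.IsWeightedHomogeneous (bw ι₁ ι₂) d) : f.IsHomogeneous (d.1 + d.2) := by
  intro μ hμ
  rw [← hf hμ, Finsupp.weight_apply, Finsupp.weight_apply, Finsupp.sum, Finsupp.sum, Prod.fst_sum,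
    Prod.snd_sum, ← Finset.sum_add_distrib]
  refine Finset.sum_congr rfl ?_
  rintro (a | b) - <;> simp [bw]

theorem elim_eta {R : Type} (w : ι₁ ⊕ ι₂ → R) :
    (Sum.elim (fun a => w (.inl a)) fun b => w (.inr b)) = w := funext fun c => by cases c <;> rfl

variable {p : Ideal (MvPolynomial (ι₁ ⊕ ι₂) k)} {R : Type} [CommRing R] [Algebra k R]

theorem InV.smul {v : ι₁ → R} {v' : ι₂ → R} (h : InV p v v') (s t : R) :
    InV p (fun a => s * v a) fun b => t * v' b := fun f d hf hp => by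
  rw [aeval_mul_of_bih (d := d.1) (e := d.2) hf, h f d hf hp, mul_zero]

theorem InV.rep {p₁ : A₁.Pt R} {p₂ : A₂.Pt R} {v x : ι₁ → R} {v' x' : ι₂ → R} (h : InV p v v')
    (hv : Rep p₁ v) (hv' : Rep p₂ v') (hx : Rep p₁ x) (hx' : Rep p₂ x') : InV p x x' := by
  obtain ⟨s, hs⟩ := hv.exists_smul hx
  obtain ⟨t, ht⟩ := hv'.exists_smul hx'
  rw [funext hs, funext ht]
  exact h.smul _ _

theorem inV_of_zero {w : ι₁ ⊕ ι₂ → R} (h : ∀ f ∈ p, aeval w f = 0) :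
    InV p (fun a => w (.inl a)) fun b => w (.inr b) := fun f _ _ hp => by
  rw [elim_eta]
  exact h f hp

variable {e m n : ℕ} {σ : Fin (e + 2) → MvPolynomial (ι₁ ⊕ ι₂) k}

theorem Rel.hom (h : Rel p e m n σ) (t : Fin (e + 2)) : (σ t).IsHomogeneous (m + n + e + 1) := by
  have := bih_hom (h.bih t)
  have ht := t.2
  rwa [show (m + t) + (n + (e + 1 - t)) = m + n + e + 1 by omega] at this

theorem Rel.tay_hom (h : Rel p e m n σ) (j : Fin (e + 2)) :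
    (tay σ j).IsHomogeneous (m + n + e + 1) :=
  IsHomogeneous.sum _ _ _ fun t _ => (homogeneousSubmodule _ _ _).toAddSubmonoid.nsmul_mem (h.hom t) _

theorem tay_zero {κ : Type} {N : ℕ} (σ : Fin (N + 1) → MvPolynomial κ k) :
    tay σ 0 = ∑ t, σ t := by simp [tay]

theorem tay_last {κ : Type} {N : ℕ} (σ : Fin (N + 1) → MvPolynomial κ k) :
    tay σ (Fin.last N) = σ (Fin.last N) := by
  rw [tay, Fin.sum_univ_castSucc, Finset.sum_eq_zero, zero_add, Nat.choose_self, one_smul]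
  intro t _
  rw [Nat.choose_eq_zero_of_lt (by simp), zero_smul]

end basic

theorem ht_sg {v : ι₁ → k} {v' : ι₂ → k} (hv : v ≠ 0) (hv' : v' ≠ 0) :
    logHeight (sg v v') = logHeight v + logHeight v' := logHeight_fun_mul_eq hv hv'

theorem ht_prod (z : (prod A₁ A₂).Pt k) :
    ht z = ht (prodE A₁ A₂ k z).1 + ht (prodE A₁ A₂ k z).2 := by
  rw [ht_eq (rep_prod (rep_co _) (rep_co _)),
    ht_sg (Cn.rep_ne (rep_co _)) (Cn.rep_ne (rep_co _))]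
  rfl

theorem ht_inl (w : ι₁ ⊕ ι₂ → k) : logHeight (fun a => w (.inl a)) ≤ logHeight w :=
  logHeight_comp_le Sum.inl w

theorem ht_inr (w : ι₁ ⊕ ι₂ → k) : logHeight (fun a => w (.inr a)) ≤ logHeight w :=
  logHeight_comp_le Sum.inr w

end Pool.Agent.Lib.MP_651af7_nt.Jn
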