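import Pool.Agent.Lib.MP_651af7_nt.Jn.OneA
import Pool.Agent.Lib.MP_651af7_nt.Jn.Gel

/-! One block: division by a power of the minimal relation. -/

namespace Pool.Agent.Lib.MP_651af7_nt.Jn

open Finset MvPowerSeries
open Pool.Agent.Lib.MP_651af7_nt.Av

variable {k τ : Type} [Field k] [NumberField k] {v : AbsoluteValue k ℝ}

/-- The quotient. `S` is a seminorm that dominates the weighted coefficients below `κ`. -/
theorem one_quot (hv : Adm v) {t : τ → ℝ} (ht : ∀ s, 0 ≤ t s) {κ : τ →₀ ℕ}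
    {Q R : Polynomial (MvPowerSeries τ k)} {n e d : ℕ} (hP : (R ^ d * Q).natDegree ≤ n)
    (hQ : Q.natDegree ≤ n) (hR : R.natDegree ≤ e) {M Y : ℝ}
    (hM : ∀ i, serN (absSN v) t κ ((R ^ d * Q).coeff i) ≤ M)
    (hx : ∀ i, serN (absSN v) t κ (C (constantCoeff (R.coeff i)) - R.coeff i) ≤
      E (IsNonarchimedean v) 2 ^ (2 * e) * Y)
    (hy : ∀ i, v (constantCoeff (R.coeff i)) ≤ Y) {j : ℕ} (hj : v (constantCoeff (R.coeff j)) = Y)
    (hY : 0 < Y) {μ : τ →₀ ℕ} (hμ : μ ≤ κ) (i : ℕ) :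
    v (coeff μ (Q.coeff i)) * wt t μ * Y ^ d ≤
      E (IsNonarchimedean v) 2 ^ (2 * n + (e + 1) * d + (5 * e + 2) * κ.degree) * M := by
  obtain ⟨S, hS⟩ := exists_serSN (absSN v) ht κ
  rw [← hS] at hM hx
  obtain ⟨N, hN⟩ : ∃ N, N = κ.degree := ⟨_, rfl⟩
  obtain ⟨ε, hε⟩ : ∃ ε, ε = E (IsNonarchimedean v) 2 := ⟨_, rfl⟩
  have e1 : 1 ≤ ε := hε ▸ one_le_E one_le_two
  have e0 : 0 ≤ ε := zero_le_one.trans e1
  have M0 : 0 ≤ M := (S.nonneg _).trans (hM 0)
  obtain ⟨y0, hy0⟩ : ∃ y0, y0 = R.map (constantCoeff (σ := τ) (R := k)) := ⟨_, rfl⟩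
  obtain ⟨y, hyy⟩ : ∃ y, y = y0.map (C (σ := τ) (R := k)) := ⟨_, rfl⟩
  have c0 : ∀ i, y0.coeff i = constantCoeff (R.coeff i) := fun i => by
    rw [hy0, Polynomial.coeff_map]
  have c1 : ∀ i, y.coeff i = C (constantCoeff (R.coeff i)) := fun i => by
    rw [hyy, Polynomial.coeff_map, c0]
  have d0 : y0.natDegree ≤ e := hy0 ▸ Polynomial.natDegree_map_le.trans hR
  have d1 : y.natDegree ≤ e := hyy ▸ Polynomial.natDegree_map_le.trans d0
  have d2 : (y - R).natDegree ≤ e := (Polynomial.natDegree_sub_le _ _).trans (max_le d1 hR)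
  have n1 : ∀ i, S.N (y.coeff i) ≤ E (IsNonarchimedean v) 2 ^ (2 * e) * Y := fun i => by
    rw [c1, hS, ← hε]
    exact ((serN_C _ ht _).trans (hy i)).trans (le_mul_of_one_le_left hY.le (one_le_pow₀ e1))
  have n2 : ∀ i, S.N ((y - R).coeff i) ≤ E (IsNonarchimedean v) 2 ^ (2 * e) * Y := fun i => by
    rw [Polynomial.coeff_sub, c1]
    exact hx i
  obtain ⟨G, hG⟩ : ∃ G, G = ∑ l ∈ range (N + 1),
    Polynomial.C (d.multichoose l : MvPowerSeries τ k) * (R ^ d * Q * (y - R) ^ l * y ^ (N - l)) :=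
      ⟨_, rfl⟩
  have g1 : ∀ i, S.N (G.coeff i) ≤ ε ^ N * (ε ^ (d + N) * (M * (ε ^ e * (ε ^ (2 * e) * Y)) ^ N)) :=
    fun i => by
    rw [hG, Polynomial.finsetSum_coeff, hε]
    have z0 : 0 ≤ M * (ε ^ e * (ε ^ (2 * e) * Y)) ^ N := by positivity
    rw [hε] at z0
    refine (S.sum_le_card _ (mul_nonneg (pow_nonneg on_two _) z0) fun l hl => ?_).trans
      (mul_le_mul_of_nonneg_right (by rw [card_range]; exact on_E N)
        (mul_nonneg (pow_nonneg on_two _) z0))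
    have hl' := Nat.lt_succ_iff.1 (mem_range.1 hl)
    rw [Polynomial.coeff_C_mul]
    refine S.mul_le ((S.natCast_le _).trans (E_le_pow le_rfl ?_)) ?_
    · exact_mod_cast (gl_multichoose d l).trans (Nat.pow_le_pow_right two_pos (by omega))
    · refine (on_pow S (on_pow S hM n2 d2 l) n1 d1 (N - l) i).trans_eq ?_
      rw [mul_assoc, ← pow_add, Nat.add_sub_cancel' hl']
  have g2 : G.natDegree ≤ n + e * N := by
    rw [hG]
    refine Polynomial.natDegree_sum_le_of_forall_le _ _ fun l hl => ?_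
    have hl' := Nat.lt_succ_iff.1 (mem_range.1 hl)
    refine (Polynomial.natDegree_C_mul_le _ _).trans (Polynomial.natDegree_mul_le.trans ?_)
    have a1 := Polynomial.natDegree_mul_le (p := R ^ d * Q) (q := (y - R) ^ l)
    have a2 := Polynomial.natDegree_pow_le_of_le l d2
    have a3 := Polynomial.natDegree_pow_le_of_le (N - l) d1
    have a4 : l * e + (N - l) * e = e * N := by
      rw [← add_mul, Nat.add_sub_cancel' hl', mul_comm]
    omega
  have g3 : cfm μ Q * y0 ^ (N + d) = cfm μ G := by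
    obtain ⟨c, hc⟩ := gl_inv (y - R) y d N
    have a1 : G = Q * (y0 ^ (N + d)).map C + (y - R) ^ (N + 1) * (c * Q) := by
      rw [Polynomial.map_pow, ← hyy, hG]
      rw [sub_sub_cancel] at hc
      have a2 : ∑ l ∈ range (N + 1), Polynomial.C (d.multichoose l : MvPowerSeries τ k) *
          (R ^ d * Q * (y - R) ^ l * y ^ (N - l)) = Q * (R ^ d * ∑ l ∈ range (N + 1),
            (d.multichoose l : Polynomial (MvPowerSeries τ k)) * (y - R) ^ l * y ^ (N - l)) := by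
        rw [mul_sum, mul_sum]
        exact sum_congr rfl fun l _ => by rw [map_natCast]; ring
      rw [a2]
      linear_combination Q * hc
    have a3 : Ord 1 (y - R) := fun i ν hν => by
      rw [(Finsupp.degree_eq_zero_iff ν).1 (Nat.lt_one_iff.1 hν), Polynomial.coeff_sub, c1, map_sub,
        coeff_zero_C, coeff_zero_eq_constantCoeff_apply, sub_self]
    have a4 : Ord (N + 1 + 0) ((y - R) ^ (N + 1) * (c * Q)) :=
      (a3.pow _).mul fun _ _ h => absurd h (Nat.not_lt_zero _)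
    have a5 : μ.degree ≤ N := by
      obtain ⟨ν, rfl⟩ := exists_add_of_le hμ
      rw [hN, map_add]
      exact le_self_add
    rw [← cfm_mul]
    ext i
    rw [coeff_cfm, coeff_cfm, a1, Polynomial.coeff_add, map_add, a4 i μ (by omega), add_zero]
  have w0 := wt_nonneg ht μ
  rcases w0.eq_or_lt with w1 | w1
  · rw [← w1, mul_zero, zero_mul]
    exact mul_nonneg (pow_nonneg on_two _) M0
  have g4 := gl_div hv g3 ((natDegree_cfm μ Q).trans hQ) d0 ((natDegree_cfm μ G).trans g2)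
    (M := ε ^ N * (ε ^ (d + N) * (M * (ε ^ e * (ε ^ (2 * e) * Y)) ^ N)) / wt t μ) (by positivity)
    (fun i => by
      rw [le_div_iff₀ w1, coeff_cfm]
      exact (coeff_le_serN (absSN v) ht _ hμ).trans (hS ▸ g1 i)) i j
  rw [coeff_cfm, c0, hj, ← hε, ← mul_div_assoc, le_div_iff₀ w1] at g4
  rw [← hε, ← hN]
  refine le_of_mul_le_mul_right (le_of_eq_of_le ?_ (g4.trans_eq ?_)) (pow_pos hY N)
  · ring
  · ring

/-- One block, in the variable `T`. -/
theorem one_T (hv : Adm v) {t : τ → ℝ} (ht : ∀ s, 0 ≤ t s) {κ : τ →₀ ℕ}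
    {P R : Polynomial (MvPowerSeries τ k)} {n e d : ℕ} (hP : P.natDegree ≤ n)
    (hR : R.natDegree ≤ e) (hd : R ^ d ∣ P) (h1 : R.coeff 0 = 0) {W M γ : ℝ}
    (hW : ∀ i, serN (absSN v) t κ (R.coeff i) ≤ W) (M0 : 0 ≤ M)
    (hM : ∀ i, ∀ a ≤ κ, v (coeff a (P.coeff i)) * wt (fun s => γ * t s) a ≤ M) (g0 : 0 ≤ γ)
    (g1 : γ ≤ 1) (hθ : constantCoeff (R.coeff 1) ≠ 0)
    (hg : γ * W ≤ v (constantCoeff (R.coeff 1))) (j : ℕ) {α : τ →₀ ℕ} (hα : α ≤ κ) :
    v (coeff α (P.coeff d)) * wt (fun s => γ * t s) α * v (constantCoeff (R.coeff j)) ^ d ≤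
      E (IsNonarchimedean v) 2 ^ ((5 * e + 4) * (n + d + κ.degree)) * M *
        v (constantCoeff (R.coeff 1)) ^ d := by
  obtain ⟨Q, rfl⟩ := hd
  have ht' : ∀ s, 0 ≤ γ * t s := fun s => mul_nonneg g0 (ht s)
  obtain ⟨S, hS⟩ := exists_serSN (absSN v) ht' κ
  obtain ⟨ε, hε⟩ : ∃ ε, ε = E (IsNonarchimedean v) 2 := ⟨_, rfl⟩
  have e1 : 1 ≤ ε := hε ▸ one_le_E one_le_two
  have e0 : 0 ≤ ε := zero_le_one.trans e1
  obtain ⟨θ, hθ'⟩ : ∃ θ, θ = v (constantCoeff (R.coeff 1)) := ⟨_, rfl⟩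
  have t0 : 0 < θ := hθ' ▸ v.pos hθ
  have hR0 : R ≠ 0 := fun h => hθ (by simp [h])
  have hQ : Q.natDegree ≤ n := by
    by_cases h : Q = 0
    · simp [h]
    · rw [Polynomial.natDegree_mul (pow_ne_zero d hR0) h] at hP
      omega
  obtain ⟨j₀, -, hj₀⟩ := exists_max_image (range (e + 1))
    (fun i => v (constantCoeff (R.coeff i))) ⟨0, by simp⟩
  obtain ⟨Y, hY⟩ : ∃ Y, Y = v (constantCoeff (R.coeff j₀)) := ⟨_, rfl⟩
  have hy : ∀ i, v (constantCoeff (R.coeff i)) ≤ Y := fun i => by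
    by_cases h : i ≤ e
    · exact hY ▸ hj₀ i (mem_range.2 (Nat.lt_succ_of_le h))
    · rw [Polynomial.coeff_eq_zero_of_natDegree_lt (by omega), map_zero, map_zero, hY]
      exact v.nonneg _
  have Y0 : 0 < Y := t0.trans_le (hθ' ▸ hy 1)
  have t1 : θ ≤ ε ^ (2 * e) * Y :=
    (hθ' ▸ hy 1 : θ ≤ Y).trans (le_mul_of_one_le_left Y0.le (one_le_pow₀ e1))
  have x1 : ∀ i, S.N (C (constantCoeff (R.coeff i)) - R.coeff i) ≤ θ := fun i => by
    rw [hS]
    exact (on_shrink _ ht g0 g1 _).trans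
      ((mul_le_mul_of_nonneg_right (hW i) g0).trans ((mul_comm _ _).trans_le (hθ' ▸ hg)))
  have m1 : ∀ i, serN (absSN v) (fun s => γ * t s) κ ((R ^ d * Q).coeff i) ≤ ε ^ κ.degree * M :=
    fun i => hε ▸ on_card _ M0 (hM i)
  have q1 := fun (μ : τ →₀ ℕ) (hμ : μ ≤ κ) => one_quot hv ht' hP hQ hR m1
    (fun i => (hS ▸ x1 i : serN (absSN v) (fun s => γ * t s) κ _ ≤ θ).trans (hε ▸ t1)) hy hY.symm
      Y0 hμ
  have yd := pow_pos Y0 d
  have q2 : S.N (Q.coeff 0) ≤ ε ^ κ.degree *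
      (ε ^ (2 * n + (e + 1) * d + (5 * e + 2) * κ.degree) * (ε ^ κ.degree * M) / Y ^ d) := by
    rw [hS]
    refine (on_card _ (M := ε ^ (2 * n + (e + 1) * d + (5 * e + 2) * κ.degree) *
      (ε ^ κ.degree * M) / Y ^ d) (by positivity) fun μ hμ => ?_).trans_eq (by rw [← hε])
    rw [le_div_iff₀ yd]
    exact (q1 μ hμ 0).trans_eq (by rw [← hε])
  have t2 : S.N (R.coeff 1) ≤ ε * θ := by
    have a3 : S.N (C (constantCoeff (R.coeff 1))) ≤ θ := by
      rw [hS]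
      exact (serN_C _ ht' _).trans hθ'.symm.le
    have a4 := S.sub_le (s := 1) (t := 1) (a3.trans_eq (by rw [E_one, one_mul]))
      ((x1 1).trans_eq (by rw [E_one, one_mul]))
    rwa [sub_sub_cancel, one_add_one_eq_two, ← hε] at a4
  have f0 : (R ^ d * Q).coeff d = R.coeff 1 ^ d * Q.coeff 0 := by
    obtain ⟨R1, h2⟩ := Polynomial.X_dvd_iff.2 h1
    have h3 := Polynomial.coeff_X_pow_mul (R1 ^ d * Q) d 0
    rw [zero_add] at h3
    rw [h2, mul_pow, mul_assoc, h3, Polynomial.coeff_X_mul, Polynomial.mul_coeff_zero,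
      Polynomial.coeff_zero_eq_eval_zero, Polynomial.coeff_zero_eq_eval_zero R1, Polynomial.eval_pow]
  have f1 := S.mul_le (S.pow_le t2 d) q2
  rw [← f0, hS] at f1
  have f2 := (coeff_le_serN (absSN v) ht' _ hα).trans f1
  rw [← hε, ← hθ']
  refine (mul_le_mul f2 (pow_le_pow_left₀ (v.nonneg _) (hy j) d) (pow_nonneg (v.nonneg _) d)
    (by positivity)).trans ?_
  have f3 : (ε * θ) ^ d * (ε ^ κ.degree *
      (ε ^ (2 * n + (e + 1) * d + (5 * e + 2) * κ.degree) * (ε ^ κ.degree * M) / Y ^ d)) * Y ^ d =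
      ε ^ (2 * n + (e + 2) * d + (5 * e + 4) * κ.degree) * M * θ ^ d := by
    field_simp
    ring
  rw [f3]
  refine mul_le_mul_of_nonneg_right (mul_le_mul_of_nonneg_right (pow_le_pow_right₀ e1 ?_) M0)
    (pow_nonneg t0.le d)
  nlinarith [Nat.zero_le (e * n), Nat.zero_le (e * d)]

end Pool.Agent.Lib.MP_651af7_nt.Jn
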