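import Pool.Agent.Lib.MP_651af7_nt.Av.ENrm

/-! Coefficients of polynomials in one variable over a ring with a seminorm. -/

namespace Pool.Agent.Lib.MP_651af7_nt.Jn

open Finset
open Pool.Agent.Lib.MP_651af7_nt.Av

section sn

variable {A : Type} [CommRing A] {na : Prop} (S : SN A na)

theorem on_E (n : ℕ) : E na ((n + 1 : ℕ) : ℝ) ≤ E na 2 ^ n :=
  E_le_pow le_rfl (by exact_mod_cast Nat.lt_two_pow_self)

theorem on_two : 0 ≤ E na 2 := E_nonneg zero_le_two

theorem on_sum {f : ℕ → A} {m : ℝ} {b : ℕ} (h : ∀ j, S.N (f j) ≤ m) :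
    S.N (∑ j ∈ range (b + 1), f j) ≤ E na 2 ^ b * m := by
  have m0 : 0 ≤ m := (S.nonneg _).trans (h 0)
  refine (S.sum_le_card _ m0 fun j _ => h j).trans (mul_le_mul_of_nonneg_right ?_ m0)
  rw [card_range]
  exact on_E b

theorem on_mul {p q : Polynomial A} {m m' : ℝ} {b : ℕ} (hp : ∀ i, S.N (p.coeff i) ≤ m)
    (hq : ∀ i, S.N (q.coeff i) ≤ m') (hb : q.natDegree ≤ b) (i : ℕ) :
    S.N ((p * q).coeff i) ≤ E na 2 ^ b * (m * m') := by
  have m0 : 0 ≤ m * m' := mul_nonneg ((S.nonneg _).trans (hp 0)) ((S.nonneg _).trans (hq 0))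
  rw [q.as_sum_range' _ (Nat.lt_succ_of_le hb), mul_sum, Polynomial.finsetSum_coeff]
  refine on_sum S fun j => ?_
  rw [← Polynomial.C_mul_X_pow_eq_monomial, ← mul_assoc, Polynomial.coeff_mul_X_pow']
  split_ifs
  · rw [Polynomial.coeff_mul_C]
    exact S.mul_le (hp _) (hq _)
  · rwa [S.zero]

theorem on_pow {p q : Polynomial A} {m m' : ℝ} {b : ℕ} (hp : ∀ i, S.N (p.coeff i) ≤ m)
    (hq : ∀ i, S.N (q.coeff i) ≤ m') (hb : q.natDegree ≤ b) (n i : ℕ) :
    S.N ((p * q ^ n).coeff i) ≤ m * (E na 2 ^ b * m') ^ n := by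
  induction n generalizing i with
  | zero => simpa using hp i
  | succ n ih =>
    rw [pow_succ, ← mul_assoc]
    exact (on_mul S ih hq hb i).trans_eq (by ring)

theorem on_eval {p : Polynomial A} {m : ℝ} {b : ℕ} (hp : ∀ i, S.N (p.coeff i) ≤ m)
    (hb : p.natDegree ≤ b) : S.N (p.eval 1) ≤ E na 2 ^ b * m := by
  rw [Polynomial.eval_eq_sum_range' (Nat.lt_succ_of_le hb)]
  exact on_sum S fun j => by simpa using hp j

theorem on_der {p : Polynomial A} {m : ℝ} {b : ℕ} (hp : ∀ i, S.N (p.coeff i) ≤ m)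
    (hb : p.natDegree ≤ b) : S.N (p.derivative.eval 1) ≤ E na 2 ^ (2 * b) * m := by
  have m0 : 0 ≤ m := (S.nonneg _).trans (hp 0)
  have e1 : (1 : ℝ) ≤ E na 2 := one_le_E one_le_two
  refine (on_eval S (m := E na 2 ^ b * m) (fun i => ?_)
    ((Polynomial.natDegree_derivative_le p).trans ((Nat.sub_le _ _).trans hb))).trans_eq
      (by rw [two_mul, pow_add, mul_assoc])
  rw [Polynomial.coeff_derivative]
  by_cases h : i ≤ b
  · rw [mul_comm (E na 2 ^ b)]
    refine S.mul_le (hp _) ?_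
    rw [← Nat.cast_succ]
    exact (S.natCast_le _).trans ((on_E i).trans (pow_le_pow_right₀ e1 h))
  · rw [Polynomial.coeff_eq_zero_of_natDegree_lt (by omega), zero_mul, S.zero]
    exact mul_nonneg (pow_nonneg on_two _) m0

/-- The coefficient of the first power of `T = Z - 1` that occurs in a multiple of `R ^ d`. -/
theorem on_taylor {R Q : Polynomial A} (h1 : R.eval 1 = 0) (d : ℕ) :
    (Polynomial.taylor 1 (R ^ d * Q)).coeff d = R.derivative.eval 1 ^ d * Q.eval 1 := by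
  obtain ⟨R1, hR⟩ : Polynomial.X ∣ Polynomial.taylor 1 R := by
    rw [Polynomial.X_dvd_iff, Polynomial.taylor_coeff_zero, h1]
  have h2 : R1.coeff 0 = R.derivative.eval 1 := by
    rw [← Polynomial.taylor_coeff_one, hR, Polynomial.coeff_X_mul]
  have h3 := Polynomial.coeff_X_pow_mul (R1 ^ d * Polynomial.taylor 1 Q) d 0
  rw [zero_add] at h3
  rw [Polynomial.taylor_mul, Polynomial.taylor_pow, hR, mul_pow, mul_assoc, h3,
    Polynomial.mul_coeff_zero, Polynomial.taylor_coeff_zero, ← h2,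
    Polynomial.coeff_zero_eq_eval_zero, Polynomial.coeff_zero_eq_eval_zero, Polynomial.eval_pow]

/-- Divisibility descends if the leading coefficient is a unit. -/
theorem dvd_of_field {L : Type} [CommRing L] (f : A →+* L) (hf : Function.Injective f)
    {R P : Polynomial A} (hu : IsUnit R.leadingCoeff) {d : ℕ} (h : R.map f ^ d ∣ P.map f) :
    R ^ d ∣ P := by
  obtain ⟨u, hu⟩ := hu
  have hm : (Polynomial.C (↑u⁻¹ : A) * R).Monic :=
    Polynomial.monic_C_mul_of_mul_leadingCoeff_eq_one (by rw [← hu, Units.inv_mul])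
  have h1 : ((Polynomial.C (↑u⁻¹ : A) * R) ^ d).map f ∣ P.map f := by
    rw [Polynomial.map_pow, Polynomial.map_mul, Polynomial.map_C, mul_pow]
    exact (IsUnit.mul_left_dvd ((Polynomial.isUnit_C.2 ((Units.isUnit u⁻¹).map f)).pow d)).2 h
  exact (pow_dvd_pow_of_dvd (dvd_mul_left _ _) d).trans
    ((Polynomial.map_dvd_map f hf (hm.pow d)).1 h1)

end sn

section ser

open MvPowerSeries

variable {A τ : Type} [CommRing A] {na : Prop} (S : SN A na) {t : τ → ℝ} {κ : τ →₀ ℕ}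

theorem on_wt (γ : ℝ) (t : τ → ℝ) (μ : τ →₀ ℕ) :
    wt (fun s => γ * t s) μ = γ ^ μ.degree * wt t μ := by
  rw [← wt_const]
  simp only [wt, Finsupp.prod, mul_pow, prod_mul_distrib]

theorem on_shrink (ht : ∀ s, 0 ≤ t s) {γ : ℝ} (g0 : 0 ≤ γ) (g1 : γ ≤ 1) (f : MvPowerSeries τ A) :
    serN S (fun s => γ * t s) κ (C (constantCoeff f) - f) ≤ serN S t κ f * γ := by
  classical
  have h0 : ∀ μ, 0 ≤ S.N (coeff μ f) * wt t μ := fun μ =>
    mul_nonneg (S.nonneg _) (wt_nonneg ht μ)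
  refine enrm_mul g0 (fun μ _ => h0 μ) fun μ _ => ?_
  by_cases h : μ = 0
  · subst h
    rw [map_sub, coeff_zero_C, coeff_zero_eq_constantCoeff_apply, sub_self, S.zero, zero_mul]
    exact mul_nonneg (h0 0) g0
  · rw [map_sub, coeff_C, if_neg h, zero_sub, S.neg, on_wt, mul_left_comm, mul_comm]
    exact mul_le_mul_of_nonneg_left
      (pow_le_of_le_one g0 g1 fun h' => h ((Finsupp.degree_eq_zero_iff μ).1 h')) (h0 μ)

theorem on_card {f : MvPowerSeries τ A} {M : ℝ} (hM : 0 ≤ M)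
    (h : ∀ μ ≤ κ, S.N (coeff μ f) * wt t μ ≤ M) : serN S t κ f ≤ E na 2 ^ κ.degree * M := by
  classical
  refine (agg_le_card hM fun μ hμ => h μ (mem_Iic.1 hμ)).trans
    (mul_le_mul_of_nonneg_right (E_le_pow le_rfl ?_) hM)
  rw [Finsupp.card_Iic, Finsupp.degree_apply, ← prod_pow_eq_pow_sum, Nat.cast_prod]
  refine prod_le_prod (fun _ _ => Nat.cast_nonneg _) fun i _ => ?_
  rw [Nat.card_Iic]
  exact_mod_cast Nat.lt_two_pow_self

/-- All coefficients vanish to order `m`. -/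
def Ord (m : ℕ) (p : Polynomial (MvPowerSeries τ A)) : Prop :=
  ∀ i (μ : τ →₀ ℕ), μ.degree < m → coeff μ (p.coeff i) = 0

theorem Ord.mul {a b : ℕ} {p q : Polynomial (MvPowerSeries τ A)} (hp : Ord a p) (hq : Ord b q) :
    Ord (a + b) (p * q) := fun i μ hμ => by
  classical
  rw [Polynomial.coeff_mul, map_sum]
  refine sum_eq_zero fun x _ => ?_
  rw [coeff_mul]
  refine sum_eq_zero fun y hy => ?_
  rw [← mem_antidiagonal.1 hy, map_add] at hμ
  by_cases h : y.1.degree < a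
  · rw [hp _ _ h, zero_mul]
  · rw [hq _ _ (by omega), mul_zero]

theorem Ord.pow {p : Polynomial (MvPowerSeries τ A)} (hp : Ord 1 p) (n : ℕ) : Ord n (p ^ n) := by
  induction n with
  | zero => exact fun _ _ h => absurd h (Nat.not_lt_zero _)
  | succ n ih => exact pow_succ p n ▸ ih.mul hp

/-- The coefficient of `ξ ^ μ` as a polynomial in `Z`. -/
noncomputable def cfm (μ : τ →₀ ℕ) (p : Polynomial (MvPowerSeries τ A)) : Polynomial A :=
  p.sum fun i a => Polynomial.monomial i (coeff μ a)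

theorem coeff_cfm (μ : τ →₀ ℕ) (p : Polynomial (MvPowerSeries τ A)) (i : ℕ) :
    (cfm μ p).coeff i = coeff μ (p.coeff i) := by
  rw [cfm, Polynomial.coeff_sum, Polynomial.sum, sum_eq_single i]
  · simp
  · intro j _ h
    rw [Polynomial.coeff_monomial, if_neg h]
  · intro h
    simp [Polynomial.notMem_support_iff.1 h]

theorem natDegree_cfm (μ : τ →₀ ℕ) (p : Polynomial (MvPowerSeries τ A)) :
    (cfm μ p).natDegree ≤ p.natDegree :=
  Polynomial.natDegree_le_iff_coeff_eq_zero.2 fun i hi => by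
    rw [coeff_cfm, Polynomial.coeff_eq_zero_of_natDegree_lt hi, map_zero]

theorem cfm_mul (μ : τ →₀ ℕ) (p : Polynomial (MvPowerSeries τ A)) (y : Polynomial A) :
    cfm μ (p * y.map C) = cfm μ p * y := by
  ext i
  simp only [coeff_cfm, Polynomial.coeff_mul, map_sum, Polynomial.coeff_map, coeff_mul_C]

end ser

end Pool.Agent.Lib.MP_651af7_nt.Jn
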