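import Pool.Agent.Lib.MP_651af7_nt.Jn.One
import Pool.Agent.Lib.MP_651af7_nt.Jn.Ten
import Pool.Agent.Lib.MP_651af7_nt.Cn.EFrame
import Pool.Agent.Lib.MP_651af7_nt.Cn.ELoc

/-! One block: division by the equation of the fibre. -/

namespace Pool.Agent.Lib.MP_651af7_nt.Jn

open MvPolynomial Finset
open Pool.Agent.Lib.MP_651af7_nt.Av

section rr

variable {k κ R R' : Type} [Field k] [CommRing R] [Algebra k R] [CommRing R'] [Algebra k R'] {e : ℕ}

theorem one_coeff (ρ : Fin (e + 2) → MvPolynomial κ k) (w : κ → R) (l : Fin (e + 2)) :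
    (rr ρ w).coeff l = aeval w (ρ l) := by
  rw [rr, Polynomial.finsetSum_coeff, sum_eq_single l]
  · rw [Polynomial.coeff_C_mul_X_pow, if_pos rfl]
  · intro j _ h
    rw [Polynomial.coeff_C_mul_X_pow, if_neg fun h' => h (Fin.ext h').symm]
  · exact fun h => absurd (mem_univ l) h

theorem one_deg (ρ : Fin (e + 2) → MvPolynomial κ k) (w : κ → R) : (rr ρ w).natDegree ≤ e + 1 :=
  Polynomial.natDegree_sum_le_of_forall_le _ _ fun l _ =>
    (Polynomial.natDegree_C_mul_X_pow_le _ _).trans l.is_le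

theorem one_map_rr (f : R →ₐ[k] R') (ρ : Fin (e + 2) → MvPolynomial κ k) (w : κ → R) :
    (rr ρ w).map f = rr ρ fun c => f (w c) := by
  simp only [rr, Polynomial.map_sum, Polynomial.map_mul, Polynomial.map_C, Polynomial.map_pow,
    Polynomial.map_X, RingHom.coe_coe, ← comp_aeval, AlgHom.comp_apply]

theorem one_map_hat {ι₁ ι₂ : Type} (f : R →ₐ[k] R') (w : ι₁ ⊕ ι₂ → R)
    (P : MvPolynomial (ι₁ ⊕ ι₂) k) : (hat w P).map f = hat (fun c => f (w c)) P := by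
  have h := AlgHom.comp_apply (Polynomial.mapAlgHom f) (aeval (Sum.elim
    (fun a => (1 + Polynomial.X) * Polynomial.C (w (.inl a))) fun b => Polynomial.C (w (.inr b)))) P
  rw [comp_aeval] at h
  refine h.symm.trans (congrArg (fun y => aeval y P) (funext fun c => ?_))
  cases c <;> simp

end rr

variable {k ι₁ ι₂ : Type} [Field k] [NumberField k] [Fintype ι₁] [Fintype ι₂] {A₁ : AV k ι₁}
  {A₂ : AV k ι₂} {g e d r : ℕ}

/-- Divisibility descends from the field of fractions. -/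
theorem one_dvd {Y : Fix A₁ A₂ g e d r} {b : Blk A₁ A₂ g} (hb : b.Geom Y)
    {ξ : ι₁ ⊕ ι₂ → MvPowerSeries (Fin g) k} (hξ : b.C.Br b.w ξ) (P : MvPolynomial (ι₁ ⊕ ι₂) k)
    (N : ℕ) (h : Polynomial.X ^ N ∣ hat ξ P) : rr Y.ρ ξ ^ N ∣ hat ξ P := by
  classical
  obtain ⟨F, _, _, f, hf⟩ : ∃ (F : Type) (_ : Field F) (_ : Algebra k F)
      (f : MvPowerSeries (Fin g) k →ₐ[k] F), Function.Injective f :=
    ⟨FractionRing (MvPowerSeries (Fin g) k), inferInstance, inferInstance,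
      IsScalarTower.toAlgHom _ _ _, IsFractionRing.injective _ _⟩
  have u1 : IsUnit ((rr Y.ρ ξ).coeff (e + 1)) := by
    rw [← Fin.val_last (e + 1), one_coeff, MvPowerSeries.isUnit_iff_constantCoeff,
      env_const hξ.const, aeval_eq_eval]
    exact hb.lead.isUnit
  have u2 : IsUnit (rr Y.ρ ξ).leadingCoeff := by
    rwa [Polynomial.leadingCoeff,
      Polynomial.natDegree_eq_of_le_of_coeff_ne_zero (one_deg _ _) u1.ne_zero]
  refine dvd_of_field (f : MvPowerSeries (Fin g) k →+* F) hf u2 ?_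
  rw [one_map_rr, one_map_hat]
  have i1 : AlgebraicIndependent k fun s => ξ (b.C.I s) := by
    refine jac_indep' ?_
    have e : (fun s t : Fin g => MvPowerSeries.coeff (Finsupp.single t 1) (ξ (b.C.I s))) =
        fun s => Pi.single s (1 : k) := by
      funext s t
      rw [hξ.coord, map_add, MvPowerSeries.coeff_C, if_neg (by simp), zero_add,
        MvPowerSeries.coeff_X, Pi.single_apply]
      exact if_congr (Finsupp.single_left_inj one_ne_zero) rfl rfl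
    rw [e]
    exact Pi.linearIndependent_single_one _ _
  have i2 : Gn k g fun c => f (ξ c) := by
    refine ⟨?_, b.C.I, i1.map' hf⟩
    obtain ⟨c, hc⟩ := hb.a₀
    have h1 := hξ.eqn b.C.a₀ fun ⟨j, hj⟩ => b.C.ne j hj
    rw [b.C.φ₀, map_sub, aeval_X, map_one, hc] at h1
    exact ⟨c, (congrArg f (sub_eq_zero.1 h1)).trans (map_one f)⟩
  refine Y.div F (fun c => f (ξ c)) (fun p hp => ?_) i2 P N ?_
  · rw [← comp_aeval, AlgHom.comp_apply, hξ.mem hb.on p hp, map_zero]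
  · rw [← one_map_hat]
    simpa using Polynomial.map_dvd (f : MvPowerSeries (Fin g) k →+* F) h

/-- The estimate for one block. -/
theorem one_le (Y : Fix A₁ A₂ g e d r) : ∃ (s : AbsoluteValue k ℝ → ℝ) (C : ℝ) (D : ℕ), Ad s C ∧
    (∀ v : AbsoluteValue k ℝ, E (IsNonarchimedean v) 2 ≤ s v) ∧
    (∀ b : Blk A₁ A₂ g, b.Geom Y → Height.logHeight₁ (eval b.w (Y.ρ 1)) ≤ C + D * b.H) ∧
    ∀ v, Adm v → ∀ (b : Blk A₁ A₂ g) (ξ : ι₁ ⊕ ι₂ → MvPowerSeries (Fin g) k), b.Geom Y →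
      b.C.Br b.w ξ → ∀ q lam t : ℝ, 1 ≤ q → (∀ a, Geo v q (ξ a)) → 0 < lam → lam < 1 →
      t = lam / (q * s v * nm v b.w ^ D * max 1 (v (eval b.w (Y.ρ 1))⁻¹)) →
      ∀ (P : MvPolynomial (ι₁ ⊕ ι₂) k) (M : ℕ) (γ : Fin (g + 1) →₀ ℕ) (Λ : ℝ), 0 ≤ Λ →
      (∀ μ ∈ P.support, ∑ a, μ (.inl a) ≤ M) →
      (∀ β : Fin (g + 1) →₀ ℕ, β 0 < γ 0 → MvPowerSeries.coeff β (aeval (ext ξ) P) = 0) →
      (∀ β : Fin (g + 1) →₀ ℕ, β 0 ≤ M → β.tail ≤ γ.tail →
        v (MvPowerSeries.coeff β (aeval (ext ξ) P)) * t ^ β.tail.degree ≤ Λ) →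
      v (MvPowerSeries.coeff γ (aeval (ext ξ) P)) * t ^ γ.tail.degree ≤
        s v ^ (M + γ.tail.degree) *
          (v (eval b.w (Y.ρ 1)) / nm v fun l => eval b.w (Y.ρ l)) ^ γ 0 * Λ := by
  choose c h hc hc' using fun l => exists_ad_fixed (Y.ρ l)
  obtain ⟨s₁, hs₁, hs₁'⟩ := esize_fam hc
  obtain ⟨D, hD⟩ : ∃ D, ∀ l, (Y.ρ l).totalDegree ≤ D :=
    ⟨univ.sup fun l => (Y.ρ l).totalDegree, fun l => le_sup (f := fun l => (Y.ρ l).totalDegree)
      (mem_univ l)⟩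
  obtain ⟨K, hK⟩ : ∃ K, K = D + 2 * (5 * (e + 1) + 4) := ⟨_, rfl⟩
  have a0 := hs₁.mul ((ad_E (k := k) one_le_two).pow K)
  have e1 : ∀ v : AbsoluteValue k ℝ, 1 ≤ E (IsNonarchimedean v) 2 := fun v => one_le_E one_le_two
  have a1 : ∀ (v : AbsoluteValue k ℝ) j, j ≤ K →
      s₁ v * E (IsNonarchimedean v) 2 ^ j ≤ s₁ v * E (IsNonarchimedean v) 2 ^ K := fun v j hj =>
    mul_le_mul_of_nonneg_left (pow_le_pow_right₀ (e1 v) hj) (hs₁.pos v).le
  have a2 : ∀ (v : AbsoluteValue k ℝ) j, j ≤ K →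
      E (IsNonarchimedean v) 2 ^ j ≤ s₁ v * E (IsNonarchimedean v) 2 ^ K := fun v j hj =>
    (le_mul_of_one_le_left (pow_nonneg on_two _) (hs₁.one v)).trans (a1 v j hj)
  refine ⟨_, _, D, a0, fun v => (pow_one _).ge.trans (a2 v 1 (by omega)), fun b hb => ?_, ?_⟩
  · refine (a0.mul ((ad_nm hb.atx.one).pow D)).logHeight₁_le fun v _ => ?_
    have n1 := (ad_nm hb.atx.one).one v
    rw [← aeval_eq_eval]
    refine ((absSN_ov v).aeval_le' (hD 1) n1 (le_nm v b.w)).trans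
      (mul_le_mul_of_nonneg_right (((hc' 1 v).trans (hs₁' 1 v)).trans ?_) (by positivity))
    exact le_mul_of_one_le_right (hs₁.pos v).le (one_le_pow₀ (e1 v))
  intro v hv b ξ hb hξ q lam t q1 hq l0 l1 ht P M γ Λ hΛ hM hz hP
  obtain ⟨s, hs⟩ : ∃ s, s = s₁ v * E (IsNonarchimedean v) 2 ^ K := ⟨_, rfl⟩
  have s1 : 1 ≤ s := hs ▸ a0.one v
  have n1 : 1 ≤ nm v b.w := (ad_nm hb.atx.one).one v
  have q0 : 0 < q := one_pos.trans_le q1
  have t0 := v.pos hb.sep
  have y0 : 0 < nm v fun l => eval b.w (Y.ρ l) := t0.trans_le (le_nm v (fun l => eval b.w (Y.ρ l)) 1)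
  rw [← hs] at ht ⊢
  rw [← Finsupp.cons_tail γ, coeff_ext, Finsupp.cons_tail]
  have d1 := hat_natDegree ξ hM
  by_cases hN : M < γ 0
  · rw [Polynomial.coeff_eq_zero_of_natDegree_lt (d1.trans_lt hN), map_zero, map_zero, zero_mul]
    positivity
  obtain ⟨m, hm⟩ : ∃ m, m = max 1 (v (eval b.w (Y.ρ 1))⁻¹) := ⟨_, rfl⟩
  have m1 : 1 ≤ m := hm ▸ le_max_left _ _
  have m2 : 1 ≤ v (eval b.w (Y.ρ 1)) * m := by
    rw [← mul_inv_cancel₀ t0.ne', ← map_inv₀, hm]
    exact mul_le_mul_of_nonneg_left (le_max_right _ _) t0.le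
  obtain ⟨W, hW⟩ : ∃ W, W = s * nm v b.w ^ D := ⟨_, rfl⟩
  have W1 : 1 ≤ W := hW ▸ one_le_mul_of_one_le_of_one_le s1 (one_le_pow₀ n1)
  have t1 : (fun _ : Fin g => lam / (W * m) * q⁻¹) = fun _ => t := funext fun _ => by
    rw [ht, ← hm, hW]
    field_simp
  have i0 : ∀ _ : Fin g, 0 ≤ q⁻¹ := fun _ => inv_nonneg.2 q0.le
  obtain ⟨S, hS⟩ := exists_serSN (absSN v) i0 γ.tail
  have o1 : S.Ov v := (absSN_ov v).ser i0 hS
  have c1 : ∀ l : Fin (e + 2), MvPowerSeries.constantCoeff ((rr Y.ρ ξ).coeff l) =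
      eval b.w (Y.ρ l) := fun l => by rw [one_coeff, env_const hξ.const, aeval_eq_eval]
  have c2 : MvPowerSeries.constantCoeff ((rr Y.ρ ξ).coeff 1) = eval b.w (Y.ρ 1) := c1 1
  obtain ⟨j, hj⟩ := exists_nm v fun l => eval b.w (Y.ρ l)
  have key := one_T hv i0 d1 (one_deg Y.ρ ξ) (d := γ 0) (κ := γ.tail) (one_dvd hb hξ P _
    (Polynomial.X_pow_dvd_iff.2 fun i hi => MvPowerSeries.ext fun α => by
      rw [← coeff_ext, hz _ (by rwa [Finsupp.cons_zero]), map_zero]))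
    ((one_coeff Y.ρ ξ 0).trans (hξ.mem hb.on _ Y.ρ₀)) (W := W) (γ := lam / (W * m)) (fun i => by
      rw [← hS]
      by_cases hi : i < e + 2
      · rw [show i = (⟨i, hi⟩ : Fin (e + 2)) from rfl, one_coeff]
        refine (o1.aeval_le' (hD _) (one_le_mul_of_one_le_of_one_le (e1 v) n1) fun a =>
          Cn.near_le o1 le_rfl (le_trans ?_ n1) (le_nm v b.w a)).trans ?_
        · have z := serN_rename_sub (absSN v) (Function.Embedding.refl _) i0 (κ := γ.tail) (ξ a)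
            q0.le zero_le_one le_rfl (hq a) fun _ => (inv_mul_cancel₀ q0.ne').le
          rw [hξ.const, ← hS] at z
          exact le_of_eq_of_le (congrArg (fun x => S.N (x - _))
            (MvPowerSeries.rename_id_apply _).symm) z
        · rw [hW, mul_pow, ← mul_assoc, hs]
          exact mul_le_mul_of_nonneg_right ((mul_le_mul_of_nonneg_right
            ((hc' _ v).trans (hs₁' _ v)) (pow_nonneg on_two _)).trans (a1 v D (by omega)))
            (by positivity)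
      · rw [Polynomial.coeff_eq_zero_of_natDegree_lt ((one_deg _ _).trans_lt (by omega)), S.zero]
        exact zero_le_one.trans W1) hΛ (fun i a ha => by
      rw [t1, wt_const]
      by_cases hi : i ≤ M
      · simpa only [coeff_ext, Finsupp.tail_cons] using hP (Finsupp.cons i a)
          (by rwa [Finsupp.cons_zero]) (by rwa [Finsupp.tail_cons])
      · rwa [Polynomial.coeff_eq_zero_of_natDegree_lt (by omega), map_zero, map_zero, zero_mul])
    (by positivity) ((div_le_one (by positivity)).2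
      (l1.le.trans (one_le_mul_of_one_le_of_one_le W1 m1))) (c2 ▸ hb.sep) (by
      rw [c2, div_mul_eq_mul_div, div_le_iff₀ (by positivity)]
      nlinarith [mul_le_mul_of_nonneg_left m2 (zero_le_one.trans W1)]) j (le_refl γ.tail)
  rw [t1, wt_const, c1, c2, hj] at key
  rw [div_pow, mul_right_comm, ← mul_div_assoc, le_div_iff₀ (pow_pos y0 _)]
  refine key.trans (mul_le_mul_of_nonneg_right (mul_le_mul_of_nonneg_right ?_ hΛ) (by positivity))
  refine le_trans ?_ (pow_le_pow_left₀ (pow_nonneg on_two _)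
    (hs ▸ a2 v (2 * (5 * (e + 1) + 4)) (by omega)) _)
  rw [← pow_mul]
  refine pow_le_pow_right₀ (e1 v) ?_
  rw [mul_comm 2, mul_assoc]
  exact Nat.mul_le_mul_left _ (by omega)

end Pool.Agent.Lib.MP_651af7_nt.Jn
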